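import Pool.Agent.TWC.StB
import Pool.Agent.ALT.Mo.JO

/-!
# TWC, module MTR: the assembly of part B
-/

set_option autoImplicit false

namespace Pool.TWC

open LaurentPolynomial Pool.Agent.ARB Pool.Agent.Helper2 Pool.ALT

theorem MTR_nX (v : Word) : ∀ u : Word, nX (u ++ v) = nX u + nX v
  | [] => by
      show nX v = 0 + nX v
      omega
  | ⟨.U, i⟩ :: u => MTR_nX v u
  | ⟨.N, i⟩ :: u => MTR_nX v u
  | ⟨.X p, i⟩ :: u => by
      have := MTR_nX v u
      show nX (u ++ v) + 1 = nX u + 1 + nX v
      omega

theorem MTR_wd (u : Word) : ∀ n m : ℕ, Ok u n m → m = wd n u := by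
  induction u with
  | nil => intro n m h; exact h.symm
  | cons s u ih => intro n m h; exact ih _ _ h.2

theorem MTR_fr_pos (ρ : Bool) (m g : ℕ) (h1 : 0 < g) (h2 : g < m) (h3 : decide (g % 2 = 0) = ρ) :
    1 ≤ fr ρ m := by
  unfold fr
  exact Finset.card_pos.2 ⟨g, Finset.mem_filter.2 ⟨Finset.mem_range.2 h2, h1, h3⟩⟩

theorem MTR_fr_le (ρ : Bool) (m : ℕ) (h : fr ρ m = 0) : m ≤ 2 := by
  by_contra hm
  cases ρ
  · have := MTR_fr_pos false m 1 (by omega) (by omega) (by decide)
    omega
  · have := MTR_fr_pos true m 2 (by omega) (by omega) (by decide)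
    omega

theorem MTR_gm (ρ : Bool) (m m' : ℕ) (h : m % 2 = m' % 2) : gm ρ m = gm ρ m' := by
  unfold gm
  rw [h]

theorem MTR_gm2 (m : ℕ) : gm true m + gm false m = 0 := by
  unfold gm
  split_ifs <;> simp_all

theorem MTR_filt {N : ℕ} (r : Bool) (S : Finset (Fin N)) :
    (Finset.univ.filter fun k : Fin N => st r S (k : ℕ) = r) = S := by
  ext k
  rw [Finset.mem_filter]
  have h : (∃ h : (k : ℕ) < N, (⟨k, h⟩ : Fin N) ∈ S) ↔ k ∈ S :=
    ⟨fun ⟨_, h⟩ => h, fun h => ⟨k.2, h⟩⟩
  unfold st
  by_cases hk : k ∈ S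
  · rw [if_pos (h.2 hk)]
    exact ⟨fun _ => hk, fun _ => ⟨Finset.mem_univ _, rfl⟩⟩
  · rw [if_neg (fun h' => hk (h.1 h'))]
    refine ⟨fun h' => ?_, fun h' => absurd h' hk⟩
    exact absurd h'.2 (by cases r <;> decide)

theorem MTR_filt0 {N : ℕ} (r : Bool) :
    (Finset.univ.filter fun k : Fin N => st r (∅ : Finset (Fin N)) (k : ℕ) = !r) = Finset.univ := by
  ext k
  rw [Finset.mem_filter]
  unfold st
  rw [if_neg (by rintro ⟨_, h⟩; exact absurd h (Finset.notMem_empty _))]
  simp

theorem MTR_Pr {B B' : ℕ → Bool} {u v : Word} {w l m : ℕ} (h : ∀ k < nX u + nX v, B k = B' k)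
    (hP : Pr B u v w l m) : Pr B' u v w l m := by
  intro R V _ _ _ M P hM hPP
  have e1 : jo B u = jo B' u := thm_JO.2 u B B' (fun k hk => h k (by omega))
  have e2 : jo (fun k => B (k + nX u)) v = jo (fun k => B' (k + nX u)) v :=
    thm_JO.2 v _ _ (fun k hk => h _ (by omega))
  have := hP M P hM hPP
  rwa [e1, e2] at this

theorem MTR_m0_le (r : Bool) (w : ℕ) : m0 r w ≤ 2 := by
  unfold m0
  split_ifs <;> omega

theorem MTR_m0_mod (r : Bool) (w : ℕ) : m0 r w % 2 = w % 2 := by
  unfold m0
  rcases Nat.mod_two_eq_zero_or_one w with h | h <;> cases r <;> simp [h]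

theorem thm_MTR (h1 : St_EQN) (h2 : St_GAM) (h3 : St_VAN) (h4 : St_ONE) (h5 : St_LOO)
    (h6 : St_RKF) (h7 : St_LIN) (h8 : St_MNU) (h9 : St_MHT) (h10 : St_PAR) (h11 : St_HGT)
    (h12 : St_NFF) : St_MTR := by
  classical
  intro r u v n w hu hv hw hR hF hC l m hP
  have hn : n = wd 0 u := MTR_wd u 0 n hu
  subst hn
  -- dimensions
  obtain ⟨d, hd⟩ : ∃ d : Bool → ZMod 3 → Finset (Fin (nX (u ++ v))) → ℕ, ∀ ρ s S,
      d ρ s S = Module.finrank (ZMod 3) (Sol ρ s u v w S) := ⟨_, fun _ _ _ => rfl⟩
  have mpar : ∀ S, m S % 2 = w % 2 := by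
    intro S
    obtain ⟨f, hf, hfm⟩ := (h9 (st r S) u v _ w (l S) (m S) hu hv hw (hP S)).2
    have := (h10 (st r S) u v _ w hu hv hw).2 f hf
    rw [hfm] at this
    omega
  have E := fun (ρ : Bool) (S : Finset (Fin (nX (u ++ v)))) =>
    h1 ρ (st r S) u v w (l S) (m S) hu hv hw (hP S)
  have E1 : ∀ S, (l S : ℤ) + gm r (m S) = gam r (st r S) (u ++ v) + 2 * (d r (-1) S : ℤ) := by
    intro S
    have := (E r S).1
    rw [MTR_filt, ← hd] at this
    exact this
  have E2 : ∀ S, (l S : ℤ) + gm r (m S) + 2 * fr r (m S) =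
      gam r (st r S) (u ++ v) + 2 * (d r 1 S : ℤ) := by
    intro S
    have := (E r S).2
    rw [MTR_filt, ← hd] at this
    exact this
  have E3 : (l ∅ : ℤ) + gm (!r) (m ∅) = gam (!r) (st r (∅ : Finset (Fin (nX (u ++ v))))) (u ++ v) +
      2 * (d (!r) (-1) Finset.univ : ℤ) := by
    have := (E (!r) ∅).1
    rw [MTR_filt0, ← hd] at this
    exact this
  have E4 : (l ∅ : ℤ) + gm (!r) (m ∅) + 2 * fr (!r) (m ∅) = gam (!r) (st r (∅ : Finset (Fin (nX (u ++ v))))) (u ++ v) +
      2 * (d (!r) 1 Finset.univ : ℤ) := by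
    have := (E (!r) ∅).2
    rw [MTR_filt0, ← hd] at this
    exact this
  have G1 : ∀ S : Finset (Fin (nX (u ++ v))), gam r (st r S) (u ++ v) = gam r (st r (∅ : Finset (Fin (nX (u ++ v))))) (u ++ v) + S.card := by
    intro S
    rw [h2.1 r (u ++ v) (st r S), h2.1 r (u ++ v) (st r (∅ : Finset (Fin (nX (u ++ v))))), MTR_filt, MTR_filt]
    simp
  have G2 : gam r (st r (∅ : Finset (Fin (nX (u ++ v))))) (u ++ v) + gam (!r) (st r (∅ : Finset (Fin (nX (u ++ v))))) (u ++ v) = 0 := by
    have := h2.2 (u ++ v) (st r (∅ : Finset (Fin (nX (u ++ v))))) 0 0 (hu.append hv)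
    cases r
    · simp only [Bool.not_false]
      omega
    · simp only [Bool.not_true]
      omega
  have gmc : ∀ S, gm r (m S) = gm r (m ∅) := fun S =>
    MTR_gm r _ _ ((mpar S).trans (mpar ∅).symm)
  have gms : gm r (m ∅) + gm (!r) (m ∅) = 0 := by
    have := MTR_gm2 (m ∅)
    cases r
    · simp only [Bool.not_false]; omega
    · simp only [Bool.not_true]; omega
  have hm0 : m ∅ = m0 r w := h8 r u v _ w (l ∅) (m ∅) hu hv hw hF hC (hP ∅)
  -- the two rank functions
  have K := fun s => h6 (ZMod 3) (Lv u v) (nX (u ++ v)) (Base r s u v w)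
    (fun k : Fin (nX (u ++ v)) => Lk r u v (k : ℕ))
  have dle : ∀ s S, d r s S ≤ d r s ∅ := by
    intro s S
    have hb : Sol r s u v w ∅ = Base r s u v w := by
      unfold Sol
      simp
    rw [hd, hd, hb]
    exact (K s).2.1 S
  have hbase : ∀ s, d r s ∅ = Module.finrank (ZMod 3) (Base r s u v w) := by
    intro s
    have hb : Sol r s u v w ∅ = Base r s u v w := by
      unfold Sol
      simp
    rw [hd, hb]
  have KR : ∀ s, RkF fun S => d r s ∅ - d r s S := by
    intro s
    have := (K s).1
    simp only [hbase]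
    simp only [hd]
    exact this
  have hfr : ∀ S, (fr r (m S) : ℤ) = d r 1 S - d r (-1) S := by
    intro S
    have a1 := E1 S
    have a2 := E2 S
    omega
  have hfr0 : fr r (m ∅) = 0 := by
    rw [hm0]
    unfold m0 fr
    rcases Nat.mod_two_eq_zero_or_one w with h | h <;> cases r <;> simp [h] <;> decide
  have hd0 : d r 1 ∅ = d r (-1) ∅ := by
    have := hfr ∅
    rw [hfr0] at this
    push_cast at this
    omega
  -- the other colour
  have D1 : d (!r) (-1) Finset.univ = 0 := by
    by_cases hc : (!r) = true ∨ decide (w % 2 = 0) = !r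
    · rw [hd]
      exact h3 (!r) (-1) u v w (Or.inr rfl) hu hv hw hc hC
    · have hr : r = true := by
        cases r
        · exact absurd (Or.inl rfl) hc
        · rfl
      subst hr
      have hw2 : w % 2 = 0 := by
        by_contra hw2
        exact hc (Or.inr (by simp [hw2]))
      have h0 : m ∅ = 2 := by
        rw [hm0]
        simp [m0, hw2]
      have h10 : d (!true) 1 Finset.univ ≤ 1 := by
        rw [hd]
        exact h4 _ u v w hu hv hw hC
      have h11 : fr (!true) (m ∅) = 1 := by
        rw [h0]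
        decide
      rw [h11] at E4
      push_cast at E4
      omega
  have hn0 : l ∅ = d r (-1) ∅ := by
    have a1 := E1 ∅
    rw [D1] at E3
    push_cast at E3
    omega
  -- the colour r, everything joined
  have D2 : d r (-1) Finset.univ = 0 := by
    by_cases hc : r = true ∨ decide (w % 2 = 0) = r
    · rw [hd]
      exact h3 r (-1) u v w (Or.inr rfl) hu hv hw hc hC
    · have hr : r = false := by
        cases r
        · rfl
        · exact absurd (Or.inl rfl) hc
      subst hr
      have hw2 : w % 2 = 0 := by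
        by_contra hw2
        exact hc (Or.inr (by simp [hw2]))
      have hP' : Pr (st true (∅ : Finset (Fin (nX (u ++ v))))) u v w (l Finset.univ)
          (m Finset.univ) := by
        refine MTR_Pr ?_ (hP Finset.univ)
        intro k hk
        have hk' : k < nX (u ++ v) := by
          rw [MTR_nX]
          exact hk
        unfold st
        rw [if_pos ⟨hk', Finset.mem_univ _⟩,
          if_neg (by rintro ⟨_, h⟩; exact absurd h (Finset.notMem_empty _))]
        rfl
      have h0 : m Finset.univ = 2 := by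
        rw [h8 true u v _ w _ _ hu hv hw hF hC hP']
        simp [m0, hw2]
      have h10 : d false 1 Finset.univ ≤ 1 := by
        rw [hd]
        exact h4 _ u v w hu hv hw hC
      have h11 := hfr Finset.univ
      rw [h0] at h11
      have h12 : fr false 2 = 1 := by decide
      rw [h12] at h11
      push_cast at h11
      omega
  -- loops
  have N := h12 u v _ w hu hv hw hF
  have L1 : ∀ k : Fin (nX (u ++ v)), d r 1 ∅ - d r 1 {k} = 1 := by
    intro k
    have h := h5 r u v w hu hv hw k (hR k) (N.2.1 r k).1 (N.2.1 r k).2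
    have := (K 1).2.2 k h
    rw [hbase, hd]
    exact this
  have hle : ∀ S, d r 1 ∅ - d r 1 S ≤ d r (-1) ∅ - d r (-1) S := by
    intro S
    have a1 := hfr S
    have a2 := dle 1 S
    have a3 := dle (-1) S
    omega
  have L2 : ∀ k : Fin (nX (u ++ v)), d r (-1) ∅ - d r (-1) {k} = 1 := by
    intro k
    have a1 := L1 k
    have a2 := hle {k}
    have a3 := (KR (-1)).one ∅ k
    have a4 := (KR (-1)).emp
    simp only [insert_empty_eq] at a3
    omega
  have hrk : ∀ S, S ≠ ∅ → 1 ≤ d r 1 ∅ - d r 1 S := by
    intro S hS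
    obtain ⟨k, hk⟩ := Finset.nonempty_iff_ne_empty.2 hS
    have h : d r 1 ∅ - d r 1 {k} ≤ d r 1 ∅ - d r 1 S :=
      (KR 1).mono {k} S (Finset.singleton_subset_iff.2 hk)
    rw [L1 k] at h
    exact h
  refine ⟨d r (-1) ∅, fun S => d r (-1) ∅ - d r (-1) S, mpar, MTR_m0_le r w, MTR_m0_mod r w, hm0,
    ?_, ?_, ?_, ?_⟩
  · intro S
    have a1 := E1 S
    have a2 := E1 ∅
    have a3 := G1 S
    have a4 := gmc S
    have a5 := dle (-1) S
    show l S + 2 * (d r (-1) ∅ - d r (-1) S) = d r (-1) ∅ + S.card
    omega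
  · intro S
    constructor
    · intro h
      by_contra hS
      have a1 := hrk S hS
      have a2 := hle S
      have h' : d r (-1) ∅ - d r (-1) S = 0 := h
      omega
    · rintro rfl
      simp
  · intro S hS
    have hS' : d r (-1) ∅ - d r (-1) S = 1 := hS
    have hS0 : S ≠ ∅ := by
      intro h
      rw [h] at hS'
      omega
    have a1 := hrk S hS0
    have a2 := hfr S
    have a3 := dle 1 S
    have a4 := dle (-1) S
    have a5 : fr r (m S) = 0 := by omega
    have a6 := MTR_fr_le r (m S) a5
    have a7 := mpar S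
    rcases Nat.mod_two_eq_zero_or_one w with h | h
    · cases r
      · left
        have a8 : m S ≠ 2 := by
          intro h2
          rw [h2] at a5
          revert a5
          decide
        have a9 : m0 false w = 0 := by simp [m0, h]
        rw [a9]
        omega
      · have a9 : m0 true w = 2 := by simp [m0, h]
        rw [a9]
        omega
    · left
      have a9 : m0 r w = 1 := by cases r <;> simp [m0, h]
      rw [a9]
      omega
  · by_cases hz : m0 r w = 0
    · rw [if_pos hz]
      have := h7 (nX (u ++ v)) (fun S => d r (-1) ∅ - d r (-1) S)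
        (fun S => d r (-1) ∅ - d r (-1) S) (KR _) (KR _) L2 L2 (fun _ _ => le_rfl) ∅
      simp only [D2, Nat.sub_self, Nat.cast_zero, add_zero, Nat.sub_zero] at this ⊢
      linarith
    · rw [if_neg hz]
      have hg : r = true ∨ decide (w % 2 = 0) = r := by
        cases r
        · right
          by_contra hw2
          have : w % 2 = 0 := by
            by_contra h
            exact hw2 (by simp [h])
          exact hz (by simp [m0, this])
        · left; rfl
      have D3 : d r 1 Finset.univ = 0 := by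
        rw [hd]
        exact h3 r 1 u v w (Or.inl rfl) hu hv hw hg hC
      obtain ⟨S₀, f, hf, hfd⟩ := h11 r u v _ w hu hv hw hF
      have hb := (h9 (st r S₀) u v _ w (l S₀) (m S₀) hu hv hw (hP S₀)).1 f hf
      rw [hfd] at hb
      have hfr1 : 1 ≤ fr r (m S₀) := by
        rcases Nat.mod_two_eq_zero_or_one w with h | h
        · rw [if_pos h] at hb
          have h4' : 4 ≤ m S₀ := by
            have : |(4 : ℤ)| = 4 := by norm_num
            rw [this] at hb
            omega
          have hr : r = true := by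
            cases r
            · exfalso
              rcases hg with hg | hg
              · cases hg
              · simp [h] at hg
            · rfl
          subst hr
          exact MTR_fr_pos true _ 2 (by omega) (by omega) (by decide)
        · rw [if_neg (by omega)] at hb
          have h4' : 3 ≤ m S₀ := by
            have : |(3 : ℤ)| = 3 := by norm_num
            rw [this] at hb
            omega
          cases r
          · exact MTR_fr_pos false _ 1 (by omega) (by omega) (by decide)
          · exact MTR_fr_pos true _ 2 (by omega) (by omega) (by decide)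
      have := h7 (nX (u ++ v)) (fun S => d r (-1) ∅ - d r (-1) S)
        (fun S => d r 1 ∅ - d r 1 S) (KR _) (KR _) L2 L1 (fun e e' => hle _) S₀
      have a2 := hfr S₀
      have a3 := dle 1 S₀
      have a4 := dle (-1) S₀
      simp only [D3] at this ⊢
      omega

end Pool.TWC
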