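import Pool.Agent.TWC.StC

/-!
# TWC: [NBR] the four regions at a crossing are neighbours (helper13)
-/

set_option autoImplicit false

namespace Pool.TWC

open Pool.Agent.ARB Pool.Agent.Helper2 Pool.ALT

private theorem nbr_R0 {n : ℕ} {w : Word} {x y : Loc n w} (h : R0 n w x y) : gs n w x y := by
  have h1 : pr x y ≤ gs n w := by
    unfold gs
    exact le_iSup_of_le x (le_iSup_of_le y (le_iSup_of_le h le_rfl))
  exact (pr_le_iff _ _ _).1 h1

private theorem nbr_inr (n : ℕ) (s : Piece) (w : Word) {x y : Loc (n - s.k.inn + s.k.out) w}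
    (h : gs (n - s.k.inn + s.k.out) w x y) :
    gs n (s :: w) (Sum.inr x : Fin (n + 1) ⊕ Loc (n - s.k.inn + s.k.out) w)
      (Sum.inr y : Fin (n + 1) ⊕ Loc (n - s.k.inn + s.k.out) w) := by
  have h1 : gs (n - s.k.inn + s.k.out) w ≤ Setoid.comap
      (fun z => (Sum.inr z : Fin (n + 1) ⊕ Loc (n - s.k.inn + s.k.out) w))
      (gs n (s :: w) : Setoid (Fin (n + 1) ⊕ Loc (n - s.k.inn + s.k.out) w)) := by
    refine iSup_le fun x => iSup_le fun y => iSup_le fun h => (pr_le_iff _ _ _).2 ?_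
    exact nbr_R0 (n := n) (w := s :: w) (Or.inr ⟨x, y, rfl, rfl, h⟩)
  exact h1 h

private theorem nbr_Ad (n : ℕ) (s : Piece) (w : Word) {x y : Loc (n - s.k.inn + s.k.out) w}
    (h : Ad (n - s.k.inn + s.k.out) w x y) :
    Ad n (s :: w) (Sum.inr x : Fin (n + 1) ⊕ Loc (n - s.k.inn + s.k.out) w)
      (Sum.inr y : Fin (n + 1) ⊕ Loc (n - s.k.inn + s.k.out) w) := by
  rcases h with h | h
  · exact Or.inl (Or.inr ⟨x, y, rfl, rfl, h⟩)
  · exact Or.inr (Or.inr ⟨y, x, rfl, rfl, h⟩)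

private theorem nbr_bo : ∀ (n : ℕ) (w : Word) (j : ℕ), j < n → Rt n w (bo n w j) (bo n w (j + 1))
  | _, [], j, h => ⟨j, h, rfl, rfl⟩
  | _, _ :: _, j, h => Or.inl ⟨j, h, rfl, rfl⟩

/-- the lowest crossing -/
private theorem nbr_zero (p : Bool) (i : ℕ) (w : Word) (n : ℕ) (hi : i + 2 ≤ n)
    (a b : Loc n (⟨.X p, i⟩ :: w))
    (ha : a = bo n (⟨.X p, i⟩ :: w) i ∨ a = bo n (⟨.X p, i⟩ :: w) (i + 2))
    (hb : b = bo n (⟨.X p, i⟩ :: w) (i + 1) ∨
      b = (Sum.inr (bo (n - 2 + 2) w (i + 1)) : Fin (n + 1) ⊕ Loc (n - 2 + 2) w)) :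
    ∃ a' b' : Loc n (⟨.X p, i⟩ :: w), gs n (⟨.X p, i⟩ :: w) a a' ∧
      gs n (⟨.X p, i⟩ :: w) b b' ∧ Ad n (⟨.X p, i⟩ :: w) a' b' := by
  have hup : ∀ j : ℕ, j ≤ n → j ≠ i + 1 → gs n (⟨.X p, i⟩ :: w) (bo n (⟨.X p, i⟩ :: w) j)
      (Sum.inr (bo (n - 2 + 2) w j) : Fin (n + 1) ⊕ Loc (n - 2 + 2) w) := by
    intro j hj hne
    exact nbr_R0 (n := n) (w := ⟨.X p, i⟩ :: w) (Or.inl ⟨j, j, hj,
      (show j ≤ n - 2 + 2 by omega), (show j = j ∧ j ≠ i + 1 from ⟨rfl, hne⟩), rfl, rfl⟩)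
  rcases hb with rfl | rfl
  · rcases ha with rfl | rfl
    · exact ⟨_, _, (gs n (⟨.X p, i⟩ :: w)).refl _, (gs n (⟨.X p, i⟩ :: w)).refl _,
        Or.inl (nbr_bo n (⟨.X p, i⟩ :: w) i (by omega))⟩
    · exact ⟨_, _, (gs n (⟨.X p, i⟩ :: w)).refl _, (gs n (⟨.X p, i⟩ :: w)).refl _,
        Or.inr (nbr_bo n (⟨.X p, i⟩ :: w) (i + 1) (by omega))⟩
  · rcases ha with rfl | rfl
    · refine ⟨_, _, hup i (by omega) (by omega), (gs n (⟨.X p, i⟩ :: w)).refl _, ?_⟩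
      exact nbr_Ad n ⟨.X p, i⟩ w (Or.inl (nbr_bo (n - 2 + 2) w i (by omega)))
    · refine ⟨_, _, hup (i + 2) (by omega) (by omega), (gs n (⟨.X p, i⟩ :: w)).refl _, ?_⟩
      exact nbr_Ad n ⟨.X p, i⟩ w (Or.inr (nbr_bo (n - 2 + 2) w (i + 1) (by omega)))

/-- the statement for a longer word -/
private theorem nbr_cons (n : ℕ) (s : Piece) (w : Word)
    (E E' : Loc (n - s.k.inn + s.k.out) w × Loc (n - s.k.inn + s.k.out) w)
    (h : ∀ x y : Loc (n - s.k.inn + s.k.out) w, (x = E.1 ∨ x = E.2) → (y = E'.1 ∨ y = E'.2) →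
      ∃ x' y', gs (n - s.k.inn + s.k.out) w x x' ∧ gs (n - s.k.inn + s.k.out) w y y' ∧
        Ad (n - s.k.inn + s.k.out) w x' y') (x y : Loc n (s :: w))
    (hx : x = (Sum.inr E.1 : Fin (n + 1) ⊕ Loc (n - s.k.inn + s.k.out) w) ∨
      x = (Sum.inr E.2 : Fin (n + 1) ⊕ Loc (n - s.k.inn + s.k.out) w))
    (hy : y = (Sum.inr E'.1 : Fin (n + 1) ⊕ Loc (n - s.k.inn + s.k.out) w) ∨
      y = (Sum.inr E'.2 : Fin (n + 1) ⊕ Loc (n - s.k.inn + s.k.out) w)) :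
    ∃ x' y' : Loc n (s :: w), gs n (s :: w) x x' ∧ gs n (s :: w) y y' ∧ Ad n (s :: w) x' y' := by
  have key : ∀ a b : Loc (n - s.k.inn + s.k.out) w, (a = E.1 ∨ a = E.2) →
      (b = E'.1 ∨ b = E'.2) → x = (Sum.inr a : Fin (n + 1) ⊕ Loc (n - s.k.inn + s.k.out) w) →
      y = (Sum.inr b : Fin (n + 1) ⊕ Loc (n - s.k.inn + s.k.out) w) →
      ∃ x' y' : Loc n (s :: w), gs n (s :: w) x x' ∧ gs n (s :: w) y y' ∧
        Ad n (s :: w) x' y' := by
    rintro a b ha hb rfl rfl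
    obtain ⟨a', b', h1, h2, h3⟩ := h a b ha hb
    exact ⟨_, _, nbr_inr n s w h1, nbr_inr n s w h2, nbr_Ad n s w h3⟩
  rcases hx with hx | hx <;> rcases hy with hy | hy
  · exact key _ _ (Or.inl rfl) (Or.inl rfl) hx hy
  · exact key _ _ (Or.inl rfl) (Or.inr rfl) hx hy
  · exact key _ _ (Or.inr rfl) (Or.inl rfl) hx hy
  · exact key _ _ (Or.inr rfl) (Or.inr rfl) hx hy

private theorem nbr_main : ∀ (w : Word) (n m : ℕ) (k : Fin (nX w)), Ok w n m →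
    ∀ x y : Loc n w, (x = (ed true n w k).1 ∨ x = (ed true n w k).2) →
    (y = (ed false n w k).1 ∨ y = (ed false n w k).2) →
    ∃ x' y' : Loc n w, gs n w x x' ∧ gs n w y y' ∧ Ad n w x' y'
  | [], _, _, k, _ => k.elim0
  | ⟨.X p, i⟩ :: w, n, m, k, hok => by
      have hi : i + 2 ≤ n := hok.1
      refine Fin.cases ?_ (fun k' => ?_) k
      · intro x y hx hy
        have hx' : x = (if decide (i % 2 = 0) = true then
            (bo n (⟨.X p, i⟩ :: w) i, bo n (⟨.X p, i⟩ :: w) (i + 2))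
          else (bo n (⟨.X p, i⟩ :: w) (i + 1),
            (Sum.inr (bo (n - 2 + 2) w (i + 1)) : Fin (n + 1) ⊕ Loc (n - 2 + 2) w))).1 ∨
          x = (if decide (i % 2 = 0) = true then
            (bo n (⟨.X p, i⟩ :: w) i, bo n (⟨.X p, i⟩ :: w) (i + 2))
          else (bo n (⟨.X p, i⟩ :: w) (i + 1),
            (Sum.inr (bo (n - 2 + 2) w (i + 1)) : Fin (n + 1) ⊕ Loc (n - 2 + 2) w))).2 := hx
        have hy' : y = (if decide (i % 2 = 0) = false then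
            (bo n (⟨.X p, i⟩ :: w) i, bo n (⟨.X p, i⟩ :: w) (i + 2))
          else (bo n (⟨.X p, i⟩ :: w) (i + 1),
            (Sum.inr (bo (n - 2 + 2) w (i + 1)) : Fin (n + 1) ⊕ Loc (n - 2 + 2) w))).1 ∨
          y = (if decide (i % 2 = 0) = false then
            (bo n (⟨.X p, i⟩ :: w) i, bo n (⟨.X p, i⟩ :: w) (i + 2))
          else (bo n (⟨.X p, i⟩ :: w) (i + 1),
            (Sum.inr (bo (n - 2 + 2) w (i + 1)) : Fin (n + 1) ⊕ Loc (n - 2 + 2) w))).2 := hy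
        by_cases hpar : i % 2 = 0
        · rw [decide_eq_true hpar, if_pos rfl] at hx'
          rw [decide_eq_true hpar, if_neg (by decide)] at hy'
          exact nbr_zero p i w n hi x y hx' hy'
        · rw [decide_eq_false hpar, if_neg (by decide)] at hx'
          rw [decide_eq_false hpar, if_pos rfl] at hy'
          obtain ⟨a', b', h1, h2, h3⟩ := nbr_zero p i w n hi y x hy' hx'
          exact ⟨b', a', h2, h1, h3.symm⟩
      · exact nbr_cons n ⟨.X p, i⟩ w (ed true (n - 2 + 2) w k') (ed false (n - 2 + 2) w k')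
          (nbr_main w (n - 2 + 2) m k' hok.2)
  | ⟨.U, i⟩ :: w, n, m, k, hok =>
      nbr_cons n ⟨.U, i⟩ w (ed true (n - 0 + 2) w k) (ed false (n - 0 + 2) w k)
        (nbr_main w (n - 0 + 2) m k hok.2)
  | ⟨.N, i⟩ :: w, n, m, k, hok =>
      nbr_cons n ⟨.N, i⟩ w (ed true (n - 2 + 0) w k) (ed false (n - 2 + 0) w k)
        (nbr_main w (n - 2 + 0) m k hok.2)

/-- the regions at a crossing are neighbours -/
theorem thm_NBR : St_NBR := nbr_main

end Pool.TWC
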