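import Pool.Agent.TWC.StC

/-!
# TWC: [POS] positions of the local regions (helper75)
-/

set_option autoImplicit false

namespace Pool.TWC

open Pool.Agent.ARB Pool.Agent.Helper2 Pool.ALT
open Pool.TWI (Same Pass)

private theorem pos_inr (n : ℕ) (s : Piece) (w : Word) (y : Loc (n - s.k.inn + s.k.out) w) :
    pos n (s :: w) (Sum.inr y : Fin (n + 1) ⊕ Loc (n - s.k.inn + s.k.out) w) =
      ((pos (n - s.k.inn + s.k.out) w y).1 + 1, (pos (n - s.k.inn + s.k.out) w y).2) := rfl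

private theorem pos_bo : ∀ (w : Word) (n j : ℕ), j ≤ n → pos n w (bo n w j) = (0, j)
  | [], n, j, h => by
      show ((0, (Fin.ofNat (n + 1) j).val) : ℕ × ℕ) = (0, j)
      rw [Fin.val_ofNat, Nat.mod_eq_of_lt (show j < n + 1 by omega)]
  | s :: w, n, j, h => by
      show ((0, (Fin.ofNat (n + 1) j).val) : ℕ × ℕ) = (0, j)
      rw [Fin.val_ofNat, Nat.mod_eq_of_lt (show j < n + 1 by omega)]

private theorem same_cons (s : Piece) (w : Word) {x y : ℕ × ℕ} (h : Same w x y) :
    Same (s :: w) (x.1 + 1, x.2) (y.1 + 1, y.2) := by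
  induction h with
  | rel x y h =>
    obtain ⟨s', h1, h2, h3⟩ := h
    exact Relation.EqvGen.rel _ _ ⟨s', by
      show (s :: w)[x.1 + 1]? = some s'
      rw [List.getElem?_cons_succ]
      exact h1, by
      show y.1 + 1 = x.1 + 1 + 1
      rw [h2], h3⟩
  | refl x => exact Relation.EqvGen.refl _
  | symm x y _ ih => exact Relation.EqvGen.symm _ _ ih
  | trans x y z _ _ ih1 ih2 => exact Relation.EqvGen.trans _ _ _ ih1 ih2

private theorem gl_pass (s : Piece) {j j' : ℕ} (h : gl s j j') : Pass s j j' := by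
  obtain ⟨k, i⟩ := s
  cases k with
  | U =>
    rcases h with ⟨h1, h2⟩ | ⟨h1, h2⟩
    · subst h2
      exact Pass.left _ _ h1
    · have h1' : i ≤ j := h1
      have e := Pass.right ⟨Kind.U, i⟩ (j - i)
      have e1 : i + Kind.U.inn + (j - i) = j := by
        show i + 0 + (j - i) = j
        omega
      have e2 : i + Kind.U.out + (j - i) = j' := by
        show i + 2 + (j - i) = j'
        omega
      rw [show (⟨Kind.U, i⟩ : Piece).i + (⟨Kind.U, i⟩ : Piece).k.inn + (j - i) = j from e1,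
        show (⟨Kind.U, i⟩ : Piece).i + (⟨Kind.U, i⟩ : Piece).k.out + (j - i) = j' from e2] at e
      exact e
  | N =>
    rcases h with ⟨h1, h2⟩ | ⟨h1, h2⟩
    · subst h2
      exact Pass.left _ _ h1
    · have h1' : i ≤ j' := h1
      have e := Pass.right ⟨Kind.N, i⟩ (j' - i)
      have e1 : i + Kind.N.inn + (j' - i) = j := by
        show i + 2 + (j' - i) = j
        omega
      have e2 : i + Kind.N.out + (j' - i) = j' := by
        show i + 0 + (j' - i) = j'
        omega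
      rw [show (⟨Kind.N, i⟩ : Piece).i + (⟨Kind.N, i⟩ : Piece).k.inn + (j' - i) = j from e1,
        show (⟨Kind.N, i⟩ : Piece).i + (⟨Kind.N, i⟩ : Piece).k.out + (j' - i) = j' from e2] at e
      exact e
  | X p =>
    obtain ⟨h1, h2⟩ := h
    subst h1
    have h2' : j ≠ i + 1 := h2
    by_cases h3 : j ≤ i
    · exact Pass.left _ _ h3
    · have e := Pass.right ⟨Kind.X p, i⟩ (j - i - 2)
      have e1 : i + (Kind.X p).inn + (j - i - 2) = j := by
        show i + 2 + (j - i - 2) = j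
        omega
      have e2 : i + (Kind.X p).out + (j - i - 2) = j := by
        show i + 2 + (j - i - 2) = j
        omega
      rw [show (⟨Kind.X p, i⟩ : Piece).i + (⟨Kind.X p, i⟩ : Piece).k.inn + (j - i - 2) = j
        from e1, show (⟨Kind.X p, i⟩ : Piece).i + (⟨Kind.X p, i⟩ : Piece).k.out + (j - i - 2) = j
        from e2] at e
      exact e

private theorem pos1 : ∀ (w : Word) (n m : ℕ) (x y : Loc n w), Ok w n m → R0 n w x y →
    Same w (pos n w x) (pos n w y)
  | [], _, _, _, _, _, h => h.elim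
  | s :: w, n, m, x, y, hok, h => by
      rcases h with ⟨j, j', hj, hj', hg, rfl, rfl⟩ | ⟨x', y', rfl, rfl, h⟩
      · have e1 : pos n (s :: w) (bo n (s :: w) j) = (0, j) := pos_bo (s :: w) n j hj
        have e1' : pos n (s :: w) (Sum.inl (Fin.ofNat (n + 1) j) :
          Fin (n + 1) ⊕ Loc (n - s.k.inn + s.k.out) w) = (0, j) := e1
        rw [pos_inr, pos_bo w _ j' hj', e1']
        exact Relation.EqvGen.rel _ _ ⟨s, rfl, rfl, gl_pass s hg⟩
      · rw [pos_inr, pos_inr]
        exact same_cons s w (pos1 w _ m x' y' hok.2 h)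

/-- the statement (2) for a longer word -/
private theorem pos2_cons (s : Piece) (w : Word) (n : ℕ)
    (E : Bool → Loc (n - s.k.inn + s.k.out) w × Loc (n - s.k.inn + s.k.out) w)
    (h : ∃ (l i : ℕ) (p : Bool), w[l]? = some (pX i p) ∧
      i + 2 ≤ strn (n - s.k.inn + s.k.out) w l ∧ ∀ r : Bool,
      if decide (i % 2 = 0) = r then
        pos (n - s.k.inn + s.k.out) w (E r).1 = (l, i) ∧
          pos (n - s.k.inn + s.k.out) w (E r).2 = (l, i + 2)
      else pos (n - s.k.inn + s.k.out) w (E r).1 = (l, i + 1) ∧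
        pos (n - s.k.inn + s.k.out) w (E r).2 = (l + 1, i + 1)) :
    ∃ (l i : ℕ) (p : Bool), (s :: w)[l]? = some (pX i p) ∧ i + 2 ≤ strn n (s :: w) l ∧
      ∀ r : Bool,
      if decide (i % 2 = 0) = r then
        pos n (s :: w) (Sum.inr (E r).1 : Fin (n + 1) ⊕ Loc (n - s.k.inn + s.k.out) w) = (l, i) ∧
        pos n (s :: w) (Sum.inr (E r).2 : Fin (n + 1) ⊕ Loc (n - s.k.inn + s.k.out) w) =
          (l, i + 2)
      else pos n (s :: w) (Sum.inr (E r).1 : Fin (n + 1) ⊕ Loc (n - s.k.inn + s.k.out) w) =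
          (l, i + 1) ∧
        pos n (s :: w) (Sum.inr (E r).2 : Fin (n + 1) ⊕ Loc (n - s.k.inn + s.k.out) w) =
          (l + 1, i + 1) := by
  obtain ⟨l, i, p, h1, h2, h3⟩ := h
  refine ⟨l + 1, i, p, ?_, h2, fun r => ?_⟩
  · rw [List.getElem?_cons_succ]
    exact h1
  · have h4 := h3 r
    by_cases hr : decide (i % 2 = 0) = r
    · rw [if_pos hr] at h4 ⊢
      rw [pos_inr, pos_inr, h4.1, h4.2]
      exact ⟨rfl, rfl⟩
    · rw [if_neg hr] at h4 ⊢
      rw [pos_inr, pos_inr, h4.1, h4.2]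
      exact ⟨rfl, rfl⟩

private theorem pos2 : ∀ (w : Word) (n m : ℕ) (k : Fin (nX w)), Ok w n m →
    ∃ (l i : ℕ) (p : Bool), w[l]? = some (pX i p) ∧ i + 2 ≤ strn n w l ∧ ∀ r : Bool,
      if decide (i % 2 = 0) = r then
        pos n w (ed r n w k).1 = (l, i) ∧ pos n w (ed r n w k).2 = (l, i + 2)
      else pos n w (ed r n w k).1 = (l, i + 1) ∧ pos n w (ed r n w k).2 = (l + 1, i + 1)
  | [], _, _, k, _ => k.elim0
  | ⟨.X p, i⟩ :: w, n, m, k, hok => by
      refine Fin.cases ?_ (fun k' => ?_) k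
      · have hi : i + 2 ≤ n := hok.1
        refine ⟨0, i, p, rfl, hi, fun r => ?_⟩
        by_cases hr : decide (i % 2 = 0) = r
        · rw [if_pos hr]
          show pos n (⟨.X p, i⟩ :: w) (if decide (i % 2 = 0) = r then
            (bo n (⟨.X p, i⟩ :: w) i, bo n (⟨.X p, i⟩ :: w) (i + 2))
            else (bo n (⟨.X p, i⟩ :: w) (i + 1), Sum.inr (bo (n - 2 + 2) w (i + 1)))).1 = (0, i) ∧
            pos n (⟨.X p, i⟩ :: w) (if decide (i % 2 = 0) = r then
            (bo n (⟨.X p, i⟩ :: w) i, bo n (⟨.X p, i⟩ :: w) (i + 2))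
            else (bo n (⟨.X p, i⟩ :: w) (i + 1), Sum.inr (bo (n - 2 + 2) w (i + 1)))).2 =
              (0, i + 2)
          rw [if_pos hr]
          exact ⟨pos_bo _ n i (by omega), pos_bo _ n (i + 2) hi⟩
        · rw [if_neg hr]
          show pos n (⟨.X p, i⟩ :: w) (if decide (i % 2 = 0) = r then
            (bo n (⟨.X p, i⟩ :: w) i, bo n (⟨.X p, i⟩ :: w) (i + 2))
            else (bo n (⟨.X p, i⟩ :: w) (i + 1), Sum.inr (bo (n - 2 + 2) w (i + 1)))).1 =
              (0, i + 1) ∧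
            pos n (⟨.X p, i⟩ :: w) (if decide (i % 2 = 0) = r then
            (bo n (⟨.X p, i⟩ :: w) i, bo n (⟨.X p, i⟩ :: w) (i + 2))
            else (bo n (⟨.X p, i⟩ :: w) (i + 1), Sum.inr (bo (n - 2 + 2) w (i + 1)))).2 =
              (0 + 1, i + 1)
          rw [if_neg hr]
          refine ⟨pos_bo _ n (i + 1) (by omega), ?_⟩
          have e3 : pos (n - 2 + 2) w (bo (n - 2 + 2) w (i + 1)) = (0, i + 1) :=
            pos_bo w (n - 2 + 2) (i + 1) (by omega)
          have e5 : pos (n - (Kind.X p).inn + (Kind.X p).out) w (bo (n - 2 + 2) w (i + 1)) =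
            (0, i + 1) := e3
          have e4 := pos_inr n ⟨.X p, i⟩ w (bo (n - 2 + 2) w (i + 1))
          exact e4.trans (by rw [e5])
      · exact pos2_cons ⟨.X p, i⟩ w n (fun r => ed r (n - 2 + 2) w k')
          (pos2 w (n - 2 + 2) m k' hok.2)
  | ⟨.U, i⟩ :: w, n, m, k, hok =>
      pos2_cons ⟨.U, i⟩ w n (fun r => ed r (n - 0 + 2) w k) (pos2 w (n - 0 + 2) m k hok.2)
  | ⟨.N, i⟩ :: w, n, m, k, hok =>
      pos2_cons ⟨.N, i⟩ w n (fun r => ed r (n - 2 + 0) w k) (pos2 w (n - 2 + 0) m k hok.2)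

private theorem pos3 : ∀ (u v : Word) (n m j : ℕ), Ok u n m → j ≤ m →
    pos n (u ++ v) (md n u v j) = (u.length, j)
  | [], v, n, m, j, hok, hj => by
      have h : n = m := hok
      subst h
      exact pos_bo v n j hj
  | s :: u, v, n, m, j, hok, hj => by
      have e := pos3 u v (n - s.k.inn + s.k.out) m j hok.2 hj
      have e1 := pos_inr n s (u ++ v) (md (n - s.k.inn + s.k.out) u v j)
      rw [e] at e1
      exact e1

private theorem pos4 : ∀ (w : Word) (n m : ℕ) (x y : Loc n w), Ok w n m → Rt n w x y →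
    ∃ l i : ℕ, l ≤ w.length ∧ i < strn n w l ∧ pos n w x = (l, i) ∧ pos n w y = (l, i + 1)
  | [], n, m, x, y, _, h => by
      obtain ⟨j, hj, rfl, rfl⟩ := h
      exact ⟨0, j, le_rfl, hj, pos_bo [] n j hj.le, pos_bo [] n (j + 1) hj⟩
  | s :: w, n, m, x, y, hok, h => by
      rcases h with ⟨j, hj, rfl, rfl⟩ | ⟨x', y', rfl, rfl, h⟩
      · exact ⟨0, j, Nat.zero_le _, hj, pos_bo (s :: w) n j hj.le, pos_bo (s :: w) n (j + 1) hj⟩
      · obtain ⟨l, i, h1, h2, h3, h4⟩ := pos4 w _ m x' y' hok.2 h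
        refine ⟨l + 1, i, Nat.succ_le_succ h1, h2, ?_, ?_⟩
        · rw [pos_inr, h3]
        · rw [pos_inr, h4]

/-- [POS] -/
theorem thm_POS : St_POS := ⟨pos1, pos2, pos3, pos4⟩

end Pool.TWC
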