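import Pool.Agent.TWC.StC

/-!
# TWC [RED]: in a reduced diagram the two regions of one parity at a crossing are different
-/

set_option autoImplicit false

namespace Pool.TWC

open LaurentPolynomial Pool.Agent.ARB Pool.Agent.Helper2 Pool.ALT
open Pool.TWI (Same)

/-- the relation `Same` of the positions of local regions -/
private def redS (n : ℕ) (w : Word) : Setoid (Loc n w) where
  r x y := Same w (pos n w x) (pos n w y)
  iseqv := ⟨fun _ => Relation.EqvGen.refl _, fun h => Relation.EqvGen.symm _ _ h,
    fun h h' => Relation.EqvGen.trans _ _ _ h h'⟩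

private lemma red_same (h : St_POS) {D : Word} (hD : Ok D 0 0) {x y : Loc 0 D}
    (hxy : gs 0 D x y) : Same D (pos 0 D x) (pos 0 D y) := by
  have h1 : gs 0 D ≤ redS 0 D :=
    iSup_le fun x => iSup_le fun y => iSup_le fun h' => (pr_le_iff _ _ _).2 (h.1 D 0 0 x y hD h')
  exact h1 hxy

theorem thm_RED (h : St_POS) : St_RED := by
  intro D hD hR r k hgs
  have h1 := red_same h hD hgs
  obtain ⟨l, i, p, hl, -, hp⟩ := h.2.1 D 0 0 k hD
  obtain ⟨h2, h3⟩ := hR l i p hl
  have h4 := hp r
  split_ifs at h4 with hr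
  · rw [h4.1, h4.2] at h1
    exact h2 h1
  · rw [h4.1, h4.2] at h1
    exact h3 h1

end Pool.TWC
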