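import Pool.Agent.TWC.Defs
import Pool.Agent.ALT.Mo.St
import Pool.Agent.TWB.St2

/-!
# TWC: definitions used in the proofs

`Loc n w`, `bo`, `tp`, `pa`, `gl`, `R0`, `gs`, `ed`, `jo`, `NoX`, `runC` are from `ALT/Mo/Defs.lean`.
-/

set_option autoImplicit false

namespace Pool.TWC

open LaurentPolynomial Pool.Agent.ARB Pool.Agent.Helper2 Pool.ALT

/-! ### models and poles -/

section
variable {R V : Type} [CommRing R] [AddCommGroup V] [Module R V]

/-- distant cups commute, and distant caps -/
structure Cc (M : Model R V) : Prop where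
  cupcup : ∀ (n i k : ℕ) (x : V), i + k ≤ n → M.Supp n x →
    M.cup (i + 2 + k) (M.cup i x) = M.cup i (M.cup (i + k) x)
  capcap : ∀ (n i k : ℕ) (x : V), i + k + 4 ≤ n → M.Supp n x →
    M.cap (i + k) (M.cap i x) = M.cap i (M.cap (i + 2 + k) x)

/-- A pole: operators `P w` which commute with the cups and caps to the left of the gap `w` (then
`w` changes by 2) and to the right of it. -/
structure Pole (M : Model R V) (P : ℕ → V → V) : Prop where
  supp : ∀ (n w : ℕ) (x : V), w ≤ n → M.Supp n x → M.Supp n (P w x)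
  smul : ∀ (n w : ℕ) (c : R) (x : V), w ≤ n → M.Supp n x → P w (c • x) = c • P w x
  cupL : ∀ (n w i : ℕ) (x : V), i ≤ w → w ≤ n → M.Supp n x →
    P (w + 2) (M.cup i x) = M.cup i (P w x)
  cupR : ∀ (n w i : ℕ) (x : V), w ≤ i → i ≤ n → M.Supp n x → P w (M.cup i x) = M.cup i (P w x)
  capL : ∀ (n w i : ℕ) (x : V), i ≤ w → w ≤ n → M.Supp (n + 2) x →
    M.cap i (P (w + 2) x) = P w (M.cap i x)
  capR : ∀ (n w i : ℕ) (x : V), w ≤ i → i ≤ n → M.Supp (n + 2) x →
    M.cap i (P w x) = P w (M.cap i x)

/-- the value of a pole `P m` inside of `m` concentric circles -/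
noncomputable def Psi (M : Model R V) (P : ℕ → V → V) (m : ℕ) : V :=
  runC M (caps m) (P m (runC M (cups m) M.init))

end

/-- `l` and `m`: in every model the state `B` of the closed word `u ++ v` with a pole at the gap `w`
above `u` is `l` circles and a pole inside of `m` concentric circles. -/
def Pr (B : ℕ → Bool) (u v : Word) (w l m : ℕ) : Prop :=
  ∀ {R V : Type} [CommRing R] [AddCommGroup V] [Module R V] (M : Model R V) (P : ℕ → V → V),
    Cc M → Pole M P →
    runC M (jo (fun k => B (k + nX u)) v) (P w (runC M (jo B u) M.init)) = M.δ ^ l • Psi M P m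

/-- the state in which the crossings in `S` join the regions of parity `r` (`true`: even) and all
others the regions of the other parity -/
def st (r : Bool) {n : ℕ} (S : Finset (Fin n)) : ℕ → Bool :=
  fun k => if (∃ h : k < n, (⟨k, h⟩ : Fin n) ∈ S) then r else !r

/-! ### Laurent polynomials seen from one end -/

/-- the coefficients in direction `τ` beyond `d` vanish -/
def Le (τ d : ℤ) (p : LP) : Prop := ∀ j : ℤ, d < j → p.coeff (τ * j) = 0

/-- in direction `τ` the polynomial is `a T ^ (τ d) + b T ^ (τ (d - 4)) + ⋯` -/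
structure Tp (τ d a b : ℤ) (p : LP) : Prop where
  le : Le τ d p
  top : p.coeff (τ * d) = a
  gap : ∀ j : ℤ, d - 4 < j → j < d → p.coeff (τ * j) = 0
  next : p.coeff (τ * (d - 4)) = b

/-! ### local regions -/

/-- the local region: gap `j` between `u` and `v` -/
def md : (n : ℕ) → (u v : Word) → ℕ → Loc n (u ++ v)
  | n, [], v, j => bo n v j
  | n, s :: u, v, j => Sum.inr (md (n - s.k.inn + s.k.out) u v j)

/-- local regions which are neighbours in the same row: `y` is to the right of `x` -/
def Rt : (n : ℕ) → (w : Word) → Loc n w → Loc n w → Prop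
  | n, [], x, y => ∃ j : ℕ, j < n ∧ x = bo n [] j ∧ y = bo n [] (j + 1)
  | n, s :: w, x, y =>
      (∃ j : ℕ, j < n ∧ x = bo n (s :: w) j ∧ y = bo n (s :: w) (j + 1)) ∨
      ∃ x' y' : Loc (n - s.k.inn + s.k.out) w,
        x = (Sum.inr x' : Fin (n + 1) ⊕ Loc (n - s.k.inn + s.k.out) w) ∧
        y = (Sum.inr y' : Fin (n + 1) ⊕ Loc (n - s.k.inn + s.k.out) w) ∧
        Rt (n - s.k.inn + s.k.out) w x' y'

/-- neighbours -/
def Ad (n : ℕ) (w : Word) (x y : Loc n w) : Prop := Rt n w x y ∨ Rt n w y x

/-- the graph of the regions of parity `r` (on the set of all local regions) -/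
def Gp (r : Bool) (n : ℕ) (w : Word) : Gr (Loc n w) (Fin (nX w)) where
  u k := (ed r n w k).1
  v k := (ed r n w k).2
  a := bo n w 0
  b := bo n w 0

/-- height functions of the state `B` -/
structure Hv (B : ℕ → Bool) (n : ℕ) (w : Word) (f : Loc n w → ℤ) : Prop where
  touch : ∀ x y, R0 n w x y → f x = f y
  join : ∀ k : Fin (nX w), f (ed (B k) n w k).1 = f (ed (B k) n w k).2
  near : ∀ x y, Ad n w x y → f x = f y + 1 ∨ f y = f x + 1

end Pool.TWC
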