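import Pool.Agent.TWC.StB

/-! # TWC, statement CMD: the colour models over `ZMod 3` and their poles -/

set_option autoImplicit false

namespace Pool.TWC

open LaurentPolynomial Pool.Agent.ARB Pool.Agent.Helper2 Pool.ALT

/-! ### the maps `dl3`, `ins3`, `tws` -/

private theorem cm_ins_le {i j : ℕ} (b : ZMod 3) (c : Cg) (h : j ≤ i) : ins3 i b c j = c j := by
  unfold ins3
  rw [if_pos h]

private theorem cm_ins_eq {i j : ℕ} (b : ZMod 3) (c : Cg) (h : j = i + 1) : ins3 i b c j = b := by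
  unfold ins3
  rw [if_neg (by omega), if_pos h]

private theorem cm_ins_gt {i j : ℕ} (b : ZMod 3) (c : Cg) (h : i + 2 ≤ j) :
    ins3 i b c j = c (j - 2) := by
  unfold ins3
  rw [if_neg (by omega), if_neg (by omega)]

private theorem cm_dl_le {i j : ℕ} (c : Cg) (h : j ≤ i) : dl3 i c j = c j := by
  unfold dl3
  rw [if_pos h]

private theorem cm_dl_gt {i j : ℕ} (c : Cg) (h : i < j) : dl3 i c j = c (j + 2) := by
  unfold dl3
  rw [if_neg (by omega)]

private theorem cm_dl_ge {i j : ℕ} (c : Cg) (hc : c i = c (i + 2)) (h : i ≤ j) :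
    dl3 i c j = c (j + 2) := by
  rcases Nat.lt_or_ge i j with h' | h'
  · exact cm_dl_gt c h'
  · have hj : j = i := le_antisymm h' h
    subst hj
    rw [cm_dl_le c le_rfl]
    exact hc

private theorem cm_tw_in {s : ZMod 3} {w j : ℕ} (c : Cg) (h0 : 0 < j) (h : j < w) :
    tws s w c j = s * c j := by
  unfold tws
  rw [if_pos ⟨h0, h⟩]

private theorem cm_tw_ge {s : ZMod 3} {w j : ℕ} (c : Cg) (h : w ≤ j) : tws s w c j = c j := by
  unfold tws
  rw [if_neg (by omega)]

private theorem cm_tw_z {s : ZMod 3} {w : ℕ} (c : Cg) : tws s w c 0 = c 0 := by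
  unfold tws
  rw [if_neg (by omega)]

private theorem cm_par2 (i : ℕ) : decide ((i + 2) % 2 = 0) = decide (i % 2 = 0) := by
  rw [Nat.add_mod_right]

private theorem cm_parsub {j : ℕ} (h : 2 ≤ j) : decide ((j - 2) % 2 = 0) = decide (j % 2 = 0) := by
  obtain ⟨k, rfl⟩ : ∃ k, j = k + 2 := ⟨j - 2, by omega⟩
  rw [cm_par2]
  rfl

private theorem cm_par1 (i : ℕ) (ρ : Bool) :
    (decide ((i + 1) % 2 = 0) = ρ) ↔ ¬ (decide (i % 2 = 0) = ρ) := by
  rcases Nat.mod_two_eq_zero_or_one i with h | h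
  · rw [show (i + 1) % 2 = 1 by omega, h]
    cases ρ <;> simp
  · rw [show (i + 1) % 2 = 0 by omega, h]
    cases ρ <;> simp

private theorem cm_parne {i j : ℕ} {ρ : Bool} (hj : decide (j % 2 = 0) = ρ)
    (hi : ¬ (decide (i % 2 = 0) = ρ)) : j ≠ i := by
  rintro rfl
  exact hi hj

private theorem cm_dl_ins (i : ℕ) (b : ZMod 3) (c : Cg) : dl3 i (ins3 i b c) = c := by
  funext j
  rcases Nat.lt_or_ge i j with h | h
  · rw [cm_dl_gt _ h, cm_ins_gt b c (by omega)]
    rfl
  · rw [cm_dl_le _ h, cm_ins_le b c h]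

private theorem cm_dl_ins1 (i : ℕ) (b : ZMod 3) (c : Cg) : dl3 i (ins3 (i + 1) b c) = c := by
  funext j
  rcases Nat.lt_or_ge i j with h | h
  · rw [cm_dl_gt _ h, cm_ins_gt b c (by omega)]
    rfl
  · rw [cm_dl_le _ h, cm_ins_le b c (by omega)]

private theorem cm_dl1_ins (i : ℕ) (b : ZMod 3) (c : Cg) (j : ℕ) (h : b = c (i + 1) ∨ j ≠ i + 1) :
    dl3 (i + 1) (ins3 i b c) j = c j := by
  rcases Nat.lt_or_ge (i + 1) j with h1 | h1
  · rw [cm_dl_gt _ h1, cm_ins_gt b c (by omega)]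
    rfl
  · rw [cm_dl_le _ h1]
    rcases Nat.lt_or_ge i j with h' | h'
    · have hj : j = i + 1 := by omega
      rcases h with h | h
      · rw [cm_ins_eq b c hj, h, hj]
      · exact absurd hj h
    · rw [cm_ins_le b c h']

/-- distant deletion and insertion, the insertion to the right -/
private theorem cm_e4 (i k : ℕ) (b : ZMod 3) (c : Cg) (j : ℕ) (h : c i = c (i + 2) ∨ j ≠ i + 2) :
    dl3 i (ins3 (i + k + 2) b c) j = ins3 (i + k) b (dl3 i c) j := by
  rcases Nat.lt_or_ge i j with h1 | h1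
  · rw [cm_dl_gt _ h1]
    rcases Nat.lt_trichotomy j (i + k + 1) with h' | h' | h'
    · rw [cm_ins_le b c (by omega), cm_ins_le b _ (by omega), cm_dl_gt _ h1]
    · rw [cm_ins_eq b c (by omega), cm_ins_eq b _ (by omega)]
    · rw [cm_ins_gt b c (by omega), cm_ins_gt b _ (by omega)]
      rcases h with h | h
      · rw [cm_dl_ge c h (by omega), show j + 2 - 2 = j - 2 + 2 by omega]
      · rw [cm_dl_gt c (by omega), show j + 2 - 2 = j - 2 + 2 by omega]
  · rw [cm_dl_le _ h1, cm_ins_le b c (by omega), cm_ins_le b _ (by omega), cm_dl_le _ h1]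

/-- distant deletion and insertion, the insertion to the left -/
private theorem cm_e5 (i k : ℕ) (b : ZMod 3) (c : Cg) :
    dl3 (i + k + 2) (ins3 i b c) = ins3 i b (dl3 (i + k) c) := by
  funext j
  rcases Nat.lt_or_ge (i + k + 2) j with h | h
  · rw [cm_dl_gt _ h, cm_ins_gt b c (by omega), cm_ins_gt b _ (by omega),
      cm_dl_gt _ (by omega), show j + 2 - 2 = j - 2 + 2 by omega]
  · rw [cm_dl_le _ h]
    rcases Nat.lt_trichotomy j (i + 1) with h' | h' | h'
    · rw [cm_ins_le b c (by omega), cm_ins_le b _ (by omega), cm_dl_le _ (by omega)]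
    · rw [cm_ins_eq b c h', cm_ins_eq b _ h']
    · rw [cm_ins_gt b c (by omega), cm_ins_gt b _ (by omega), cm_dl_le _ (by omega)]

private theorem cm_dldl (i k : ℕ) (c : Cg) :
    dl3 i (dl3 (i + 2 + k) c) = dl3 (i + k) (dl3 i c) := by
  funext j
  rcases Nat.lt_or_ge i j with h | h
  · rw [cm_dl_gt _ h]
    rcases Nat.lt_or_ge (i + k) j with h' | h'
    · rw [cm_dl_gt _ (by omega), cm_dl_gt _ h', cm_dl_gt _ (by omega)]
    · rw [cm_dl_le _ (by omega), cm_dl_le _ h', cm_dl_gt _ h]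
  · rw [cm_dl_le _ h, cm_dl_le _ (by omega), cm_dl_le _ (by omega), cm_dl_le _ h]

private theorem cm_insins (i k : ℕ) (b b' : ZMod 3) (c : Cg) :
    ins3 i b' (ins3 (i + k) b c) = ins3 (i + 2 + k) b (ins3 i b' c) := by
  funext j
  rcases Nat.lt_trichotomy j (i + 1) with h | h | h
  · rw [cm_ins_le b' _ (by omega), cm_ins_le b _ (by omega), cm_ins_le b _ (by omega),
      cm_ins_le b' _ (by omega)]
  · rw [cm_ins_eq b' _ h, cm_ins_le b _ (by omega), cm_ins_eq b' _ h]
  · rw [cm_ins_gt b' _ (by omega)]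
    rcases Nat.lt_trichotomy j (i + 2 + k + 1) with h' | h' | h'
    · rw [cm_ins_le b _ (by omega), cm_ins_le b _ (by omega), cm_ins_gt b' _ (by omega)]
    · rw [cm_ins_eq b _ (by omega), cm_ins_eq b _ h']
    · rw [cm_ins_gt b _ (by omega), cm_ins_gt b _ (by omega), cm_ins_gt b' _ (by omega)]

private theorem cm_sqrt_pos : (0 : ℝ) < Real.sqrt 3 := Real.sqrt_pos.mpr (by norm_num)

private theorem cm_inv3 : (Real.sqrt 3)⁻¹ * 3 = Real.sqrt 3 := by
  have h := cm_sqrt_pos
  have h2 : Real.sqrt 3 * Real.sqrt 3 = 3 := Real.mul_self_sqrt (by norm_num)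
  field_simp
  nlinarith

/-! ### cups and caps -/

open Classical in
/-- the cup -/
private noncomputable def cm_cup (ρ : Bool) (i : ℕ) : (Cg → ℝ) →ₗ[ℝ] (Cg → ℝ) where
  toFun ψ := fun c => if decide (i % 2 = 0) = ρ then
    (if c i = c (i + 2) then Real.sqrt 3 * ψ (dl3 i c) else 0) else ψ (dl3 i c)
  map_add' ψ φ := by
    funext c
    show (if decide (i % 2 = 0) = ρ then
        (if c i = c (i + 2) then Real.sqrt 3 * (ψ (dl3 i c) + φ (dl3 i c)) else 0)
        else ψ (dl3 i c) + φ (dl3 i c)) =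
      (if decide (i % 2 = 0) = ρ then
        (if c i = c (i + 2) then Real.sqrt 3 * ψ (dl3 i c) else 0) else ψ (dl3 i c)) +
      (if decide (i % 2 = 0) = ρ then
        (if c i = c (i + 2) then Real.sqrt 3 * φ (dl3 i c) else 0) else φ (dl3 i c))
    split_ifs
    · rw [mul_add]
    · rw [add_zero]
    · rfl
  map_smul' a ψ := by
    funext c
    show (if decide (i % 2 = 0) = ρ then
        (if c i = c (i + 2) then Real.sqrt 3 * (a * ψ (dl3 i c)) else 0)
        else a * ψ (dl3 i c)) =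
      a * (if decide (i % 2 = 0) = ρ then
        (if c i = c (i + 2) then Real.sqrt 3 * ψ (dl3 i c) else 0) else ψ (dl3 i c))
    split_ifs
    · ring
    · rw [mul_zero]
    · rfl

/-- the cap -/
private noncomputable def cm_cap (ρ : Bool) (i : ℕ) : (Cg → ℝ) →ₗ[ℝ] (Cg → ℝ) where
  toFun ψ := fun c => if decide (i % 2 = 0) = ρ then ψ (ins3 i 0 c)
    else (Real.sqrt 3)⁻¹ * ∑ b : ZMod 3, ψ (ins3 i b c)
  map_add' ψ φ := by
    funext c
    show (if decide (i % 2 = 0) = ρ then ψ (ins3 i 0 c) + φ (ins3 i 0 c)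
        else (Real.sqrt 3)⁻¹ * ∑ b : ZMod 3, (ψ (ins3 i b c) + φ (ins3 i b c))) =
      (if decide (i % 2 = 0) = ρ then ψ (ins3 i 0 c)
        else (Real.sqrt 3)⁻¹ * ∑ b : ZMod 3, ψ (ins3 i b c)) +
      (if decide (i % 2 = 0) = ρ then φ (ins3 i 0 c)
        else (Real.sqrt 3)⁻¹ * ∑ b : ZMod 3, φ (ins3 i b c))
    split_ifs
    · rfl
    · rw [Finset.sum_add_distrib, mul_add]
  map_smul' a ψ := by
    funext c
    show (if decide (i % 2 = 0) = ρ then a * ψ (ins3 i 0 c)
        else (Real.sqrt 3)⁻¹ * ∑ b : ZMod 3, a * ψ (ins3 i b c)) =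
      a * (if decide (i % 2 = 0) = ρ then ψ (ins3 i 0 c)
        else (Real.sqrt 3)⁻¹ * ∑ b : ZMod 3, ψ (ins3 i b c))
    split_ifs
    · rfl
    · rw [← Finset.mul_sum]
      ring

/-- the support: the function depends only on the entries `≤ n` of parity `ρ` -/
private def cm_supp (ρ : Bool) (n : ℕ) (ψ : Cg → ℝ) : Prop :=
  ∀ c c' : Cg, (∀ j ≤ n, decide (j % 2 = 0) = ρ → c j = c' j) → ψ c = ψ c'

/-- a colour model, given by its operations -/
private structure cm_W (ρ : Bool) (cup cap : ℕ → (Cg → ℝ) → (Cg → ℝ)) : Prop where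
  cupT : ∀ (i : ℕ) (ψ : Cg → ℝ) (c : Cg), decide (i % 2 = 0) = ρ → c i = c (i + 2) →
    cup i ψ c = Real.sqrt 3 * ψ (dl3 i c)
  cupZ : ∀ (i : ℕ) (ψ : Cg → ℝ) (c : Cg), decide (i % 2 = 0) = ρ → c i ≠ c (i + 2) →
    cup i ψ c = 0
  cupF : ∀ (i : ℕ) (ψ : Cg → ℝ) (c : Cg), ¬ (decide (i % 2 = 0) = ρ) → cup i ψ c = ψ (dl3 i c)
  capT : ∀ (i : ℕ) (ψ : Cg → ℝ) (c : Cg), decide (i % 2 = 0) = ρ → cap i ψ c = ψ (ins3 i 0 c)
  capF : ∀ (i : ℕ) (ψ : Cg → ℝ) (c : Cg), ¬ (decide (i % 2 = 0) = ρ) →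
    cap i ψ c = (Real.sqrt 3)⁻¹ * ∑ b : ZMod 3, ψ (ins3 i b c)

private theorem cm_W0 (ρ : Bool) : cm_W ρ (fun i ψ => cm_cup ρ i ψ) (fun i ψ => cm_cap ρ i ψ) where
  cupT i ψ c h hc := by
    show (if decide (i % 2 = 0) = ρ then
      (if c i = c (i + 2) then Real.sqrt 3 * ψ (dl3 i c) else 0) else ψ (dl3 i c)) = _
    rw [if_pos h, if_pos hc]
  cupZ i ψ c h hc := by
    show (if decide (i % 2 = 0) = ρ then
      (if c i = c (i + 2) then Real.sqrt 3 * ψ (dl3 i c) else 0) else ψ (dl3 i c)) = _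
    rw [if_pos h, if_neg hc]
  cupF i ψ c h := by
    show (if decide (i % 2 = 0) = ρ then
      (if c i = c (i + 2) then Real.sqrt 3 * ψ (dl3 i c) else 0) else ψ (dl3 i c)) = _
    rw [if_neg h]
  capT i ψ c h := by
    show (if decide (i % 2 = 0) = ρ then ψ (ins3 i 0 c)
        else (Real.sqrt 3)⁻¹ * ∑ b : ZMod 3, ψ (ins3 i b c)) = _
    rw [if_pos h]
  capF i ψ c h := by
    show (if decide (i % 2 = 0) = ρ then ψ (ins3 i 0 c)
        else (Real.sqrt 3)⁻¹ * ∑ b : ZMod 3, ψ (ins3 i b c)) = _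
    rw [if_neg h]

private theorem cm_W1 {ρ : Bool} {M : Model ℝ (Cg → ℝ)} (hM : CM ρ M) :
    cm_W ρ (fun i ψ => M.cup i ψ) (fun i ψ => M.cap i ψ) where
  cupT i ψ c h hc := by
    show M.cup i ψ c = _
    rw [hM.cup, if_pos h, if_pos hc]
  cupZ i ψ c h hc := by
    show M.cup i ψ c = _
    rw [hM.cup, if_pos h, if_neg hc]
  cupF i ψ c h := by
    show M.cup i ψ c = _
    rw [hM.cup, if_neg h]
  capT i ψ c h := by
    show M.cap i ψ c = _
    rw [hM.cap, if_pos h]
  capF i ψ c h := by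
    show M.cap i ψ c = _
    rw [hM.cap, if_neg h]

section rel

variable {ρ : Bool} {cup cap : ℕ → (Cg → ℝ) → (Cg → ℝ)} (W : cm_W ρ cup cap)
include W

private theorem cm_supp_cup (n i : ℕ) (ψ : Cg → ℝ) (hi : i ≤ n) (h : cm_supp ρ n ψ) :
    cm_supp ρ (n + 2) (cup i ψ) := by
  intro c c' hc
  have h1 : ψ (dl3 i c) = ψ (dl3 i c') := by
    refine h _ _ fun j hj hp => ?_
    rcases Nat.lt_or_ge i j with h' | h'
    · rw [cm_dl_gt _ h', cm_dl_gt _ h']
      exact hc (j + 2) (by omega) (by rw [cm_par2]; exact hp)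
    · rw [cm_dl_le _ h', cm_dl_le _ h']
      exact hc j (by omega) hp
  by_cases hp : decide (i % 2 = 0) = ρ
  · have a1 : c i = c' i := hc i (by omega) hp
    have a2 : c (i + 2) = c' (i + 2) := hc (i + 2) (by omega) (by rw [cm_par2]; exact hp)
    by_cases hq : c i = c (i + 2)
    · rw [W.cupT i ψ c hp hq, W.cupT i ψ c' hp (by rw [← a1, ← a2]; exact hq), h1]
    · rw [W.cupZ i ψ c hp hq, W.cupZ i ψ c' hp (by rw [← a1, ← a2]; exact hq)]
  · rw [W.cupF i ψ c hp, W.cupF i ψ c' hp, h1]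

private theorem cm_supp_cap (n i : ℕ) (ψ : Cg → ℝ) (hi : i ≤ n) (h : cm_supp ρ (n + 2) ψ) :
    cm_supp ρ n (cap i ψ) := by
  intro c c' hc
  have h1 : ∀ b, ψ (ins3 i b c) = ψ (ins3 i b c') := by
    intro b
    refine h _ _ fun j hj hp => ?_
    rcases Nat.lt_trichotomy j (i + 1) with h' | h' | h'
    · rw [cm_ins_le b _ (by omega), cm_ins_le b _ (by omega)]
      exact hc j (by omega) hp
    · rw [cm_ins_eq b _ h', cm_ins_eq b _ h']
    · rw [cm_ins_gt b _ (by omega), cm_ins_gt b _ (by omega)]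
      exact hc (j - 2) (by omega) (by rw [cm_parsub (by omega)]; exact hp)
  by_cases hp : decide (i % 2 = 0) = ρ
  · rw [W.capT i ψ c hp, W.capT i ψ c' hp, h1]
  · rw [W.capF i ψ c hp, W.capF i ψ c' hp]
    simp only [h1]

private theorem cm_rel1 (i : ℕ) (ψ : Cg → ℝ) : cap i (cup i ψ) = Real.sqrt 3 • ψ := by
  funext c
  show _ = Real.sqrt 3 * ψ c
  by_cases hp : decide (i % 2 = 0) = ρ
  · rw [W.capT _ _ _ hp, W.cupT _ _ _ hp, cm_dl_ins]
    rw [cm_ins_le _ _ le_rfl, cm_ins_gt _ _ le_rfl]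
    rfl
  · rw [W.capF _ _ _ hp]
    have h1 : ∀ b : ZMod 3, cup i ψ (ins3 i b c) = ψ c := fun b => by
      rw [W.cupF _ _ _ hp, cm_dl_ins]
    simp only [h1]
    rw [Finset.sum_const, Finset.card_univ, ZMod.card, nsmul_eq_mul, ← mul_assoc]
    push_cast
    rw [cm_inv3]

omit W in
private theorem cm_pick (a : ZMod 3) (f : ZMod 3 → ℝ) (v : ℝ)
    (h1 : f a = Real.sqrt 3 * v) (h2 : ∀ b, b ≠ a → f b = 0) :
    (Real.sqrt 3)⁻¹ * ∑ b : ZMod 3, f b = v := by
  rw [Finset.sum_eq_single a (fun b _ hb => h2 b hb) (fun h => absurd (Finset.mem_univ a) h), h1,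
    ← mul_assoc, inv_mul_cancel₀ cm_sqrt_pos.ne', one_mul]

private theorem cm_rel2 (i : ℕ) (ψ : Cg → ℝ) : cap (i + 1) (cup i ψ) = ψ := by
  funext c
  by_cases hp : decide (i % 2 = 0) = ρ
  · have hp1 : ¬ (decide ((i + 1) % 2 = 0) = ρ) := fun h => (cm_par1 i ρ).1 h hp
    rw [W.capF _ _ _ hp1]
    have e : ∀ b : ZMod 3, ins3 (i + 1) b c (i + 2) = b := fun b => cm_ins_eq b c rfl
    have e' : ∀ b : ZMod 3, ins3 (i + 1) b c i = c i := fun b => cm_ins_le b c (by omega)
    refine cm_pick (c i) _ _ ?_ ?_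
    · rw [W.cupT _ _ _ hp (by rw [e, e']), cm_dl_ins1]
    · intro b hb
      rw [W.cupZ _ _ _ hp (by rw [e, e']; exact hb.symm)]
  · have hp1 : decide ((i + 1) % 2 = 0) = ρ := (cm_par1 i ρ).2 hp
    rw [W.capT _ _ _ hp1, W.cupF _ _ _ hp, cm_dl_ins1]

private theorem cm_rel3 (n i : ℕ) (ψ : Cg → ℝ) (hs : cm_supp ρ n ψ) :
    cap i (cup (i + 1) ψ) = ψ := by
  funext c
  by_cases hp : decide (i % 2 = 0) = ρ
  · have hp1 : ¬ (decide ((i + 1) % 2 = 0) = ρ) := fun h => (cm_par1 i ρ).1 h hp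
    rw [W.capT _ _ _ hp, W.cupF _ _ _ hp1]
    exact hs _ _ fun j _ hj => cm_dl1_ins i 0 c j (Or.inr (cm_parne hj hp1))
  · have hp1 : decide ((i + 1) % 2 = 0) = ρ := (cm_par1 i ρ).2 hp
    rw [W.capF _ _ _ hp]
    have e : ∀ b : ZMod 3, ins3 i b c (i + 1) = b := fun b => cm_ins_eq b c rfl
    have e' : ∀ b : ZMod 3, ins3 i b c (i + 1 + 2) = c (i + 1) := fun b => by
      rw [cm_ins_gt b c (by omega)]
      rfl
    refine cm_pick (c (i + 1)) _ _ ?_ ?_
    · rw [W.cupT _ _ _ hp1 (by rw [e, e'])]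
      have e2 : dl3 (i + 1) (ins3 i (c (i + 1)) c) = c :=
        funext fun j => cm_dl1_ins i _ c j (Or.inl rfl)
      rw [e2]
    · intro b hb
      rw [W.cupZ _ _ _ hp1 (by rw [e, e']; exact hb)]

private theorem cm_rel4 (n i k : ℕ) (ψ : Cg → ℝ) (hs : cm_supp ρ n ψ) :
    cap (i + k + 2) (cup i ψ) = cup i (cap (i + k) ψ) := by
  funext c
  have a0 : ∀ b, ins3 (i + k + 2) b c i = c i := fun b => cm_ins_le b c (by omega)
  have a1 : ∀ b, ins3 (i + k + 2) b c (i + 2) = c (i + 2) := fun b => cm_ins_le b c (by omega)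
  by_cases hp : decide (i % 2 = 0) = ρ
  · by_cases hc : c i = c (i + 2)
    · have h1 : ∀ b, cup i ψ (ins3 (i + k + 2) b c) =
          Real.sqrt 3 * ψ (ins3 (i + k) b (dl3 i c)) := by
        intro b
        rw [W.cupT _ _ _ hp (by rw [a0, a1]; exact hc),
          show dl3 i (ins3 (i + k + 2) b c) = ins3 (i + k) b (dl3 i c) from
            funext fun j => cm_e4 i k b c j (Or.inl hc)]
      rw [W.cupT _ _ _ hp hc]
      by_cases hq : decide ((i + k) % 2 = 0) = ρ
      · rw [W.capT _ _ _ (by rw [cm_par2]; exact hq), W.capT _ _ _ hq, h1]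
      · rw [W.capF _ _ _ (by rw [cm_par2]; exact hq), W.capF _ _ _ hq]
        simp only [h1]
        rw [← Finset.mul_sum]
        ring
    · have h1 : ∀ b, cup i ψ (ins3 (i + k + 2) b c) = 0 := by
        intro b
        rw [W.cupZ _ _ _ hp (by rw [a0, a1]; exact hc)]
      rw [W.cupZ _ _ _ hp hc]
      by_cases hq : decide ((i + k) % 2 = 0) = ρ
      · rw [W.capT _ _ _ (by rw [cm_par2]; exact hq), h1]
      · rw [W.capF _ _ _ (by rw [cm_par2]; exact hq)]
        simp only [h1]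
        simp
  · have h1 : ∀ b, cup i ψ (ins3 (i + k + 2) b c) = ψ (ins3 (i + k) b (dl3 i c)) := by
      intro b
      rw [W.cupF _ _ _ hp]
      refine hs _ _ fun j _ hj => cm_e4 i k b c j (Or.inr (cm_parne hj ?_))
      rw [cm_par2]
      exact hp
    rw [W.cupF _ _ _ hp]
    by_cases hq : decide ((i + k) % 2 = 0) = ρ
    · rw [W.capT _ _ _ (by rw [cm_par2]; exact hq), W.capT _ _ _ hq, h1]
    · rw [W.capF _ _ _ (by rw [cm_par2]; exact hq), W.capF _ _ _ hq]
      simp only [h1]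

private theorem cm_rel5 (i k : ℕ) (ψ : Cg → ℝ) :
    cap i (cup (i + k + 2) ψ) = cup (i + k) (cap i ψ) := by
  funext c
  have a0 : ∀ b, ins3 i b c (i + k + 2) = c (i + k) := fun b => by
    rw [cm_ins_gt b c (by omega)]
    rfl
  have a1 : ∀ b, ins3 i b c (i + k + 2 + 2) = c (i + k + 2) := fun b => by
    rw [cm_ins_gt b c (by omega)]
    rfl
  by_cases hq : decide ((i + k) % 2 = 0) = ρ
  · have hq2 : decide ((i + k + 2) % 2 = 0) = ρ := by rw [cm_par2]; exact hq
    by_cases hc : c (i + k) = c (i + k + 2)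
    · have h1 : ∀ b, cup (i + k + 2) ψ (ins3 i b c) =
          Real.sqrt 3 * ψ (ins3 i b (dl3 (i + k) c)) := by
        intro b
        rw [W.cupT _ _ _ hq2 (by rw [a0, a1]; exact hc), cm_e5]
      rw [W.cupT _ _ _ hq hc]
      by_cases hp : decide (i % 2 = 0) = ρ
      · rw [W.capT _ _ _ hp, W.capT _ _ _ hp, h1]
      · rw [W.capF _ _ _ hp, W.capF _ _ _ hp]
        simp only [h1]
        rw [← Finset.mul_sum]
        ring
    · have h1 : ∀ b, cup (i + k + 2) ψ (ins3 i b c) = 0 := by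
        intro b
        rw [W.cupZ _ _ _ hq2 (by rw [a0, a1]; exact hc)]
      rw [W.cupZ _ _ _ hq hc]
      by_cases hp : decide (i % 2 = 0) = ρ
      · rw [W.capT _ _ _ hp, h1]
      · rw [W.capF _ _ _ hp]
        simp only [h1]
        simp
  · have hq2 : ¬ (decide ((i + k + 2) % 2 = 0) = ρ) := by rw [cm_par2]; exact hq
    have h1 : ∀ b, cup (i + k + 2) ψ (ins3 i b c) = ψ (ins3 i b (dl3 (i + k) c)) := by
      intro b
      rw [W.cupF _ _ _ hq2, cm_e5]
    rw [W.cupF _ _ _ hq]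
    by_cases hp : decide (i % 2 = 0) = ρ
    · rw [W.capT _ _ _ hp, W.capT _ _ _ hp, h1]
    · rw [W.capF _ _ _ hp, W.capF _ _ _ hp]
      simp only [h1]

/-! ### distant cups and caps -/

private theorem cm_cupcup (i k : ℕ) (ψ : Cg → ℝ) :
    cup (i + 2 + k) (cup i ψ) = cup i (cup (i + k) ψ) := by
  funext c
  have a0 : dl3 (i + 2 + k) c i = c i := cm_dl_le c (by omega)
  have a2 : dl3 (i + 2 + k) c (i + 2) = c (i + 2) := cm_dl_le c (by omega)
  have hpar : decide ((i + 2 + k) % 2 = 0) = decide ((i + k) % 2 = 0) := by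
    rw [show i + 2 + k = i + k + 2 by omega, cm_par2]
  have b2 : dl3 i c (i + k + 2) = c (i + 2 + k + 2) := by
    rw [cm_dl_gt c (by omega), show i + k + 2 + 2 = i + 2 + k + 2 by omega]
  by_cases hp : decide (i % 2 = 0) = ρ
  · by_cases hc : c i = c (i + 2)
    · have b0 : dl3 i c (i + k) = c (i + 2 + k) := by
        rw [cm_dl_ge c hc (by omega), show i + k + 2 = i + 2 + k by omega]
      rw [W.cupT _ _ _ hp hc]
      by_cases hq : decide ((i + k) % 2 = 0) = ρ
      · have hq2 : decide ((i + 2 + k) % 2 = 0) = ρ := by rw [hpar]; exact hq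
        by_cases hd : c (i + 2 + k) = c (i + 2 + k + 2)
        · rw [W.cupT _ _ _ hq2 hd, W.cupT _ _ _ hp (by rw [a0, a2]; exact hc),
            W.cupT _ _ _ hq (by rw [b0, b2]; exact hd), cm_dldl]
        · rw [W.cupZ _ _ _ hq2 hd, W.cupZ _ _ _ hq (by rw [b0, b2]; exact hd), mul_zero]
      · have hq2 : ¬ (decide ((i + 2 + k) % 2 = 0) = ρ) := by rw [hpar]; exact hq
        rw [W.cupF _ _ _ hq2, W.cupT _ _ _ hp (by rw [a0, a2]; exact hc),
          W.cupF _ _ _ hq, cm_dldl]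
    · rw [W.cupZ _ _ _ hp hc]
      by_cases hq : decide ((i + k) % 2 = 0) = ρ
      · have hq2 : decide ((i + 2 + k) % 2 = 0) = ρ := by rw [hpar]; exact hq
        by_cases hd : c (i + 2 + k) = c (i + 2 + k + 2)
        · rw [W.cupT _ _ _ hq2 hd, W.cupZ _ _ _ hp (by rw [a0, a2]; exact hc), mul_zero]
        · rw [W.cupZ _ _ _ hq2 hd]
      · have hq2 : ¬ (decide ((i + 2 + k) % 2 = 0) = ρ) := by rw [hpar]; exact hq
        rw [W.cupF _ _ _ hq2, W.cupZ _ _ _ hp (by rw [a0, a2]; exact hc)]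
  · rw [W.cupF _ _ _ hp]
    by_cases hq : decide ((i + k) % 2 = 0) = ρ
    · have hq2 : decide ((i + 2 + k) % 2 = 0) = ρ := by rw [hpar]; exact hq
      have hk : k ≠ 0 := by
        rintro rfl
        exact hp hq
      have b0 : dl3 i c (i + k) = c (i + 2 + k) := by
        rw [cm_dl_gt c (by omega), show i + k + 2 = i + 2 + k by omega]
      by_cases hd : c (i + 2 + k) = c (i + 2 + k + 2)
      · rw [W.cupT _ _ _ hq2 hd, W.cupF _ _ _ hp, W.cupT _ _ _ hq (by rw [b0, b2]; exact hd),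
          cm_dldl]
      · rw [W.cupZ _ _ _ hq2 hd, W.cupZ _ _ _ hq (by rw [b0, b2]; exact hd)]
    · have hq2 : ¬ (decide ((i + 2 + k) % 2 = 0) = ρ) := by rw [hpar]; exact hq
      rw [W.cupF _ _ _ hq2, W.cupF _ _ _ hp, W.cupF _ _ _ hq, cm_dldl]

private theorem cm_capcap (i k : ℕ) (ψ : Cg → ℝ) :
    cap (i + k) (cap i ψ) = cap i (cap (i + 2 + k) ψ) := by
  funext c
  have hpar : decide ((i + 2 + k) % 2 = 0) = decide ((i + k) % 2 = 0) := by
    rw [show i + 2 + k = i + k + 2 by omega, cm_par2]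
  by_cases hp : decide (i % 2 = 0) = ρ
  · rw [W.capT _ (cap (i + 2 + k) ψ) _ hp]
    by_cases hq : decide ((i + k) % 2 = 0) = ρ
    · rw [W.capT _ _ _ hq, W.capT _ _ _ hp, W.capT _ _ _ (by rw [hpar]; exact hq), cm_insins]
    · rw [W.capF _ _ _ hq, W.capF _ _ _ (by rw [hpar]; exact hq)]
      congr 1
      refine Finset.sum_congr rfl fun b _ => ?_
      rw [W.capT _ _ _ hp, cm_insins]
  · rw [W.capF _ (cap (i + 2 + k) ψ) _ hp]
    by_cases hq : decide ((i + k) % 2 = 0) = ρ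
    · rw [W.capT _ _ _ hq, W.capF _ _ _ hp]
      congr 1
      refine Finset.sum_congr rfl fun b _ => ?_
      rw [W.capT _ _ _ (by rw [hpar]; exact hq), cm_insins]
    · rw [W.capF _ _ _ hq]
      congr 1
      have h1 : ∀ b, cap i ψ (ins3 (i + k) b c) = (Real.sqrt 3)⁻¹ *
          ∑ b' : ZMod 3, ψ (ins3 (i + 2 + k) b (ins3 i b' c)) := by
        intro b
        rw [W.capF _ _ _ hp]
        simp only [cm_insins]
      have h2 : ∀ b', cap (i + 2 + k) ψ (ins3 i b' c) = (Real.sqrt 3)⁻¹ *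
          ∑ b : ZMod 3, ψ (ins3 (i + 2 + k) b (ins3 i b' c)) := by
        intro b'
        rw [W.capF _ _ _ (by rw [hpar]; exact hq)]
      simp only [h1, h2]
      rw [← Finset.mul_sum, ← Finset.mul_sum, Finset.sum_comm]

end rel

/-- the colour model -/
private noncomputable def cm_model (ρ : Bool) : Model ℝ (Cg → ℝ) where
  Supp := cm_supp ρ
  δ := Real.sqrt 3
  init := fun _ => 1
  cup := cm_cup ρ
  cap := cm_cap ρ
  supp_init := fun _ _ _ => rfl
  supp_cup n i ψ hi h := cm_supp_cup (cm_W0 ρ) n i ψ hi h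
  supp_cap n i ψ hi h := cm_supp_cap (cm_W0 ρ) n i ψ hi h
  rel1 _ i ψ _ _ := cm_rel1 (cm_W0 ρ) i ψ
  rel2 _ i ψ _ _ := cm_rel2 (cm_W0 ρ) i ψ
  rel3 n i ψ hs _ := cm_rel3 (cm_W0 ρ) n i ψ hs
  rel4 n i k ψ hs _ := cm_rel4 (cm_W0 ρ) n i k ψ hs
  rel5 _ i k ψ _ _ := cm_rel5 (cm_W0 ρ) i k ψ

private theorem cm_ex (ρ : Bool) : ∃ M : Model ℝ (Cg → ℝ), CM ρ M :=
  ⟨cm_model ρ, rfl, fun _ _ => Iff.rfl, rfl, fun _ _ _ => rfl, fun _ _ _ => rfl⟩

private theorem cm_cc {ρ : Bool} {M : Model ℝ (Cg → ℝ)} (hM : CM ρ M) : Cc M :=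
  ⟨fun _ i k x _ _ => cm_cupcup (cm_W1 hM) i k x, fun _ i k x _ _ => cm_capcap (cm_W1 hM) i k x⟩

/-! ### the poles -/

private theorem cm_PGT {ρ : Bool} {s : ZMod 3} {w : ℕ} {ψ : Cg → ℝ} {c : Cg}
    (h0 : ρ = true → c 0 = 0) (hw : decide (w % 2 = 0) = ρ → c w = 0) :
    PG ρ s w ψ c = ψ (tws s w c) := by
  unfold PG
  rw [if_pos ⟨h0, hw⟩]

private theorem cm_PGF {ρ : Bool} {s : ZMod 3} {w : ℕ} {ψ : Cg → ℝ} {c : Cg}
    (h : ¬ ((ρ = true → c 0 = 0) ∧ (decide (w % 2 = 0) = ρ → c w = 0))) :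
    PG ρ s w ψ c = 0 := by
  unfold PG
  rw [if_neg h]

private theorem cm_s0 {s : ZMod 3} (hs : s * s = 1) {a : ZMod 3} : s * a = 0 ↔ a = 0 := by
  constructor
  · intro h
    have h1 : s * (s * a) = 0 := by rw [h, mul_zero]
    rwa [← mul_assoc, hs, one_mul] at h1
  · intro h
    rw [h, mul_zero]

private theorem cm_sinj {s : ZMod 3} (hs : s * s = 1) {a b : ZMod 3} : s * a = s * b ↔ a = b := by
  constructor
  · intro h
    have h1 : s * (s * a) = s * (s * b) := by rw [h]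
    rwa [← mul_assoc, ← mul_assoc, hs, one_mul, one_mul] at h1
  · intro h
    rw [h]

private theorem cm_pole {ρ : Bool} {M : Model ℝ (Cg → ℝ)} (hM : CM ρ M) {s : ZMod 3}
    (hs : s * s = 1) : Pole M (PG ρ s) := by
  have W := cm_W1 hM
  have hρ0 : (decide (0 % 2 = 0) = ρ) ↔ (ρ = true) := by
    cases ρ <;> simp
  refine ⟨?_, ?_, ?_, ?_, ?_, ?_⟩
  · -- support
    intro n w x hw hx
    rw [hM.supp] at hx ⊢
    intro c c' hc
    have a0 : ρ = true → c 0 = c' 0 := fun h => hc 0 (Nat.zero_le n) (hρ0.2 h)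
    have a1 : decide (w % 2 = 0) = ρ → c w = c' w := fun h => hc w hw h
    by_cases hq : (ρ = true → c 0 = 0) ∧ (decide (w % 2 = 0) = ρ → c w = 0)
    · rw [cm_PGT hq.1 hq.2, cm_PGT (fun h => (a0 h).symm.trans (hq.1 h))
        (fun h => (a1 h).symm.trans (hq.2 h))]
      refine hx _ _ fun j hj hp => ?_
      unfold tws
      rw [hc j hj hp]
    · rw [cm_PGF hq, cm_PGF]
      intro h
      exact hq ⟨fun h' => (a0 h').trans (h.1 h'), fun h' => (a1 h').trans (h.2 h')⟩
  · -- linearity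
    intro n w a x _ _
    funext c
    show PG ρ s w (a • x) c = a * PG ρ s w x c
    by_cases hq : (ρ = true → c 0 = 0) ∧ (decide (w % 2 = 0) = ρ → c w = 0)
    · rw [cm_PGT hq.1 hq.2, cm_PGT hq.1 hq.2]
      rfl
    · rw [cm_PGF hq, cm_PGF hq, mul_zero]
  · -- cups to the left
    intro n w i x hi hw hx
    rw [hM.supp] at hx
    funext c
    have z0 : dl3 i c 0 = c 0 := cm_dl_le c (Nat.zero_le i)
    by_cases hp : decide (i % 2 = 0) = ρ
    · by_cases hq : (ρ = true → c 0 = 0) ∧ (decide ((w + 2) % 2 = 0) = ρ → c (w + 2) = 0)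
      · rw [cm_PGT hq.1 hq.2]
        have hq2 : decide (w % 2 = 0) = ρ → c (w + 2) = 0 := by
          rw [cm_par2] at hq
          exact hq.2
        have key : tws s (w + 2) c i = tws s (w + 2) c (i + 2) ↔ c i = c (i + 2) := by
          rcases Nat.eq_zero_or_pos i with h0 | h0
          · subst h0
            have hc0 : c 0 = 0 := hq.1 (hρ0.1 hp)
            rw [cm_tw_z, hc0]
            rcases Nat.eq_zero_or_pos w with h1 | h1
            · rw [cm_tw_ge c (by omega)]
            · rw [cm_tw_in c (by omega) (by omega), eq_comm, cm_s0 hs, eq_comm]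
          · rw [cm_tw_in c h0 (by omega)]
            rcases Nat.lt_or_ge i w with h1 | h1
            · rw [cm_tw_in c (by omega) (by omega), cm_sinj hs]
            · obtain rfl : i = w := le_antisymm hi h1
              rw [cm_tw_ge c le_rfl, hq2 hp, cm_s0 hs]
        by_cases hc : c i = c (i + 2)
        · rw [W.cupT _ _ _ hp hc]
          have hcw : dl3 i c w = c (w + 2) := cm_dl_ge c hc hi
          rw [cm_PGT (by rw [z0]; exact hq.1) (by rw [hcw]; exact hq2)]
          have e : M.cup i x (tws s (w + 2) c) = Real.sqrt 3 * x (dl3 i (tws s (w + 2) c)) :=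
            W.cupT _ _ _ hp (key.2 hc)
          rw [e]
          congr 2
          funext j
          rcases Nat.lt_or_ge i j with h1 | h1
          · rw [cm_dl_gt _ h1]
            rcases Nat.lt_or_ge j w with h2 | h2
            · rw [cm_tw_in c (by omega) (by omega), cm_tw_in _ (by omega) h2, cm_dl_gt _ h1]
            · rw [cm_tw_ge c (by omega), cm_tw_ge _ h2, cm_dl_gt _ h1]
          · rw [cm_dl_le _ h1]
            rcases Nat.eq_zero_or_pos j with h0 | h0
            · subst h0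
              rw [cm_tw_z, cm_tw_z, cm_dl_le _ h1]
            · rw [cm_tw_in c h0 (by omega)]
              rcases Nat.lt_or_ge j w with h2 | h2
              · rw [cm_tw_in _ h0 h2, cm_dl_le _ h1]
              · obtain rfl : j = i := by omega
                obtain rfl : j = w := by omega
                rw [cm_tw_ge _ le_rfl, cm_dl_le _ le_rfl, hc, hq2 hp, mul_zero]
        · rw [W.cupZ _ _ _ hp hc]
          exact W.cupZ _ _ _ hp (fun h => hc (key.1 h))
      · rw [cm_PGF hq]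
        by_cases hc : c i = c (i + 2)
        · rw [W.cupT _ _ _ hp hc]
          have hcw : dl3 i c w = c (w + 2) := cm_dl_ge c hc hi
          rw [cm_PGF, mul_zero]
          rw [z0, hcw]
          rw [cm_par2] at hq
          exact hq
        · rw [W.cupZ _ _ _ hp hc]
    · have hcw : decide (w % 2 = 0) = ρ → dl3 i c w = c (w + 2) := by
        intro h
        have h1 : w ≠ i := cm_parne h hp
        exact cm_dl_gt c (by omega)
      rw [W.cupF _ _ _ hp]
      by_cases hq : (ρ = true → c 0 = 0) ∧ (decide ((w + 2) % 2 = 0) = ρ → c (w + 2) = 0)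
      · rw [cm_PGT hq.1 hq.2]
        have hq2 : decide (w % 2 = 0) = ρ → c (w + 2) = 0 := by
          rw [cm_par2] at hq
          exact hq.2
        rw [cm_PGT (by rw [z0]; exact hq.1) (fun h => by rw [hcw h]; exact hq2 h)]
        have e : M.cup i x (tws s (w + 2) c) = x (dl3 i (tws s (w + 2) c)) := W.cupF _ _ _ hp
        rw [e]
        refine hx _ _ fun j _ hj => ?_
        rcases Nat.lt_or_ge i j with h1 | h1
        · rw [cm_dl_gt _ h1]
          rcases Nat.lt_or_ge j w with h2 | h2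
          · rw [cm_tw_in c (by omega) (by omega), cm_tw_in _ (by omega) h2, cm_dl_gt _ h1]
          · rw [cm_tw_ge c (by omega), cm_tw_ge _ h2, cm_dl_gt _ h1]
        · rw [cm_dl_le _ h1]
          rcases Nat.eq_zero_or_pos j with h0 | h0
          · subst h0
            rw [cm_tw_z, cm_tw_z, cm_dl_le _ h1]
          · have hji : j ≠ i := cm_parne hj hp
            rw [cm_tw_in c h0 (by omega), cm_tw_in _ h0 (by omega), cm_dl_le _ h1]
      · rw [cm_PGF hq, cm_PGF]
        intro h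
        rw [z0] at h
        apply hq
        refine ⟨h.1, fun h' => ?_⟩
        rw [cm_par2] at h'
        rw [← hcw h']
        exact h.2 h'
  · -- cups to the right
    intro n w i x hi hw hx
    funext c
    have z0 : dl3 i c 0 = c 0 := cm_dl_le c (Nat.zero_le i)
    have zw : dl3 i c w = c w := cm_dl_le c hi
    have t1 : tws s w c i = c i := cm_tw_ge c hi
    have t2 : tws s w c (i + 2) = c (i + 2) := cm_tw_ge c (by omega)
    have e : dl3 i (tws s w c) = tws s w (dl3 i c) := by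
      funext j
      rcases Nat.lt_or_ge i j with h1 | h1
      · rw [cm_dl_gt _ h1, cm_tw_ge _ (by omega), cm_tw_ge _ (by omega), cm_dl_gt _ h1]
      · rw [cm_dl_le _ h1]
        unfold tws
        rw [cm_dl_le _ h1]
    by_cases hq : (ρ = true → c 0 = 0) ∧ (decide (w % 2 = 0) = ρ → c w = 0)
    · rw [cm_PGT hq.1 hq.2]
      have hPG : PG ρ s w x (dl3 i c) = x (tws s w (dl3 i c)) :=
        cm_PGT (by rw [z0]; exact hq.1) (by rw [zw]; exact hq.2)
      by_cases hp : decide (i % 2 = 0) = ρ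
      · by_cases hc : c i = c (i + 2)
        · rw [W.cupT _ _ _ hp hc, hPG, ← e]
          exact W.cupT _ _ _ hp (by rw [t1, t2]; exact hc)
        · rw [W.cupZ _ _ _ hp hc]
          exact W.cupZ _ _ _ hp (by rw [t1, t2]; exact hc)
      · have e1 : M.cup i x (tws s w c) = x (dl3 i (tws s w c)) := W.cupF _ _ _ hp
        have e2 : M.cup i (PG ρ s w x) c = PG ρ s w x (dl3 i c) := W.cupF _ _ _ hp
        rw [e1, e2, hPG, e]
    · rw [cm_PGF hq]
      have hPG : PG ρ s w x (dl3 i c) = 0 := cm_PGF (by rw [z0, zw]; exact hq)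
      by_cases hp : decide (i % 2 = 0) = ρ
      · by_cases hc : c i = c (i + 2)
        · rw [W.cupT _ _ _ hp hc, hPG, mul_zero]
        · rw [W.cupZ _ _ _ hp hc]
      · rw [W.cupF _ _ _ hp, hPG]
  · -- caps to the left
    intro n w i x hi hw hx
    rw [hM.supp] at hx
    funext c
    have z0 : ∀ b, ins3 i b c 0 = c 0 := fun b => cm_ins_le b c (Nat.zero_le i)
    have zw : ∀ b, ins3 i b c (w + 2) = c w := fun b => by
      rw [cm_ins_gt b c (by omega)]
      rfl
    by_cases hq : (ρ = true → c 0 = 0) ∧ (decide (w % 2 = 0) = ρ → c w = 0)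
    · rw [cm_PGT hq.1 hq.2]
      have hPG : ∀ b, PG ρ s (w + 2) x (ins3 i b c) = x (ins3 i (s * b) (tws s w c)) := by
        intro b
        rw [cm_PGT (by rw [z0]; exact hq.1) (by rw [zw, cm_par2]; exact hq.2)]
        refine hx _ _ fun j _ hj => ?_
        rcases Nat.lt_trichotomy j (i + 1) with h1 | h1 | h1
        · rw [cm_ins_le _ _ (by omega)]
          rcases Nat.eq_zero_or_pos j with h0 | h0
          · subst h0
            rw [cm_tw_z, cm_tw_z, cm_ins_le _ _ (by omega)]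
          · rw [cm_tw_in _ h0 (by omega), cm_ins_le _ _ (by omega)]
            rcases Nat.lt_or_ge j w with h2 | h2
            · rw [cm_tw_in _ h0 h2]
            · obtain rfl : j = w := by omega
              rw [cm_tw_ge _ le_rfl, hq.2 hj, mul_zero]
        · rw [cm_tw_in _ (by omega) (by omega), cm_ins_eq _ _ h1, cm_ins_eq _ _ h1]
        · rw [cm_ins_gt _ _ (by omega)]
          rcases Nat.lt_or_ge j (w + 2) with h2 | h2
          · rw [cm_tw_in _ (by omega) h2, cm_ins_gt _ _ (by omega)]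
            rcases Nat.eq_zero_or_pos (j - 2) with h3 | h3
            · have hj2 : j = 2 := by omega
              subst hj2
              have hc0 : c 0 = 0 := hq.1 (hρ0.1 (by rw [← hj]))
              show s * c 0 = tws s w c 0
              rw [cm_tw_z, hc0, mul_zero]
            · rw [cm_tw_in _ h3 (by omega)]
          · rw [cm_tw_ge _ h2, cm_ins_gt _ _ (by omega), cm_tw_ge _ (by omega)]
      by_cases hp : decide (i % 2 = 0) = ρ
      · rw [W.capT _ _ _ hp, hPG, mul_zero]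
        exact (W.capT _ _ _ hp).symm
      · rw [W.capF _ _ _ hp]
        have e : M.cap i x (tws s w c) = (Real.sqrt 3)⁻¹ *
            ∑ b : ZMod 3, x (ins3 i b (tws s w c)) := W.capF _ _ _ hp
        rw [e]
        congr 1
        simp only [hPG]
        have hb : Function.Bijective (fun b : ZMod 3 => s * b) := by
          refine ⟨fun a b h => (cm_sinj hs).1 h, fun b => ⟨s * b, ?_⟩⟩
          show s * (s * b) = b
          rw [← mul_assoc, hs, one_mul]
        exact hb.sum_comp (fun b => x (ins3 i b (tws s w c)))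
    · rw [cm_PGF hq]
      have hPG : ∀ b, PG ρ s (w + 2) x (ins3 i b c) = 0 := by
        intro b
        refine cm_PGF ?_
        rw [z0, zw, cm_par2]
        exact hq
      by_cases hp : decide (i % 2 = 0) = ρ
      · rw [W.capT _ _ _ hp, hPG]
      · rw [W.capF _ _ _ hp]
        simp only [hPG]
        simp
  · -- caps to the right
    intro n w i x hi hw hx
    funext c
    have z0 : ∀ b, ins3 i b c 0 = c 0 := fun b => cm_ins_le b c (Nat.zero_le i)
    have zw : ∀ b, ins3 i b c w = c w := fun b => cm_ins_le b c hi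
    have e : ∀ b, tws s w (ins3 i b c) = ins3 i b (tws s w c) := by
      intro b
      funext j
      rcases Nat.lt_trichotomy j (i + 1) with h1 | h1 | h1
      · rw [cm_ins_le _ _ (by omega)]
        unfold tws
        rw [cm_ins_le _ _ (by omega)]
      · rw [cm_tw_ge _ (by omega), cm_ins_eq _ _ h1, cm_ins_eq _ _ h1]
      · rw [cm_tw_ge _ (by omega), cm_ins_gt _ _ (by omega), cm_ins_gt _ _ (by omega),
          cm_tw_ge _ (by omega)]
    by_cases hq : (ρ = true → c 0 = 0) ∧ (decide (w % 2 = 0) = ρ → c w = 0)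
    · rw [cm_PGT hq.1 hq.2]
      have hPG : ∀ b, PG ρ s w x (ins3 i b c) = x (ins3 i b (tws s w c)) := by
        intro b
        rw [cm_PGT (by rw [z0]; exact hq.1) (by rw [zw]; exact hq.2), e]
      by_cases hp : decide (i % 2 = 0) = ρ
      · rw [W.capT _ _ _ hp, hPG]
        exact (W.capT _ _ _ hp).symm
      · rw [W.capF _ _ _ hp]
        simp only [hPG]
        exact (W.capF _ _ _ hp).symm
    · rw [cm_PGF hq]
      have hPG : ∀ b, PG ρ s w x (ins3 i b c) = 0 := by
        intro b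
        refine cm_PGF ?_
        rw [z0, zw]
        exact hq
      by_cases hp : decide (i % 2 = 0) = ρ
      · rw [W.capT _ _ _ hp, hPG]
      · rw [W.capF _ _ _ hp]
        simp only [hPG]
        simp

/-- [CMD] the colour models exist, have commuting cups and caps, and the poles `PG ρ 1`,
`PG ρ (-1)`. -/
theorem thm_CMD : St_CMD := fun ρ => ⟨cm_ex ρ, fun _ hM =>
  ⟨cm_cc hM, cm_pole hM (by decide), cm_pole hM (by decide)⟩⟩

end Pool.TWC
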