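import Pool.Agent.TWC.StC

/-!
# TWC [CN2]: from Boolean colourings to connectedness
-/

set_option autoImplicit false

namespace Pool.TWC

open LaurentPolynomial Pool.Agent.ARB Pool.Agent.Helper2 Pool.ALT

/-- [CN2], see `St_CN2`. -/
theorem thm_CN2 : St_CN2 := by
  classical
  intro D hD hB r α f hf he x y hx hy
  obtain ⟨B, hB⟩ := hB
  let g : Loc 0 D → Bool := fun z => decide (pa 0 D z = r → f z = f x)
  have hg : Cp B 0 D g := by
    constructor
    · intro z z' h
      show decide (pa 0 D z = r → f z = f x) = decide (pa 0 D z' = r → f z' = f x)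
      rw [pa_R0 D 0 0 z z' hD h, hf z z' h]
    · intro k
      show decide (pa 0 D (ed (B k) 0 D k).1 = r → f (ed (B k) 0 D k).1 = f x) =
        decide (pa 0 D (ed (B k) 0 D k).2 = r → f (ed (B k) 0 D k).2 = f x)
      by_cases hr : B k = r
      · rw [hr, (pa_ed D 0 0 r k hD).1, (pa_ed D 0 0 r k hD).2, he k]
      · rw [(pa_ed D 0 0 (B k) k hD).1, (pa_ed D 0 0 (B k) k hD).2]
        have h1 : (B k = r → f (ed (B k) 0 D k).1 = f x) := fun h => absurd h hr
        have h2 : (B k = r → f (ed (B k) 0 D k).2 = f x) := fun h => absurd h hr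
        rw [decide_eq_true h1, decide_eq_true h2]
  have h1 : g y = g x := hB g hg y x (by rw [hx, hy])
  have h2 : g x = true := by
    show decide (pa 0 D x = r → f x = f x) = true
    exact decide_eq_true fun _ => rfl
  have h3 : decide (pa 0 D y = r → f y = f x) = true := h1.trans h2
  exact ((of_decide_eq_true h3) hy).symm

end Pool.TWC
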