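import Pool.Agent.TWC.StA

/-!
# TWC, module CNN: a unit gives a state with one circle (helper31)
-/

set_option autoImplicit false

namespace Pool.TWC

open LaurentPolynomial Pool.Agent.ARB Pool.Agent.Helper2 Pool.ALT

private theorem CNN_T (j : ℤ) :
    (LaurentPolynomial.eval₂ (RingHom.id ℤ) 1 (T j : LaurentPolynomial ℤ)) = 1 := by
  rw [LaurentPolynomial.eval₂_T, one_zpow, Units.val_one]

private theorem CNN_loop :
    (LaurentPolynomial.eval₂ (RingHom.id ℤ) 1 loopVal) = -2 := by
  unfold loopVal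
  rw [map_neg, map_add, CNN_T, CNN_T]
  norm_num

/-- **[CNN]** a unit gives a state with one circle (helper31) -/
theorem thm_CNN : St_CNN := by
  intro N w k τ p l m hPh h hpos hp
  by_contra hno
  push Not at hno
  have h2 : ∀ S, 2 ≤ l S + m S := fun S => by
    have h3 := hpos S
    have h4 := hno S
    omega
  have hφ := congrArg (LaurentPolynomial.eval₂ (RingHom.id ℤ) 1) h
  rw [map_mul, map_mul, CNN_T, CNN_loop, one_mul, map_sum] at hφ
  have hd : (4 : ℤ) ∣ -2 * LaurentPolynomial.eval₂ (RingHom.id ℤ) 1 p := by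
    rw [hφ]
    refine Finset.dvd_sum fun S _ => ?_
    rw [map_mul, map_mul, map_pow, CNN_T, CNN_loop, hPh, one_mul, ← pow_add]
    obtain ⟨c, hc⟩ := Nat.exists_eq_add_of_le (h2 S)
    rw [hc, pow_add]
    exact ⟨(-2) ^ c, by norm_num⟩
  have hu : IsUnit (LaurentPolynomial.eval₂ (RingHom.id ℤ) 1 p) := hp.map _
  rcases Int.isUnit_iff.1 hu with h3 | h3 <;> rw [h3] at hd <;> norm_num at hd

end Pool.TWC
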