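import Pool.Agent.TWC.StB

/-!
# TWC: the values of the colour models are numbers of solutions (module CNT)
-/

set_option autoImplicit false

namespace Pool.TWC

open LaurentPolynomial Pool.Agent.ARB Pool.Agent.Helper2 Pool.ALT

private theorem CNT_nX : ∀ u v : Word, nX (u ++ v) = nX u + nX v
  | [], v => by
      show nX v = 0 + nX v
      rw [zero_add]
  | ⟨.X _, _⟩ :: u, v => by
      show nX (u ++ v) + 1 = nX u + 1 + nX v
      rw [CNT_nX u v]
      omega
  | ⟨.U, _⟩ :: u, v => CNT_nX u v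
  | ⟨.N, _⟩ :: u, v => CNT_nX u v

private theorem CNT_gam (ρ : Bool) : ∀ (u v : Word) (B : ℕ → Bool),
    gam ρ B (u ++ v) = gam ρ B u + gam ρ (fun k => B (k + nX u)) v
  | [], v, B => by
      show gam ρ B v = 0 + gam ρ (fun k => B (k + 0)) v
      rw [zero_add]
      rfl
  | ⟨.X _, i⟩ :: u, v, B => by
      show (if B 0 = decide (i % 2 = 0) then (if decide (i % 2 = 0) = ρ then 1 else -1) else 0) +
        gam ρ (fun k => B (k + 1)) (u ++ v) =
        (if B 0 = decide (i % 2 = 0) then (if decide (i % 2 = 0) = ρ then 1 else -1) else 0) +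
        gam ρ (fun k => B (k + 1)) u + gam ρ (fun k => B (k + (nX u + 1))) v
      rw [CNT_gam ρ u v (fun k => B (k + 1)), ← add_assoc]
      rfl
  | ⟨.U, i⟩ :: u, v, B => by
      show (if decide (i % 2 = 0) = ρ then (1 : ℤ) else 0) + gam ρ B (u ++ v) =
        (if decide (i % 2 = 0) = ρ then (1 : ℤ) else 0) + gam ρ B u +
          gam ρ (fun k => B (k + nX u)) v
      rw [CNT_gam ρ u v B, ← add_assoc]
  | ⟨.N, i⟩ :: u, v, B => by
      show (if decide (i % 2 = 0) = ρ then (0 : ℤ) else -1) + gam ρ B (u ++ v) =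
        (if decide (i % 2 = 0) = ρ then (0 : ℤ) else -1) + gam ρ B u +
          gam ρ (fun k => B (k + nX u)) v
      rw [CNT_gam ρ u v B, ← add_assoc]

private theorem CNT_tp : ∀ (v : Word) (n m : ℕ) (α : Type) (g : Loc n v → α), Ok v n m →
    (∀ x y, R0 n v x y → g x = g y) → g (tp n v 0) = g (bo n v 0)
  | [], _, _, _, _, _, _ => rfl
  | s :: v, n, m, α, g, h, hg => by
      have h1 : g (bo n (s :: v) 0) = g (Sum.inr (bo (n - s.k.inn + s.k.out) v 0) :
          Fin (n + 1) ⊕ Loc (n - s.k.inn + s.k.out) v) := by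
        refine hg _ _ (Or.inl ⟨0, 0, Nat.zero_le _, Nat.zero_le _, ?_, rfl, rfl⟩)
        obtain ⟨k, i⟩ := s
        cases k
        · exact Or.inl ⟨Nat.zero_le _, rfl⟩
        · exact Or.inl ⟨Nat.zero_le _, rfl⟩
        · exact ⟨rfl, (Nat.succ_ne_zero _).symm⟩
      rw [h1]
      exact CNT_tp v (n - s.k.inn + s.k.out) m α
        (fun x => g (Sum.inr x : Fin (n + 1) ⊕ Loc (n - s.k.inn + s.k.out) v)) h.2
        fun x y hxy => hg _ _ (Or.inr ⟨x, y, rfl, rfl, hxy⟩)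

private theorem CNT_ite {p : Prop} (i1 i2 : Decidable p) (a b : ℝ) :
    @ite ℝ p i1 a b = @ite ℝ p i2 a b := by
  rw [Subsingleton.elim i1 i2]

/-- the pairs counted are the solutions -/
private theorem CNT_iff (ρ : Bool) (s : ZMod 3) (hs : s * s = 1) (B : ℕ → Bool) (u v : Word)
    (w : ℕ) (hu : Ok u 0 (wd 0 u)) (hv : Ok v (wd 0 u) 0) (hw : w ≤ wd 0 u)
    (f : Loc 0 u → ZMod 3) (g : Loc (wd 0 u) v → ZMod 3) :
    ((Cz ρ (fun k => B (k + nX u)) (wd 0 u) v g ∧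
        ∀ j ≤ 0, decide (j % 2 = 0) = ρ → g (tp (wd 0 u) v j) = 0) ∧
      ((ρ = true → g (bo (wd 0 u) v 0) = 0) ∧
        (decide (w % 2 = 0) = ρ → g (bo (wd 0 u) v w) = 0)) ∧
      (Cz ρ B 0 u f ∧ ∀ j ≤ wd 0 u, decide (j % 2 = 0) = ρ →
        f (tp 0 u j) = tws s w (fun j => g (bo (wd 0 u) v j)) j)) ↔
      ((f, g) : Lv u v) ∈ Sol ρ s u v w (Finset.univ.filter fun k => B (k : ℕ) = ρ) := by
  have hsol : ((f, g) : Lv u v) ∈ Sol ρ s u v w (Finset.univ.filter fun k => B (k : ℕ) = ρ) ↔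
      (((∀ x, pa 0 u x ≠ ρ → f x = 0) ∧ (∀ x, pa (wd 0 u) v x ≠ ρ → g x = 0)) ∧
      ((∀ x y, R0 0 u x y → f x = f y) ∧ (∀ x y, R0 (wd 0 u) v x y → g x = g y)) ∧
      (∀ j ≤ wd 0 u, g (bo (wd 0 u) v j) = (if 0 < j ∧ j < w then s else 1) * f (tp 0 u j)) ∧
      f (tp 0 u 0) = 0 ∧ f (tp 0 u w) = 0) ∧
      ∀ k : Fin (nX (u ++ v)), B (k : ℕ) = ρ → Lk ρ u v (k : ℕ) ((f, g) : Lv u v) = 0 := by
    unfold Sol
    rw [Submodule.mem_inf]
    refine and_congr Iff.rfl ?_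
    simp only [Submodule.mem_iInf, LinearMap.mem_ker, Finset.mem_filter, Finset.mem_univ,
      true_and]
  rw [hsol]
  have hpa1 : ∀ j ≤ wd 0 u, pa 0 u (tp 0 u j) = decide (j % 2 = 0) :=
    fun j hj => pa_tp u 0 _ j hu hj
  have hpa2 : ∀ j ≤ wd 0 u, pa (wd 0 u) v (bo (wd 0 u) v j) = decide (j % 2 = 0) :=
    fun j hj => pa_bo _ v j hj
  have hLk1 : ∀ (k : ℕ) (h : k < nX u), Lk ρ u v k ((f, g) : Lv u v) =
      f (ed ρ 0 u ⟨k, h⟩).1 - f (ed ρ 0 u ⟨k, h⟩).2 := by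
    intro k h
    show (if h : k < nX u then f (ed ρ 0 u ⟨k, h⟩).1 - f (ed ρ 0 u ⟨k, h⟩).2
      else if h : k - nX u < nX v then
        g (ed ρ (wd 0 u) v ⟨k - nX u, h⟩).1 - g (ed ρ (wd 0 u) v ⟨k - nX u, h⟩).2
      else 0) = _
    rw [dif_pos h]
  have hLk2 : ∀ (k : ℕ) (_ : ¬ k < nX u) (h : k - nX u < nX v),
      Lk ρ u v k ((f, g) : Lv u v) =
      g (ed ρ (wd 0 u) v ⟨k - nX u, h⟩).1 - g (ed ρ (wd 0 u) v ⟨k - nX u, h⟩).2 := by
    intro k h' h
    show (if h : k < nX u then f (ed ρ 0 u ⟨k, h⟩).1 - f (ed ρ 0 u ⟨k, h⟩).2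
      else if h : k - nX u < nX v then
        g (ed ρ (wd 0 u) v ⟨k - nX u, h⟩).1 - g (ed ρ (wd 0 u) v ⟨k - nX u, h⟩).2
      else 0) = _
    rw [dif_neg h', dif_pos h]
  constructor
  · rintro ⟨⟨⟨g1, g2, g3⟩, -⟩, ⟨c1, c2⟩, ⟨f1, f2, f3⟩, hm⟩
    have hrow : ∀ j ≤ wd 0 u,
        g (bo (wd 0 u) v j) = (if 0 < j ∧ j < w then s else 1) * f (tp 0 u j) := by
      intro j hj
      by_cases hp : decide (j % 2 = 0) = ρ
      · rw [hm j hj hp]
        show _ = (if 0 < j ∧ j < w then s else 1) *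
          (if 0 < j ∧ j < w then s * g (bo (wd 0 u) v j) else g (bo (wd 0 u) v j))
        split_ifs
        · rw [← mul_assoc, hs, one_mul]
        · rw [one_mul]
      · rw [g1 _ (by rw [hpa2 j hj]; exact hp), f1 _ (by rw [hpa1 j hj]; exact hp), mul_zero]
    refine ⟨⟨⟨f1, g1⟩, ⟨f2, g2⟩, hrow, ?_, ?_⟩, ?_⟩
    · by_cases hp : decide (0 % 2 = 0) = ρ
      · rw [hm 0 (Nat.zero_le _) hp]
        show (if 0 < 0 ∧ 0 < w then s * g (bo (wd 0 u) v 0) else g (bo (wd 0 u) v 0)) = 0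
        rw [if_neg (by omega)]
        exact c1 hp.symm
      · exact f1 _ (by rw [hpa1 0 (Nat.zero_le _)]; exact hp)
    · by_cases hp : decide (w % 2 = 0) = ρ
      · rw [hm w hw hp]
        show (if 0 < w ∧ w < w then s * g (bo (wd 0 u) v w) else g (bo (wd 0 u) v w)) = 0
        rw [if_neg (by omega)]
        exact c2 hp
      · exact f1 _ (by rw [hpa1 w hw]; exact hp)
    · intro k hk
      by_cases h : (k : ℕ) < nX u
      · rw [hLk1 _ h, f3 ⟨k, h⟩ hk, sub_self]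
      · have hk2 : (k : ℕ) < nX u + nX v := by
          have h8 := k.isLt
          have h9 := CNT_nX u v
          omega
        have h' : (k : ℕ) - nX u < nX v := by omega
        have hk3 : (k : ℕ) - nX u + nX u = k := by omega
        rw [hLk2 _ h h', g3 ⟨(k : ℕ) - nX u, h'⟩ (by
          show B ((k : ℕ) - nX u + nX u) = ρ
          rw [hk3]
          exact hk), sub_self]
  · rintro ⟨⟨⟨f1, g1⟩, ⟨f2, g2⟩, hrow, z1, z2⟩, hL⟩
    have hb0 : g (bo (wd 0 u) v 0) = 0 := by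
      rw [hrow 0 (Nat.zero_le _), z1, mul_zero]
    refine ⟨⟨⟨g1, g2, ?_⟩, ?_⟩, ⟨fun _ => hb0, fun _ => ?_⟩, ⟨f1, f2, ?_⟩, ?_⟩
    · intro k hk
      have h1 : (k : ℕ) + nX u < nX (u ++ v) := by
        rw [CNT_nX]
        have := k.isLt
        omega
      have h2 := hL ⟨(k : ℕ) + nX u, h1⟩ hk
      have h3 : (k : ℕ) + nX u - nX u < nX v := by
        have := k.isLt
        omega
      have h4 := hLk2 ((k : ℕ) + nX u) (by omega) h3
      have h5 : (⟨(k : ℕ) + nX u - nX u, h3⟩ : Fin (nX v)) = k := by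
        apply Fin.ext
        show (k : ℕ) + nX u - nX u = k
        omega
      rw [h5] at h4
      have h6 : Lk ρ u v ((k : ℕ) + nX u) ((f, g) : Lv u v) = 0 := h2
      rw [h4] at h6
      exact sub_eq_zero.1 h6
    · intro j hj _
      have h0 : j = 0 := by omega
      rw [h0, CNT_tp v (wd 0 u) 0 (ZMod 3) g hv g2]
      exact hb0
    · rw [hrow w hw, z2, mul_zero]
    · intro k hk
      have h1 : (k : ℕ) < nX (u ++ v) := by
        rw [CNT_nX]
        have := k.isLt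
        omega
      have h2 := hL ⟨(k : ℕ), h1⟩ hk
      have h4 := hLk1 (k : ℕ) k.isLt
      have h6 : Lk ρ u v (k : ℕ) ((f, g) : Lv u v) = 0 := h2
      rw [h4] at h6
      exact sub_eq_zero.1 h6
    · intro j hj _
      show f (tp 0 u j) =
        (if 0 < j ∧ j < w then s * g (bo (wd 0 u) v j) else g (bo (wd 0 u) v j))
      rw [hrow j hj]
      split_ifs
      · rw [← mul_assoc, hs, one_mul]
      · rw [one_mul]

theorem thm_CNT (h1 : St_CMD) (h2 : St_TR3) : St_CNT := by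
  classical
  intro ρ M hM s hs B u v w hu hv hw
  obtain ⟨-, hP1, hP2⟩ := (h1 ρ).2 M hM
  have hss : s * s = 1 := by
    rcases hs with rfl | rfl
    · rw [one_mul]
    · rw [neg_mul_neg, one_mul]
  have hP : Pole M (PG ρ s) := by
    rcases hs with rfl | rfl
    · exact hP1
    · exact hP2
  set φ : Cg → ℝ := runC M (jo B u) M.init with hφ
  have htr : ∀ d : Cg, φ d = Real.sqrt 3 ^ gam ρ B u *
      ∑ f : Loc 0 u → ZMod 3, if (Cz ρ B 0 u f ∧
        ∀ j ≤ wd 0 u, decide (j % 2 = 0) = ρ → f (tp 0 u j) = d j) then (1 : ℝ) else 0 := by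
    intro d
    rw [hφ, h2 ρ M hM u B 0 (wd 0 u) M.init d hu M.supp_init, Finset.sum_filter]
    congr 1
    refine Finset.sum_congr rfl fun f _ => ?_
    rw [hM.init]
  have hsupp : M.Supp (wd 0 u) φ := by
    rw [hM.supp]
    intro c c' hcc
    rw [htr c, htr c']
    congr 1
    refine Finset.sum_congr rfl fun f _ => if_congr ?_ rfl rfl
    refine and_congr Iff.rfl (forall_congr' fun j => ?_)
    refine forall_congr' fun hj => forall_congr' fun hp => ?_
    rw [hcc j hj hp]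
  have hsupp2 : M.Supp (wd 0 u) (PG ρ s w φ) := hP.supp _ _ _ hw hsupp
  rw [h2 ρ M hM v _ (wd 0 u) 0 (PG ρ s w φ) (fun _ => 0) hv hsupp2, Finset.sum_filter]
  have hkey : ∀ g : Loc (wd 0 u) v → ZMod 3,
      (if (Cz ρ (fun k => B (k + nX u)) (wd 0 u) v g ∧
        ∀ j ≤ 0, decide (j % 2 = 0) = ρ → g (tp (wd 0 u) v j) = 0) then
        PG ρ s w φ (fun j => g (bo (wd 0 u) v j)) else 0) =
      Real.sqrt 3 ^ gam ρ B u * ∑ f : Loc 0 u → ZMod 3,
        if ((f, g) : Lv u v) ∈ Sol ρ s u v w (Finset.univ.filter fun k => B (k : ℕ) = ρ) then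
          (1 : ℝ) else 0 := by
    intro g
    have hit := fun f => CNT_iff ρ s hss B u v w hu hv hw f g
    by_cases hA : (Cz ρ (fun k => B (k + nX u)) (wd 0 u) v g ∧
        ∀ j ≤ 0, decide (j % 2 = 0) = ρ → g (tp (wd 0 u) v j) = 0)
    · rw [if_pos hA]
      by_cases hC : ((ρ = true → g (bo (wd 0 u) v 0) = 0) ∧
        (decide (w % 2 = 0) = ρ → g (bo (wd 0 u) v w) = 0))
      · have h3 : PG ρ s w φ (fun j => g (bo (wd 0 u) v j)) =
            φ (tws s w (fun j => g (bo (wd 0 u) v j))) := if_pos hC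
        rw [h3, htr]
        congr 1
        refine Finset.sum_congr rfl fun f _ => if_congr ?_ rfl rfl
        rw [← hit f]
        exact ⟨fun h => ⟨hA, hC, h⟩, fun h => h.2.2⟩
      · have h3 : PG ρ s w φ (fun j => g (bo (wd 0 u) v j)) = 0 := if_neg hC
        rw [h3]
        symm
        rw [mul_eq_zero]
        right
        refine Finset.sum_eq_zero fun f _ => if_neg ?_
        rw [← hit f]
        exact fun h => hC h.2.1
    · rw [if_neg hA]
      symm
      rw [mul_eq_zero]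
      right
      refine Finset.sum_eq_zero fun f _ => if_neg ?_
      rw [← hit f]
      exact fun h => hA h.1
  have hsum : ∑ g : Loc (wd 0 u) v → ZMod 3, ∑ f : Loc 0 u → ZMod 3,
      (if ((f, g) : Lv u v) ∈ Sol ρ s u v w (Finset.univ.filter fun k => B (k : ℕ) = ρ) then
          (1 : ℝ) else 0) = (3 : ℝ) ^ Module.finrank (ZMod 3)
            (Sol ρ s u v w (Finset.univ.filter fun k => B (k : ℕ) = ρ)) := by
    rw [← Fintype.sum_prod_type_right (fun p : (Loc 0 u → ZMod 3) × (Loc (wd 0 u) v → ZMod 3) =>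
      if (p : Lv u v) ∈ Sol ρ s u v w (Finset.univ.filter fun k => B (k : ℕ) = ρ) then
          (1 : ℝ) else 0), ← Finset.sum_filter, Finset.sum_const, nsmul_eq_mul, mul_one]
    have h3 : Nat.card (Sol ρ s u v w (Finset.univ.filter fun k => B (k : ℕ) = ρ)) =
        (Finset.univ.filter fun p : (Loc 0 u → ZMod 3) × (Loc (wd 0 u) v → ZMod 3) =>
          (p : Lv u v) ∈ Sol ρ s u v w (Finset.univ.filter fun k => B (k : ℕ) = ρ)).card :=
      Nat.subtype_card _ fun x => by simp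
    rw [← h3, Module.natCard_eq_pow_finrank (K := ZMod 3), Nat.card_zmod]
    push_cast
    rfl
  have hfin : ∑ g : Loc (wd 0 u) v → ZMod 3,
      (if (Cz ρ (fun k => B (k + nX u)) (wd 0 u) v g ∧
        ∀ j ≤ 0, decide (j % 2 = 0) = ρ → g (tp (wd 0 u) v j) = 0) then
        PG ρ s w φ (fun j => g (bo (wd 0 u) v j)) else 0) =
      Real.sqrt 3 ^ gam ρ B u * (3 : ℝ) ^ Module.finrank (ZMod 3)
            (Sol ρ s u v w (Finset.univ.filter fun k => B (k : ℕ) = ρ)) := by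
    rw [← hsum, Finset.mul_sum]
    exact Finset.sum_congr rfl fun g _ => hkey g
  have h3 : (0 : ℝ) < Real.sqrt 3 := Real.sqrt_pos.2 (by norm_num)
  refine (congrArg (fun z : ℝ => Real.sqrt 3 ^ gam ρ (fun k => B (k + nX u)) v * z)
    ((Finset.sum_congr rfl fun g _ => CNT_ite _ _ _ _).trans hfin)).trans ?_
  show Real.sqrt 3 ^ gam ρ (fun k => B (k + nX u)) v * _ = _
  rw [CNT_gam ρ u v B, zpow_add₀ h3.ne', zpow_add₀ h3.ne', zpow_mul]
  have h4 : Real.sqrt 3 ^ (2 : ℤ) = 3 := by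
    rw [zpow_ofNat]
    exact Real.sq_sqrt (by norm_num)
  rw [h4, zpow_natCast]
  ring

end Pool.TWC
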