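import Pool.Agent.TWC.StC
import Pool.Agent.ALT.Mo.RM
import Pool.Agent.ALT.Mo.TP
import Pool.Agent.ALT.Mo.TC
import Pool.Agent.ALT.Mo.TR
import Pool.Agent.ALT.Mo.NF

/-!
# TWC, module CON: a state with one circle has two regions (helper31)
-/

set_option autoImplicit false

namespace Pool.TWC

open LaurentPolynomial Pool.Agent.ARB Pool.Agent.Helper2 Pool.ALT

private theorem CON_runC {R V : Type} [CommRing R] [AddCommGroup V] [Module R V]
    (M : Model R V) : ∀ (u v : Word) (x : V), runC M (u ++ v) x = runC M v (runC M u x)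
  | [], _, _ => rfl
  | ⟨.U, i⟩ :: u, v, x => CON_runC M u v (M.cup i x)
  | ⟨.N, i⟩ :: u, v, x => CON_runC M u v (M.cap i x)
  | ⟨.X _, _⟩ :: u, v, x => CON_runC M u v x

private theorem CON_jo : ∀ (u v : Word) (B : ℕ → Bool),
    jo B (u ++ v) = jo B u ++ jo (fun k => B (k + nX u)) v
  | [], _, _ => rfl
  | ⟨.X p, i⟩ :: u, v, B => by
      have h : jo (fun k => B (k + 1)) (u ++ v) =
          jo (fun k => B (k + 1)) u ++ jo (fun k => B (k + (nX u + 1))) v :=
        CON_jo u v (fun k => B (k + 1))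
      show (if B 0 = decide (i % 2 = 0) then pN i :: pU i :: jo (fun k => B (k + 1)) (u ++ v)
        else jo (fun k => B (k + 1)) (u ++ v)) =
        (if B 0 = decide (i % 2 = 0) then pN i :: pU i :: jo (fun k => B (k + 1)) u
        else jo (fun k => B (k + 1)) u) ++ jo (fun k => B (k + (nX u + 1))) v
      rw [h]
      split_ifs
      · rfl
      · rfl
  | ⟨.U, i⟩ :: u, v, B => by
      show pU i :: jo B (u ++ v) = pU i :: (jo B u ++ jo (fun k => B (k + nX u)) v)
      rw [CON_jo u v B]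
  | ⟨.N, i⟩ :: u, v, B => by
      show pN i :: jo B (u ++ v) = pN i :: (jo B u ++ jo (fun k => B (k + nX u)) v)
      rw [CON_jo u v B]

private theorem CON_caps : ∀ m : ℕ, caps (m + 1) = pN m :: caps m
  | 0 => rfl
  | m + 1 => congrArg (fun w => sh 1 w ++ [pN 0]) (CON_caps m)

private theorem CON_cups : ∀ m : ℕ, cups (m + 1) = cups m ++ [pU m]
  | 0 => rfl
  | m + 1 => by
      have h : sh 1 (cups (m + 1)) = sh 1 (cups m) ++ [pU (m + 1)] := by
        rw [CON_cups m]
        unfold sh
        rw [List.map_append]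
        rfl
      exact congrArg (fun w => pU 0 :: w) h

private theorem CON_psi : ∀ m : ℕ,
    Psi rm_model (fun _ x => x) m = (2 : ℤ) ^ m • rm_model.init
  | 0 => by
      rw [pow_zero, one_smul]
      rfl
  | m + 1 => by
      have h : runC rm_model (caps m) (runC rm_model (cups m) rm_model.init) =
        (2 : ℤ) ^ m • rm_model.init := CON_psi m
      show runC rm_model (caps (m + 1)) (runC rm_model (cups (m + 1)) rm_model.init) = _
      rw [CON_caps, CON_cups, CON_runC]
      show runC rm_model (caps m) (rm_model.cap m (rm_model.cup m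
        (runC rm_model (cups m) rm_model.init))) = _
      rw [rm_model.rel1 m m _ trivial le_rfl, nf_runC_smul, h, smul_smul,
        show rm_model.δ = (2 : ℤ) from rfl, ← pow_succ']

private theorem CON_Cc : Cc rm_model where
  cupcup n i k x _ _ := by
    funext c
    show rm_cup (i + 2 + k) (rm_cup i x) c = rm_cup i (rm_cup (i + k) x) c
    rw [rm_cup_apply, rm_cup_apply, rm_cup_apply, rm_cup_apply, rm_dl_le c (by omega),
      rm_dl_le c (by omega)]
    by_cases h1 : c i = c (i + 2)
    · have e1 : dl i c (i + k) = c (i + 2 + k) := by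
        rcases Nat.eq_zero_or_pos k with h | h
        · subst h
          rw [rm_dl_le c (by omega)]
          exact h1
        · rw [rm_dl_gt c (by omega), show i + k + 2 = i + 2 + k by omega]
      have e2 : dl i c (i + k + 2) = c (i + 2 + k + 2) := by
        rw [rm_dl_gt c (by omega), show i + k + 2 + 2 = i + 2 + k + 2 by omega]
      have e3 : dl i (dl (i + 2 + k) c) = dl (i + k) (dl i c) := by
        funext j
        rcases Nat.lt_or_ge i j with h | h
        · rw [rm_dl_gt _ h]
          rcases Nat.lt_or_ge (i + k) j with h' | h'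
          · rw [rm_dl_gt _ h', rm_dl_gt _ (by omega), rm_dl_gt _ (by omega)]
          · rw [rm_dl_le _ h', rm_dl_le _ (by omega), rm_dl_gt _ h]
        · rw [rm_dl_le _ h, rm_dl_le _ (show j ≤ i + k by omega), rm_dl_le _ h,
            rm_dl_le _ (by omega)]
      rw [if_pos h1, if_pos h1, e1, e2, e3]
    · rw [if_neg h1, if_neg h1]
      split_ifs
      · rfl
      · rfl
  capcap n i k x _ _ := by
    funext c
    show rm_cap (i + k) (rm_cap i x) c = rm_cap i (rm_cap (i + 2 + k) x) c
    have e : ∀ b b', ins i b' (ins (i + k) b c) = ins (i + 2 + k) b (ins i b' c) := by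
      intro b b'
      funext j
      rcases Nat.lt_trichotomy j (i + 1) with h | h | h
      · rw [rm_ins_le _ _ (by omega), rm_ins_le _ _ (by omega), rm_ins_le _ _ (by omega),
          rm_ins_le _ _ (by omega)]
      · rw [rm_ins_eq _ _ h, rm_ins_le _ _ (by omega), rm_ins_eq _ _ h]
      · rw [rm_ins_gt _ _ (by omega)]
        rcases Nat.lt_trichotomy j (i + k + 3) with h' | h' | h'
        · rw [rm_ins_le _ _ (by omega), rm_ins_le _ _ (by omega), rm_ins_gt _ _ (by omega)]
        · rw [rm_ins_eq _ _ (by omega), rm_ins_eq _ _ (by omega)]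
        · rw [rm_ins_gt _ _ (by omega), rm_ins_gt _ _ (by omega), rm_ins_gt _ _ (by omega)]
    rw [rm_cap_apply, rm_cap_apply, rm_cap_apply, rm_cap_apply, rm_cap_apply, rm_cap_apply,
      e, e, e, e]
    ring

private theorem CON_pole : Pole rm_model (fun _ x => x) where
  supp _ _ _ _ _ := trivial
  smul _ _ _ _ _ _ := rfl
  cupL _ _ _ _ _ _ _ := rfl
  cupR _ _ _ _ _ _ _ := rfl
  capL _ _ _ _ _ _ _ := rfl
  capR _ _ _ _ _ _ _ := rfl

private theorem CON_odd : ∀ D : Word, Ok D 0 0 → D ≠ [] → ∃ z, pa 0 D z = false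
  | [], _, h => (h rfl).elim
  | ⟨.U, i⟩ :: w, _, _ =>
      ⟨(Sum.inr (bo (0 - 0 + 2) w 1) : Fin (0 + 1) ⊕ Loc (0 - 0 + 2) w),
        (pa_bo (0 - 0 + 2) w 1 (by omega)).trans rfl⟩
  | ⟨.N, i⟩ :: w, h, _ => by
      have h1 : i + 2 ≤ 0 := h.1
      omega
  | ⟨.X _, i⟩ :: w, h, _ => by
      have h1 : i + 2 ≤ 0 := h.1
      omega

open Classical in
/-- **[CON]** a state with one circle has two regions (helper31) -/
theorem thm_CON : St_CON := by
  intro B u v n w l m hu hv hw hne hPr hlm f hf x y hxy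
  have hok : Ok (u ++ v) 0 0 := Ok.append hu hv
  have hM : RMod rm_model := ⟨rfl, fun _ _ => trivial, fun _ _ _ => rfl, fun _ _ _ => rfl⟩
  have h1 := hPr rm_model (fun _ x => x) CON_Cc CON_pole
  rw [CON_psi, smul_smul, show rm_model.δ = (2 : ℤ) from rfl, ← pow_add, hlm, pow_one] at h1
  have h2 : runC rm_model (jo B (u ++ v)) rm_model.init = (2 : ℤ) • rm_model.init := by
    rw [CON_jo, CON_runC]
    exact h1
  have h3 : ∀ d : ℕ → Bool, ∃ S : Finset (Loc 0 (u ++ v) → Bool), S.card = 2 ∧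
      ∀ g, g ∈ S ↔ Cp B 0 (u ++ v) g ∧ ∀ j ≤ 0, g (tp 0 (u ++ v) j) = d j := by
    intro d
    have h4 := thm_TR thm_TP thm_TC rm_model hM B (u ++ v) 0 0 (fun _ => 1) d hok
      (fun _ _ _ => rfl)
    have h5 : runC rm_model (jo B (u ++ v)) (fun _ => 1) d = 2 := congrFun h2 d
    rw [h5, Finset.sum_const, nsmul_eq_mul, mul_one] at h4
    have h6 := h4.symm
    norm_cast at h6
    refine ⟨_, h6, fun g => ?_⟩
    rw [Finset.mem_filter]
    exact ⟨fun h => h.2, fun h => ⟨Finset.mem_univ _, h⟩⟩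
  obtain ⟨z, hz⟩ := CON_odd (u ++ v) hok hne
  have htp : pa 0 (u ++ v) (tp 0 (u ++ v) 0) = true := pa_tp (u ++ v) 0 0 0 hok le_rfl
  obtain ⟨b, hb⟩ : ∃ b, b = f (tp 0 (u ++ v) 0) := ⟨_, rfl⟩
  have hq : Cp B 0 (u ++ v) (fun x => decide (pa 0 (u ++ v) x = b)) := by
    refine ⟨fun x y h => ?_, fun k => ?_⟩
    · show decide (pa 0 (u ++ v) x = b) = decide (pa 0 (u ++ v) y = b)
      rw [pa_R0 (u ++ v) 0 0 x y hok h]
    · have h4 := pa_ed (u ++ v) 0 0 (B k) k hok
      show decide (pa 0 (u ++ v) (ed (B k) 0 (u ++ v) k).1 = b) =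
        decide (pa 0 (u ++ v) (ed (B k) 0 (u ++ v) k).2 = b)
      rw [h4.1, h4.2]
  have hc : Cp B 0 (u ++ v) (fun _ => b) := ⟨fun _ _ _ => rfl, fun _ => rfl⟩
  have hne2 : (fun _ => b : Loc 0 (u ++ v) → Bool) ≠
      fun x => decide (pa 0 (u ++ v) x = b) := by
    intro h
    have h4 := congrFun h z
    rw [hz] at h4
    cases b
    · simp at h4
    · simp at h4
  obtain ⟨S, hS2, hS⟩ := h3 (fun _ => b)
  have hsub : ({(fun _ => b : Loc 0 (u ++ v) → Bool),
      fun x => decide (pa 0 (u ++ v) x = b)} : Finset (Loc 0 (u ++ v) → Bool)) = S := by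
    refine Finset.eq_of_subset_of_card_le ?_ ?_
    · intro g hg
      rw [Finset.mem_insert, Finset.mem_singleton] at hg
      rw [hS]
      rcases hg with rfl | rfl
      · exact ⟨hc, fun _ _ => rfl⟩
      · refine ⟨hq, fun j hj => ?_⟩
        have hj0 : j = 0 := by omega
        subst hj0
        show decide (pa 0 (u ++ v) (tp 0 (u ++ v) 0) = b) = b
        rw [htp]
        cases b
        · rfl
        · rfl
    · rw [hS2, Finset.card_pair hne2]
  have hmem : f ∈ ({(fun _ => b : Loc 0 (u ++ v) → Bool),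
      fun x => decide (pa 0 (u ++ v) x = b)} : Finset (Loc 0 (u ++ v) → Bool)) := by
    rw [hsub, hS]
    refine ⟨hf, fun j hj => ?_⟩
    have hj0 : j = 0 := by omega
    subst hj0
    exact hb.symm
  rw [Finset.mem_insert, Finset.mem_singleton] at hmem
  rcases hmem with h | h
  · rw [h]
  · rw [h]
    show decide (pa 0 (u ++ v) x = b) = decide (pa 0 (u ++ v) y = b)
    rw [hxy]

end Pool.TWC
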