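import Pool.Agent.TWC.StB

/-!
# TWC [EMB]: the local regions of a composed word
-/

set_option autoImplicit false

namespace Pool.TWC

open LaurentPolynomial Pool.Agent.ARB Pool.Agent.Helper2 Pool.ALT

private theorem EMB_ofNat (n j : ℕ) :
    Fin.ofNat (n + 1) (Fin.ofNat (n + 1) j).val = Fin.ofNat (n + 1) j := by
  apply Fin.ext
  rw [Fin.val_ofNat, Fin.val_ofNat, Nat.mod_mod]

private theorem EMB_bo (n : ℕ) (v : Word) (j : ℕ) :
    bo n v (Fin.ofNat (n + 1) j).val = bo n v j := by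
  cases v with
  | nil => exact EMB_ofNat n j
  | cons s v =>
    show (Sum.inl (Fin.ofNat (n + 1) (Fin.ofNat (n + 1) j).val) :
      Fin (n + 1) ⊕ Loc (n - s.k.inn + s.k.out) v) = Sum.inl (Fin.ofNat (n + 1) j)
    rw [EMB_ofNat]

private theorem EMB_1a (v : Word) : ∀ (u : Word) (n j : ℕ),
    iu n u v (tp n u j) = md n u v j
  | [], n, j => EMB_bo n v j
  | s :: u, n, j => by
    show (Sum.inr (iu (n - s.k.inn + s.k.out) u v (tp (n - s.k.inn + s.k.out) u j)) :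
      Fin (n + 1) ⊕ Loc (n - s.k.inn + s.k.out) (u ++ v)) =
      Sum.inr (md (n - s.k.inn + s.k.out) u v j)
    rw [EMB_1a v u]

private theorem EMB_1b (v : Word) : ∀ (u : Word) (n j : ℕ),
    iv n u v (bo (wd n u) v j) = md n u v j
  | [], _, _ => rfl
  | s :: u, n, j => by
    show (Sum.inr (iv (n - s.k.inn + s.k.out) u v (bo (wd (n - s.k.inn + s.k.out) u) v j)) :
      Fin (n + 1) ⊕ Loc (n - s.k.inn + s.k.out) (u ++ v)) =
      Sum.inr (md (n - s.k.inn + s.k.out) u v j)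
    rw [EMB_1b v u]

private theorem EMB_2 (v : Word) : ∀ (u : Word) (n j : ℕ),
    iu n u v (bo n u j) = bo n (u ++ v) j
  | [], n, j => EMB_bo n v j
  | _ :: _, _, _ => rfl

private theorem EMB_3a (v : Word) : ∀ (u : Word) (n : ℕ) (x : Loc n u),
    pa n (u ++ v) (iu n u v x) = pa n u x
  | [], n, x => by
    have h : (show Fin (n + 1) from x).val ≤ n := Nat.lt_succ_iff.1 (show Fin (n + 1) from x).2
    exact pa_bo n v _ h
  | s :: u, n, x => by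
    rcases x with x | x
    · rfl
    · exact EMB_3a v u _ x

private theorem EMB_3b (v : Word) : ∀ (u : Word) (n : ℕ) (y : Loc (wd n u) v),
    pa n (u ++ v) (iv n u v y) = pa (wd n u) v y
  | [], _, _ => rfl
  | s :: u, n, y => EMB_3b v u (n - s.k.inn + s.k.out) y

private theorem EMB_4 (v : Word) : ∀ (u : Word) (n : ℕ) (x y : Loc n (u ++ v)),
    R0 n (u ++ v) x y →
    (∃ x' y', R0 n u x' y' ∧ x = iu n u v x' ∧ y = iu n u v y') ∨
    ∃ x' y', R0 (wd n u) v x' y' ∧ x = iv n u v x' ∧ y = iv n u v y'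
  | [], _, x, y, h => Or.inr ⟨x, y, h, rfl, rfl⟩
  | s :: u, n, x, y, h => by
    rcases h with ⟨j, j', hj, hj', hg, hx, hy⟩ | ⟨x1, y1, hx, hy, h⟩
    · left
      refine ⟨(Sum.inl (Fin.ofNat (n + 1) j) : Fin (n + 1) ⊕ Loc (n - s.k.inn + s.k.out) u),
        (Sum.inr (bo (n - s.k.inn + s.k.out) u j') :
          Fin (n + 1) ⊕ Loc (n - s.k.inn + s.k.out) u),
        Or.inl ⟨j, j', hj, hj', hg, rfl, rfl⟩, hx, ?_⟩
      rw [hy]
      show (Sum.inr (bo (n - s.k.inn + s.k.out) (u ++ v) j') :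
        Fin (n + 1) ⊕ Loc (n - s.k.inn + s.k.out) (u ++ v)) =
        Sum.inr (iu (n - s.k.inn + s.k.out) u v (bo (n - s.k.inn + s.k.out) u j'))
      rw [EMB_2 v u]
    · rcases EMB_4 v u _ x1 y1 h with ⟨x', y', h', hx', hy'⟩ | ⟨x', y', h', hx', hy'⟩
      · left
        refine ⟨(Sum.inr x' : Fin (n + 1) ⊕ Loc (n - s.k.inn + s.k.out) u),
          (Sum.inr y' : Fin (n + 1) ⊕ Loc (n - s.k.inn + s.k.out) u),
          Or.inr ⟨x', y', rfl, rfl, h'⟩, ?_, ?_⟩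
        · rw [hx, hx']
          rfl
        · rw [hy, hy']
          rfl
      · right
        refine ⟨x', y', h', ?_, ?_⟩
        · rw [hx, hx']
          rfl
        · rw [hy, hy']
          rfl

private theorem EMB_5a (v : Word) : ∀ (u : Word) (n : ℕ) (x y : Loc n u),
    R0 n u x y → R0 n (u ++ v) (iu n u v x) (iu n u v y)
  | [], _, _, _, h => h.elim
  | s :: u, n, x, y, h => by
    rcases h with ⟨j, j', hj, hj', hg, hx, hy⟩ | ⟨x1, y1, hx, hy, h⟩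
    · left
      refine ⟨j, j', hj, hj', hg, ?_, ?_⟩
      · rw [hx]
        rfl
      · rw [hy]
        show (Sum.inr (iu (n - s.k.inn + s.k.out) u v (bo (n - s.k.inn + s.k.out) u j')) :
          Fin (n + 1) ⊕ Loc (n - s.k.inn + s.k.out) (u ++ v)) =
          Sum.inr (bo (n - s.k.inn + s.k.out) (u ++ v) j')
        rw [EMB_2 v u]
    · right
      refine ⟨iu _ u v x1, iu _ u v y1, ?_, ?_, EMB_5a v u _ x1 y1 h⟩
      · rw [hx]
        rfl
      · rw [hy]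
        rfl

private theorem EMB_5b (v : Word) : ∀ (u : Word) (n : ℕ) (x y : Loc (wd n u) v),
    R0 (wd n u) v x y → R0 n (u ++ v) (iv n u v x) (iv n u v y)
  | [], _, _, _, h => h
  | s :: u, n, x, y, h =>
    Or.inr ⟨iv (n - s.k.inn + s.k.out) u v x, iv (n - s.k.inn + s.k.out) u v y, rfl, rfl,
      EMB_5b v u (n - s.k.inn + s.k.out) x y h⟩

private theorem EMB_8 (v : Word) : ∀ u : Word, nX (u ++ v) = nX u + nX v
  | [] => (Nat.zero_add _).symm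
  | ⟨.X _, _⟩ :: u => by
    show nX (u ++ v) + 1 = nX u + 1 + nX v
    rw [EMB_8 v u]
    omega
  | ⟨.U, _⟩ :: u => EMB_8 v u
  | ⟨.N, _⟩ :: u => EMB_8 v u

private theorem EMB_6 (ρ : Bool) (v : Word) : ∀ (u : Word) (n : ℕ) (k : Fin (nX (u ++ v))),
    (∀ h : (k : ℕ) < nX u, ed ρ n (u ++ v) k =
      (iu n u v (ed ρ n u ⟨k, h⟩).1, iu n u v (ed ρ n u ⟨k, h⟩).2)) ∧
    ∀ h : (k : ℕ) - nX u < nX v, nX u ≤ (k : ℕ) → ed ρ n (u ++ v) k =
      (iv n u v (ed ρ (wd n u) v ⟨(k : ℕ) - nX u, h⟩).1,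
        iv n u v (ed ρ (wd n u) v ⟨(k : ℕ) - nX u, h⟩).2)
  | [], n, k => ⟨fun h => absurd h (Nat.not_lt_zero _), fun h _ => rfl⟩
  | ⟨.X p, i⟩ :: u, n, k => by
    obtain ⟨k, hk⟩ := k
    cases k with
    | zero =>
      refine ⟨fun h => ?_, fun _ h => absurd h (Nat.not_succ_le_zero _)⟩
      show (if decide (i % 2 = 0) = ρ then
          (bo n (⟨.X p, i⟩ :: (u ++ v)) i, bo n (⟨.X p, i⟩ :: (u ++ v)) (i + 2))
        else (bo n (⟨.X p, i⟩ :: (u ++ v)) (i + 1), Sum.inr (bo (n - 2 + 2) (u ++ v) (i + 1)))) =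
        (iu n (⟨.X p, i⟩ :: u) v (if decide (i % 2 = 0) = ρ then
          (bo n (⟨.X p, i⟩ :: u) i, bo n (⟨.X p, i⟩ :: u) (i + 2))
        else (bo n (⟨.X p, i⟩ :: u) (i + 1), Sum.inr (bo (n - 2 + 2) u (i + 1)))).1,
        iu n (⟨.X p, i⟩ :: u) v (if decide (i % 2 = 0) = ρ then
          (bo n (⟨.X p, i⟩ :: u) i, bo n (⟨.X p, i⟩ :: u) (i + 2))
        else (bo n (⟨.X p, i⟩ :: u) (i + 1), Sum.inr (bo (n - 2 + 2) u (i + 1)))).2)
      split_ifs with h0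
      · rfl
      · refine Prod.ext rfl ?_
        show (Sum.inr (bo (n - 2 + 2) (u ++ v) (i + 1)) : Fin (n + 1) ⊕ Loc (n - 2 + 2) (u ++ v)) =
          Sum.inr (iu (n - 2 + 2) u v (bo (n - 2 + 2) u (i + 1)))
        rw [EMB_2 v u]
    | succ k =>
      have hk' : k < nX (u ++ v) := Nat.lt_of_succ_lt_succ hk
      obtain ⟨h1, h2⟩ := EMB_6 ρ v u (n - 2 + 2) ⟨k, hk'⟩
      refine ⟨fun h => ?_, fun h h' => ?_⟩
      · have h3 := h1 (Nat.lt_of_succ_lt_succ h)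
        show ((Sum.inr (ed ρ (n - 2 + 2) (u ++ v) ⟨k, hk'⟩).1,
          Sum.inr (ed ρ (n - 2 + 2) (u ++ v) ⟨k, hk'⟩).2) :
          (Fin (n + 1) ⊕ Loc (n - 2 + 2) (u ++ v)) × (Fin (n + 1) ⊕ Loc (n - 2 + 2) (u ++ v))) =
          _
        rw [h3]
        rfl
      · have h4 : nX u ≤ k := Nat.le_of_succ_le_succ h'
        have h5 : k + 1 - (nX u + 1) = k - nX u := Nat.add_sub_add_right k 1 (nX u)
        have h6 : k - nX u < nX v := by
          rw [← h5]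
          exact h
        have h3 := h2 h6 h4
        have h7 : (⟨k + 1 - (nX u + 1), h⟩ : Fin (nX v)) = ⟨k - nX u, h6⟩ := Fin.ext h5
        show ((Sum.inr (ed ρ (n - 2 + 2) (u ++ v) ⟨k, hk'⟩).1,
          Sum.inr (ed ρ (n - 2 + 2) (u ++ v) ⟨k, hk'⟩).2) :
          (Fin (n + 1) ⊕ Loc (n - 2 + 2) (u ++ v)) × (Fin (n + 1) ⊕ Loc (n - 2 + 2) (u ++ v))) =
          (iv n (⟨.X p, i⟩ :: u) v (ed ρ (wd n (⟨.X p, i⟩ :: u)) v ⟨k + 1 - (nX u + 1), h⟩).1,
            iv n (⟨.X p, i⟩ :: u) v (ed ρ (wd n (⟨.X p, i⟩ :: u)) v ⟨k + 1 - (nX u + 1), h⟩).2)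
        rw [h3, h7]
        rfl
  | ⟨.U, i⟩ :: u, n, k => by
    obtain ⟨h1, h2⟩ := EMB_6 ρ v u (n - 0 + 2) k
    refine ⟨fun h => ?_, fun h h' => ?_⟩
    · have h3 := h1 h
      show ((Sum.inr (ed ρ (n - 0 + 2) (u ++ v) k).1, Sum.inr (ed ρ (n - 0 + 2) (u ++ v) k).2) :
          (Fin (n + 1) ⊕ Loc (n - 0 + 2) (u ++ v)) × (Fin (n + 1) ⊕ Loc (n - 0 + 2) (u ++ v))) = _
      rw [h3]
      rfl
    · have h3 := h2 h h'
      show ((Sum.inr (ed ρ (n - 0 + 2) (u ++ v) k).1, Sum.inr (ed ρ (n - 0 + 2) (u ++ v) k).2) :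
          (Fin (n + 1) ⊕ Loc (n - 0 + 2) (u ++ v)) × (Fin (n + 1) ⊕ Loc (n - 0 + 2) (u ++ v))) = _
      rw [h3]
      rfl
  | ⟨.N, i⟩ :: u, n, k => by
    obtain ⟨h1, h2⟩ := EMB_6 ρ v u (n - 2 + 0) k
    refine ⟨fun h => ?_, fun h h' => ?_⟩
    · have h3 := h1 h
      show ((Sum.inr (ed ρ (n - 2 + 0) (u ++ v) k).1, Sum.inr (ed ρ (n - 2 + 0) (u ++ v) k).2) :
          (Fin (n + 1) ⊕ Loc (n - 2 + 0) (u ++ v)) × (Fin (n + 1) ⊕ Loc (n - 2 + 0) (u ++ v))) = _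
      rw [h3]
      rfl
    · have h3 := h2 h h'
      show ((Sum.inr (ed ρ (n - 2 + 0) (u ++ v) k).1, Sum.inr (ed ρ (n - 2 + 0) (u ++ v) k).2) :
          (Fin (n + 1) ⊕ Loc (n - 2 + 0) (u ++ v)) × (Fin (n + 1) ⊕ Loc (n - 2 + 0) (u ++ v))) = _
      rw [h3]
      rfl

private theorem EMB_7 (v : Word) : ∀ (u : Word) (n : ℕ) (α : Type) (f : Loc n u → α)
    (g : Loc (wd n u) v → α), (∀ j ≤ wd n u, g (bo (wd n u) v j) = f (tp n u j)) →
    ∃ F : Loc n (u ++ v) → α, (∀ x, F (iu n u v x) = f x) ∧ ∀ y, F (iv n u v y) = g y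
  | [], n, α, f, g, h => by
    refine ⟨g, fun x => ?_, fun y => rfl⟩
    have h1 : (show Fin (n + 1) from x).val ≤ n :=
      Nat.lt_succ_iff.1 (show Fin (n + 1) from x).2
    have h2 := h (show Fin (n + 1) from x).val h1
    have h3 : tp n [] (show Fin (n + 1) from x).val = x := by
      show Fin.ofNat (n + 1) (show Fin (n + 1) from x).val = (show Fin (n + 1) from x)
      apply Fin.ext
      rw [Fin.val_ofNat, Nat.mod_eq_of_lt (show Fin (n + 1) from x).2]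
    rw [h3] at h2
    exact h2
  | s :: u, n, α, f, g, h => by
    obtain ⟨F, hF1, hF2⟩ := EMB_7 v u (n - s.k.inn + s.k.out) α
      (fun y => f (Sum.inr y : Fin (n + 1) ⊕ Loc (n - s.k.inn + s.k.out) u)) g h
    refine ⟨fun z => Sum.elim
      (fun j : Fin (n + 1) => f (Sum.inl j : Fin (n + 1) ⊕ Loc (n - s.k.inn + s.k.out) u)) F
      (show Fin (n + 1) ⊕ Loc (n - s.k.inn + s.k.out) (u ++ v) from z), fun x => ?_, fun y => ?_⟩
    · rcases x with x | x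
      · rfl
      · exact hF1 x
    · exact hF2 y

theorem thm_EMB : St_EMB :=
  ⟨fun u v n j => ⟨EMB_1a v u n j, EMB_1b v u n j⟩, fun u v n j => EMB_2 v u n j,
    fun u v n => ⟨EMB_3a v u n, EMB_3b v u n⟩, fun u v n x y h => EMB_4 v u n x y h,
    fun u v n => ⟨EMB_5a v u n, EMB_5b v u n⟩, fun ρ u v n k => EMB_6 ρ v u n k,
    fun u v n α f g h => EMB_7 v u n α f g h, fun u v => EMB_8 v u⟩

end Pool.TWC
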