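import Pool.Agent.TWC.StB

/-!
# TWC: EQN, the equations for the number of circles
-/

set_option autoImplicit false

namespace Pool.TWC

open LaurentPolynomial Pool.Agent.ARB Pool.Agent.Helper2 Pool.ALT

theorem thm_EQN (h1 : St_CMD) (h2 : St_PS3) (h3 : St_CNT) : St_EQN := by
  intro ρ B u v w l m hu hv hw hP
  obtain ⟨⟨M, hM⟩, hall⟩ := h1 ρ
  obtain ⟨hC, hp1, hp2⟩ := hall M hM
  have h31 : (1 : ℝ) < Real.sqrt 3 := by
    rw [Real.lt_sqrt (by norm_num)]
    norm_num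
  have h30 : Real.sqrt 3 ≠ 0 := by
    intro h
    rw [h] at h31
    linarith
  have key : ∀ s : ZMod 3, (s = 1 ∨ s = -1) → Pole M (PG ρ s) → ∀ g : ℤ,
      Psi M (PG ρ s) m (fun _ => 0) = Real.sqrt 3 ^ g →
      (l : ℤ) + g = gam ρ B (u ++ v) + 2 * (Module.finrank (ZMod 3)
        (Sol ρ s u v w (Finset.univ.filter fun k => B (k : ℕ) = ρ)) : ℤ) := by
    intro s hs hpole g hg
    have e1 := congrFun (hP M (PG ρ s) hC hpole) (fun _ => 0)
    rw [h3 ρ M hM s hs B u v w hu hv hw, hM.del, Pi.smul_apply, smul_eq_mul, hg,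
      ← zpow_natCast, ← zpow_add₀ h30] at e1
    exact (zpow_right_injective₀ (by linarith) (by linarith) e1).symm
  obtain ⟨a1, a2⟩ := h2 ρ M hM m
  refine ⟨key (-1) (Or.inr rfl) hp2 _ a1, ?_⟩
  have e2 := key 1 (Or.inl rfl) hp1 _ a2
  linarith

end Pool.TWC
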