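import Pool.Agent.TWC.StA
import Pool.Agent.ALT.Mo.HE

/-!
# TWC, module EXP (helper71): expansion of an alternating word with an operator in the middle
-/

set_option autoImplicit false

namespace Pool.TWC

open LaurentPolynomial Pool.Agent.ARB Pool.Agent.Helper2 Pool.ALT

private theorem exp_mem {n : ℕ} (r : Bool) (S : Finset (Fin n)) (k : ℕ) (hk : k < n)
    (h : (⟨k, hk⟩ : Fin n) ∈ S) : st r S k = r := by
  unfold st
  exact if_pos ⟨hk, h⟩

private theorem exp_nmem {n : ℕ} (r : Bool) (S : Finset (Fin n)) (k : ℕ)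
    (h : ∀ hk : k < n, (⟨k, hk⟩ : Fin n) ∉ S) : st r S k = !r := by
  unfold st
  exact if_neg fun ⟨hk, h'⟩ => h hk h'

private theorem exp_st0 {n : ℕ} (r : Bool) (A : Finset (Fin n)) :
    st r (A.map (Fin.succEmb n)) 0 = !r := by
  refine exp_nmem r _ 0 fun hk h => ?_
  obtain ⟨k, -, hk⟩ := Finset.mem_map.1 h
  exact Fin.succ_ne_zero k hk

private theorem exp_st1 {n : ℕ} (r : Bool) (A : Finset (Fin n)) :
    st r (insert 0 (A.map (Fin.succEmb n))) 0 = r :=
  exp_mem r _ 0 (Nat.succ_pos n) (Finset.mem_insert_self _ _)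

private theorem exp_sts {n : ℕ} (r : Bool) (A : Finset (Fin n)) (k : ℕ) :
    st r (A.map (Fin.succEmb n)) (k + 1) = st r A k := by
  by_cases h : ∃ hk : k < n, (⟨k, hk⟩ : Fin n) ∈ A
  · obtain ⟨hk, h⟩ := h
    rw [exp_mem r A k hk h]
    exact exp_mem r _ (k + 1) (by omega) (Finset.mem_map.2 ⟨⟨k, hk⟩, h, rfl⟩)
  · rw [exp_nmem r A k fun hk h' => h ⟨hk, h'⟩]
    refine exp_nmem r _ (k + 1) fun hk h' => ?_
    obtain ⟨k', hk', h1⟩ := Finset.mem_map.1 h'
    have h2 : k' = ⟨k, by omega⟩ := Fin.succ_injective n h1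
    rw [h2] at hk'
    exact h ⟨by omega, hk'⟩

private theorem exp_sti {n : ℕ} (r : Bool) (A : Finset (Fin n)) (k : ℕ) :
    st r (insert 0 (A.map (Fin.succEmb n))) (k + 1) = st r A k := by
  by_cases h : ∃ hk : k < n, (⟨k, hk⟩ : Fin n) ∈ A
  · obtain ⟨hk, h⟩ := h
    rw [exp_mem r A k hk h]
    exact exp_mem r _ (k + 1) (by omega)
      (Finset.mem_insert_of_mem (Finset.mem_map.2 ⟨⟨k, hk⟩, h, rfl⟩))
  · rw [exp_nmem r A k fun hk h' => h ⟨hk, h'⟩]
    refine exp_nmem r _ (k + 1) fun hk h' => ?_
    rcases Finset.mem_insert.1 h' with h1 | h1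
    · exact absurd h1 (Fin.succ_ne_zero ⟨k, by omega⟩)
    · obtain ⟨k', hk', h2⟩ := Finset.mem_map.1 h1
      have h3 : k' = ⟨k, by omega⟩ := Fin.succ_injective n h2
      rw [h3] at hk'
      exact h ⟨by omega, hk'⟩

/-- one crossing -/
private theorem exp_step {V : Type} [AddCommGroup V] [Module LP V] (M : Model LP V)
    (r e p : Bool) (τ : ℤ) (hτ : τ = (if r = e then 1 else -1)) (i N : ℕ)
    (hp : p = e ↔ i % 2 = 0) (x : V) (L : V →ₗ[LP] V)
    (G : Finset (Fin N) → V → V)
    (hL : ∀ y, L y = ∑ A : Finset (Fin N), (T (τ * ((N : ℤ) - 2 * A.card)) : LP) • G A y)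
    (F : Finset (Fin (N + 1)) → V)
    (hF0 : ∀ A : Finset (Fin N), F (A.map (Fin.succEmb N)) =
      if (!r) = decide (i % 2 = 0) then G A (M.cup i (M.cap i x)) else G A x)
    (hF1 : ∀ A : Finset (Fin N), F (insert 0 (A.map (Fin.succEmb N))) =
      if r = decide (i % 2 = 0) then G A (M.cup i (M.cap i x)) else G A x) :
    L (crossOp M i p x) = ∑ S : Finset (Fin (N + 1)),
      (T (τ * (((N + 1 : ℕ) : ℤ) - 2 * S.card)) : LP) • F S := by
  have hl : L (crossOp M i p x) = (T (if p then 1 else -1) : LP) • L x +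
      (T (if p then -1 else 1) : LP) • L (M.cup i (M.cap i x)) := by
    show L ((T (if p then 1 else -1) : LP) • x +
      (T (if p then -1 else 1) : LP) • M.cup i (M.cap i x)) = _
    rw [map_add, map_smul, map_smul]
  rw [hl, hL, hL, he_sum, Finset.smul_sum, Finset.smul_sum, ← Finset.sum_add_distrib]
  apply Finset.sum_congr rfl
  intro A _
  have hc0 : (A.map (Fin.succEmb N)).card = A.card := Finset.card_map _
  have hc1 : (insert 0 (A.map (Fin.succEmb N))).card = A.card + 1 := by
    rw [Finset.card_insert_of_notMem, Finset.card_map]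
    intro h3
    obtain ⟨k, -, hk⟩ := Finset.mem_map.1 h3
    exact Fin.succ_ne_zero k hk
  have hw0 : (T (τ * (((N + 1 : ℕ) : ℤ) - 2 * (A.card : ℤ))) : LP) =
      T τ * T (τ * ((N : ℤ) - 2 * A.card)) := by
    rw [← T_add]
    congr 1
    push_cast
    ring
  have hw1 : (T (τ * (((N + 1 : ℕ) : ℤ) - 2 * ((A.card + 1 : ℕ) : ℤ))) : LP) =
      T (-τ) * T (τ * ((N : ℤ) - 2 * A.card)) := by
    rw [← T_add]
    congr 1
    push_cast
    ring
  rw [hF0, hF1, hc0, hc1, hw0, hw1, smul_smul, smul_smul]
  by_cases hi : i % 2 = 0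
  · have hpe : p = e := hp.2 hi
    rw [hpe, hτ, decide_eq_true hi]
    cases r <;> cases e <;>
      simp only [Bool.not_false, Bool.not_true, reduceCtorEq, if_true, if_false, neg_neg,
        Bool.false_eq_true] <;>
      first
        | rfl
        | exact add_comm _ _
  · have hpe : p = !e := by
      cases p <;> cases e
      · exact absurd (hp.1 rfl) hi
      · rfl
      · rfl
      · exact absurd (hp.1 rfl) hi
    rw [hpe, hτ, decide_eq_false hi]
    cases r <;> cases e <;>
      simp only [Bool.not_false, Bool.not_true, reduceCtorEq, if_true, if_false, neg_neg,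
        Bool.false_eq_true] <;>
      first
        | rfl
        | exact add_comm _ _

/-- the expansion of a word -/
private theorem exp_word {V : Type} [AddCommGroup V] [Module LP V] (M : Model LP V)
    (r e : Bool) (τ : ℤ) (hτ : τ = (if r = e then 1 else -1)) :
    ∀ (w : Word) (x : V), (∀ (p : Bool) (i : ℕ), pX i p ∈ w → (p = e ↔ i % 2 = 0)) →
      runW M w x = ∑ A : Finset (Fin (nX w)),
        (T (τ * ((nX w : ℤ) - 2 * A.card)) : LP) • runC M (jo (st r A) w) x
  | [], x, _ => by
      show x = ∑ A : Finset (Fin 0),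
        (T (τ * (((0 : ℕ) : ℤ) - 2 * A.card)) : LP) • runC M (jo (st r A) []) x
      rw [Fintype.sum_eq_single (∅ : Finset (Fin 0))]
      · rw [Finset.card_empty]
        have h1 : τ * (((0 : ℕ) : ℤ) - 2 * ((0 : ℕ) : ℤ)) = 0 := by
          push_cast
          ring
        rw [h1, T_zero, one_smul]
        rfl
      · intro A hA
        exact absurd (Finset.eq_empty_of_isEmpty A) hA
  | ⟨.U, i⟩ :: w, x, h => by
      have h1 := exp_word M r e τ hτ w (M.cup i x) fun p i' hp => h p i' (List.mem_cons_of_mem _ hp)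
      show runW M w (M.cup i x) = _
      rw [h1]
      rfl
  | ⟨.N, i⟩ :: w, x, h => by
      have h1 := exp_word M r e τ hτ w (M.cap i x) fun p i' hp => h p i' (List.mem_cons_of_mem _ hp)
      show runW M w (M.cap i x) = _
      rw [h1]
      rfl
  | ⟨.X p, i⟩ :: w, x, h => by
      have hpe : p = e ↔ i % 2 = 0 := h p i List.mem_cons_self
      refine exp_step M r e p τ hτ i (nX w) hpe x (runW M w)
        (fun A y => runC M (jo (st r A) w) y)
        (fun y => exp_word M r e τ hτ w y fun p i' hp => h p i' (List.mem_cons_of_mem _ hp))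
        (fun S => runC M (jo (st r S) (⟨.X p, i⟩ :: w)) x) (fun A => ?_) (fun A => ?_)
      · show runC M (if st r (A.map (Fin.succEmb (nX w))) 0 = decide (i % 2 = 0) then
          pN i :: pU i :: jo (fun k => st r (A.map (Fin.succEmb (nX w))) (k + 1)) w
          else jo (fun k => st r (A.map (Fin.succEmb (nX w))) (k + 1)) w) x = _
        rw [exp_st0, funext (exp_sts r A)]
        split_ifs <;> rfl
      · show runC M (if st r (insert 0 (A.map (Fin.succEmb (nX w)))) 0 = decide (i % 2 = 0) then
          pN i :: pU i :: jo (fun k => st r (insert 0 (A.map (Fin.succEmb (nX w)))) (k + 1)) w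
          else jo (fun k => st r (insert 0 (A.map (Fin.succEmb (nX w)))) (k + 1)) w) x = _
        rw [exp_st1, funext (exp_sti r A)]
        split_ifs <;> rfl

/-- the expansion with an operator in the middle -/
private theorem exp_main {V : Type} [AddCommGroup V] [Module LP V] (M : Model LP V)
    (r e : Bool) (τ : ℤ) (hτ : τ = (if r = e then 1 else -1)) (v : Word) (P : V →ₗ[LP] V) :
    ∀ (u : Word) (x : V), (∀ (p : Bool) (i : ℕ), pX i p ∈ u ++ v → (p = e ↔ i % 2 = 0)) →
      runW M v (P (runW M u x)) = ∑ S : Finset (Fin (nX (u ++ v))),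
        (T (τ * ((nX (u ++ v) : ℤ) - 2 * S.card)) : LP) •
          runC M (jo (fun k => st r S (k + nX u)) v) (P (runC M (jo (st r S) u) x))
  | [], x, h => exp_word M r e τ hτ v (P x) h
  | ⟨.U, i⟩ :: u, x, h =>
      exp_main M r e τ hτ v P u (M.cup i x) fun p i' hp => h p i' (List.mem_cons_of_mem _ hp)
  | ⟨.N, i⟩ :: u, x, h =>
      exp_main M r e τ hτ v P u (M.cap i x) fun p i' hp => h p i' (List.mem_cons_of_mem _ hp)
  | ⟨.X p, i⟩ :: u, x, h => by
      have hpe : p = e ↔ i % 2 = 0 := h p i List.mem_cons_self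
      refine exp_step M r e p τ hτ i (nX (u ++ v)) hpe x (runW M v ∘ₗ P ∘ₗ runW M u)
        (fun A y => runC M (jo (fun k => st r A (k + nX u)) v) (P (runC M (jo (st r A) u) y)))
        (fun y => exp_main M r e τ hτ v P u y fun p i' hp => h p i' (List.mem_cons_of_mem _ hp))
        (fun S => runC M (jo (fun k => st r S (k + nX (⟨.X p, i⟩ :: u))) v)
          (P (runC M (jo (st r S) (⟨.X p, i⟩ :: u)) x))) (fun A => ?_) (fun A => ?_)
      · have e1 : (fun k => st r (A.map (Fin.succEmb (nX (u ++ v)))) (k + nX (⟨.X p, i⟩ :: u))) =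
            fun k => st r A (k + nX u) := by
          funext k
          exact exp_sts r A (k + nX u)
        show runC M (jo (fun k => st r (A.map (Fin.succEmb (nX (u ++ v))))
            (k + nX (⟨.X p, i⟩ :: u))) v) (P (runC M
          (if st r (A.map (Fin.succEmb (nX (u ++ v)))) 0 = decide (i % 2 = 0) then
          pN i :: pU i :: jo (fun k => st r (A.map (Fin.succEmb (nX (u ++ v)))) (k + 1)) u
          else jo (fun k => st r (A.map (Fin.succEmb (nX (u ++ v)))) (k + 1)) u) x)) = _
        rw [e1, exp_st0, funext (exp_sts r A)]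
        split_ifs <;> rfl
      · have e1 : (fun k => st r (insert 0 (A.map (Fin.succEmb (nX (u ++ v)))))
            (k + nX (⟨.X p, i⟩ :: u))) = fun k => st r A (k + nX u) := by
          funext k
          exact exp_sti r A (k + nX u)
        show runC M (jo (fun k => st r (insert 0 (A.map (Fin.succEmb (nX (u ++ v)))))
            (k + nX (⟨.X p, i⟩ :: u))) v) (P (runC M
          (if st r (insert 0 (A.map (Fin.succEmb (nX (u ++ v))))) 0 = decide (i % 2 = 0) then
          pN i :: pU i ::
            jo (fun k => st r (insert 0 (A.map (Fin.succEmb (nX (u ++ v))))) (k + 1)) u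
          else jo (fun k => st r (insert 0 (A.map (Fin.succEmb (nX (u ++ v))))) (k + 1)) u) x)) = _
        rw [e1, exp_st1, funext (exp_sti r A)]
        split_ifs <;> rfl

/-- [EXP] expansion of an alternating word with an operator in the middle. -/
theorem thm_EXP : St_EXP := by
  intro V _ _ M _ r e τ u v n₀ n m P x _ _ _ _ h hτ
  exact exp_main M r e τ hτ v P u x h

end Pool.TWC
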