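import Pool.Agent.TWC.StA
import Pool.Agent.ARB.Inv
import Pool.Agent.ARB.BrRun

/-!
# TWC, module FOR (helper21): the bracket of an alternating diagram with full twists

The tensor model, the expansion of the two alternating halves and the value of the pole.
-/

set_option autoImplicit false

namespace Pool.TWC

open LaurentPolynomial Pool.Agent.ARB Pool.Agent.Helper2 Pool.ALT

/-- vectors of the tensor model which are multiples of the initial vector -/
private theorem for_init {M : Model LP (Pool.Agent.TWB.Ten LP)} (hM : TM M) (c : LP) :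
    (c • M.init) [] = c := by
  rw [hM.init]
  show c * (if ([] : List ℤˣ) = [] then (1 : LP) else 0) = c
  rw [if_pos rfl, mul_one]

private theorem for_sum {M : Model LP (Pool.Agent.TWB.Ten LP)} (hM : TM M) {ι : Type}
    (s : Finset ι) (c : LP) (f : ι → LP) (h : c • M.init = ∑ S ∈ s, f S • M.init) :
    c = ∑ S ∈ s, f S := by
  rw [← Finset.sum_smul] at h
  have h1 := congrFun h []
  rwa [for_init hM, for_init hM] at h1

/-- [FOR] the formula. -/
theorem thm_FOR (h1 : St_FTP) (h2 : St_TMD) (h3 : St_PHI) (h4 : St_EXP) : St_FOR := by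
  intro u v n w k K r e τ hu hv hw hK hK0 hf hX hτ l m hP
  obtain ⟨M, hM⟩ := h2
  obtain ⟨hC, hpole⟩ := h1 _ M hM.good
  have hPole := hpole k
  have hrun := thm_BrRun _ M hM.good K hK0 (ok_of_dirs K [] [] hK)
  rw [hf, run_append, run_append] at hrun
  have hexp := h4 _ M hM.good r e τ u v 0 n 0 ((T (3 * k * w) : LP) • runW M (FT w k)) M.init
    hu hv (fun y hy => hPole.supp n w y hw hy) M.supp_init hX hτ
  have hL : runW M v (((T (3 * k * w) : LP) • runW M (FT w k)) (runW M u M.init)) =
      (T (3 * k * w) * (loopVal * bracket K) : LP) • M.init := by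
    rw [LinearMap.smul_apply, map_smul, hrun, smul_smul]
  rw [hL] at hexp
  refine for_sum hM _ _ _ (hexp.trans (Finset.sum_congr rfl fun S _ => ?_))
  have h5 := hP S M (PF M k) hC hPole
  rw [h3 M hM k (m S), hM.good.del, smul_smul] at h5
  have h6 : runC M (jo (fun k => st r S (k + nX u)) v)
      (((T (3 * k * w) : LP) • runW M (FT w k)) (runC M (jo (st r S) u) M.init)) =
      (loopVal ^ l S * Ph k (m S) : LP) • M.init := h5
  rw [h6, smul_smul]

end Pool.TWC
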