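import Pool.Agent.TWC.StA
import Pool.Agent.ARB.Inv

/-!
# TWC, module FTN: a cap slides through the full twist
-/

set_option autoImplicit false

namespace Pool.TWC

open LaurentPolynomial Pool.Agent.ARB Pool.Agent.Helper2 Pool.ALT

section

variable {V : Type} [AddCommGroup V] [Module LP V]

/-- the crossings `j, ..., j + m - 1`, the last one acts first -/
private noncomputable def ftS (M : Model LP V) (p : Bool) : ℕ → ℕ → V → V
  | _, 0, x => x
  | j, m + 1, x => crossOp M j p (ftS M p (j + 1) m x)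

variable {M : Model LP V}

private theorem ftS_snoc (p : Bool) (m : ℕ) : ∀ (j : ℕ) (x : V),
    ftS M p j (m + 1) x = ftS M p j m (crossOp M (j + m) p x) := by
  induction m with
  | zero => intro j x; rfl
  | succ m ih =>
    intro j x
    show crossOp M j p (ftS M p (j + 1) (m + 1) x) =
      crossOp M j p (ftS M p (j + 1) m (crossOp M (j + (m + 1)) p x))
    rw [ih (j + 1) x]
    have e : j + 1 + m = j + (m + 1) := by omega
    rw [e]

private theorem ftS_smul (p : Bool) (m : ℕ) : ∀ (j : ℕ) (c : LP) (x : V),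
    ftS M p j m (c • x) = c • ftS M p j m x := by
  induction m with
  | zero => intro j c x; rfl
  | succ m ih =>
    intro j c x
    show crossOp M j p (ftS M p (j + 1) m (c • x)) = c • crossOp M j p (ftS M p (j + 1) m x)
    rw [ih, map_smul]

private theorem ftI_smul (p : Bool) (j m q : ℕ) : ∀ (c : LP) (x : V),
    (ftS M p j m)^[q] (c • x) = c • (ftS M p j m)^[q] x := by
  induction q with
  | zero => intro c x; rfl
  | succ q ih =>
    intro c x
    rw [Function.iterate_succ_apply, Function.iterate_succ_apply, ftS_smul, ih]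

/-! ### supports -/

private theorem ftX_supp (hM : Good M) {N i : ℕ} (p : Bool) {x : V} (h : i + 2 ≤ N)
    (hx : M.Supp N x) : M.Supp N (crossOp M i p x) := by
  rw [Pool.Agent.ARB.cross_apply]
  exact hM.add _ _ _ (hM.smul _ _ _ hx) (hM.smul _ _ _ (supp_E h hx))

private theorem ftS_supp (hM : Good M) {N : ℕ} (p : Bool) (m : ℕ) : ∀ (j : ℕ) {x : V},
    (j + m + 1 ≤ N ∨ m = 0) → M.Supp N x → M.Supp N (ftS M p j m x) := by
  induction m with
  | zero => intro j x _ hx; exact hx
  | succ m ih =>
    intro j x h hx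
    exact ftX_supp hM p (by omega) (ih (j + 1) (by omega) hx)

private theorem ftI_supp (hM : Good M) {N : ℕ} (p : Bool) (j m : ℕ) (h : j + m + 1 ≤ N ∨ m = 0)
    (q : ℕ) : ∀ {x : V}, M.Supp N x → M.Supp N ((ftS M p j m)^[q] x) := by
  induction q with
  | zero => intro x hx; exact hx
  | succ q ih =>
    intro x hx
    rw [Function.iterate_succ_apply]
    exact ih (ftS_supp hM p m j h hx)

/-! ### one crossing and a cap -/

private theorem ftX_cap (hM : Good M) {N i : ℕ} (p : Bool) {x : V} (h : i + 2 ≤ N)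
    (hx : M.Supp N x) : M.cap i (crossOp M i p x) =
      (-(T (if p then -1 else 1) : LP) ^ 3) • M.cap i x := by
  obtain ⟨c1, c2⟩ := inv_coef hM p
  rw [Pool.Agent.ARB.cross_apply, map_add, map_smul, map_smul]
  unfold invE
  rw [M.rel1 (N - 2) i _ (supp_cap' h hx) (by omega), c2]
  generalize (T (if p = true then 1 else -1) : LP) = a at *
  generalize (T (if p = true then -1 else 1) : LP) = b at *
  match_scalars
  linear_combination (-a) * c1

private theorem ftX_slide {N i : ℕ} (p : Bool) {x : V} (h : i + 3 ≤ N)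
    (hx : M.Supp N x) : M.cap (i + 1) (crossOp M i p x) = M.cap i (crossOp M (i + 1) (!p) x) := by
  rw [Pool.Agent.ARB.cross_apply, Pool.Agent.ARB.cross_apply, map_add, map_add, map_smul, map_smul, map_smul, map_smul]
  unfold invE
  rw [M.rel2 (N - 2) i _ (supp_cap' (by omega) hx) (by omega),
    M.rel3 (N - 2) i _ (supp_cap' (by omega) hx) (by omega)]
  cases p
  · exact add_comm _ _
  · exact add_comm _ _

private theorem ftX_cap1 (hM : Good M) {N i : ℕ} (p : Bool) {x : V} (h : i + 3 ≤ N)
    (hx : M.Supp N x) : M.cap (i + 1) (crossOp M i p (crossOp M (i + 1) p x)) = M.cap i x := by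
  rw [ftX_slide p h (ftX_supp hM p (by omega) hx), inv_r2 hM p (by omega) hx]

private theorem ftX_cap2 (hM : Good M) {N i : ℕ} (p : Bool) {x : V} (h : i + 3 ≤ N)
    (hx : M.Supp N x) : M.cap i (crossOp M (i + 1) p (crossOp M i p x)) = M.cap (i + 1) x := by
  have h1 := ftX_slide (!p) h (ftX_supp hM p (i := i) (by omega) hx)
  rw [Bool.not_not] at h1
  rw [← h1, inv_r2 hM p (by omega) hx]

private theorem ftX_right (hM : Good M) {N i l : ℕ} (p : Bool) {x : V} (h : i + l + 4 ≤ N)
    (hx : M.Supp N x) : M.cap i (crossOp M (i + 2 + l) p x) = crossOp M (i + l) p (M.cap i x) := by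
  rw [Pool.Agent.ARB.cross_apply, Pool.Agent.ARB.cross_apply, map_add, map_smul, map_smul, E_cap hM (by omega) hx]

private theorem ftX_left (hM : Good M) {N i l : ℕ} (p : Bool) {x : V} (h : i + l + 4 ≤ N)
    (hx : M.Supp N x) :
    M.cap (i + 2 + l) (crossOp M i p x) = crossOp M i p (M.cap (i + 2 + l) x) := by
  rw [Pool.Agent.ARB.cross_apply, Pool.Agent.ARB.cross_apply, map_add, map_smul, map_smul, cap_E hM (by omega) hx]

private theorem ftX_comm (hM : Good M) {N i l : ℕ} (p : Bool) {x : V} (h : i + l + 4 ≤ N)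
    (hx : M.Supp N x) : crossOp M (i + 2 + l) p (crossOp M i p x) =
      crossOp M i p (crossOp M (i + 2 + l) p x) := by
  have h1 := inv_swap hM (.X p) (.X p) (n := N) (i := i) (k := l) (x := x)
    (show i + 2 + l + 2 ≤ N by omega) hx
  exact h1

/-! ### sweeps and caps -/

private theorem ftS_right (hM : Good M) {N : ℕ} (p : Bool) (i r : ℕ) : ∀ (l : ℕ) {x : V},
    i + l + r + 3 ≤ N → M.Supp N x →
    M.cap i (ftS M p (i + 2 + l) r x) = ftS M p (i + l) r (M.cap i x) := by
  induction r with
  | zero => intro l x _ _; rfl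
  | succ r ih =>
    intro l x h hx
    show M.cap i (crossOp M (i + 2 + l) p (ftS M p (i + 2 + (l + 1)) r x)) =
      crossOp M (i + l) p (ftS M p (i + (l + 1)) r (M.cap i x))
    rw [ftX_right hM p (by omega) (ftS_supp hM p r _ (by omega) hx), ih (l + 1) (by omega) hx]

private theorem ftS_comm (hM : Good M) {N : ℕ} (p : Bool) (j m : ℕ) : ∀ (l : ℕ) {x : V},
    (j + l + m + 3 ≤ N ∨ m = 0) → M.Supp N x →
    ftS M p (j + 2 + l) m (crossOp M j p x) = crossOp M j p (ftS M p (j + 2 + l) m x) := by
  induction m with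
  | zero => intro l x _ _; rfl
  | succ m ih =>
    intro l x h hx
    show crossOp M (j + 2 + l) p (ftS M p (j + 2 + (l + 1)) m (crossOp M j p x)) =
      crossOp M j p (crossOp M (j + 2 + l) p (ftS M p (j + 2 + (l + 1)) m x))
    rw [ih (l + 1) (by omega) hx,
      ftX_comm hM p (by omega) (ftS_supp hM p m _ (by omega) hx)]

private theorem ftS_left (hM : Good M) {N i : ℕ} (p : Bool) (m : ℕ) : ∀ (j : ℕ) {x : V},
    (j + m + 1 ≤ i ∨ m = 0) → i + 2 ≤ N → M.Supp N x →
    M.cap i (ftS M p j m x) = ftS M p j m (M.cap i x) := by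
  induction m with
  | zero => intro j x _ _ _; rfl
  | succ m ih =>
    intro j x h hi hx
    show M.cap i (crossOp M j p (ftS M p (j + 1) m x)) =
      crossOp M j p (ftS M p (j + 1) m (M.cap i x))
    obtain ⟨l, rfl⟩ : ∃ l, i = j + 2 + l := ⟨i - (j + 2), by omega⟩
    rw [ftX_left hM p (by omega) (ftS_supp hM p m _ (by omega) hx),
      ih (j + 1) (by omega) hi hx]

private theorem ftS_mid (hM : Good M) {N : ℕ} (p : Bool) (r i : ℕ) : ∀ (j : ℕ) {x : V},
    j + i + r + 3 ≤ N → M.Supp N x →
    M.cap (j + i + 1) (ftS M p j (i + 2 + r) x) = ftS M p j (i + r) (M.cap (j + i) x) := by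
  induction i with
  | zero =>
    intro j x h hx
    have e1 : 0 + 2 + r = r + 1 + 1 := by omega
    have e2 : 0 + r = r := by omega
    rw [e1, e2]
    show M.cap (j + 1) (crossOp M j p (crossOp M (j + 1) p (ftS M p (j + 2 + 0) r x))) =
      ftS M p (j + 0) r (M.cap j x)
    rw [ftX_cap1 hM p (by omega) (ftS_supp hM p r _ (by omega) hx),
      ftS_right hM p j r 0 (by omega) hx]
  | succ i ih =>
    intro j x h hx
    have e1 : i + 1 + 2 + r = (i + 2 + r) + 1 := by omega
    have e2 : i + 1 + r = (i + r) + 1 := by omega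
    have e3 : j + (i + 1) + 1 = j + 2 + i := by omega
    have e4 : j + (i + 1) = j + 1 + i := by omega
    have e5 : j + 2 + i = j + 1 + i + 1 := by omega
    rw [e1, e2, e3, e4]
    show M.cap (j + 2 + i) (crossOp M j p (ftS M p (j + 1) (i + 2 + r) x)) =
      crossOp M j p (ftS M p (j + 1) (i + r) (M.cap (j + 1 + i) x))
    rw [ftX_left hM p (by omega) (ftS_supp hM p _ _ (by omega) hx), e5,
      ih (j + 1) (by omega) hx]

private theorem ftS_G (hM : Good M) {N : ℕ} (p : Bool) (m : ℕ) : ∀ (j : ℕ) {x : V},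
    j + m + 2 ≤ N → M.Supp N x →
    M.cap j (ftS M p (j + 1) m (ftS M p j (m + 1) x)) =
      (-(T (if p then -1 else 1) : LP) ^ 3) • M.cap (j + m) x := by
  induction m with
  | zero =>
    intro j x h hx
    exact ftX_cap hM p h hx
  | succ m ih =>
    intro j x h hx
    show M.cap j (crossOp M (j + 1) p (ftS M p (j + 2 + 0) m
      (crossOp M j p (ftS M p (j + 1) (m + 1) x)))) = _
    have hy : M.Supp N (ftS M p (j + 1) (m + 1) x) := ftS_supp hM p _ _ (by omega) hx
    rw [ftS_comm hM p j m 0 (by omega) hy,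
      ftX_cap2 hM p (by omega) (ftS_supp hM p m _ (by omega) hy)]
    have h1 := ih (j + 1) (x := x) (by omega) hx
    have e : j + 1 + m = j + (m + 1) := by omega
    rw [e] at h1
    exact h1

/-! ### full twists -/

private theorem ft_sweep (p : Bool) (m : ℕ) : ∀ x : V,
    runW M (((List.range m).map fun j => pX j p).reverse) x = ftS M p 0 m x := by
  induction m with
  | zero => intro x; rfl
  | succ m ih =>
    intro x
    rw [List.range_succ, List.map_append, List.reverse_append, ftS_snoc, ← ih, Nat.zero_add]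
    rfl

private theorem ft_rep (u : Word) (q : ℕ) : ∀ x : V,
    runW M (List.replicate q u).flatten x = (fun y => runW M u y)^[q] x := by
  induction q with
  | zero => intro x; rfl
  | succ q ih =>
    intro x
    rw [List.replicate_succ, List.flatten_cons, run_append, ih, Function.iterate_succ_apply]

private theorem ft_run (w : ℕ) (k : ℤ) (x : V) : runW M (FT w k) x =
    (ftS M (decide (0 < k)) 0 (w - 1))^[w * k.natAbs] x := by
  unfold FT
  rw [ft_rep]
  congr 2
  funext y
  exact ft_sweep _ _ y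

private theorem ft_pow (hM : Good M) (p : Bool) {n w i : ℕ} (hw : w ≤ n) (hi : i ≤ w) {x : V}
    (hx : M.Supp (n + 2) x) : M.cap i ((ftS M p 0 (w + 1))^[w + 2] x) =
      ((T (if p then -1 else 1) : LP) ^ 6) • (ftS M p 0 (w - 1))^[w] (M.cap i x) := by
  have hb : ∀ (j : ℕ) {y : V}, j + 1 ≤ w → M.Supp (n + 2) y →
      M.cap (j + 1) (ftS M p 0 (w + 1) y) = ftS M p 0 (w - 1) (M.cap j y) := by
    intro j y hj hy
    have h1 := ftS_mid hM p (w - 1 - j) j 0 (x := y) (N := n + 2) (by omega) hy
    have e1 : 0 + j + 1 = j + 1 := by omega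
    have e2 : j + 2 + (w - 1 - j) = w + 1 := by omega
    have e3 : j + (w - 1 - j) = w - 1 := by omega
    have e4 : 0 + j = j := by omega
    rw [e1, e2, e3, e4] at h1
    exact h1
  have hI : ∀ (q j : ℕ) {y : V}, j + q ≤ w → M.Supp (n + 2) y →
      M.cap (j + q) ((ftS M p 0 (w + 1))^[q] y) = (ftS M p 0 (w - 1))^[q] (M.cap j y) := by
    intro q
    induction q with
    | zero => intro j y _ _; rfl
    | succ q ih =>
      intro j y hj hy
      rw [Function.iterate_succ_apply', Function.iterate_succ_apply', ← ih j (by omega) hy]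
      exact hb (j + q) (by omega) (ftI_supp hM p 0 (w + 1) (by omega) q hy)
  have hc : ∀ {y : V}, M.Supp (n + 2) y →
      M.cap 0 (ftS M p 0 (w + 1) (ftS M p 0 (w + 1) y)) =
        ((T (if p then -1 else 1) : LP) ^ 6) • M.cap w y := by
    intro y hy
    have hy1 : M.Supp (n + 2) (ftS M p 0 (w + 1) y) := ftS_supp hM p _ _ (by omega) hy
    show M.cap 0 (crossOp M 0 p (ftS M p (0 + 1) w (ftS M p 0 (w + 1) y))) = _
    rw [ftX_cap hM p (by omega) (ftS_supp hM p w _ (by omega) hy1),
      ftS_G hM p w 0 (by omega) hy, smul_smul, Nat.zero_add]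
    congr 1
    ring
  have e : w + 2 = i + (2 + (w - i)) := by omega
  have hz : M.Supp (n + 2) ((ftS M p 0 (w + 1))^[w - i] x) :=
    ftI_supp hM p 0 (w + 1) (by omega) _ hx
  have h1 := hI i 0 (y := (ftS M p 0 (w + 1))^[2 + (w - i)] x) (by omega)
    (ftI_supp hM p 0 (w + 1) (by omega) _ hx)
  rw [Nat.zero_add] at h1
  have h2 : (ftS M p 0 (w + 1))^[2 + (w - i)] x =
      ftS M p 0 (w + 1) (ftS M p 0 (w + 1) ((ftS M p 0 (w + 1))^[w - i] x)) := by
    rw [Function.iterate_add_apply]
    rfl
  have h3 := hI (w - i) i (y := x) (by omega) hx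
  have e2 : i + (w - i) = w := by omega
  rw [e2] at h3
  have e3 : (ftS M p 0 (w - 1))^[w] (M.cap i x) =
      (ftS M p 0 (w - 1))^[i] ((ftS M p 0 (w - 1))^[w - i] (M.cap i x)) := by
    rw [← Function.iterate_add_apply, e2]
  rw [e, Function.iterate_add_apply, h1, h2, hc hz, h3, ftI_smul, ← e3]

private theorem ft_pows (hM : Good M) (p : Bool) {n w i : ℕ} (hw : w ≤ n) (hi : i ≤ w) (K : ℕ) :
    ∀ {x : V}, M.Supp (n + 2) x → M.cap i ((ftS M p 0 (w + 1))^[(w + 2) * K] x) =
      (((T (if p then -1 else 1) : LP) ^ 6) ^ K) • (ftS M p 0 (w - 1))^[w * K] (M.cap i x) := by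
  induction K with
  | zero =>
    intro x _
    rw [Nat.mul_zero, Nat.mul_zero, pow_zero, one_smul]
    rfl
  | succ K ih =>
    intro x hx
    rw [Nat.mul_succ, Nat.mul_succ,
      Function.iterate_add_apply (ftS M p 0 (w + 1)) ((w + 2) * K) (w + 2),
      Function.iterate_add_apply (ftS M p 0 (w - 1)) (w * K) w,
      ih (ftI_supp hM p 0 (w + 1) (by omega) _ hx), ft_pow hM p hw hi hx, ftI_smul, smul_smul,
      ← pow_succ]

private theorem ft_far (hM : Good M) (p : Bool) {n w i : ℕ} (hi : w ≤ i) (hin : i ≤ n) (q : ℕ) :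
    ∀ {x : V}, M.Supp (n + 2) x → M.cap i ((ftS M p 0 (w - 1))^[q] x) =
      (ftS M p 0 (w - 1))^[q] (M.cap i x) := by
  induction q with
  | zero => intro x _; rfl
  | succ q ih =>
    intro x hx
    rw [Function.iterate_succ_apply, Function.iterate_succ_apply,
      ih (ftS_supp hM p _ _ (by omega) hx), ftS_left hM p (w - 1) 0 (by omega) (by omega) hx]

end

/-- [FTN] a cap slides through the full twist -/
theorem thm_FTN : St_FTN := by
  intro V _ _ M hM k n w i x hw hx
  refine ⟨fun hi => ?_, fun hi hin => ?_⟩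
  · unfold PF
    rw [map_smul, ft_run, ft_run]
    have h1 := ft_pows hM (decide (0 < k)) hw hi k.natAbs hx
    have e : w + 2 - 1 = w + 1 := rfl
    rw [e, h1, smul_smul]
    congr 1
    rw [← pow_mul, T_pow, ← T_add]
    congr 1
    by_cases hk : 0 < k
    · rw [decide_eq_true hk, if_pos rfl]
      push_cast
      rw [abs_of_pos hk]
      ring
    · rw [decide_eq_false hk, if_neg Bool.false_ne_true]
      push_cast
      rw [abs_of_nonpos (not_lt.1 hk)]
      ring
  · unfold PF
    rw [map_smul, ft_run, ft_run, ft_far hM _ hi hin _ hx]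

end Pool.TWC
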