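import Pool.Agent.TWC.StA
import Pool.Agent.ARB.Inv

/-!
# TWC, module FTP: the full twists form a pole
-/

set_option autoImplicit false

namespace Pool.TWC

open LaurentPolynomial Pool.Agent.ARB Pool.Agent.Helper2 Pool.ALT

private theorem ok_X (n : ℕ) : ∀ w : Word, (∀ s ∈ w, ∃ (j : ℕ) (p : Bool), s = pX j p ∧ j + 2 ≤ n) →
    Ok w n n
  | [], _ => rfl
  | s :: w, h => by
    obtain ⟨j, p, hs, hj⟩ := h s (List.mem_cons_self ..)
    subst hs
    have h1 : n - 2 + 2 = n := by omega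
    refine ⟨hj, ?_⟩
    show Ok w (n - 2 + 2) n
    rw [h1]
    exact ok_X n w fun s hs => h s (List.mem_cons_of_mem _ hs)

private theorem ok_FT (w n : ℕ) (k : ℤ) (h : w ≤ n) : Ok (FT w k) n n := by
  refine ok_X n _ fun s hs => ?_
  unfold FT at hs
  rw [List.mem_flatten] at hs
  obtain ⟨l, hl, hs⟩ := hs
  rw [List.mem_replicate] at hl
  rw [hl.2] at hs
  unfold sweep at hs
  rw [List.mem_reverse, List.mem_map] at hs
  obtain ⟨j, hj, rfl⟩ := hs
  rw [List.mem_range] at hj
  exact ⟨j, _, rfl, by omega⟩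

/-- [FTP] -/
theorem thm_FTP (h1 : St_FTU) (h2 : St_FTN) : St_FTP := by
  intro V _ _ M hM
  refine ⟨⟨hM.cupcup, hM.capcap⟩, fun k => ?_⟩
  refine
    { supp := fun n w x hw hx => hM.smul n _ _ (supp_run hM (ok_FT w n k hw) hx)
      smul := fun n w c x _ _ => ?_
      cupL := fun n w i x hi hw hx => (h1 V M hM k n w i x hw hx).1 hi
      cupR := fun n w i x hi hn hx => (h1 V M hM k n w i x (hi.trans hn) hx).2 hi hn
      capL := fun n w i x hi hw hx => (h2 V M hM k n w i x hw hx).1 hi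
      capR := fun n w i x hi hn hx => (h2 V M hM k n w i x (hi.trans hn) hx).2 hi hn }
  unfold PF
  rw [map_smul, smul_comm]

end Pool.TWC
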