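import Pool.Agent.TWC.StA
import Pool.Agent.ARB.Inv

/-!
# TWC [FTU]: a cup slides through the full twist
-/

set_option autoImplicit false

namespace Pool.TWC

open LaurentPolynomial Pool.Agent.ARB Pool.Agent.Helper2 Pool.ALT

namespace FTUa

variable {V : Type} [AddCommGroup V] [Module LP V] {M : Model LP V}

/-- the crossings `j - 1, ..., 0`, the first one acts first -/
noncomputable def Aop (M : Model LP V) (p : Bool) : ℕ → V →ₗ[LP] V
  | 0 => LinearMap.id
  | j + 1 => Aop M p j ∘ₗ crossOp M j p

private theorem aop_succ (p : Bool) (j : ℕ) (x : V) :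
    Aop M p (j + 1) x = Aop M p j (crossOp M j p x) := rfl

private theorem run_sweep (p : Bool) (j : ℕ) : runW M (sweep (j + 1) p) = Aop M p j := by
  induction j with
  | zero => rfl
  | succ j ih =>
    have h : sweep (j + 1 + 1) p = pX j p :: sweep (j + 1) p := by
      unfold sweep
      rw [Nat.add_sub_cancel, Nat.add_sub_cancel, List.range_succ, List.map_append,
        List.reverse_append]
      rfl
    rw [h]
    show runW M (sweep (j + 1) p) ∘ₗ crossOp M j p = _
    rw [ih]
    rfl

private theorem run_sweep' (p : Bool) (w : ℕ) : runW M (sweep w p) = Aop M p (w - 1) := by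
  cases w with
  | zero => rfl
  | succ w => exact run_sweep p w

private theorem run_rep (s : Word) (m : ℕ) (x : V) :
    runW M (List.replicate m s).flatten x = (runW M s)^[m] x := by
  induction m generalizing x with
  | zero => rfl
  | succ m ih =>
    rw [List.replicate_succ, List.flatten_cons, run_append, ih, Function.iterate_succ_apply]

private theorem supp_X (hM : Good M) {n i : ℕ} {p : Bool} {x : V} (h : i + 2 ≤ n)
    (hx : M.Supp n x) : M.Supp n (crossOp M i p x) := by
  rw [Agent.ARB.cross_apply]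
  exact hM.add _ _ _ (hM.smul _ _ _ hx) (hM.smul _ _ _ (supp_E h hx))

private theorem supp_A (hM : Good M) {n : ℕ} {p : Bool} (j : ℕ) {x : V} (h : j + 1 ≤ n ∨ j = 0)
    (hx : M.Supp n x) : M.Supp n (Aop M p j x) := by
  induction j generalizing x with
  | zero => exact hx
  | succ j ih =>
    rw [aop_succ]
    exact ih (by omega) (supp_X hM (by omega) hx)

private theorem supp_It (hM : Good M) {n : ℕ} {p : Bool} (j m : ℕ) {x : V}
    (h : j + 1 ≤ n ∨ j = 0) (hx : M.Supp n x) : M.Supp n ((Aop M p j)^[m] x) := by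
  induction m generalizing x with
  | zero => exact hx
  | succ m ih =>
    rw [Function.iterate_succ_apply]
    exact ih (supp_A hM j h hx)

/-! ### close pieces -/

private theorem slU {n i : ℕ} (p : Bool) {x : V} (h : i + 1 ≤ n) (hx : M.Supp n x) :
    crossOp M i p (M.cup (i + 1) x) = crossOp M (i + 1) (!p) (M.cup i x) := by
  rw [Agent.ARB.cross_apply, Agent.ARB.cross_apply]
  unfold invE
  rw [M.rel3 n i x hx h, M.rel2 n i x hx h]
  cases p
  · exact add_comm _ _
  · exact add_comm _ _

private theorem xxU (hM : Good M) {n i : ℕ} (p : Bool) {x : V} (h : i + 1 ≤ n)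
    (hx : M.Supp n x) :
    crossOp M i p (crossOp M (i + 1) p (M.cup i x)) = M.cup (i + 1) x := by
  have h1 := slU (M := M) (!p) h hx
  rw [Bool.not_not] at h1
  rw [← h1]
  have h2 := inv_r2 hM (n := n + 2) (i := i) (!p) (x := M.cup (i + 1) x) (by omega)
    (M.supp_cup n (i + 1) x h hx)
  rw [Bool.not_not] at h2
  exact h2

private theorem xxU' (hM : Good M) {n i : ℕ} (p : Bool) {x : V} (h : i + 1 ≤ n)
    (hx : M.Supp n x) :
    crossOp M (i + 1) p (crossOp M i p (M.cup (i + 1) x)) = M.cup i x := by
  rw [slU p h hx]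
  have h2 := inv_r2 hM (n := n + 2) (i := i + 1) (!p) (x := M.cup i x) (by omega)
    (M.supp_cup n i x (by omega) hx)
  rw [Bool.not_not] at h2
  exact h2

private theorem xU (hM : Good M) {n i : ℕ} (p : Bool) {x : V} (h : i ≤ n) (hx : M.Supp n x) :
    crossOp M i p (M.cup i x) = (-(T (if p then -3 else 3) : LP)) • M.cup i x := by
  obtain ⟨c1, c2⟩ := inv_coef hM p
  have c3 : (T (if p then -3 else 3) : LP) = (T (if p then -1 else 1) : LP) ^ 3 := by
    cases p
    · show (T 3 : LP) = (T 1 : LP) ^ 3
      rw [pow_succ, pow_two, ← T_add, ← T_add]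
      rfl
    · show (T (-3) : LP) = (T (-1) : LP) ^ 3
      rw [pow_succ, pow_two, ← T_add, ← T_add]
      rfl
  rw [Agent.ARB.cross_apply, c3]
  unfold invE
  rw [M.rel1 n i x hx h, map_smul, c2]
  generalize (T (if p = true then 1 else -1) : LP) = a at *
  generalize (T (if p = true then -1 else 1) : LP) = b at *
  match_scalars
  linear_combination (-a) * c1

/-! ### distant pieces -/

/-- a crossing far to the right of the cup -/
private theorem xcR (hM : Good M) {n i j : ℕ} (p : Bool) {x : V} (h : i ≤ j) (h' : j + 2 ≤ n)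
    (hx : M.Supp n x) : crossOp M (j + 2) p (M.cup i x) = M.cup i (crossOp M j p x) := by
  obtain ⟨k, rfl⟩ := Nat.exists_eq_add_of_le h
  rw [Agent.ARB.cross_apply, Agent.ARB.cross_apply, map_add, map_smul, map_smul]
  have h1 := E_cup hM (n := n) (i := i) (k := k) (by omega) hx
  have e : i + k + 2 = i + 2 + k := by omega
  rw [e, h1]

/-- a crossing far to the left of the cup -/
private theorem xcL (hM : Good M) {n i j : ℕ} (p : Bool) {x : V} (h : j + 2 ≤ i) (h' : i ≤ n)
    (hx : M.Supp n x) : crossOp M j p (M.cup i x) = M.cup i (crossOp M j p x) := by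
  obtain ⟨k, rfl⟩ := Nat.exists_eq_add_of_le h
  rw [Agent.ARB.cross_apply, Agent.ARB.cross_apply, map_add, map_smul, map_smul,
    cup_E hM (n := n) (i := j) (k := k) (by omega) hx]

/-- distant crossings -/
private theorem xx (hM : Good M) {n i j : ℕ} (p : Bool) {x : V} (h : j + 2 ≤ i) (h' : i + 2 ≤ n)
    (hx : M.Supp n x) :
    crossOp M i p (crossOp M j p x) = crossOp M j p (crossOp M i p x) := by
  obtain ⟨k, rfl⟩ := Nat.exists_eq_add_of_le h
  exact inv_swap hM (.X p) (.X p) (n := n) (i := j) (k := k)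
    (show j + 2 + k + 2 ≤ n by omega) hx

private theorem ac (hM : Good M) {n i : ℕ} (p : Bool) (j : ℕ) {x : V} (h : j + 1 ≤ i ∨ j = 0)
    (h' : i ≤ n) (hx : M.Supp n x) : Aop M p j (M.cup i x) = M.cup i (Aop M p j x) := by
  induction j generalizing x with
  | zero => rfl
  | succ j ih =>
    rw [aop_succ, aop_succ, xcL hM p (by omega) h' hx,
      ih (by omega) (supp_X hM (by omega) hx)]

private theorem ax (hM : Good M) {n i : ℕ} (p : Bool) (j : ℕ) {x : V} (h : j + 1 ≤ i ∨ j = 0)
    (h' : i + 2 ≤ n) (hx : M.Supp n x) :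
    Aop M p j (crossOp M i p x) = crossOp M i p (Aop M p j x) := by
  induction j generalizing x with
  | zero => rfl
  | succ j ih =>
    rw [aop_succ, aop_succ, ← xx hM p (by omega) h' hx,
      ih (by omega) (supp_X hM (by omega) hx)]

/-! ### the sweep and the cup -/

private theorem stepB (hM : Good M) {n i : ℕ} (p : Bool) (w : ℕ) {x : V} (h : i ≤ w)
    (h' : w + 1 ≤ n) (hx : M.Supp n x) :
    Aop M p (w + 2) (M.cup i x) = M.cup (i + 1) (Aop M p w x) := by
  induction w, h using Nat.le_induction generalizing x with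
  | base =>
    rw [aop_succ, aop_succ, xxU hM p (by omega) hx]
    exact ac hM p i (by omega) (by omega) hx
  | succ w hw ih =>
    rw [aop_succ, xcR hM p hw (by omega) hx, ih (by omega) (supp_X hM (by omega) hx), aop_succ]

/-- the claim in (c) -/
private theorem clmC (hM : Good M) {n : ℕ} (p : Bool) (w : ℕ) {x : V} (h : w ≤ n)
    (hx : M.Supp n x) : Aop M p (w + 1) (Aop M p w (M.cup w x)) =
      (-(T (if p then -3 else 3) : LP)) • M.cup 0 x := by
  induction w with
  | zero => exact xU hM p h hx
  | succ w ih =>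
    have h1 : M.Supp (n + 2) (M.cup (w + 1) x) := M.supp_cup n (w + 1) x h hx
    have h2 : M.Supp (n + 2) (crossOp M w p (M.cup (w + 1) x)) := supp_X hM (by omega) h1
    rw [aop_succ p (w + 1), aop_succ p w (M.cup (w + 1) x),
      ← ax hM (n := n + 2) (i := w + 1) p w (by omega) (by omega) h2, xxU' hM p h hx]
    exact ih (by omega)

private theorem stepC (hM : Good M) {n : ℕ} (p : Bool) (w : ℕ) {x : V} (h : w ≤ n)
    (hx : M.Supp n x) : Aop M p (w + 1) (Aop M p (w + 1) (M.cup w x)) =
      (T (if p then -6 else 6) : LP) • M.cup 0 x := by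
  rw [aop_succ p w (M.cup w x), xU hM p h hx, map_smul, map_smul, clmC hM p w h hx, smul_smul,
    neg_mul_neg, ← T_add]
  cases p
  · rfl
  · rfl

private theorem itB (hM : Good M) {n i : ℕ} (p : Bool) (w m : ℕ) {x : V} (h : i + m ≤ w + 1)
    (h' : w + 1 ≤ n) (hx : M.Supp n x) :
    (Aop M p (w + 2))^[m] (M.cup i x) = M.cup (i + m) ((Aop M p w)^[m] x) := by
  induction m generalizing i x with
  | zero => rfl
  | succ m ih =>
    rw [Function.iterate_succ_apply, Function.iterate_succ_apply,
      stepB hM p w (by omega) h' hx, ih (by omega) (supp_A hM w (by omega) hx)]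
    have e : i + 1 + m = i + (m + 1) := by omega
    rw [e]

/-- (d) -/
private theorem stepD (hM : Good M) {n i : ℕ} (p : Bool) (w : ℕ) {x : V} (h : i ≤ w)
    (h' : w ≤ n) (hx : M.Supp n x) :
    (Aop M p (w + 1))^[w + 2] (M.cup i x) =
      (T (if p then -6 else 6) : LP) • M.cup i ((Aop M p (w - 1))^[w] x) := by
  cases w with
  | zero =>
    obtain rfl : i = 0 := by omega
    exact stepC hM p 0 h' hx
  | succ w =>
    obtain ⟨m, hm⟩ := Nat.exists_eq_add_of_le h
    have e1 : w + 1 + 2 = i + (2 + m) := by omega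
    rw [e1, Function.iterate_add_apply, Function.iterate_add_apply,
      itB hM p w m (by omega) h' hx, ← hm]
    have h1 : M.Supp n ((Aop M p w)^[m] x) := supp_It hM w m (by omega) hx
    have h2 : (Aop M p (w + 2))^[2] (M.cup (w + 1) ((Aop M p w)^[m] x)) =
        (T (if p then -6 else 6) : LP) • M.cup 0 ((Aop M p w)^[m] x) :=
      stepC hM p (w + 1) h' h1
    have h3 : ∀ (l : ℕ) (c : LP) (y : V), (Aop M p (w + 2))^[l] (c • y) =
        c • (Aop M p (w + 2))^[l] y := by
      intro l c y
      induction l generalizing y with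
      | zero => rfl
      | succ l ih => rw [Function.iterate_succ_apply, Function.iterate_succ_apply, map_smul, ih]
    rw [Nat.add_sub_cancel, h2, h3, itB hM p w i (by omega) h' h1, zero_add,
      ← Function.iterate_add_apply, ← hm]

/-- (d), iterated -/
private theorem itD (hM : Good M) {n i : ℕ} (p : Bool) (w K : ℕ) {x : V} (h : i ≤ w)
    (h' : w ≤ n) (hx : M.Supp n x) :
    (Aop M p (w + 1))^[(w + 2) * K] (M.cup i x) =
      (T ((if p then -6 else 6) * (K : ℤ)) : LP) • M.cup i ((Aop M p (w - 1))^[w * K] x) := by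
  induction K generalizing x with
  | zero =>
    rw [Nat.mul_zero, Nat.mul_zero, Nat.cast_zero, mul_zero, T_zero, one_smul]
    rfl
  | succ K ih =>
    have h3 : ∀ (l : ℕ) (c : LP) (y : V), (Aop M p (w + 1))^[l] (c • y) =
        c • (Aop M p (w + 1))^[l] y := by
      intro l c y
      induction l generalizing y with
      | zero => rfl
      | succ l ih => rw [Function.iterate_succ_apply, Function.iterate_succ_apply, map_smul, ih]
    rw [Nat.mul_succ, Function.iterate_add_apply, stepD hM p w h h' hx, h3,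
      ih (supp_It hM (w - 1) w (by omega) hx), smul_smul, ← T_add, Nat.mul_succ w K,
      Function.iterate_add_apply]
    congr 2
    push_cast
    ring

/-- (e), iterated -/
private theorem itE (hM : Good M) {n i : ℕ} (p : Bool) (w m : ℕ) {x : V} (h : w ≤ i)
    (h' : i ≤ n) (hx : M.Supp n x) :
    (Aop M p (w - 1))^[m] (M.cup i x) = M.cup i ((Aop M p (w - 1))^[m] x) := by
  induction m generalizing x with
  | zero => rfl
  | succ m ih =>
    rw [Function.iterate_succ_apply, Function.iterate_succ_apply,
      ac hM p (w - 1) (by omega) h' hx, ih (supp_A hM (w - 1) (by omega) hx)]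

private theorem pf_eq (k : ℤ) (w : ℕ) (x : V) : PF M k w x =
    (T (3 * k * w) : LP) • (Aop M (decide (0 < k)) (w - 1))^[w * k.natAbs] x := by
  unfold PF FT
  rw [run_rep, run_sweep']

end FTUa

open FTUa in
/-- [FTU] -/
theorem thm_FTU : St_FTU := by
  intro V _ _ M hM k n w i x hw hx
  refine ⟨fun hi => ?_, fun hi hn => ?_⟩
  · rw [pf_eq, pf_eq, map_smul]
    have e : w + 2 - 1 = w + 1 := by omega
    rw [e, itD hM _ w _ hi hw hx, smul_smul, ← T_add]
    congr 2
    by_cases hk : 0 < k
    · have h1 : ((k.natAbs : ℕ) : ℤ) = k := Int.natAbs_of_nonneg hk.le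
      rw [h1, if_pos (decide_eq_true hk)]
      push_cast
      ring
    · have h1 : ((k.natAbs : ℕ) : ℤ) = -k := Int.ofNat_natAbs_of_nonpos (by omega)
      rw [h1, if_neg (by simpa using hk)]
      push_cast
      ring
  · rw [pf_eq, pf_eq, map_smul, itE hM _ w _ hi hn hx]

end Pool.TWC
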