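import Pool.Agent.TWC.StB

/-!
# TWC: the exponents of the states (helper43)
-/

set_option autoImplicit false

namespace Pool.TWC

open LaurentPolynomial Pool.Agent.ARB Pool.Agent.Helper2 Pool.ALT

private theorem GAM_one (ρ : Bool) (w : Word) : ∀ B : ℕ → Bool,
    gam ρ B w = gam ρ (fun _ => !ρ) w +
      ((Finset.univ.filter fun k : Fin (nX w) => B (k : ℕ) = ρ).card : ℤ) := by
  induction w with
  | nil =>
    intro B
    have h : (Finset.univ.filter fun k : Fin (nX ([] : Word)) => B (k : ℕ) = ρ).card = 0 := by
      rw [Finset.card_eq_zero, Finset.filter_eq_empty_iff]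
      intro k
      exact Fin.elim0 (show Fin 0 from k)
    rw [h]
    show (0 : ℤ) = 0 + ((0 : ℕ) : ℤ)
    norm_num
  | cons s w ih =>
    intro B
    obtain ⟨k, i⟩ := s
    cases k with
    | U =>
      have h1 := ih B
      show (if decide (i % 2 = 0) = ρ then (1 : ℤ) else 0) + gam ρ B w =
        ((if decide (i % 2 = 0) = ρ then (1 : ℤ) else 0) + gam ρ (fun _ => !ρ) w) +
          ((Finset.univ.filter fun k : Fin (nX w) => B (k : ℕ) = ρ).card : ℤ)
      rw [h1]
      ring
    | N =>
      have h1 := ih B
      show (if decide (i % 2 = 0) = ρ then (0 : ℤ) else -1) + gam ρ B w =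
        ((if decide (i % 2 = 0) = ρ then (0 : ℤ) else -1) + gam ρ (fun _ => !ρ) w) +
          ((Finset.univ.filter fun k : Fin (nX w) => B (k : ℕ) = ρ).card : ℤ)
      rw [h1]
      ring
    | X p =>
      have h1 := ih fun k => B (k + 1)
      have h2 : ((Finset.univ.filter fun k : Fin (nX w + 1) => B (k : ℕ) = ρ).card : ℤ) =
          (if B 0 = ρ then 1 else 0) +
            ((Finset.univ.filter fun k : Fin (nX w) => B ((k : ℕ) + 1) = ρ).card : ℤ) := by
        rw [Fin.card_filter_univ_succ]
        by_cases h : B 0 = ρ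
        · rw [if_pos (show B ((0 : Fin (nX w + 1)) : ℕ) = ρ from h), if_pos h]
          push_cast
          rw [add_comm]
          rfl
        · rw [if_neg (show ¬ B ((0 : Fin (nX w + 1)) : ℕ) = ρ from h), if_neg h, zero_add]
          rfl
      show (if B 0 = decide (i % 2 = 0) then (if decide (i % 2 = 0) = ρ then (1 : ℤ) else -1)
          else 0) + gam ρ (fun k => B (k + 1)) w =
        ((if (!ρ) = decide (i % 2 = 0) then (if decide (i % 2 = 0) = ρ then (1 : ℤ) else -1)
          else 0) + gam ρ (fun _ => !ρ) w) +
          ((Finset.univ.filter fun k : Fin (nX w + 1) => B (k : ℕ) = ρ).card : ℤ)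
      rw [h2, h1]
      have h3 : (if B 0 = decide (i % 2 = 0) then
          (if decide (i % 2 = 0) = ρ then (1 : ℤ) else -1) else 0) =
          (if (!ρ) = decide (i % 2 = 0) then (if decide (i % 2 = 0) = ρ then (1 : ℤ) else -1)
            else 0) + (if B 0 = ρ then 1 else 0) := by
        generalize B 0 = b
        generalize decide (i % 2 = 0) = d
        cases b <;> cases d <;> cases ρ <;> decide
      rw [h3]
      ring

private theorem GAM_two (w : Word) : ∀ (B : ℕ → Bool) (n m : ℕ), Ok w n m →
    2 * (gam true B w + gam false B w) = (m : ℤ) - n := by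
  induction w with
  | nil =>
    intro B n m h
    have h' : n = m := h
    show 2 * ((0 : ℤ) + 0) = (m : ℤ) - n
    rw [h']
    ring
  | cons s w ih =>
    intro B n m h
    obtain ⟨k, i⟩ := s
    cases k with
    | U =>
      obtain ⟨h1, h2⟩ : i + 0 ≤ n ∧ Ok w (n - 0 + 2) m := h
      have h3 := ih B _ _ h2
      have h4 : (if decide (i % 2 = 0) = true then (1 : ℤ) else 0) +
          (if decide (i % 2 = 0) = false then (1 : ℤ) else 0) = 1 := by
        generalize decide (i % 2 = 0) = d
        cases d <;> decide
      have h5 : ((n - 0 + 2 : ℕ) : ℤ) = (n : ℤ) + 2 := by push_cast; omega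
      rw [h5] at h3
      show 2 * (((if decide (i % 2 = 0) = true then (1 : ℤ) else 0) + gam true B w) +
        ((if decide (i % 2 = 0) = false then (1 : ℤ) else 0) + gam false B w)) = (m : ℤ) - n
      linarith
    | N =>
      obtain ⟨h1, h2⟩ : i + 2 ≤ n ∧ Ok w (n - 2 + 0) m := h
      have h3 := ih B _ _ h2
      have h4 : (if decide (i % 2 = 0) = true then (0 : ℤ) else -1) +
          (if decide (i % 2 = 0) = false then (0 : ℤ) else -1) = -1 := by
        generalize decide (i % 2 = 0) = d
        cases d <;> decide
      have h5 : ((n - 2 + 0 : ℕ) : ℤ) = (n : ℤ) - 2 := by omega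
      rw [h5] at h3
      show 2 * (((if decide (i % 2 = 0) = true then (0 : ℤ) else -1) + gam true B w) +
        ((if decide (i % 2 = 0) = false then (0 : ℤ) else -1) + gam false B w)) = (m : ℤ) - n
      linarith
    | X p =>
      obtain ⟨h1, h2⟩ : i + 2 ≤ n ∧ Ok w (n - 2 + 2) m := h
      have h3 := ih (fun k => B (k + 1)) _ _ h2
      have h4 : (if B 0 = decide (i % 2 = 0) then
          (if decide (i % 2 = 0) = true then (1 : ℤ) else -1) else 0) +
          (if B 0 = decide (i % 2 = 0) then
          (if decide (i % 2 = 0) = false then (1 : ℤ) else -1) else 0) = 0 := by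
        generalize B 0 = b
        generalize decide (i % 2 = 0) = d
        cases b <;> cases d <;> decide
      have h5 : ((n - 2 + 2 : ℕ) : ℤ) = (n : ℤ) := by omega
      rw [h5] at h3
      show 2 * (((if B 0 = decide (i % 2 = 0) then
          (if decide (i % 2 = 0) = true then (1 : ℤ) else -1) else 0) +
          gam true (fun k => B (k + 1)) w) +
        ((if B 0 = decide (i % 2 = 0) then
          (if decide (i % 2 = 0) = false then (1 : ℤ) else -1) else 0) +
          gam false (fun k => B (k + 1)) w)) = (m : ℤ) - n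
      linarith

theorem thm_GAM : St_GAM :=
  ⟨fun ρ w B => GAM_one ρ w B, fun w B n m h => GAM_two w B n m h⟩

end Pool.TWC
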