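import Pool.Agent.TWC.StC
import Pool.Agent.ALT.Mo.CO

/-!
# TWC [HGT]: a state with a height function which is far from constant
-/

set_option autoImplicit false

namespace Pool.TWC

open LaurentPolynomial Pool.Agent.ARB Pool.Agent.Helper2 Pool.ALT
open Pool.TWI (Same)

private theorem hgt_arc_same {D : Word} {j : ℕ} {x y z : ℕ × ℕ} (h : Arc D j x y) (h' : Same D y z) :
    Arc D j x z := by
  cases h with
  | same h0 => exact Arc.same (Relation.EqvGen.trans _ _ _ h0 h')
  | right h0 hl hi h1 => exact Arc.right h0 hl hi (Relation.EqvGen.trans _ _ _ h1 h')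
  | left h0 hl hi h1 => exact Arc.left h0 hl hi (Relation.EqvGen.trans _ _ _ h1 h')

private theorem hgt_pa_pos : ∀ (w : Word) (n : ℕ) (x : Loc n w),
    pa n w x = decide ((pos n w x).2 % 2 = 0)
  | [], _, _ => rfl
  | _ :: _, _, Sum.inl _ => rfl
  | s :: w, n, Sum.inr x => hgt_pa_pos w (n - s.k.inn + s.k.out) x

/-- [HGT], see `St_HGT`. -/
theorem thm_HGT (h1 : St_POS) (h2 : St_NBR) : St_HGT := by
  classical
  intro r u v n w hu hv hw hfar
  obtain ⟨hR, -, hM, hT⟩ := h1
  have hok : Ok (u ++ v) 0 0 := hu.append hv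
  set A : ℕ → Loc 0 (u ++ v) → Prop := fun j x => Arc (u ++ v) j (u.length, 0) (pos 0 (u ++ v) x)
    with hA
  -- touching regions
  have hA0 : ∀ x y, R0 0 (u ++ v) x y → ∀ j, A j x ↔ A j y := by
    intro x y h j
    have h3 := hR (u ++ v) 0 0 x y hok h
    exact ⟨fun h4 => hgt_arc_same h4 h3, fun h4 => hgt_arc_same h4 (Relation.EqvGen.symm _ _ h3)⟩
  -- neighbours
  have hA1 : ∀ x y, Rt 0 (u ++ v) x y → ∀ j, (A j x → A (j + 1) y) ∧ (A j y → A (j + 1) x) := by
    intro x y h j
    obtain ⟨l, i, hl, hi, hx, hy⟩ := hT (u ++ v) 0 0 x y hok h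
    refine ⟨fun h4 => ?_, fun h4 => ?_⟩
    · simp only [hA, hx] at h4
      simp only [hA, hy]
      exact Arc.right h4 hl hi (Relation.EqvGen.refl _)
    · simp only [hA, hy] at h4
      simp only [hA, hx]
      exact Arc.left h4 hl hi (Relation.EqvGen.refl _)
  have hAd : ∀ x y, Ad 0 (u ++ v) x y → ∀ j, A j x → A (j + 1) y := by
    rintro x y (h | h) j h4
    · exact (hA1 x y h j).1 h4
    · exact (hA1 y x h j).2 h4
  have hpa : ∀ x y, Ad 0 (u ++ v) x y → pa 0 (u ++ v) x ≠ pa 0 (u ++ v) y := by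
    have key : ∀ x y, Rt 0 (u ++ v) x y → pa 0 (u ++ v) x ≠ pa 0 (u ++ v) y := by
      intro x y h
      obtain ⟨l, i, -, -, hx, hy⟩ := hT (u ++ v) 0 0 x y hok h
      rw [hgt_pa_pos, hgt_pa_pos, hx, hy]
      intro h5
      have h6 := decide_eq_decide.1 h5
      simp only at h6
      omega
    rintro x y (h | h)
    · exact key x y h
    · exact (key y x h).symm
  -- the height function
  set f : Loc 0 (u ++ v) → ℤ := fun x =>
    if pa 0 (u ++ v) x = true then (if A 0 x then 0 else if A 2 x then 2 else 4)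
    else (if A 1 x then 1 else 3) with hf
  have ftouch : ∀ x y, R0 0 (u ++ v) x y → f x = f y := by
    intro x y h
    have h3 := pa_R0 (u ++ v) 0 0 x y hok h
    simp only [hf, h3, hA0 x y h]
  have fnear0 : ∀ x y, Ad 0 (u ++ v) x y → pa 0 (u ++ v) x = true → pa 0 (u ++ v) y = false →
      f x = f y + 1 ∨ f y = f x + 1 := by
    intro x y h hx hy
    have hyx : Ad 0 (u ++ v) y x := h.symm
    have a1 := hAd x y h 0
    have a2 := hAd y x hyx 1
    simp only [hf, hx, hy, if_true, Bool.false_eq_true, if_false]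
    by_cases b0 : A 0 x
    · have b1 : A 1 y := a1 b0
      simp [b0, b1]
    · by_cases b1 : A 1 y
      · have b2 : A 2 x := a2 b1
        simp [b0, b1, b2]
      · by_cases b2 : A 2 x
        · simp [b0, b1, b2]
        · simp [b0, b1, b2]
  have fnear : ∀ x y, Ad 0 (u ++ v) x y → f x = f y + 1 ∨ f y = f x + 1 := by
    intro x y h
    have h3 := hpa x y h
    rcases hx : pa 0 (u ++ v) x with _ | _
    · have hy : pa 0 (u ++ v) y = true := by
        rw [hx] at h3
        simpa using h3.symm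
      have := fnear0 y x h.symm hy hx
      tauto
    · have hy : pa 0 (u ++ v) y = false := by
        rw [hx] at h3
        simpa using h3.symm
      exact fnear0 x y h hx hy
  have fgs : ∀ x y, gs 0 (u ++ v) x y → f x = f y := by
    have h3 : gs 0 (u ++ v) ≤ Setoid.ker f :=
      iSup_le fun x => iSup_le fun y => iSup_le fun h => (pr_le_iff _ _ _).2 (ftouch x y h)
    intro x y h
    exact h3 h
  have fed : ∀ (k : Fin (nX (u ++ v))) (x y : Loc 0 (u ++ v)),
      (x = (ed true 0 (u ++ v) k).1 ∨ x = (ed true 0 (u ++ v) k).2) →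
      (y = (ed false 0 (u ++ v) k).1 ∨ y = (ed false 0 (u ++ v) k).2) →
      f x = f y + 1 ∨ f y = f x + 1 := by
    intro k x y hx hy
    obtain ⟨x', y', e1, e2, e3⟩ := h2 (u ++ v) 0 0 k hok x y hx hy
    rw [fgs x x' e1, fgs y y' e2]
    exact fnear x' y' e3
  set S : Finset (Fin (nX (u ++ v))) :=
    Finset.univ.filter fun k => f (ed r 0 (u ++ v) k).1 = f (ed r 0 (u ++ v) k).2 with hS
  refine ⟨S, f, ⟨ftouch, ?_, fnear⟩, ?_⟩
  · intro k
    have h3 : ∀ k : Fin (nX (u ++ v)), st r S (k : ℕ) =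
        if f (ed r 0 (u ++ v) k).1 = f (ed r 0 (u ++ v) k).2 then r else !r := by
      intro k
      unfold st
      congr 1
      simp [hS]
    rw [h3]
    by_cases h4 : f (ed r 0 (u ++ v) k).1 = f (ed r 0 (u ++ v) k).2
    · rw [if_pos h4]; exact h4
    · rw [if_neg h4]
      have a := fed k _ _ (Or.inl rfl) (Or.inl rfl)
      have b := fed k _ _ (Or.inl rfl) (Or.inr rfl)
      have c := fed k _ _ (Or.inr rfl) (Or.inl rfl)
      have d := fed k _ _ (Or.inr rfl) (Or.inr rfl)
      cases r
      · simp only [Bool.not_false]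
        omega
      · simp only [Bool.not_true]
        omega
  · have e0 : pos 0 (u ++ v) (md 0 u v 0) = (u.length, 0) := hM u v 0 n 0 hu (Nat.zero_le _)
    have e1 : pos 0 (u ++ v) (md 0 u v w) = (u.length, w) := hM u v 0 n w hu hw
    have p0 : pa 0 (u ++ v) (md 0 u v 0) = true := by rw [hgt_pa_pos, e0]; rfl
    have p1 : pa 0 (u ++ v) (md 0 u v w) = decide (w % 2 = 0) := by rw [hgt_pa_pos, e1]
    have b0 : A 0 (md 0 u v 0) := by
      simp only [hA, e0]
      exact Arc.same (Relation.EqvGen.refl _)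
    have f0 : f (md 0 u v 0) = 0 := by simp only [hf, p0, if_true, if_pos b0]
    have c : ∀ j ≤ 2, ¬ A j (md 0 u v w) := by
      intro j hj
      simp only [hA, e1]
      exact hfar j hj
    have c0 := c 0 (by omega)
    have c1 := c 1 (by omega)
    have c2 := c 2 (by omega)
    rw [f0, sub_zero]
    by_cases hw2 : w % 2 = 0
    · have p2 : pa 0 (u ++ v) (md 0 u v w) = true := by rw [p1]; simpa using hw2
      simp only [hf, p2, if_true, if_neg c0, if_neg c2, if_pos hw2]
    · have p2 : pa 0 (u ++ v) (md 0 u v w) = false := by rw [p1]; simpa using hw2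
      simp only [hf, p2, if_neg c1, if_neg hw2, Bool.false_eq_true, if_false]

end Pool.TWC
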