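import Pool.Agent.TWC.StA

/-! # TWC, statement HMD: the model of height functions and its poles (helper76) -/

set_option autoImplicit false

namespace Pool.TWC

open LaurentPolynomial Pool.Agent.ARB Pool.Agent.Helper2 Pool.ALT

/-! ### the maps `dlZ` and `insZ` -/

private theorem hm_ins_le {i j : ℕ} (b : ℤ) (c : ℕ → ℤ) (h : j ≤ i) : insZ i b c j = c j := by
  unfold insZ
  rw [if_pos h]

private theorem hm_ins_eq {i j : ℕ} (b : ℤ) (c : ℕ → ℤ) (h : j = i + 1) : insZ i b c j = b := by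
  unfold insZ
  rw [if_neg (by omega), if_pos h]

private theorem hm_ins_gt {i j : ℕ} (b : ℤ) (c : ℕ → ℤ) (h : i + 2 ≤ j) :
    insZ i b c j = c (j - 2) := by
  unfold insZ
  rw [if_neg (by omega), if_neg (by omega)]

private theorem hm_dl_le {i j : ℕ} (c : ℕ → ℤ) (h : j ≤ i) : dlZ i c j = c j := by
  unfold dlZ
  rw [if_pos h]

private theorem hm_dl_gt {i j : ℕ} (c : ℕ → ℤ) (h : i < j) : dlZ i c j = c (j + 2) := by
  unfold dlZ
  rw [if_neg (by omega)]

/-- beyond the place `i`, and at `i` if the entries `i` and `i + 2` are equal -/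
private theorem hm_dl_ge {i j : ℕ} (c : ℕ → ℤ) (hc : c i = c (i + 2)) (h : i ≤ j) :
    dlZ i c j = c (j + 2) := by
  rcases Nat.lt_or_ge i j with h' | h'
  · exact hm_dl_gt c h'
  · have hj : j = i := le_antisymm h' h
    subst hj
    rw [hm_dl_le c le_rfl]
    exact hc

private theorem hm_near_symm {a b : ℤ} (h : NearZ a b) : NearZ b a := Or.symm h

private theorem hm_near_up (a : ℤ) : NearZ a (a + 1) := Or.inr rfl

private theorem hm_near_dn (a : ℤ) : NearZ a (a - 1) := Or.inl (by omega)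

/-! ### cups and caps -/

/-- the cup -/
private def hm_cup (i : ℕ) : ((ℕ → ℤ) → ℤ) →ₗ[ℤ] ((ℕ → ℤ) → ℤ) where
  toFun ψ := fun c => if c i = c (i + 2) ∧ NearZ (c i) (c (i + 1)) then ψ (dlZ i c) else 0
  map_add' ψ φ := by
    funext c
    show (if c i = c (i + 2) ∧ NearZ (c i) (c (i + 1)) then ψ (dlZ i c) + φ (dlZ i c) else 0) =
      (if c i = c (i + 2) ∧ NearZ (c i) (c (i + 1)) then ψ (dlZ i c) else 0) +
      (if c i = c (i + 2) ∧ NearZ (c i) (c (i + 1)) then φ (dlZ i c) else 0)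
    split_ifs
    · rfl
    · rfl
  map_smul' a ψ := by
    funext c
    show (if c i = c (i + 2) ∧ NearZ (c i) (c (i + 1)) then a * ψ (dlZ i c) else 0) =
      a * (if c i = c (i + 2) ∧ NearZ (c i) (c (i + 1)) then ψ (dlZ i c) else 0)
    split_ifs
    · rfl
    · rw [mul_zero]

/-- the cap -/
private def hm_cap (i : ℕ) : ((ℕ → ℤ) → ℤ) →ₗ[ℤ] ((ℕ → ℤ) → ℤ) where
  toFun ψ := fun c => ψ (insZ i (c i + 1) c) + ψ (insZ i (c i - 1) c)
  map_add' ψ φ := by
    funext c
    show ψ (insZ i (c i + 1) c) + φ (insZ i (c i + 1) c) +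
        (ψ (insZ i (c i - 1) c) + φ (insZ i (c i - 1) c)) =
      ψ (insZ i (c i + 1) c) + ψ (insZ i (c i - 1) c) +
        (φ (insZ i (c i + 1) c) + φ (insZ i (c i - 1) c))
    ring
  map_smul' a ψ := by
    funext c
    show a * ψ (insZ i (c i + 1) c) + a * ψ (insZ i (c i - 1) c) =
      a * (ψ (insZ i (c i + 1) c) + ψ (insZ i (c i - 1) c))
    ring

private theorem hm_cup_apply (i : ℕ) (ψ : (ℕ → ℤ) → ℤ) (c : ℕ → ℤ) :
    hm_cup i ψ c = if c i = c (i + 2) ∧ NearZ (c i) (c (i + 1)) then ψ (dlZ i c) else 0 := rfl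

private theorem hm_cap_apply (i : ℕ) (ψ : (ℕ → ℤ) → ℤ) (c : ℕ → ℤ) :
    hm_cap i ψ c = ψ (insZ i (c i + 1) c) + ψ (insZ i (c i - 1) c) := rfl

/-- functions supported on the sequences with neighbouring entries below `n` -/
private def hm_supp (n : ℕ) (ψ : (ℕ → ℤ) → ℤ) : Prop :=
  ∀ c, ψ c ≠ 0 → ∀ j < n, NearZ (c j) (c (j + 1))

private theorem hm_supp_cup (n i : ℕ) (ψ : (ℕ → ℤ) → ℤ) (hi : i ≤ n) (h : hm_supp n ψ) :
    hm_supp (n + 2) (hm_cup i ψ) := by
  intro c hc j hj
  rw [hm_cup_apply] at hc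
  by_cases hq : c i = c (i + 2) ∧ NearZ (c i) (c (i + 1))
  · rw [if_pos hq] at hc
    have h0 := h _ hc
    rcases Nat.lt_trichotomy j i with h1 | h1 | h1
    · have h2 := h0 j (by omega)
      rw [hm_dl_le c (by omega), hm_dl_le c (by omega)] at h2
      exact h2
    · subst h1
      exact hq.2
    · rcases Nat.lt_or_ge (i + 1) j with h3 | h3
      · obtain ⟨k, rfl⟩ : ∃ k, j = k + 2 := ⟨j - 2, by omega⟩
        have h2 := h0 k (by omega)
        rw [hm_dl_ge c hq.1 (by omega), hm_dl_gt c (by omega)] at h2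
        exact h2
      · have hj' : j = i + 1 := by omega
        subst hj'
        rw [show i + 1 + 1 = i + 2 from rfl, ← hq.1]
        exact hm_near_symm hq.2
  · rw [if_neg hq] at hc
    exact absurd rfl hc

private theorem hm_supp_cap (n i : ℕ) (ψ : (ℕ → ℤ) → ℤ) (h : hm_supp (n + 2) ψ) :
    hm_supp n (hm_cap i ψ) := by
  intro c hc j hj
  have h1 : ∃ b, ψ (insZ i b c) ≠ 0 := by
    by_contra hno
    push Not at hno
    apply hc
    rw [hm_cap_apply, hno, hno]
    rfl
  obtain ⟨b, hb⟩ := h1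
  have h0 := h _ hb
  rcases Nat.lt_or_ge j i with h2 | h2
  · have h3 := h0 j (by omega)
    rw [hm_ins_le b c (by omega), hm_ins_le b c (by omega)] at h3
    exact h3
  · have h3 := h0 (j + 2) (by omega)
    rw [hm_ins_gt b c (by omega), hm_ins_gt b c (by omega)] at h3
    exact h3

private theorem hm_rel1 (i : ℕ) (ψ : (ℕ → ℤ) → ℤ) : hm_cap i (hm_cup i ψ) = (2 : ℤ) • ψ := by
  funext c
  have h1 : ∀ b, NearZ (c i) b → hm_cup i ψ (insZ i b c) = ψ c := by
    intro b hb
    have e1 : insZ i b c (i + 2) = c i := by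
      rw [hm_ins_gt b c le_rfl]
      rfl
    have e2 : dlZ i (insZ i b c) = c := by
      funext j
      rcases Nat.lt_or_ge i j with h | h
      · rw [hm_dl_gt _ h, hm_ins_gt b c (by omega)]
        rfl
      · rw [hm_dl_le _ h, hm_ins_le b c h]
    rw [hm_cup_apply, hm_ins_le b c le_rfl, e1, hm_ins_eq b c rfl, if_pos ⟨rfl, hb⟩, e2]
  rw [hm_cap_apply, h1 _ (hm_near_up _), h1 _ (hm_near_dn _)]
  show ψ c + ψ c = 2 * ψ c
  ring

private theorem hm_rel2 (n i : ℕ) (ψ : (ℕ → ℤ) → ℤ) (hs : hm_supp n ψ) (hi : i + 1 ≤ n) :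
    hm_cap (i + 1) (hm_cup i ψ) = ψ := by
  funext c
  have h1 : ∀ b, hm_cup i ψ (insZ (i + 1) b c) =
      if c i = b ∧ NearZ (c i) (c (i + 1)) then ψ c else 0 := by
    intro b
    have e1 : insZ (i + 1) b c (i + 2) = b := hm_ins_eq b c rfl
    have e2 : dlZ i (insZ (i + 1) b c) = c := by
      funext j
      rcases Nat.lt_or_ge i j with h | h
      · rw [hm_dl_gt _ h, hm_ins_gt b c (by omega)]
        rfl
      · rw [hm_dl_le _ h, hm_ins_le b c (by omega)]
    rw [hm_cup_apply, e1, e2, hm_ins_le b c (by omega), hm_ins_le b c (by omega)]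
  rw [hm_cap_apply, h1, h1]
  by_cases hz : ψ c = 0
  · rw [hz]
    simp
  · have hn := hs c hz i (by omega)
    rcases hn with h2 | h2
    · rw [if_pos ⟨h2, Or.inl h2⟩, if_neg (by rintro ⟨h3, -⟩; omega), add_zero]
    · rw [if_neg (by rintro ⟨h3, -⟩; omega), if_pos ⟨by omega, Or.inr h2⟩, zero_add]

private theorem hm_rel3 (n i : ℕ) (ψ : (ℕ → ℤ) → ℤ) (hs : hm_supp n ψ) (hi : i + 1 ≤ n) :
    hm_cap i (hm_cup (i + 1) ψ) = ψ := by
  funext c
  have h1 : ∀ b, NearZ b (c i) → hm_cup (i + 1) ψ (insZ i b c) =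
      if b = c (i + 1) then ψ c else 0 := by
    intro b hb
    have e0 : insZ i b c (i + 1) = b := hm_ins_eq b c rfl
    have e1 : insZ i b c (i + 1 + 2) = c (i + 1) := by
      rw [hm_ins_gt b c (by omega)]
      rfl
    have e3 : insZ i b c (i + 1 + 1) = c i := by
      rw [hm_ins_gt b c (by omega)]
      rfl
    rw [hm_cup_apply, e0, e1, e3]
    by_cases hb' : b = c (i + 1)
    · have e2 : dlZ (i + 1) (insZ i b c) = c := by
        funext j
        rcases Nat.lt_or_ge (i + 1) j with h | h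
        · rw [hm_dl_gt _ h, hm_ins_gt b c (by omega)]
          rfl
        · rw [hm_dl_le _ h]
          rcases Nat.lt_or_ge i j with h' | h'
          · have hj : j = i + 1 := by omega
            subst hj
            rw [e0, hb']
          · rw [hm_ins_le b c h']
      rw [if_pos ⟨hb', hb⟩, if_pos hb', e2]
    · rw [if_neg (fun h => hb' h.1), if_neg hb']
  rw [hm_cap_apply, h1 _ (hm_near_symm (hm_near_up _)), h1 _ (hm_near_symm (hm_near_dn _))]
  by_cases hz : ψ c = 0
  · rw [hz]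
    simp
  · have hn := hs c hz i (by omega)
    rcases hn with h2 | h2
    · rw [if_neg (by omega), if_pos (by omega), zero_add]
    · rw [if_pos (by omega), if_neg (by omega), add_zero]

private theorem hm_rel4 (i k : ℕ) (ψ : (ℕ → ℤ) → ℤ) :
    hm_cap (i + k + 2) (hm_cup i ψ) = hm_cup i (hm_cap (i + k) ψ) := by
  funext c
  have h1 : ∀ b, hm_cup i ψ (insZ (i + k + 2) b c) =
      if c i = c (i + 2) ∧ NearZ (c i) (c (i + 1)) then ψ (insZ (i + k) b (dlZ i c)) else 0 := by
    intro b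
    rw [hm_cup_apply, hm_ins_le b c (by omega), hm_ins_le b c (by omega),
      hm_ins_le b c (by omega)]
    by_cases hc : c i = c (i + 2) ∧ NearZ (c i) (c (i + 1))
    · have e2 : dlZ i (insZ (i + k + 2) b c) = insZ (i + k) b (dlZ i c) := by
        funext j
        rcases Nat.lt_or_ge i j with h | h
        · rw [hm_dl_gt _ h]
          rcases Nat.lt_trichotomy j (i + k + 1) with h' | h' | h'
          · rw [hm_ins_le b c (by omega), hm_ins_le b _ (by omega), hm_dl_gt _ h]
          · rw [hm_ins_eq b c (by omega), hm_ins_eq b _ (by omega)]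
          · rw [hm_ins_gt b c (by omega), hm_ins_gt b _ (by omega),
              hm_dl_ge c hc.1 (by omega), show j + 2 - 2 = j - 2 + 2 by omega]
        · rw [hm_dl_le _ h, hm_ins_le b c (by omega), hm_ins_le b _ (by omega), hm_dl_le _ h]
      rw [if_pos hc, if_pos hc, e2]
    · rw [if_neg hc, if_neg hc]
  rw [hm_cap_apply, h1, h1, hm_cup_apply, hm_cap_apply]
  by_cases hc : c i = c (i + 2) ∧ NearZ (c i) (c (i + 1))
  · rw [if_pos hc, if_pos hc, if_pos hc, hm_dl_ge c hc.1 (by omega)]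
  · rw [if_neg hc, if_neg hc, if_neg hc]
    rfl

private theorem hm_rel5 (i k : ℕ) (ψ : (ℕ → ℤ) → ℤ) :
    hm_cap i (hm_cup (i + k + 2) ψ) = hm_cup (i + k) (hm_cap i ψ) := by
  funext c
  have h1 : ∀ b, hm_cup (i + k + 2) ψ (insZ i b c) =
      if c (i + k) = c (i + k + 2) ∧ NearZ (c (i + k)) (c (i + k + 1)) then
        ψ (insZ i b (dlZ (i + k) c)) else 0 := by
    intro b
    have e0 : insZ i b c (i + k + 2) = c (i + k) := by
      rw [hm_ins_gt b c (by omega)]
      rfl
    have e1 : insZ i b c (i + k + 2 + 2) = c (i + k + 2) := by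
      rw [hm_ins_gt b c (by omega)]
      rfl
    have e3 : insZ i b c (i + k + 2 + 1) = c (i + k + 1) := by
      rw [hm_ins_gt b c (by omega), show i + k + 2 + 1 - 2 = i + k + 1 by omega]
    have e2 : dlZ (i + k + 2) (insZ i b c) = insZ i b (dlZ (i + k) c) := by
      funext j
      rcases Nat.lt_or_ge (i + k + 2) j with h | h
      · rw [hm_dl_gt _ h, hm_ins_gt b c (by omega), hm_ins_gt b _ (by omega),
          hm_dl_gt _ (by omega), show j + 2 - 2 = j - 2 + 2 by omega]
      · rw [hm_dl_le _ h]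
        rcases Nat.lt_trichotomy j (i + 1) with h' | h' | h'
        · rw [hm_ins_le b c (by omega), hm_ins_le b _ (by omega), hm_dl_le _ (by omega)]
        · rw [hm_ins_eq b c h', hm_ins_eq b _ h']
        · rw [hm_ins_gt b c (by omega), hm_ins_gt b _ (by omega), hm_dl_le _ (by omega)]
    rw [hm_cup_apply, e0, e1, e2, e3]
  rw [hm_cap_apply, h1, h1, hm_cup_apply, hm_cap_apply, hm_dl_le c (Nat.le_add_right i k)]
  split_ifs
  · rfl
  · rfl

/-- the model of height functions -/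
private def hm_model : Model ℤ ((ℕ → ℤ) → ℤ) where
  Supp := hm_supp
  δ := 2
  init := fun _ => 1
  cup := hm_cup
  cap := hm_cap
  supp_init := fun _ _ j hj => absurd hj (Nat.not_lt_zero j)
  supp_cup n i ψ hi h := hm_supp_cup n i ψ hi h
  supp_cap n i ψ _ h := hm_supp_cap n i ψ h
  rel1 _ i ψ _ _ := hm_rel1 i ψ
  rel2 n i ψ hs hi := hm_rel2 n i ψ hs hi
  rel3 n i ψ hs hi := hm_rel3 n i ψ hs hi
  rel4 _ i k ψ _ _ := hm_rel4 i k ψ
  rel5 _ i k ψ _ _ := hm_rel5 i k ψ

private theorem hm_ex : ∃ M : Model ℤ ((ℕ → ℤ) → ℤ), HM M :=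
  ⟨hm_model, rfl, fun _ _ => Iff.rfl, rfl, fun _ _ _ => rfl, fun _ _ _ => rfl⟩

/-! ### distant cups and caps -/

private theorem hm_cc {M : Model ℤ ((ℕ → ℤ) → ℤ)} (hM : HM M) : Cc M := by
  refine ⟨?_, ?_⟩
  · intro n i k x _ _
    funext c
    rw [hM.cup, hM.cup, hM.cup i]
    have a0 : dlZ (i + 2 + k) c i = c i := hm_dl_le c (by omega)
    have a1 : dlZ (i + 2 + k) c (i + 1) = c (i + 1) := hm_dl_le c (by omega)
    have a2 : dlZ (i + 2 + k) c (i + 2) = c (i + 2) := hm_dl_le c (by omega)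
    rw [a0, a1, a2]
    by_cases hc : c i = c (i + 2) ∧ NearZ (c i) (c (i + 1))
    · rw [if_pos hc, if_pos hc, hM.cup]
      have b0 : dlZ i c (i + k) = c (i + 2 + k) := by
        rw [hm_dl_ge c hc.1 (by omega), show i + k + 2 = i + 2 + k by omega]
      have b1 : dlZ i c (i + k + 1) = c (i + 2 + k + 1) := by
        rw [hm_dl_ge c hc.1 (by omega), show i + k + 1 + 2 = i + 2 + k + 1 by omega]
      have b2 : dlZ i c (i + k + 2) = c (i + 2 + k + 2) := by
        rw [hm_dl_ge c hc.1 (by omega), show i + k + 2 + 2 = i + 2 + k + 2 by omega]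
      rw [b0, b1, b2]
      have e : dlZ i (dlZ (i + 2 + k) c) = dlZ (i + k) (dlZ i c) := by
        funext j
        rcases Nat.lt_or_ge i j with h | h
        · rw [hm_dl_gt _ h]
          rcases Nat.lt_or_ge (i + k) j with h' | h'
          · rw [hm_dl_gt _ (by omega), hm_dl_gt _ h', hm_dl_gt _ (by omega)]
          · rw [hm_dl_le _ (by omega), hm_dl_le _ h', hm_dl_gt _ h]
        · rw [hm_dl_le _ h, hm_dl_le _ (by omega), hm_dl_le _ (by omega), hm_dl_le _ h]
      rw [e]
    · rw [if_neg hc, if_neg hc, ite_self]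
  · intro n i k x _ _
    funext c
    rw [hM.cap, hM.cap, hM.cap, hM.cap i, hM.cap, hM.cap]
    have a0 : ∀ b, insZ (i + k) b c i = c i := fun b => hm_ins_le b c (by omega)
    have a1 : ∀ b, insZ i b c (i + 2 + k) = c (i + k) := by
      intro b
      rw [hm_ins_gt b c (by omega), show i + 2 + k - 2 = i + k by omega]
    have e : ∀ b b', insZ i b' (insZ (i + k) b c) = insZ (i + 2 + k) b (insZ i b' c) := by
      intro b b'
      funext j
      rcases Nat.lt_trichotomy j (i + 1) with h | h | h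
      · rw [hm_ins_le b' _ (by omega), hm_ins_le b _ (by omega), hm_ins_le b _ (by omega),
          hm_ins_le b' _ (by omega)]
      · rw [hm_ins_eq b' _ h, hm_ins_le b _ (by omega), hm_ins_eq b' _ h]
      · rw [hm_ins_gt b' _ (by omega)]
        rcases Nat.lt_trichotomy j (i + 2 + k + 1) with h' | h' | h'
        · rw [hm_ins_le b _ (by omega), hm_ins_le b _ (by omega), hm_ins_gt b' _ (by omega)]
        · rw [hm_ins_eq b _ (by omega), hm_ins_eq b _ h']
        · rw [hm_ins_gt b _ (by omega), hm_ins_gt b _ (by omega), hm_ins_gt b' _ (by omega)]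
    simp only [a0, a1, e]
    ring

/-! ### the poles -/

private theorem hm_pole {M : Model ℤ ((ℕ → ℤ) → ℤ)} (hM : HM M) (θ : ℤ → ℤ) : Pole M (PZ θ) := by
  have z0 : ∀ (i : ℕ) (c : ℕ → ℤ), dlZ i c 0 = c 0 := fun i c => hm_dl_le c (Nat.zero_le i)
  have z1 : ∀ (i : ℕ) (b : ℤ) (c : ℕ → ℤ), insZ i b c 0 = c 0 :=
    fun i b c => hm_ins_le b c (Nat.zero_le i)
  refine ⟨?_, ?_, ?_, ?_, ?_, ?_⟩
  · intro n w x _ hx
    rw [hM.supp] at hx ⊢
    intro c hc
    exact hx c (fun h => hc (by show θ (c w - c 0) * x c = 0; rw [h, mul_zero]))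
  · intro n w a x _ _
    funext c
    show θ (c w - c 0) * (a * x c) = a * (θ (c w - c 0) * x c)
    ring
  · intro n w i x hi _ _
    funext c
    show θ (c (w + 2) - c 0) * M.cup i x c = _
    rw [hM.cup, hM.cup]
    by_cases hc : c i = c (i + 2) ∧ NearZ (c i) (c (i + 1))
    · rw [if_pos hc, if_pos hc]
      show _ = θ (dlZ i c w - dlZ i c 0) * x (dlZ i c)
      rw [hm_dl_ge c hc.1 hi, z0]
    · rw [if_neg hc, if_neg hc, mul_zero]
  · intro n w i x hi _ _
    funext c
    show θ (c w - c 0) * M.cup i x c = _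
    rw [hM.cup, hM.cup]
    by_cases hc : c i = c (i + 2) ∧ NearZ (c i) (c (i + 1))
    · rw [if_pos hc, if_pos hc]
      show _ = θ (dlZ i c w - dlZ i c 0) * x (dlZ i c)
      rw [hm_dl_le c hi, z0]
    · rw [if_neg hc, if_neg hc, mul_zero]
  · intro n w i x hi _ _
    funext c
    show _ = θ (c w - c 0) * M.cap i x c
    rw [hM.cap, hM.cap]
    have h1 : ∀ b, PZ θ (w + 2) x (insZ i b c) = θ (c w - c 0) * x (insZ i b c) := by
      intro b
      show θ (insZ i b c (w + 2) - insZ i b c 0) * x (insZ i b c) = _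
      rw [hm_ins_gt b c (by omega), z1]
      rfl
    rw [h1, h1]
    ring
  · intro n w i x hi _ _
    funext c
    show _ = θ (c w - c 0) * M.cap i x c
    rw [hM.cap, hM.cap]
    have h1 : ∀ b, PZ θ w x (insZ i b c) = θ (c w - c 0) * x (insZ i b c) := by
      intro b
      show θ (insZ i b c w - insZ i b c 0) * x (insZ i b c) = _
      rw [hm_ins_le b c hi, z1]
    rw [h1, h1]
    ring

/-- [HMD] the model of height functions exists, has commuting cups and caps, and the poles `PZ θ`. -/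
theorem thm_HMD : St_HMD := ⟨hm_ex, fun _ hM => ⟨hm_cc hM, fun θ => hm_pole hM θ⟩⟩

end Pool.TWC
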