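import Pool.Agent.TWC.StA

/-!
# TWC: the poles of the height model (module HPS)
-/

set_option autoImplicit false

namespace Pool.TWC

open LaurentPolynomial Pool.Agent.ARB Pool.Agent.Helper2 Pool.ALT

private theorem HPS_caps : ∀ m : ℕ, caps (m + 1) = pN m :: caps m
  | 0 => rfl
  | m + 1 => by
    show sh 1 (caps (m + 1)) ++ [pN 0] = pN (m + 1) :: caps (m + 1)
    rw [HPS_caps m]
    show pN (m + 1) :: (sh 1 (caps m) ++ [pN 0]) = _
    show pN (m + 1) :: caps (m + 1) = _
    rw [HPS_caps m]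

private theorem HPS_cups : ∀ m : ℕ, cups (m + 1) = cups m ++ [pU m]
  | 0 => rfl
  | m + 1 => by
    show pU 0 :: sh 1 (cups (m + 1)) = cups (m + 1) ++ [pU (m + 1)]
    have h : sh 1 (cups (m + 1)) = sh 1 (cups m) ++ [pU (m + 1)] := by
      rw [HPS_cups m]
      simp [sh]
    rw [h]
    rfl

private theorem HPS_append {R V : Type} [CommRing R] [AddCommGroup V] [Module R V]
    (M : Model R V) : ∀ (x y : Word) (z : V), runC M (x ++ y) z = runC M y (runC M x z)
  | [], _, _ => rfl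
  | ⟨.U, i⟩ :: x, y, z => HPS_append M x y (M.cup i z)
  | ⟨.N, i⟩ :: x, y, z => HPS_append M x y (M.cap i z)
  | ⟨.X _, _⟩ :: x, y, z => HPS_append M x y z

private theorem HPS_cc (M : Model ℤ ((ℕ → ℤ) → ℤ)) (hM : HM M) (θ : ℤ → ℤ) (m : ℕ)
    (ψ : (ℕ → ℤ) → ℤ) : M.cap m (PZ θ (m + 1) (M.cup m ψ)) =
      PZ (fun x => θ (x + 1) + θ (x - 1)) m ψ := by
  funext c
  rw [hM.cap]
  have key : ∀ b : ℤ, NearZ (c m) b →
      PZ θ (m + 1) (M.cup m ψ) (insZ m b c) = θ (b - c 0) * ψ c := by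
    intro b hb
    have h1 : insZ m b c (m + 1) = b := by simp [insZ]
    have h2 : insZ m b c 0 = c 0 := by simp [insZ]
    have h3 : insZ m b c m = c m := by simp [insZ]
    have h4 : insZ m b c (m + 2) = c m := by simp [insZ]
    have h5 : dlZ m (insZ m b c) = c := by
      funext j
      by_cases hj : j ≤ m
      · simp [dlZ, insZ, hj]
      · have h6 : ¬ j + 2 ≤ m := by omega
        have h7 : j + 2 ≠ m + 1 := by omega
        simp [dlZ, insZ, hj, h6, h7]
    show θ (insZ m b c (m + 1) - insZ m b c 0) * M.cup m ψ (insZ m b c) = _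
    rw [hM.cup, h1, h2, h3, h4, h5, if_pos ⟨rfl, hb⟩]
  rw [key (c m + 1) (Or.inr rfl), key (c m - 1) (Or.inl (by ring))]
  show _ = (θ (c m - c 0 + 1) + θ (c m - c 0 - 1)) * ψ c
  rw [show c m + 1 - c 0 = c m - c 0 + 1 by ring, show c m - 1 - c 0 = c m - c 0 - 1 by ring]
  ring

private theorem HPS_step (M : Model ℤ ((ℕ → ℤ) → ℤ)) (hM : HM M) (θ : ℤ → ℤ) (m : ℕ) :
    Psi M (PZ θ) (m + 1) = Psi M (PZ fun x => θ (x + 1) + θ (x - 1)) m := by
  unfold Psi
  rw [HPS_caps, HPS_cups, HPS_append]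
  show runC M (caps m) (M.cap m (PZ θ (m + 1) (M.cup m (runC M (cups m) M.init)))) = _
  rw [HPS_cc M hM]

private theorem HPS_zero (M : Model ℤ ((ℕ → ℤ) → ℤ)) (hM : HM M) (θ : ℤ → ℤ) (c : ℕ → ℤ) :
    Psi M (PZ θ) 0 c = θ 0 := by
  show θ (c 0 - c 0) * M.init c = θ 0
  rw [hM.init, sub_self, mul_one]

private theorem HPS_all (M : Model ℤ ((ℕ → ℤ) → ℤ)) (hM : HM M) (c : ℕ → ℤ) :
    ∀ (m : ℕ) (θ : ℤ → ℤ), (∀ x, 0 ≤ θ x) →
      (Psi M (PZ θ) m c ≠ 0 ↔ ∃ r : ℤ, |r| ≤ m ∧ (r - m) % 2 = 0 ∧ θ r ≠ 0) := by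
  intro m
  induction m with
  | zero =>
    intro θ _
    rw [HPS_zero M hM]
    constructor
    · intro h
      exact ⟨0, by simp, by simp, h⟩
    · rintro ⟨r, h1, -, h3⟩
      have h4 : r = 0 := by
        have h5 : |r| ≤ 0 := by exact_mod_cast h1
        exact abs_nonpos_iff.1 h5
      rw [h4] at h3
      exact h3
  | succ m ih =>
    intro θ hθ
    rw [HPS_step M hM, ih (fun x => θ (x + 1) + θ (x - 1))
      (fun x => add_nonneg (hθ _) (hθ _))]
    constructor
    · rintro ⟨r, h1, h2, h3⟩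
      rw [abs_le] at h1
      have h4 : θ (r + 1) ≠ 0 ∨ θ (r - 1) ≠ 0 := by
        by_contra h
        push Not at h
        apply h3
        show θ (r + 1) + θ (r - 1) = 0
        rw [h.1, h.2, add_zero]
      rcases h4 with h4 | h4
      · refine ⟨r + 1, ?_, ?_, h4⟩
        · rw [abs_le]
          push_cast
          constructor <;> linarith [h1.1, h1.2]
        · push_cast
          omega
      · refine ⟨r - 1, ?_, ?_, h4⟩
        · rw [abs_le]
          push_cast
          constructor <;> linarith [h1.1, h1.2]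
        · push_cast
          omega
    · rintro ⟨r, h1, h2, h3⟩
      rw [abs_le] at h1
      push_cast at h1 h2
      have h5 := hθ
      by_cases hr : 0 < r
      · refine ⟨r - 1, ?_, by omega, ?_⟩
        · rw [abs_le]
          constructor <;> omega
        · show θ (r - 1 + 1) + θ (r - 1 - 1) ≠ 0
          rw [sub_add_cancel]
          have h6 := hθ r
          have h7 := hθ (r - 1 - 1)
          have h8 : 0 < θ r := lt_of_le_of_ne h6 (Ne.symm h3)
          omega
      · refine ⟨r + 1, ?_, by omega, ?_⟩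
        · rw [abs_le]
          constructor <;> omega
        · show θ (r + 1 + 1) + θ (r + 1 - 1) ≠ 0
          rw [add_sub_cancel_right]
          have h6 := hθ r
          have h7 := hθ (r + 1 + 1)
          have h8 : 0 < θ r := lt_of_le_of_ne h6 (Ne.symm h3)
          omega

theorem thm_HPS : St_HPS := by
  intro M hM m r c
  rw [HPS_all M hM c m _ (fun x => by split_ifs <;> norm_num)]
  constructor
  · rintro ⟨r', h1, h2, h3⟩
    have h4 : r' = r := by
      by_contra h
      exact h3 (if_neg h)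
    rw [← h4]
    exact ⟨h1, h2⟩
  · rintro ⟨h1, h2⟩
    exact ⟨r, h1, h2, by simp⟩

end Pool.TWC
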