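import Pool.Agent.TWC.StL

/-!
# TWC: counting parallel classes (LIN)
-/

set_option autoImplicit false

namespace Pool.TWC

/-- the parallel class of `e` -/
def LIN_cl {N : ℕ} (r : Finset (Fin N) → ℕ) (e : Fin N) : Finset (Fin N) :=
  Finset.univ.filter fun e' => r {e, e'} = 1

private theorem LIN_ge {N : ℕ} {r : Finset (Fin N) → ℕ} (hr : RkF r) (h1 : ∀ e, r {e} = 1)
    {S : Finset (Fin N)} {e : Fin N} (he : e ∈ S) : 1 ≤ r S := by
  have := hr.mono {e} S (Finset.singleton_subset_iff.2 he)
  rw [h1] at this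
  exact this

private theorem LIN_add {N : ℕ} {r : Finset (Fin N) → ℕ} (hr : RkF r) (h1 : ∀ e, r {e} = 1)
    {S : Finset (Fin N)} {e e' : Fin N} (he' : e' ∈ S) (h : r {e, e'} ≤ 1) :
    r (insert e S) ≤ r S := by
  have h2 := hr.sub S {e, e'}
  have h3 : S ∪ {e, e'} = insert e S := by
    ext x
    simp only [Finset.mem_union, Finset.mem_insert, Finset.mem_singleton]
    constructor
    · rintro (h | h | h)
      · exact Or.inr h
      · exact Or.inl h
      · exact Or.inr (h ▸ he')
    · rintro (h | h)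
      · exact Or.inr (Or.inl h)
      · exact Or.inl h
  have h4 : 1 ≤ r (S ∩ {e, e'}) := by
    refine LIN_ge hr h1 (e := e') ?_
    simp [he']
  rw [h3] at h2
  omega

private theorem LIN_trans {N : ℕ} {r : Finset (Fin N) → ℕ} (hr : RkF r) (h1 : ∀ e, r {e} = 1)
    {a b c : Fin N} (hab : r {a, b} = 1) (hbc : r {b, c} = 1) : r {a, c} = 1 := by
  have h2 : r (insert a {b, c}) ≤ r {b, c} := by
    refine LIN_add hr h1 (e' := b) ?_ hab.le
    simp
  have h3 : r {a, c} ≤ r (insert a {b, c}) := by
    refine hr.mono _ _ ?_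
    intro x hx
    simp only [Finset.mem_insert, Finset.mem_singleton] at hx ⊢
    tauto
  have h4 : 1 ≤ r {a, c} := LIN_ge hr h1 (e := a) (by simp)
  omega

private theorem LIN_cl_eq {N : ℕ} {r : Finset (Fin N) → ℕ} (hr : RkF r) (h1 : ∀ e, r {e} = 1)
    {e e' : Fin N} : LIN_cl r e = LIN_cl r e' ↔ r {e, e'} = 1 := by
  constructor
  · intro h
    have h2 : e' ∈ LIN_cl r e' := by
      simp [LIN_cl, h1]
    rw [← h] at h2
    simpa [LIN_cl] using h2
  · intro h
    ext x
    simp only [LIN_cl, Finset.mem_filter, Finset.mem_univ, true_and]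
    constructor
    · intro hx
      exact LIN_trans hr h1 (by rw [Finset.pair_comm]; exact h) hx
    · intro hx
      exact LIN_trans hr h1 h hx

private theorem LIN_A {N : ℕ} {r : Finset (Fin N) → ℕ} (hr : RkF r) (h1 : ∀ e, r {e} = 1)
    {r' : Finset (Fin N) → ℕ} (hr' : RkF r') (h1' : ∀ e, r' {e} = 1)
    (hp : ∀ e e', r' {e, e'} ≤ r {e, e'}) (S U : Finset (Fin N)) :
    r' (S ∪ U) + (S.image (LIN_cl r)).card ≤ r' S + ((S ∪ U).image (LIN_cl r)).card := by
  induction U using Finset.induction_on with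
  | empty => simp
  | insert e U _ ih =>
    have h3 : S ∪ insert e U = insert e (S ∪ U) := by
      rw [Finset.union_insert]
    rw [h3, Finset.image_insert]
    by_cases h : LIN_cl r e ∈ (S ∪ U).image (LIN_cl r)
    · rw [Finset.insert_eq_of_mem h]
      obtain ⟨e', he', h4⟩ := Finset.mem_image.1 h
      have h5 : r {e, e'} = 1 := (LIN_cl_eq hr h1).1 h4.symm
      have h6 := LIN_add hr' h1' he' ((hp e e').trans h5.le)
      omega
    · rw [Finset.card_insert_of_notMem h]
      have h6 := hr'.one (S ∪ U) e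
      omega

private theorem LIN_B {N : ℕ} {r : Finset (Fin N) → ℕ} (hr : RkF r) (h1 : ∀ e, r {e} = 1)
    (T : Finset (Fin N)) : r T = 1 ↔
      ∃ q ∈ (Finset.univ : Finset (Fin N)).image (LIN_cl r),
        T ∈ (Finset.univ.filter fun e => LIN_cl r e = q).powerset.erase ∅ := by
  constructor
  · intro h
    have hne : T ≠ ∅ := by
      rintro rfl
      rw [hr.emp] at h
      omega
    obtain ⟨e, he⟩ := Finset.nonempty_iff_ne_empty.2 hne
    refine ⟨LIN_cl r e, Finset.mem_image_of_mem _ (Finset.mem_univ _), ?_⟩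
    rw [Finset.mem_erase, Finset.mem_powerset]
    refine ⟨hne, fun e' he' => ?_⟩
    rw [Finset.mem_filter]
    refine ⟨Finset.mem_univ _, (LIN_cl_eq hr h1).2 ?_⟩
    have h2 : r {e', e} ≤ r T := by
      refine hr.mono _ _ fun x hx => ?_
      rw [Finset.mem_insert, Finset.mem_singleton] at hx
      rcases hx with rfl | rfl
      · exact he'
      · exact he
    have h3 : 1 ≤ r {e', e} := LIN_ge hr h1 (e := e) (by simp)
    omega
  · rintro ⟨q, _, hT⟩
    rw [Finset.mem_erase, Finset.mem_powerset] at hT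
    obtain ⟨e, he⟩ := Finset.nonempty_iff_ne_empty.2 hT.1
    have h2 := LIN_A hr h1 hr h1 (fun _ _ => le_rfl) ∅ T
    rw [Finset.empty_union, hr.emp, Finset.image_empty, Finset.card_empty] at h2
    have h3 : T.image (LIN_cl r) ⊆ {q} := by
      intro x hx
      obtain ⟨y, hy, rfl⟩ := Finset.mem_image.1 hx
      have := hT.2 hy
      rw [Finset.mem_filter] at this
      rw [Finset.mem_singleton]
      exact this.2
    have h4 := Finset.card_le_card h3
    rw [Finset.card_singleton] at h4
    have h5 := LIN_ge hr h1 he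
    omega

private theorem LIN_C {N : ℕ} {r : Finset (Fin N) → ℕ} (hr : RkF r) (h1 : ∀ e, r {e} = 1) :
    (∑ T ∈ Finset.univ.filter (fun T : Finset (Fin N) => r T = 1), (-1 : ℤ) ^ T.card) =
      -(((Finset.univ : Finset (Fin N)).image (LIN_cl r)).card : ℤ) := by
  have h2 : Finset.univ.filter (fun T : Finset (Fin N) => r T = 1) =
      ((Finset.univ : Finset (Fin N)).image (LIN_cl r)).biUnion
        (fun q => (Finset.univ.filter fun e => LIN_cl r e = q).powerset.erase ∅) := by
    ext T
    rw [Finset.mem_filter, Finset.mem_biUnion]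
    exact ⟨fun h => (LIN_B hr h1 T).1 h.2, fun h => ⟨Finset.mem_univ _, (LIN_B hr h1 T).2 h⟩⟩
  rw [h2, Finset.sum_biUnion]
  · have h3 : ∀ q ∈ (Finset.univ : Finset (Fin N)).image (LIN_cl r),
        ∑ T ∈ (Finset.univ.filter fun e => LIN_cl r e = q).powerset.erase ∅, (-1 : ℤ) ^ T.card
          = -1 := by
      intro q hq
      obtain ⟨e, _, he⟩ := Finset.mem_image.1 hq
      have h4 : (Finset.univ.filter fun e => LIN_cl r e = q) ≠ ∅ := by
        intro h
        have : e ∈ (Finset.univ.filter fun e => LIN_cl r e = q) := by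
          rw [Finset.mem_filter]
          exact ⟨Finset.mem_univ _, he⟩
        rw [h] at this
        simp at this
      have h5 := Finset.sum_powerset_neg_one_pow_card
        (x := (Finset.univ.filter fun e => LIN_cl r e = q))
      rw [if_neg h4] at h5
      have h6 := Finset.add_sum_erase (Finset.univ.filter fun e => LIN_cl r e = q).powerset
        (fun T => (-1 : ℤ) ^ T.card) (a := ∅) (by simp)
      rw [h5] at h6
      simp only [Finset.card_empty, pow_zero] at h6
      linarith
    rw [Finset.sum_congr rfl h3, Finset.sum_const, nsmul_eq_mul]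
    ring
  · intro q _ q' _ hqq'
    rw [Function.onFun, Finset.disjoint_left]
    intro T hT hT'
    rw [Finset.mem_erase, Finset.mem_powerset] at hT hT'
    obtain ⟨e, he⟩ := Finset.nonempty_iff_ne_empty.2 hT.1
    have h3 := hT.2 he
    have h4 := hT'.2 he
    rw [Finset.mem_filter] at h3 h4
    exact hqq' (h3.2.symm.trans h4.2)

theorem thm_LIN : St_LIN := by
  intro N r r' hr hr' h1 h1' hp S
  rw [LIN_C hr h1]
  have h2 := LIN_A hr h1 hr h1 (fun _ _ => le_rfl) ∅ S
  rw [Finset.empty_union, hr.emp, Finset.image_empty, Finset.card_empty] at h2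
  have h3 := LIN_A hr h1 hr' h1' hp S Finset.univ
  rw [Finset.union_eq_right.2 (Finset.subset_univ S)] at h3
  omega

end Pool.TWC
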