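import Pool.Agent.TWC.StB

/-!
# TWC: no crossing is a loop (module LOO)
-/

set_option autoImplicit false

namespace Pool.TWC

open LaurentPolynomial Pool.Agent.ARB Pool.Agent.Helper2 Pool.ALT

private theorem loo_gs {n : ℕ} {w : Word} {x y : Loc n w} (h : R0 n w x y) : gs n w x y := by
  have h1 : pr x y ≤ gs n w :=
    le_iSup_of_le x (le_iSup_of_le y (le_iSup_of_le h le_rfl))
  exact (pr_le_iff _ _ _).1 h1

private theorem loo_base (hE : St_EMB) {ρ : Bool} {u v : Word} {w : ℕ} (hu : Ok u 0 (wd 0 u))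
    (hv : Ok v (wd 0 u) 0) {x : Loc 0 (u ++ v)} (hx : pa 0 (u ++ v) x = ρ)
    (hF : ¬ gs 0 (u ++ v) (md 0 u v 0) x) (hF' : ¬ gs 0 (u ++ v) (md 0 u v w) x)
    (G : Loc 0 (u ++ v) → ZMod 3) (hG : ∀ z, gs 0 (u ++ v) x z → G z = 1)
    (hG' : ∀ z, ¬ gs 0 (u ++ v) x z → G z = 0) :
    ((fun a => G (iu 0 u v a), fun b => G (iv 0 u v b)) : Lv u v) ∈ Base ρ 1 u v w := by
  obtain ⟨e1, -, e3, -, e5, -, -, -⟩ := hE
  have hok : Ok (u ++ v) 0 0 := hu.append hv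
  have hpar : ∀ z, pa 0 (u ++ v) z ≠ ρ → G z = 0 := fun z hz =>
    hG' z fun h => hz (by rw [← pa_gs hok h, hx])
  have hR : ∀ z z', R0 0 (u ++ v) z z' → G z = G z' := by
    intro z z' h
    have h1 := loo_gs h
    by_cases h2 : gs 0 (u ++ v) x z
    · rw [hG z h2, hG z' ((gs 0 (u ++ v)).trans h2 h1)]
    · rw [hG' z h2, hG' z' fun h3 => h2 ((gs 0 (u ++ v)).trans h3 ((gs 0 (u ++ v)).symm h1))]
  refine ⟨⟨fun a ha => ?_, fun b hb => ?_⟩, ⟨fun a b h => ?_, fun a b h => ?_⟩, fun j hj => ?_,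
    ?_, ?_⟩
  · exact hpar _ (by rw [(e3 u v 0).1 a]; exact ha)
  · exact hpar _ (by rw [(e3 u v 0).2 b]; exact hb)
  · exact hR _ _ ((e5 u v 0).1 a b h)
  · exact hR _ _ ((e5 u v 0).2 a b h)
  · show G (iv 0 u v (bo (wd 0 u) v j)) = _ * G (iu 0 u v (tp 0 u j))
    rw [(e1 u v 0 j).1, (e1 u v 0 j).2, ite_self, one_mul]
  · show G (iu 0 u v (tp 0 u 0)) = 0
    rw [(e1 u v 0 0).1]
    exact hG' _ fun h => hF ((gs 0 (u ++ v)).symm h)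
  · show G (iu 0 u v (tp 0 u w)) = 0
    rw [(e1 u v 0 w).1]
    exact hG' _ fun h => hF' ((gs 0 (u ++ v)).symm h)

private theorem loo_lk (hE : St_EMB) (ρ : Bool) (u v : Word) (G : Loc 0 (u ++ v) → ZMod 3)
    (k : Fin (nX (u ++ v))) :
    Lk ρ u v (k : ℕ) ((fun a => G (iu 0 u v a), fun b => G (iv 0 u v b)) : Lv u v) =
      G (ed ρ 0 (u ++ v) k).1 - G (ed ρ 0 (u ++ v) k).2 := by
  obtain ⟨-, -, -, -, -, e6, -, e8⟩ := hE
  by_cases h : (k : ℕ) < nX u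
  · have h1 := (e6 ρ u v 0 k).1 h
    show (if h : (k : ℕ) < nX u then G (iu 0 u v (ed ρ 0 u ⟨k, h⟩).1) -
      G (iu 0 u v (ed ρ 0 u ⟨k, h⟩).2) else _) = _
    rw [dif_pos h, h1]
  · have h2 : (k : ℕ) - nX u < nX v := by
      have h3 : (k : ℕ) < nX u + nX v := lt_of_lt_of_eq k.isLt (e8 u v)
      omega
    have h1 := (e6 ρ u v 0 k).2 h2 (not_lt.1 h)
    show (if h : (k : ℕ) < nX u then G (iu 0 u v (ed ρ 0 u ⟨k, h⟩).1) -
      G (iu 0 u v (ed ρ 0 u ⟨k, h⟩).2) else if h : (k : ℕ) - nX u < nX v then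
        G (iv 0 u v (ed ρ (wd 0 u) v ⟨(k : ℕ) - nX u, h⟩).1) -
        G (iv 0 u v (ed ρ (wd 0 u) v ⟨(k : ℕ) - nX u, h⟩).2) else 0) = _
    rw [dif_neg h, dif_pos h2, h1]

/-- [LOO] -/
theorem thm_LOO (hE : St_EMB) : St_LOO := by
  classical
  intro ρ u v w hu hv _ k hxy h1 h2
  have hok : Ok (u ++ v) 0 0 := hu.append hv
  obtain ⟨p1, p2⟩ := pa_ed (u ++ v) 0 0 ρ k hok
  obtain ⟨x, hx⟩ : ∃ x, x = (ed ρ 0 (u ++ v) k).1 := ⟨_, rfl⟩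
  obtain ⟨y, hy⟩ : ∃ y, y = (ed ρ 0 (u ++ v) k).2 := ⟨_, rfl⟩
  rw [← hx, ← hy] at hxy h1 h2
  rw [← hx] at p1
  rw [← hy] at p2
  have key : ∀ z : Loc 0 (u ++ v), pa 0 (u ++ v) z = ρ → ¬ gs 0 (u ++ v) (md 0 u v 0) z →
      ¬ gs 0 (u ++ v) (md 0 u v w) z → ∃ G : Loc 0 (u ++ v) → ZMod 3,
        (∀ z', gs 0 (u ++ v) z z' → G z' = 1) ∧ (∀ z', ¬ gs 0 (u ++ v) z z' → G z' = 0) ∧
        ((fun a => G (iu 0 u v a), fun b => G (iv 0 u v b)) : Lv u v) ∈ Base ρ 1 u v w := by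
    intro z hz hF hF'
    refine ⟨fun z' => if gs 0 (u ++ v) z z' then 1 else 0, fun z' h => if_pos h,
      fun z' h => if_neg h, ?_⟩
    exact loo_base hE hu hv hz hF hF' (fun z' => if gs 0 (u ++ v) z z' then 1 else 0)
      (fun z' h => if_pos h) (fun z' h => if_neg h)
  by_cases hx1 : ¬ gs 0 (u ++ v) (md 0 u v 0) x ∧ ¬ gs 0 (u ++ v) (md 0 u v w) x
  · obtain ⟨G, hG, hG', hp⟩ := key x p1 hx1.1 hx1.2
    refine ⟨_, hp, ?_⟩
    rw [loo_lk hE, ← hx, ← hy, hG x ((gs 0 (u ++ v)).refl x), hG' y hxy]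
    decide
  · by_cases hy1 : ¬ gs 0 (u ++ v) (md 0 u v 0) y ∧ ¬ gs 0 (u ++ v) (md 0 u v w) y
    · obtain ⟨G, hG, hG', hp⟩ := key y p2 hy1.1 hy1.2
      refine ⟨_, hp, ?_⟩
      rw [loo_lk hE, ← hx, ← hy, hG y ((gs 0 (u ++ v)).refl y),
        hG' x fun h => hxy ((gs 0 (u ++ v)).symm h)]
      decide
    · exfalso
      rw [not_and_or, not_not, not_not] at hx1 hy1
      rcases hx1 with a | a
      · rcases hy1 with b | b
        · exact hxy ((gs 0 (u ++ v)).trans ((gs 0 (u ++ v)).symm a) b)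
        · exact h1 ⟨a, b⟩
      · rcases hy1 with b | b
        · exact h2 ⟨b, a⟩
        · exact hxy ((gs 0 (u ++ v)).trans ((gs 0 (u ++ v)).symm a) b)

end Pool.TWC
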