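import Pool.Agent.TWC.StA

/-!
# TWC [MHT]: the number of circles around the pole is the largest height difference
-/

set_option autoImplicit false

namespace Pool.TWC

open LaurentPolynomial Pool.Agent.ARB Pool.Agent.Helper2 Pool.ALT

/-- [MHT], see `St_MHT`. -/
theorem thm_MHT (h1 : St_PR) (h2 : St_HMD) (h3 : St_HPS) (h4 : St_HTR) : St_MHT := by
  have _h := h1
  intro B u v n w l m hu hv hw hPr
  obtain ⟨⟨M, hM⟩, hP⟩ := h2
  have key : ∀ r : ℤ, (|r| ≤ (m : ℤ) ∧ (r - m) % 2 = 0) ↔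
      ∃ f : Loc 0 (u ++ v) → ℤ, Hv B 0 (u ++ v) f ∧ f (md 0 u v w) - f (md 0 u v 0) = r := by
    intro r
    obtain ⟨hC, hPole⟩ := hP M hM
    have h5 := h3 M hM m r (fun _ => 0)
    have h6 := h4 M hM B u v n w r (fun _ => 0) hu hv hw
    have h7 := hPr M (PZ fun x => if x = r then 1 else 0) hC (hPole _)
    rw [h7, hM.del] at h6
    rw [← h5, ← h6]
    have h8 : ((2 : ℤ) ^ l • Psi M (PZ fun x => if x = r then 1 else 0) m) (fun _ => 0) =
        (2 : ℤ) ^ l * Psi M (PZ fun x => if x = r then 1 else 0) m (fun _ => 0) := rfl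
    rw [h8]
    constructor
    · intro h9
      exact mul_ne_zero (pow_ne_zero _ two_ne_zero) h9
    · intro h9 h10
      exact h9 (by rw [h10, mul_zero])
  refine ⟨fun f hf => ?_, ?_⟩
  · exact ((key _).2 ⟨f, hf, rfl⟩).1
  · refine (key (m : ℤ)).1 ⟨?_, ?_⟩
    · rw [abs_of_nonneg (Int.natCast_nonneg m)]
    · simp

end Pool.TWC
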