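import Pool.Agent.TWC.StC

/-!
# TWC: the number of circles around the pole in the extreme state (module MNU)
-/

set_option autoImplicit false

namespace Pool.TWC

open LaurentPolynomial Pool.Agent.ARB Pool.Agent.Helper2 Pool.ALT
open Pool.TWI (Same)

private theorem mnu_gs {n : ℕ} {w : Word} {x y : Loc n w} (h : R0 n w x y) : gs n w x y := by
  have h1 : pr x y ≤ gs n w :=
    le_iSup_of_le x (le_iSup_of_le y (le_iSup_of_le h le_rfl))
  exact (pr_le_iff _ _ _).1 h1

private theorem mnu_pa_md : ∀ (u : Word) (n m : ℕ) (v : Word) (j : ℕ), Ok u n m → j ≤ m →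
    pa n (u ++ v) (md n u v j) = decide (j % 2 = 0)
  | [], n, m, v, j, h, hj => by
      have h' : n = m := h
      subst h'
      exact pa_bo n v j hj
  | s :: u, n, m, v, j, h, hj => mnu_pa_md u (n - s.k.inn + s.k.out) m v j h.2 hj

private theorem mnu_dec (j : ℕ) : decide ((j + 1) % 2 = 0) = !decide (j % 2 = 0) := by
  rcases Nat.mod_two_eq_zero_or_one j with h | h
  · have h1 : (j + 1) % 2 = 1 := by omega
    simp [h, h1]
  · have h1 : (j + 1) % 2 = 0 := by omega
    simp [h, h1]

private theorem mnu_rt : ∀ (w : Word) (n : ℕ) (x y : Loc n w), Rt n w x y →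
    pa n w y = !pa n w x
  | [], n, x, y, h => by
      obtain ⟨j, hj, rfl, rfl⟩ := h
      rw [pa_bo n [] (j + 1) (by omega), pa_bo n [] j (by omega), mnu_dec]
  | s :: w, n, x, y, h => by
      rcases h with ⟨j, hj, rfl, rfl⟩ | ⟨x', y', rfl, rfl, h⟩
      · rw [pa_bo n (s :: w) (j + 1) (by omega), pa_bo n (s :: w) j (by omega), mnu_dec]
      · exact mnu_rt w _ x' y' h

private theorem mnu_ad {w : Word} {n : ℕ} {x y : Loc n w} (h : Ad n w x y) :
    pa n w y = !pa n w x := by
  rcases h with h | h
  · exact mnu_rt w n x y h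
  · rw [mnu_rt w n y x h, Bool.not_not]

private theorem mnu_st (r : Bool) {n : ℕ} (k : ℕ) : st r (∅ : Finset (Fin n)) k = !r := by
  unfold st
  rw [if_neg]
  rintro ⟨h, h'⟩
  simp at h'

theorem thm_MNU (h1 : St_MHT) (h2 : St_PAR) (h3 : St_NFF) : St_MNU := by
  intro r u v n w l m hu hv hw hfar hcon hpr
  obtain ⟨hff, -, -⟩ := h3 u v n w hu hv hw hfar
  obtain ⟨hub, f, hf, hfm⟩ := h1 _ u v n w l m hu hv hw hpr
  obtain ⟨hrt, hpar⟩ := h2 (st r (∅ : Finset (Fin (nX (u ++ v))))) u v n w hu hv hw
  have hD : Ok (u ++ v) 0 0 := hu.append hv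
  have hpaF : pa 0 (u ++ v) (md 0 u v 0) = true := by
    rw [mnu_pa_md u 0 n v 0 hu (by omega)]
    rfl
  have hpaF' : pa 0 (u ++ v) (md 0 u v w) = decide (w % 2 = 0) := mnu_pa_md u 0 n v w hu hw
  have hw0 : 0 < w := by
    rcases Nat.eq_zero_or_pos w with h | h
    · subst h
      exact absurd ((gs 0 (u ++ v)).refl _) hff
    · exact h
  -- the value on the regions of the other parity
  have hc : ∀ x y, pa 0 (u ++ v) x = (!r) → pa 0 (u ++ v) y = (!r) → f x = f y := by
    refine hcon (!r) ℤ f hf.touch fun k => ?_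
    have h := hf.join k
    rw [mnu_st] at h
    exact h
  have hmod := hpar f hf
  rw [hfm] at hmod
  have hn1 := hf.near _ _ (Or.inl (hrt 0 (by omega)))
  have hn2 := hf.near _ _ (Or.inl (hrt (w - 1) (by omega)))
  rw [show w - 1 + 1 = w by omega] at hn2
  rw [show 0 + 1 = 1 from rfl] at hn1
  have hpa1 : pa 0 (u ++ v) (md 0 u v 1) = false := by
    rw [mnu_pa_md u 0 n v 1 hu (by omega)]
    rfl
  have hpaw : pa 0 (u ++ v) (md 0 u v (w - 1)) = !decide (w % 2 = 0) := by
    have h := mnu_dec (w - 1)
    rw [show w - 1 + 1 = w by omega] at h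
    rw [mnu_pa_md u 0 n v (w - 1) hu (by omega), h, Bool.not_not]
  unfold m0
  rcases Nat.mod_two_eq_zero_or_one w with hp | hp
  · have hd : decide (w % 2 = 0) = true := by simp [hp]
    rw [hd] at hpaF' hpaw
    cases r
    · -- `r = false`, both ends have the other parity
      have h4 := hc _ _ hpaF' hpaF
      rw [hd]
      simp only [Bool.false_eq_true, if_false, add_zero]
      omega
    · -- both ends have parity `r`
      have h4 := hc _ _ hpa1 hpaw
      rw [hd]
      simp only [if_true]
      have h5 : (m : ℤ) ≤ 2 := by omega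
      classical
      -- a height function with the difference `2`
      set g : Loc 0 (u ++ v) → ℤ := fun x =>
        if pa 0 (u ++ v) x = true then (if gs 0 (u ++ v) (md 0 u v 0) x then -1 else 1) else 0
        with hg
      have hgH : Hv (st true (∅ : Finset (Fin (nX (u ++ v))))) 0 (u ++ v) g := by
        refine ⟨fun x y hxy => ?_, fun k => ?_, fun x y hxy => ?_⟩
        · have e1 := pa_R0 _ _ _ x y hD hxy
          have e2 := mnu_gs hxy
          have e3 : gs 0 (u ++ v) (md 0 u v 0) x ↔ gs 0 (u ++ v) (md 0 u v 0) y :=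
            ⟨fun h => (gs 0 (u ++ v)).trans h e2,
              fun h => (gs 0 (u ++ v)).trans h ((gs 0 (u ++ v)).symm e2)⟩
          show (if pa 0 (u ++ v) x = true then (if gs 0 (u ++ v) (md 0 u v 0) x then -1 else 1)
            else 0) = (if pa 0 (u ++ v) y = true then
              (if gs 0 (u ++ v) (md 0 u v 0) y then -1 else 1) else 0)
          rw [e1]
          simp only [e3]
        · rw [mnu_st]
          obtain ⟨e1, e2⟩ := pa_ed (u ++ v) 0 0 (!true) k hD
          show (if pa 0 (u ++ v) (ed (!true) 0 (u ++ v) k).1 = true then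
              (if gs 0 (u ++ v) (md 0 u v 0) (ed (!true) 0 (u ++ v) k).1 then -1 else 1)
            else 0) = (if pa 0 (u ++ v) (ed (!true) 0 (u ++ v) k).2 = true then
              (if gs 0 (u ++ v) (md 0 u v 0) (ed (!true) 0 (u ++ v) k).2 then -1 else 1) else 0)
          rw [e1, e2]
          simp
        · have e1 := mnu_ad hxy
          simp only [hg]
          rw [e1]
          cases hx : pa 0 (u ++ v) x
          · simp only [Bool.false_eq_true, if_false, Bool.not_false, if_true]
            split_ifs <;> omega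
          · simp only [Bool.false_eq_true, if_false, Bool.not_true, if_true]
            split_ifs <;> omega
      have h6 := hub g hgH
      have h7 : g (md 0 u v 0) = -1 := by
        simp only [hg]
        rw [if_pos hpaF, if_pos ((gs 0 (u ++ v)).refl _)]
      have h8 : g (md 0 u v w) = 1 := by
        simp only [hg]
        rw [if_pos hpaF', if_neg hff]
      rw [h7, h8] at h6
      have h9 : (2 : ℤ) ≤ m := by
        have h10 : |(1 : ℤ) - -1| = 2 := by norm_num
        rw [h10] at h6
        exact h6
      omega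
  · have hd : decide (w % 2 = 0) = false := by simp [hp]
    rw [hd] at hpaF' hpaw
    cases r
    · have h4 := hc _ _ hpaF hpaw
      rw [hd]
      simp only [Bool.false_eq_true, if_false, if_true, zero_add]
      omega
    · have h4 := hc _ _ hpaF' hpa1
      rw [hd]
      simp only [Bool.true_eq_false, if_false, if_true, add_zero]
      omega

end Pool.TWC
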