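import Pool.Agent.TWC.StA

/-!
# TWC: a topmost cup away from the pole
-/

set_option autoImplicit false

namespace Pool.TWC

open LaurentPolynomial Pool.Agent.ARB Pool.Agent.Helper2 Pool.ALT

theorem thm_N1 : St_N1 := by
  intro C
  induction C with
  | nil =>
    intro n w h hw
    cases h
    have hw0 : w = 0 := by omega
    subst hw0
    exact Or.inr ⟨rfl, rfl⟩
  | cons c C₁ ih =>
    intro n w h hw
    cases h with
    | @cons _ n₁ _ hC hc =>
      by_cases hcw : c + 1 = w
      · subst hcw
        rcases ih n₁ c hC hc with ⟨i, C₂, n₂, hn, hi, hic, hC₂, H⟩ | ⟨hn, hrb⟩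
        · subst hn
          rcases Nat.lt_or_ge i c with hlt | hge
          · obtain ⟨k, rfl⟩ : ∃ k, c = i + 2 + k := ⟨c - (i + 2), by omega⟩
            refine Or.inl ⟨i, (i + k) :: C₂, n₂ + 2, rfl, by omega, by omega,
              CupsOk.cons hC₂ (by omega), fun M hM => ?_⟩
            show M.cup (i + 2 + k) (M.build C₁) = M.cup i (M.cup (i + k) (M.build C₂))
            rw [H M hM]
            exact hM.cupcup n₂ i k (M.build C₂) (by omega) (M.supp_build hC₂)
          · obtain ⟨k, rfl⟩ : ∃ k, i = c + k := ⟨i - c, by omega⟩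
            refine Or.inl ⟨c + 2 + k, c :: C₂, n₂ + 2, rfl, by omega, by omega,
              CupsOk.cons hC₂ (by omega), fun M hM => ?_⟩
            show M.cup c (M.build C₁) = M.cup (c + 2 + k) (M.cup c (M.build C₂))
            rw [H M hM]
            exact (hM.cupcup n₂ c k (M.build C₂) (by omega) (M.supp_build hC₂)).symm
        · refine Or.inr ⟨by omega, ?_⟩
          rw [hrb]
          rfl
      · exact Or.inl ⟨c, C₁, n₁, rfl, hc, hcw, hC, fun M _ => rfl⟩

end Pool.TWC
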