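import Pool.Agent.TWC.StA

/-!
# TWC, module N2: first caps of words without crossings
-/

set_option autoImplicit false

namespace Pool.TWC

open LaurentPolynomial Pool.Agent.ARB Pool.Agent.Helper2 Pool.ALT

private theorem n2_smul {R V : Type} [CommRing R] [AddCommGroup V] [Module R V] (M : Model R V)
    (c : R) : ∀ (v : Word) (x : V), runC M v (c • x) = c • runC M v x := by
  intro v
  induction v with
  | nil => intro x; rfl
  | cons s v ih =>
    intro x
    rcases s with ⟨k, i⟩
    cases k with
    | U =>
      show runC M v (M.cup i (c • x)) = c • runC M v (M.cup i x)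
      rw [map_smul, ih]
    | N =>
      show runC M v (M.cap i (c • x)) = c • runC M v (M.cap i x)
      rw [map_smul, ih]
    | X p =>
      show runC M v (c • x) = c • runC M v x
      rw [ih]

private theorem n2_parity : ∀ (v : Word) (n m : ℕ), NoX v → Pool.Agent.ARB.Ok v n m →
    n % 2 = m % 2 := by
  intro v
  induction v with
  | nil =>
    intro n m _ h
    have h1 : n = m := h
    rw [h1]
  | cons s v ih =>
    intro n m hv h
    have hv' : NoX v := fun t ht => hv t (List.mem_cons_of_mem _ ht)
    obtain ⟨h1, h2⟩ : s.i + s.k.inn ≤ n ∧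
      Pool.Agent.ARB.Ok v (n - s.k.inn + s.k.out) m := h
    have h3 := ih _ _ hv' h2
    rcases hv s List.mem_cons_self with hk | hk
    · rw [hk] at h1 h3
      simp only [Kind.inn, Kind.out] at h1 h3
      omega
    · rw [hk] at h1 h3
      simp only [Kind.inn, Kind.out] at h1 h3
      omega

private theorem n2_caps (j : ℕ) : caps (j + 1) = pN j :: caps j := by
  induction j with
  | zero => rfl
  | succ k ih =>
    have h1 : caps (k + 1 + 1) = sh 1 (caps (k + 1)) ++ [pN 0] := rfl
    have h2 : sh 1 (pN k :: caps k) = pN (k + 1) :: sh 1 (caps k) := rfl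
    rw [h1, ih, h2, List.cons_append]
    have h3 : sh 1 (caps k) ++ [pN 0] = caps (k + 1) := rfl
    rw [h3, ih]

private theorem n2_closed (h : St_P1) : ∀ (L : ℕ) (v : Word), v.length ≤ L → NoX v →
    Pool.Agent.ARB.Ok v 0 0 → ∃ e : ℕ,
      ∀ {R V : Type} [CommRing R] [AddCommGroup V] [Module R V] (M : Model R V) (y : V),
        M.Supp 0 y → runC M v y = M.δ ^ e • y := by
  intro L
  induction L with
  | zero =>
    intro v hL _ _
    have h1 : v = [] := List.length_eq_zero_iff.1 (Nat.le_zero.1 hL)
    subst h1
    refine ⟨0, fun M y _ => ?_⟩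
    rw [pow_zero, one_smul]
    rfl
  | succ L ih =>
    intro v hL hv hok
    cases v with
    | nil =>
      refine ⟨0, fun M y _ => ?_⟩
      rw [pow_zero, one_smul]
      rfl
    | cons s v =>
      rcases s with ⟨k, i⟩
      have hv' : NoX v := fun t ht => hv t (List.mem_cons_of_mem _ ht)
      have hk : k = .U ∨ k = .N := hv ⟨k, i⟩ List.mem_cons_self
      rcases hk with rfl | rfl
      · obtain ⟨h1, h2⟩ : i + 0 ≤ 0 ∧ Pool.Agent.ARB.Ok v (0 - 0 + 2) 0 := hok
        have hi : i = 0 := by omega
        subst hi
        obtain ⟨j, e, v', hj, hv'', hok', hlen, H⟩ := h v 0 hv' h2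
        have hj0 : j = 0 := by omega
        subst hj0
        have hlen2 : v'.length ≤ L := by
          simp only [List.length_cons] at hL
          omega
        obtain ⟨e', H'⟩ := ih v' hlen2 hv'' hok'
        refine ⟨e + (1 + e'), fun M y hy => ?_⟩
        have h3 := H M (M.cup 0 y) (M.supp_cup 0 0 y le_rfl hy)
        show runC M v (M.cup 0 y) = _
        rw [h3, M.rel1 0 0 y hy le_rfl, n2_smul, H' M y hy, smul_smul, smul_smul]
        congr 1
        ring
      · obtain ⟨h1, -⟩ : i + 2 ≤ 0 ∧ Pool.Agent.ARB.Ok v (0 - 2 + 0) 0 := hok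
        omega

theorem thm_N2 (h : St_P1) : St_N2 := by
  intro v n
  induction n using Nat.strong_induction_on generalizing v with
  | _ n ih =>
    intro w hv hok hw
    rcases n with _ | _ | n
    · -- `n = 0`
      right
      have hw0 : w = 0 := by omega
      subst hw0
      obtain ⟨e, H⟩ := n2_closed h v.length v le_rfl hv hok
      exact ⟨rfl, e, fun M _ y hy => H M y hy⟩
    · -- `n = 1`
      have := n2_parity v _ _ hv hok
      omega
    · obtain ⟨j, e, v₁, hj, hv₁, hok₁, -, H⟩ := h v n hv hok
      by_cases hjw : j + 1 = w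
      swap
      · left
        exact ⟨j, e, v₁, n, rfl, hj, hjw, hv₁, hok₁, fun M _ y hy => H M y hy⟩
      subst hjw
      rcases ih n (by omega) v₁ j hv₁ hok₁ hj with
        ⟨i, e', v₂, n₂, hn, hi, hij, hv₂, hok₂, H'⟩ | ⟨hn, e', H'⟩
      · left
        subst hn
        by_cases hlt : i + 2 ≤ j
        · obtain ⟨k, rfl⟩ : ∃ k, j = i + 2 + k := ⟨j - (i + 2), by omega⟩
          refine ⟨i, e + e', pN (i + k) :: v₂, n₂ + 2, rfl, by omega, by omega, ?_, ?_, ?_⟩
          · intro t ht
            rcases List.mem_cons.1 ht with rfl | ht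
            · exact Or.inr rfl
            · exact hv₂ t ht
          · show (i + k) + 2 ≤ n₂ + 2 ∧ Pool.Agent.ARB.Ok v₂ (n₂ + 2 - 2 + 0) 0
            exact ⟨by omega, by simpa using hok₂⟩
          · intro R V _ _ _ M hM y hy
            have h1 := H M y hy
            have hs : M.Supp (n₂ + 2) (M.cap (i + 2 + k) y) := M.supp_cap _ _ _ hj hy
            have h2 := H' M hM _ hs
            have h3 := hM.capcap (n₂ + 2 + 2) i k y (by omega) hy
            rw [h1, h2, ← h3, smul_smul, ← pow_add]
            rfl
        · obtain ⟨k, rfl⟩ : ∃ k, i = j + k := ⟨i - j, by omega⟩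
          refine ⟨j + 2 + k, e + e', pN j :: v₂, n₂ + 2, rfl, by omega, by omega, ?_, ?_, ?_⟩
          · intro t ht
            rcases List.mem_cons.1 ht with rfl | ht
            · exact Or.inr rfl
            · exact hv₂ t ht
          · show j + 2 ≤ n₂ + 2 ∧ Pool.Agent.ARB.Ok v₂ (n₂ + 2 - 2 + 0) 0
            exact ⟨by omega, by simpa using hok₂⟩
          · intro R V _ _ _ M hM y hy
            have h1 := H M y hy
            have hs : M.Supp (n₂ + 2) (M.cap j y) := M.supp_cap _ _ _ hj hy
            have h2 := H' M hM _ hs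
            have h3 := hM.capcap (n₂ + 2 + 2) j k y (by omega) hy
            rw [h1, h2, h3, smul_smul, ← pow_add]
            rfl
      · right
        refine ⟨by omega, e + e', fun M hM y hy => ?_⟩
        have h1 := H M y hy
        have hs : M.Supp n (M.cap j y) := M.supp_cap _ _ _ hj hy
        have h2 := H' M hM _ hs
        rw [h1, h2, smul_smul, ← pow_add, n2_caps]
        rfl

end Pool.TWC
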