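import Pool.Agent.TWC.StC

/-!
# TWC, module NFF (helper71): the two ends of a long arc are not close
-/

set_option autoImplicit false

namespace Pool.TWC

open Pool.Agent.ARB Pool.ALT
open Pool.TWI (Same)

private theorem nff_gs (h1 : St_POS) {D : Word} {n m : ℕ} (hD : Ok D n m) {x y : Loc n D}
    (h : gs n D x y) : Same D (pos n D x) (pos n D y) := by
  have h2 : gs n D ≤ (Relation.EqvGen.setoid fun x y : ℕ × ℕ =>
      ∃ s, D[x.1]? = some s ∧ y.1 = x.1 + 1 ∧ Pool.TWI.Pass s x.2 y.2).comap (pos n D) :=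
    iSup_le fun x => iSup_le fun y => iSup_le fun h => (pr_le_iff _ _ _).2 (h1.1 D n m x y hD h)
  exact h2 h

private theorem nff_arc {D : Word} {j : ℕ} {x y z : ℕ × ℕ} (h : Arc D j x y)
    (h' : Same D y z) : Arc D j x z := by
  cases h with
  | same h => exact Arc.same (Relation.EqvGen.trans _ _ _ h h')
  | right h hl hi h2 => exact Arc.right h hl hi (Relation.EqvGen.trans _ _ _ h2 h')
  | left h hl hi h2 => exact Arc.left h hl hi (Relation.EqvGen.trans _ _ _ h2 h')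

private theorem nff_ad (h1 : St_POS) {D : Word} (hD : Ok D 0 0) {j : ℕ} {F : ℕ × ℕ}
    {x y : Loc 0 D} (h : Arc D j F (pos 0 D x)) (ha : Ad 0 D x y) :
    Arc D (j + 1) F (pos 0 D y) := by
  rcases ha with ha | ha
  · obtain ⟨l, i, hl, hi, e1, e2⟩ := h1.2.2.2 D 0 0 x y hD ha
    rw [e1] at h
    rw [e2]
    exact Arc.right h hl hi (Relation.EqvGen.refl _)
  · obtain ⟨l, i, hl, hi, e1, e2⟩ := h1.2.2.2 D 0 0 y x hD ha
    rw [e2] at h
    rw [e1]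
    exact Arc.left h hl hi (Relation.EqvGen.refl _)

private theorem nff_gs' (h1 : St_POS) {D : Word} (hD : Ok D 0 0) {j : ℕ} {F : ℕ × ℕ}
    {x y : Loc 0 D} (h : Arc D j F (pos 0 D x)) (ha : gs 0 D x y) : Arc D j F (pos 0 D y) :=
  nff_arc h (nff_gs h1 hD ha)

private theorem nff_two (h1 : St_POS) (h2 : St_NBR) {D : Word} (hD : Ok D 0 0) {j : ℕ} {F : ℕ × ℕ}
    (r : Bool) (k : Fin (nX D)) {a b : Loc 0 D}
    (ha : a = (ed r 0 D k).1 ∨ a = (ed r 0 D k).2) (hb : b = (ed r 0 D k).1 ∨ b = (ed r 0 D k).2)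
    (h : Arc D j F (pos 0 D a)) : Arc D (j + 2) F (pos 0 D b) := by
  cases r
  · obtain ⟨x', y', g1, g2, g3⟩ := h2 D 0 0 k hD (ed true 0 D k).1 a (Or.inl rfl) ha
    obtain ⟨x'', y'', g4, g5, g6⟩ := h2 D 0 0 k hD (ed true 0 D k).1 b (Or.inl rfl) hb
    have s1 := nff_gs' h1 hD h g2
    have s2 := nff_ad h1 hD s1 (Or.symm g3)
    have s3 := nff_gs' h1 hD s2 ((gs 0 D).trans' ((gs 0 D).symm' g1) g4)
    have s4 := nff_ad h1 hD s3 g6
    exact nff_gs' h1 hD s4 ((gs 0 D).symm' g5)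
  · obtain ⟨x', y', g1, g2, g3⟩ := h2 D 0 0 k hD a (ed false 0 D k).1 ha (Or.inl rfl)
    obtain ⟨x'', y'', g4, g5, g6⟩ := h2 D 0 0 k hD b (ed false 0 D k).1 hb (Or.inl rfl)
    have s1 := nff_gs' h1 hD h g1
    have s2 := nff_ad h1 hD s1 g3
    have s3 := nff_gs' h1 hD s2 ((gs 0 D).trans' ((gs 0 D).symm' g2) g5)
    have s4 := nff_ad h1 hD s3 (Or.symm g6)
    exact nff_gs' h1 hD s4 ((gs 0 D).symm' g4)

private theorem nff_ok : ∀ (u v : Word) (a b c : ℕ), Ok u a b → Ok v b c → Ok (u ++ v) a c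
  | [], v, a, b, c, h, h' => by
      have h2 : a = b := h
      subst h2
      exact h'
  | s :: u, v, a, b, c, h, h' => ⟨h.1, nff_ok u v _ b c h.2 h'⟩

/-- [NFF] the ends of a long arc are not close. -/
theorem thm_NFF (h1 : St_POS) (h2 : St_NBR) : St_NFF := by
  intro u v n w hu hv hw hF
  have hD : Ok (u ++ v) 0 0 := nff_ok u v 0 n 0 hu hv
  have p0 : pos 0 (u ++ v) (md 0 u v 0) = (u.length, 0) := h1.2.2.1 u v 0 n 0 hu (Nat.zero_le n)
  have pw : pos 0 (u ++ v) (md 0 u v w) = (u.length, w) := h1.2.2.1 u v 0 n w hu hw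
  have a0 : Arc (u ++ v) 0 (u.length, 0) (pos 0 (u ++ v) (md 0 u v 0)) := by
    rw [p0]
    exact Arc.same (Relation.EqvGen.refl _)
  have hFar : ∀ j ≤ 2, ¬ Arc (u ++ v) j (u.length, 0) (pos 0 (u ++ v) (md 0 u v w)) := by
    intro j hj
    rw [pw]
    exact hF j hj
  refine ⟨fun g => ?_, fun r k => ⟨?_, ?_⟩, fun x y g ha g' => ?_⟩
  · exact hFar 0 (Nat.zero_le 2) (nff_gs' h1 hD a0 g)
  · rintro ⟨g, g'⟩
    exact hFar 2 le_rfl (nff_gs' h1 hD (nff_two h1 h2 hD r k (Or.inl rfl) (Or.inr rfl)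
      (nff_gs' h1 hD a0 g)) ((gs 0 (u ++ v)).symm' g'))
  · rintro ⟨g, g'⟩
    exact hFar 2 le_rfl (nff_gs' h1 hD (nff_two h1 h2 hD r k (Or.inr rfl) (Or.inl rfl)
      (nff_gs' h1 hD a0 g)) ((gs 0 (u ++ v)).symm' g'))
  · exact hFar 1 (by omega) (nff_gs' h1 hD (nff_ad h1 hD (nff_gs' h1 hD a0 g) ha) g')

end Pool.TWC
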