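import Pool.Agent.TWC.StB

/-!
# TWC, module ONE: at most one solution of the monodromy 1 (helper31)
-/

set_option autoImplicit false

namespace Pool.TWC

open LaurentPolynomial Pool.Agent.ARB Pool.Agent.Helper2 Pool.ALT

/-- a solution is constant on the regions of parity `ρ` -/
private theorem ONE_const (hE : St_EMB) (ρ : Bool) (u v : Word) (w : ℕ)
    (hC : Con (u ++ v)) (p : Lv u v) (hp : p ∈ Sol ρ 1 u v w Finset.univ) :
    ∃ c : ZMod 3, (∀ x, pa 0 u x = ρ → p.1 x = c) ∧ ∀ y, pa (wd 0 u) v y = ρ → p.2 y = c := by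
  obtain ⟨-, -, hpa, hR, -, hed, hgl, hn⟩ := hE
  unfold Sol at hp
  rw [Submodule.mem_inf] at hp
  obtain ⟨⟨⟨-, -⟩, ⟨a3, a4⟩, a5, -, -⟩, hL⟩ := hp
  have hmid : ∀ j ≤ wd 0 u, p.2 (bo (wd 0 u) v j) = p.1 (tp 0 u j) := by
    intro j hj
    have h1 := a5 j hj
    rw [ite_self, one_mul] at h1
    exact h1
  obtain ⟨F, hF1, hF2⟩ := hgl u v 0 (ZMod 3) p.1 p.2 hmid
  have hconst := hC ρ (ZMod 3) F
    (fun x y hxy => by
      rcases hR u v 0 x y hxy with ⟨x', y', h1, rfl, rfl⟩ | ⟨x', y', h1, rfl, rfl⟩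
      · rw [hF1, hF1]
        exact a3 x' y' h1
      · rw [hF2, hF2]
        exact a4 x' y' h1)
    (fun k => by
      have hk : Lk ρ u v (k : ℕ) p = 0 := by
        rw [Submodule.mem_iInf] at hL
        have h1 := hL k
        rw [Submodule.mem_iInf] at h1
        exact LinearMap.mem_ker.1 (h1 (Finset.mem_univ _))
      have hk2 : (if h : (k : ℕ) < nX u then
            p.1 (ed ρ 0 u ⟨(k : ℕ), h⟩).1 - p.1 (ed ρ 0 u ⟨(k : ℕ), h⟩).2
          else if h : (k : ℕ) - nX u < nX v then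
            p.2 (ed ρ (wd 0 u) v ⟨(k : ℕ) - nX u, h⟩).1 -
              p.2 (ed ρ (wd 0 u) v ⟨(k : ℕ) - nX u, h⟩).2
          else 0) = 0 := hk
      by_cases h : (k : ℕ) < nX u
      · rw [dif_pos h] at hk2
        rw [(hed ρ u v 0 k).1 h]
        show F (iu 0 u v _) = F (iu 0 u v _)
        rw [hF1, hF1]
        exact sub_eq_zero.1 hk2
      · have h' : (k : ℕ) - nX u < nX v := by
          have h1 := k.isLt
          have h2 := hn u v
          omega
        rw [dif_neg h, dif_pos h'] at hk2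
        rw [(hed ρ u v 0 k).2 h' (not_lt.1 h)]
        show F (iv 0 u v _) = F (iv 0 u v _)
        rw [hF2, hF2]
        exact sub_eq_zero.1 hk2)
  by_cases hz : ∃ z, pa 0 (u ++ v) z = ρ
  · obtain ⟨z, hz⟩ := hz
    refine ⟨F z, fun x hx => ?_, fun y hy => ?_⟩
    · rw [← hF1 x]
      exact hconst _ _ (((hpa u v 0).1 x).trans hx) hz
    · rw [← hF2 y]
      exact hconst _ _ (((hpa u v 0).2 y).trans hy) hz
  · refine ⟨0, fun x hx => ?_, fun y hy => ?_⟩
    · exact absurd ⟨_, ((hpa u v 0).1 x).trans hx⟩ hz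
    · exact absurd ⟨_, ((hpa u v 0).2 y).trans hy⟩ hz

/-- **[ONE]** (helper31) -/
theorem thm_ONE (h : St_EMB) : St_ONE := by
  intro ρ u v w _ _ _ hC
  have hoff : ∀ p ∈ Sol ρ 1 u v w Finset.univ, (∀ x, pa 0 u x ≠ ρ → p.1 x = 0) ∧
      ∀ y, pa (wd 0 u) v y ≠ ρ → p.2 y = 0 := by
    intro p hp
    unfold Sol at hp
    rw [Submodule.mem_inf] at hp
    exact hp.1.1
  by_cases h0 : ∃ p ∈ Sol ρ 1 u v w Finset.univ, p ≠ 0
  · obtain ⟨p0, hp0, hne⟩ := h0
    obtain ⟨c0, hc1, hc2⟩ := ONE_const h ρ u v w hC p0 hp0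
    obtain ⟨ho1, ho2⟩ := hoff p0 hp0
    have hc0 : c0 ≠ 0 := by
      intro hc
      subst hc
      apply hne
      refine Prod.ext (funext fun x => ?_) (funext fun y => ?_)
      · by_cases hx : pa 0 u x = ρ
        · exact hc1 x hx
        · exact ho1 x hx
      · by_cases hy : pa (wd 0 u) v y = ρ
        · exact hc2 y hy
        · exact ho2 y hy
    refine finrank_le_one (⟨p0, hp0⟩ : Sol ρ 1 u v w Finset.univ) fun p => ?_
    obtain ⟨c, hd1, hd2⟩ := ONE_const h ρ u v w hC p.1 p.2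
    obtain ⟨hq1, hq2⟩ := hoff p.1 p.2
    refine ⟨c * c0⁻¹, Subtype.ext (Prod.ext (funext fun x => ?_) (funext fun y => ?_))⟩
    · show c * c0⁻¹ * p0.1 x = p.1.1 x
      by_cases hx : pa 0 u x = ρ
      · rw [hc1 x hx, hd1 x hx, mul_assoc, inv_mul_cancel₀ hc0, mul_one]
      · rw [ho1 x hx, hq1 x hx, mul_zero]
    · show c * c0⁻¹ * p0.2 y = p.1.2 y
      by_cases hy : pa (wd 0 u) v y = ρ
      · rw [hc2 y hy, hd2 y hy, mul_assoc, inv_mul_cancel₀ hc0, mul_one]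
      · rw [ho2 y hy, hq2 y hy, mul_zero]
  · have hbot : Sol ρ 1 u v w Finset.univ = ⊥ := by
      rw [Submodule.eq_bot_iff]
      intro p hp
      by_contra hne
      exact h0 ⟨p, hp, hne⟩
    rw [hbot, finrank_bot]
    exact Nat.zero_le _

end Pool.TWC
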