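import Pool.Agent.TWC.StA

/-!
# TWC [P1]: a word without crossings which goes down to `0` strands begins with a cap
-/

set_option autoImplicit false

namespace Pool.TWC

open LaurentPolynomial Pool.Agent.ARB Pool.Agent.Helper2 Pool.ALT

private lemma p1_smul {R V : Type} [CommRing R] [AddCommGroup V] [Module R V] (M : Model R V)
    (c : R) : ∀ (v : Word) (x : V), runC M v (c • x) = c • runC M v x
  | [], _ => rfl
  | ⟨.U, i⟩ :: w, x => by
      show runC M w (M.cup i (c • x)) = c • runC M w (M.cup i x)
      rw [map_smul, p1_smul M c w]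
  | ⟨.N, i⟩ :: w, x => by
      show runC M w (M.cap i (c • x)) = c • runC M w (M.cap i x)
      rw [map_smul, p1_smul M c w]
  | ⟨.X _, _⟩ :: w, x => p1_smul M c w x

private lemma p1_aux : ∀ (L : ℕ) (v : Word) (n : ℕ), v.length ≤ L → NoX v → Ok v (n + 2) 0 →
    ∃ (j e : ℕ) (v' : Word), j ≤ n ∧ NoX v' ∧ Ok v' n 0 ∧ v'.length < v.length ∧
      ∀ {R V : Type} [CommRing R] [AddCommGroup V] [Module R V] (M : Model R V) (y : V),
        M.Supp (n + 2) y → runC M v y = M.δ ^ e • runC M v' (M.cap j y) := by
  intro L
  induction L with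
  | zero =>
    intro v n hl _ hok
    have hv : v = [] := List.length_eq_zero_iff.mp (by omega)
    subst hv
    have : n + 2 = 0 := hok
    omega
  | succ L ih =>
    intro v n hl hX hok
    match v, hl, hX, hok with
    | [], _, _, hok =>
      have : n + 2 = 0 := hok
      omega
    | ⟨.X p, i⟩ :: w, _, hX, _ =>
      have h := hX _ List.mem_cons_self
      simp at h
    | ⟨.N, i⟩ :: w, _, hX, hok =>
      obtain ⟨h1, h2⟩ : i + 2 ≤ n + 2 ∧ Ok w (n + 2 - 2 + 0) 0 := hok
      refine ⟨i, 0, w, by omega, fun s hs => hX s (List.mem_cons_of_mem _ hs), h2, ?_, ?_⟩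
      · simp
      · intro R V _ _ _ M y _
        rw [pow_zero, one_smul]
        rfl
    | ⟨.U, i⟩ :: w, hl, hX, hok =>
      obtain ⟨h1, h2⟩ : i + 0 ≤ n + 2 ∧ Ok w (n + 2 - 0 + 2) 0 := hok
      have hlw : w.length ≤ L := by
        simp only [List.length_cons] at hl
        omega
      obtain ⟨j, e, v₂, hj, hX₂, hok₂, hlt, hrun⟩ :=
        ih w (n + 2) hlw (fun s hs => hX s (List.mem_cons_of_mem _ hs)) h2
      -- the three cases in which the cup disappears
      have key : (∃ a : ℕ, ∀ {R V : Type} [CommRing R] [AddCommGroup V] [Module R V]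
          (M : Model R V) (y : V), M.Supp (n + 2) y → M.cap j (M.cup i y) = M.δ ^ a • y) →
          ∃ (j e : ℕ) (v' : Word), j ≤ n ∧ NoX v' ∧ Ok v' n 0 ∧
            v'.length < (⟨.U, i⟩ :: w : Word).length ∧
            ∀ {R V : Type} [CommRing R] [AddCommGroup V] [Module R V] (M : Model R V) (y : V),
              M.Supp (n + 2) y → runC M (⟨.U, i⟩ :: w : Word) y =
                M.δ ^ e • runC M v' (M.cap j y) := by
        rintro ⟨a, ha⟩
        obtain ⟨j', e', v₃, hj', hX₃, hok₃, hlt₃, hrun₃⟩ := ih v₂ n (by omega) hX₂ hok₂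
        refine ⟨j', e + a + e', v₃, hj', hX₃, hok₃, ?_, ?_⟩
        · simp only [List.length_cons]
          omega
        · intro R V _ _ _ M y hy
          show runC M w (M.cup i y) = _
          rw [hrun M (M.cup i y) (M.supp_cup (n + 2) i y (by omega) hy), ha M y hy, p1_smul,
            hrun₃ M y hy, smul_smul, smul_smul, pow_add, pow_add]
      rcases Nat.lt_trichotomy i j with hij | hij | hij
      · rcases Nat.lt_or_ge (i + 1) j with hij' | hij'
        · obtain ⟨k, rfl⟩ : ∃ k, j = i + k + 2 := ⟨j - i - 2, by omega⟩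
          refine ⟨i + k, e, ⟨.U, i⟩ :: v₂, by omega, ?_, ?_, ?_, ?_⟩
          · intro s hs
            rcases List.mem_cons.mp hs with rfl | hs
            · exact Or.inl rfl
            · exact hX₂ s hs
          · exact ⟨by show i + 0 ≤ n; omega, hok₂⟩
          · simp only [List.length_cons]
            omega
          · intro R V _ _ _ M y hy
            show runC M w (M.cup i y) = M.δ ^ e • runC M v₂ (M.cup i (M.cap (i + k) y))
            rw [hrun M (M.cup i y) (M.supp_cup (n + 2) i y (by omega) hy),
              M.rel4 (n + 2) i k y hy (by omega)]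
        · refine key ⟨0, fun M y hy => ?_⟩
          obtain rfl : j = i + 1 := by omega
          rw [M.rel2 (n + 2) i y hy (by omega), pow_zero, one_smul]
      · refine key ⟨1, fun M y hy => ?_⟩
        subst hij
        rw [M.rel1 (n + 2) i y hy (by omega), pow_one]
      · rcases Nat.lt_or_ge (j + 1) i with hij' | hij'
        · obtain ⟨k, rfl⟩ : ∃ k, i = j + k + 2 := ⟨i - j - 2, by omega⟩
          refine ⟨j, e, ⟨.U, j + k⟩ :: v₂, by omega, ?_, ?_, ?_, ?_⟩
          · intro s hs
            rcases List.mem_cons.mp hs with rfl | hs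
            · exact Or.inl rfl
            · exact hX₂ s hs
          · exact ⟨by show j + k + 0 ≤ n; omega, hok₂⟩
          · simp only [List.length_cons]
            omega
          · intro R V _ _ _ M y hy
            show runC M w (M.cup (j + k + 2) y) = M.δ ^ e • runC M v₂ (M.cup (j + k) (M.cap j y))
            rw [hrun M (M.cup (j + k + 2) y) (M.supp_cup (n + 2) _ y (by omega) hy),
              M.rel5 (n + 2) j k y hy (by omega)]
        · refine key ⟨0, fun M y hy => ?_⟩
          obtain rfl : i = j + 1 := by omega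
          rw [M.rel3 (n + 2) j y hy (by omega), pow_zero, one_smul]

theorem thm_P1 : St_P1 := fun v n hX hok => p1_aux v.length v n le_rfl hX hok

end Pool.TWC
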