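import Pool.Agent.TWC.StA

set_option autoImplicit false

/-!
# TWC, [PAR]: the gaps at the middle height are neighbours
-/

namespace Pool.TWC

open LaurentPolynomial Pool.Agent.ARB Pool.Agent.Helper2 Pool.ALT

private theorem par_rt : ∀ (u : Word) (n₀ n : ℕ) (v : Word) (j : ℕ), Ok u n₀ n → j < n →
    Rt n₀ (u ++ v) (md n₀ u v j) (md n₀ u v (j + 1))
  | [], n₀, n, [], j, hu, hj => by
      have h : n₀ = n := hu
      subst h
      exact ⟨j, hj, rfl, rfl⟩
  | [], n₀, n, s :: v, j, hu, hj => by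
      have h : n₀ = n := hu
      subst h
      exact Or.inl ⟨j, hj, rfl, rfl⟩
  | s :: u, n₀, n, v, j, hu, hj =>
      Or.inr ⟨_, _, rfl, rfl, par_rt u (n₀ - s.k.inn + s.k.out) n v j hu.2 hj⟩

theorem thm_PAR : St_PAR := by
  intro B u v n w hu hv hw
  have h1 : ∀ j : ℕ, j < n → Rt 0 (u ++ v) (md 0 u v j) (md 0 u v (j + 1)) :=
    fun j hj => par_rt u 0 n v j hu hj
  refine ⟨h1, fun f hf => ?_⟩
  have h2 : ∀ j : ℕ, j ≤ n → (f (md 0 u v j) - f (md 0 u v 0) - (j : ℤ)) % 2 = 0 := by
    intro j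
    induction j with
    | zero => intro _; simp
    | succ j ih =>
        intro hj
        have h3 := ih (by omega)
        have h4 := hf.near _ _ (Or.inl (h1 j (by omega)))
        push_cast
        omega
  exact h2 w hw

end Pool.TWC
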