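import Pool.Agent.TWC.StA
import Pool.Agent.TWB.Twa
import Pool.Agent.TWB.Spn
import Pool.Agent.TWB.Ftc
import Pool.Agent.TWB.Val
import Pool.Agent.TWB.Cmb

/-!
# TWC [PHI]: the trace formula

helper40.  The value of full twists inside of concentric circles is a weighted trace, computed in the
basis of crossingless matchings.
-/

set_option autoImplicit false

namespace Pool.TWC

open LaurentPolynomial Pool.Agent.ARB Pool.Agent.Helper2 Pool.ALT
open Pool.Agent.TWB (Ten Hom cup2 cap1 cupL eL XL sw vL mm sm AA lst Vm Low act_cupL rel_hcup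
  rel_he St_Val St_Spn St_Twa St_Ftc St_Cmb St_Rel St_Act)
open Pool.Agent.Per (Spin)

/-! ### words -/

private theorem phi_caps (m : ℕ) : caps (m + 1) = pN m :: caps m := by
  induction m with
  | zero => rfl
  | succ m ih =>
    show sh 1 (caps (m + 1)) ++ [pN 0] = pN (m + 1) :: (sh 1 (caps m) ++ [pN 0])
    rw [ih]
    rfl

private theorem phi_cups (m : ℕ) : cups (m + 1) = cups m ++ [pU m] := by
  induction m with
  | zero => rfl
  | succ m ih =>
    show pU 0 :: sh 1 (cups (m + 1)) = (pU 0 :: sh 1 (cups m)) ++ [pU (m + 1)]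
    rw [ih]
    unfold sh
    rw [List.map_append]
    rfl

private theorem phi_runC_append {R V : Type} [CommRing R] [AddCommGroup V] [Module R V]
    (M : Model R V) (u v : Word) (x : V) : runC M (u ++ v) x = runC M v (runC M u x) := by
  induction u generalizing x with
  | nil => rfl
  | cons s u ih =>
    obtain ⟨k, i⟩ := s
    cases k with
    | U => exact ih _
    | N => exact ih _
    | X p => exact ih _

private theorem phi_runW_append {V : Type} [AddCommGroup V] [Module LP V] (M : Model LP V)
    (u v : Word) (x : V) : runW M (u ++ v) x = runW M v (runW M u x) := by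
  induction u generalizing x with
  | nil => rfl
  | cons s u ih => exact ih _

private theorem phi_runW_rep {V : Type} [AddCommGroup V] [Module LP V] (M : Model LP V)
    (S : Word) (n : ℕ) (x : V) :
    runW M (List.replicate n S).flatten x = (fun y => runW M S y)^[n] x := by
  induction n generalizing x with
  | zero => rfl
  | succ n ih =>
    rw [List.replicate_succ, List.flatten_cons, phi_runW_append, ih, Function.iterate_succ_apply]

/-! ### tensors -/

private theorem phi_AA (k : ℤ) : ((AA ^ k : Pool.Agent.TWB.RRˣ) : LP) = T k := by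
  rw [Pool.Agent.Per.unitA_zpow]
  rfl

private theorem phi_cap {B : Type} [CommRing B] (A : Bˣ) (u : List ℤˣ) :
    ∀ (g : Ten B) (w : List ℤˣ), capL A u.length g (u ++ w) =
      ∑ t : ℤˣ, cap1 A t * g (u ++ t :: -t :: w) := by
  induction u with
  | nil => intro g w; rfl
  | cons x u ih => intro g w; exact ih (fun e' => g (x :: e')) w

private theorem phi_cupcap {B : Type} [CommRing B] (A : Bˣ) (i : ℕ) : ∀ (f : Ten B),
    cupL A i (capL A i f) = eL A i f := by
  induction i with
  | zero =>
    intro f
    funext e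
    match e with
    | [] => rfl
    | [_] => rfl
    | _ :: _ :: _ => rfl
  | succ i ih =>
    intro f
    funext e
    match e with
    | [] => rfl
    | x :: e => exact congrFun (ih (fun e' => f (x :: e'))) e

private theorem phi_cross {M : Model LP (Ten LP)} (hM : TM M) (i : ℕ) (p : Bool) (f : Ten LP) :
    crossOp M i p f = XL AA (if p then 1 else -1) i f := by
  have h1 : crossOp M i p f = (T (if p then 1 else -1) : LP) • f +
      (T (if p then -1 else 1) : LP) • M.cup i (M.cap i f) := rfl
  rw [h1, hM.cap, hM.cup, phi_cupcap]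
  unfold XL
  rw [phi_AA, phi_AA]
  cases p
  · simp
  · simp

private theorem phi_sweep {M : Model LP (Ten LP)} (hM : TM M) (p : Bool) (l : ℕ) :
    ∀ (a : ℕ) (f : Ten LP),
    runW M (((List.range l).map fun j => pX (a + j) p).reverse) f =
      sw AA (if p then 1 else -1) a l f := by
  induction l with
  | zero => intro a f; rfl
  | succ l ih =>
    intro a f
    have h : ((List.range (l + 1)).map fun j => pX (a + j) p).reverse =
        ((List.range l).map fun j => pX (a + 1 + j) p).reverse ++ [pX a p] := by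
      rw [List.range_succ_eq_map, List.map_cons, List.reverse_cons, List.map_map]
      congr 2
      refine List.map_congr_left fun j _ => ?_
      show pX (a + (j + 1)) p = pX (a + 1 + j) p
      rw [show a + (j + 1) = a + 1 + j by ring]
    rw [h, phi_runW_append, ih (a + 1) f]
    exact phi_cross hM a p _

private theorem phi_twist {M : Model LP (Ten LP)} (hM : TM M) (k : ℤ) (m : ℕ) (f : Ten LP) :
    runW M (FT m k) f =
      (Pool.Agent.TWB.FT AA (if 0 < k then 1 else -1) m)^[k.natAbs] f := by
  unfold FT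
  rw [phi_runW_rep]
  have h1 : (fun y => runW M (sweep m (decide (0 < k))) y) =
      sw AA (if 0 < k then 1 else -1) 0 (m - 1) := by
    funext y
    have h2 := phi_sweep hM (decide (0 < k)) (m - 1) 0 y
    simp only [Nat.zero_add, decide_eq_true_eq] at h2
    exact h2
  rw [h1, Function.iterate_mul]
  rfl

/-! ### nested caps and cups -/

/-- a sum over one more sign -/
private theorem phi_sum (m : ℕ) (F : List ℤˣ → LP) :
    ∑ x : Fin (m + 1) → ℤˣ, F (List.ofFn x) =
      ∑ x : Fin m → ℤˣ, ∑ t : ℤˣ, F (List.ofFn x ++ [t]) := by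
  rw [← (Fin.snocEquiv fun _ : Fin (m + 1) => ℤˣ).sum_comp, Fintype.sum_prod_type_right]
  refine Finset.sum_congr rfl fun x _ => Finset.sum_congr rfl fun t _ => ?_
  congr 1
  rw [List.ofFn_succ']
  simp

/-- the weights of the caps -/
private noncomputable def phi_wc (x : List ℤˣ) : LP := (x.map (cap1 AA)).prod

/-- the weights of the cups -/
private noncomputable def phi_wu (x : List ℤˣ) : LP := (x.map fun t => cup2 AA t (-t)).prod

/-- the other half -/
private def phi_op (x : List ℤˣ) : List ℤˣ := (x.map fun t => -t).reverse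

private theorem phi_op_snoc (x : List ℤˣ) (t : ℤˣ) : phi_op (x ++ [t]) = -t :: phi_op x := by
  unfold phi_op
  rw [List.map_append, List.reverse_append]
  rfl

private theorem phi_runcaps {M : Model LP (Ten LP)} (hM : TM M) (m : ℕ) : ∀ g : Ten LP,
    runC M (caps m) g [] = ∑ x : Fin m → ℤˣ, phi_wc (List.ofFn x) *
      g (List.ofFn x ++ phi_op (List.ofFn x)) := by
  induction m with
  | zero =>
    intro g
    rw [Finset.univ_unique, Finset.sum_singleton, List.ofFn_zero]
    show g [] = phi_wc [] * g ([] ++ phi_op [])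
    show g [] = 1 * g []
    rw [one_mul]
  | succ m ih =>
    intro g
    rw [phi_caps]
    show runC M (caps m) (M.cap m g) [] = _
    rw [ih, phi_sum m (fun l => phi_wc l * g (l ++ phi_op l)), hM.cap]
    refine Finset.sum_congr rfl fun x _ => ?_
    have h1 := phi_cap AA (List.ofFn x) g (phi_op (List.ofFn x))
    rw [List.length_ofFn] at h1
    rw [h1, Finset.mul_sum]
    refine Finset.sum_congr rfl fun t _ => ?_
    rw [phi_op_snoc]
    have h2 : phi_wc (List.ofFn x ++ [t]) = phi_wc (List.ofFn x) * cap1 AA t := by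
      unfold phi_wc
      rw [List.map_append, List.prod_append]
      simp
    rw [h2, List.append_assoc, mul_assoc]
    rfl

/-- the tensor of nested cups -/
private noncomputable def phi_rb : ℕ → Ten LP
  | 0 => fun e => if e = [] then 1 else 0
  | m + 1 => cupL AA m (phi_rb m)

private theorem phi_runcups {M : Model LP (Ten LP)} (hM : TM M) (m : ℕ) :
    runC M (cups m) M.init = phi_rb m := by
  induction m with
  | zero => exact hM.init
  | succ m ih =>
    rw [phi_cups, phi_runC_append, ih]
    exact hM.cup m _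

private theorem phi_rb_hom (m : ℕ) : Hom (2 * m) (phi_rb m) := by
  induction m with
  | zero =>
    intro e he
    show (if e = [] then (1 : LP) else 0) = 0
    rw [if_neg]
    rintro rfl
    exact he rfl
  | succ m ih => exact rel_hcup AA m ih

private theorem phi_rb_val (x : List ℤˣ) : ∀ u : List ℤˣ, u.length = x.length →
    phi_rb x.length (u ++ phi_op x) = if u = x then phi_wu x else 0 := by
  induction x using List.reverseRecOn with
  | nil =>
    intro u hu
    have : u = [] := List.length_eq_zero_iff.1 hu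
    subst this
    rw [if_pos rfl]
    show (if ([] : List ℤˣ) ++ phi_op [] = [] then (1 : LP) else 0) = _
    rw [if_pos (show ([] : List ℤˣ) ++ phi_op [] = [] from rfl)]
    rfl
  | append_singleton x t ih =>
    intro u hu
    rw [List.length_append, List.length_singleton] at hu
    rcases List.eq_nil_or_concat' u with h | ⟨u', s, h⟩
    · rw [h] at hu
      simp at hu
    · subst h
      rw [List.length_append, List.length_singleton] at hu
      have hu' : u'.length = x.length := by omega
      rw [List.length_append, List.length_singleton, phi_op_snoc, List.append_assoc]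
      show cupL AA x.length (phi_rb x.length) (u' ++ s :: -t :: phi_op x) = _
      rw [act_cupL AA x.length u' _ s (-t) (phi_op x) hu', ih u' hu']
      have h2 : phi_wu (x ++ [t]) = phi_wu x * cup2 AA t (-t) := by
        unfold phi_wu
        rw [List.map_append, List.prod_append]
        simp
      by_cases h3 : u' = x
      · by_cases h4 : s = t
        · rw [if_pos h3, if_pos (by rw [h3, h4]), h4, h2, mul_comm]
        · rw [if_pos h3, if_neg (by
            intro h5
            have h6 := List.append_inj h5 hu'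
            exact h4 (by simpa using h6.2))]
          unfold cup2
          rw [if_neg (fun h5 => h4 (neg_injective h5).symm), zero_mul]
      · rw [if_neg h3, if_neg (fun h5 => h3 (List.append_inj h5 hu').1), mul_zero]

private theorem phi_weight (x : List ℤˣ) :
    phi_wc x * phi_wu x = C ((-1 : ℤ) ^ x.length) * T (2 * sm x) := by
  induction x with
  | nil =>
    show (1 : LP) * 1 = C ((-1 : ℤ) ^ 0) * T (2 * 0)
    simp
  | cons t x ih =>
    have h1 : phi_wc (t :: x) = cap1 AA t * phi_wc x := by
      unfold phi_wc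
      rw [List.map_cons, List.prod_cons]
    have h2 : phi_wu (t :: x) = cup2 AA t (-t) * phi_wu x := by
      unfold phi_wu
      rw [List.map_cons, List.prod_cons]
    have h3 : cap1 AA t * cup2 AA t (-t) = -T (2 * (t : ℤ)) := by
      unfold cap1 cup2
      rw [if_pos rfl]
      rcases Int.units_eq_one_or t with rfl | rfl
      · rw [if_pos rfl, if_pos rfl, phi_AA]
        simp
      · rw [if_neg (by decide), if_neg (by decide), phi_AA]
        simp
    have h4 : sm (t :: x) = (t : ℤ) + sm x := rfl
    have h5 : (C ((-1 : ℤ) ^ (t :: x).length) : LP) = -C ((-1 : ℤ) ^ x.length) := by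
      rw [List.length_cons, pow_succ, mul_neg_one, map_neg]
    rw [h1, h2, h4, h5, mul_add, T_add]
    have h6 : cap1 AA t * phi_wc x * (cup2 AA t (-t) * phi_wu x) =
        (cap1 AA t * cup2 AA t (-t)) * (phi_wc x * phi_wu x) := by ring
    rw [h6, h3, ih]
    ring

/-! ### restriction to the first strands -/

private theorem phi_eL_app {B : Type} [CommRing B] (A : Bˣ) (i : ℕ) :
    ∀ (f : Ten B) (u v : List ℤˣ), i + 2 ≤ u.length →
      eL A i f (u ++ v) = eL A i (fun u' => f (u' ++ v)) u := by
  induction i with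
  | zero =>
    intro f u v h
    match u, h with
    | _ :: _ :: _, _ => rfl
  | succ i ih =>
    intro f u v h
    match u, h with
    | x :: u, h =>
      rw [List.length_cons] at h
      exact ih (fun e' => f (x :: e')) u v (by omega)

private theorem phi_eL_congr {B : Type} [CommRing B] (A : Bˣ) (i : ℕ) :
    ∀ (f g : Ten B) (u : List ℤˣ), (∀ e : List ℤˣ, e.length = u.length → f e = g e) →
      eL A i f u = eL A i g u := by
  induction i with
  | zero =>
    intro f g u h
    match u, h with
    | [], _ => rfl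
    | [_], _ => rfl
    | x :: y :: e, h =>
      show cup2 A x y * _ = cup2 A x y * _
      congr 1
      refine Finset.sum_congr rfl fun t _ => ?_
      rw [h (t :: -t :: e) rfl]
  | succ i ih =>
    intro f g u h
    match u, h with
    | [], _ => rfl
    | x :: u, h =>
      refine ih (fun e' => f (x :: e')) (fun e' => g (x :: e')) u fun e he => h (x :: e) ?_
      rw [List.length_cons, List.length_cons, he]

/-- the part of a tensor with the end `v` and `m` entries before it -/
private noncomputable def phi_res (m : ℕ) (v : List ℤˣ) (f : Ten LP) : Ten LP :=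
  fun u => if u.length = m then f (u ++ v) else 0

private theorem phi_res_hom (m : ℕ) (v : List ℤˣ) (f : Ten LP) : Hom m (phi_res m v f) :=
  fun _ he => if_neg he

private theorem phi_XL_apply (c : ℤ) (i : ℕ) (f : Ten LP) (u : List ℤˣ) :
    XL AA c i f u = (T c : LP) * f u + (T (-c) : LP) * eL AA i f u := by
  unfold XL
  rw [phi_AA, phi_AA]
  rfl

private theorem phi_res_XL (c : ℤ) (m i : ℕ) (v : List ℤˣ) (f : Ten LP) (hi : i + 2 ≤ m) :
    phi_res m v (XL AA c i f) = XL AA c i (phi_res m v f) := by
  funext u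
  by_cases hu : u.length = m
  · have h1 : phi_res m v (XL AA c i f) u = XL AA c i f (u ++ v) := if_pos hu
    have h2 : phi_res m v f u = f (u ++ v) := if_pos hu
    have h3 : eL AA i f (u ++ v) = eL AA i (phi_res m v f) u := by
      rw [phi_eL_app AA i f u v (by omega)]
      refine phi_eL_congr AA i _ _ u fun e he => ?_
      exact (if_pos (he.trans hu)).symm
    rw [h1, phi_XL_apply, phi_XL_apply, h2, h3]
  · have h1 : phi_res m v (XL AA c i f) u = 0 := if_neg hu
    have h2 : phi_res m v f u = 0 := if_neg hu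
    have h3 : eL AA i (phi_res m v f) u = 0 := rel_he AA i (phi_res_hom m v f) u hu
    rw [h1, phi_XL_apply, h2, h3, mul_zero, mul_zero, add_zero]

private theorem phi_res_sw (c : ℤ) (m : ℕ) (v : List ℤˣ) (l : ℕ) : ∀ (a : ℕ) (f : Ten LP),
    (l = 0 ∨ a + l + 1 ≤ m) → phi_res m v (sw AA c a l f) = sw AA c a l (phi_res m v f) := by
  induction l with
  | zero => intro a f _; rfl
  | succ l ih =>
    intro a f h
    show phi_res m v (XL AA c a (sw AA c (a + 1) l f)) =
      XL AA c a (sw AA c (a + 1) l (phi_res m v f))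
    rw [phi_res_XL c m a v _ (by omega), ih (a + 1) f (by omega)]

private theorem phi_res_FT (c : ℤ) (m κ : ℕ) (v : List ℤˣ) (f : Ten LP) :
    phi_res m v ((Pool.Agent.TWB.FT AA c m)^[κ] f) =
      (Pool.Agent.TWB.FT AA c m)^[κ] (phi_res m v f) := by
  have h1 : Function.Semiconj (phi_res m v) (sw AA c 0 (m - 1)) (sw AA c 0 (m - 1)) :=
    fun f => phi_res_sw c m v (m - 1) 0 f (by omega)
  have h2 : Function.Semiconj (phi_res m v) (Pool.Agent.TWB.FT AA c m)
      (Pool.Agent.TWB.FT AA c m) := h1.iterate_right m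
  exact h2.iterate_right κ f

/-! ### the trace -/

/-- the delta function -/
private noncomputable def phi_d (x : List ℤˣ) : Ten LP := fun e => if e = x then 1 else 0

/-- the full twists as a linear map -/
private noncomputable def phi_F (c : ℤ) (hc : c = 1 ∨ c = -1) (m : ℕ) : Ten LP →ₗ[LP] Ten LP where
  toFun := Pool.Agent.TWB.FT AA c m
  map_add' f g := by
    have h := (Pool.Agent.TWB.thm_Ftc LP AA c hc).2.1 m 1 f g
    rwa [one_smul, one_smul] at h
  map_smul' b f := by
    have h0 : Pool.Agent.TWB.FT AA c m 0 = 0 := by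
      have h := (Pool.Agent.TWB.thm_Ftc LP AA c hc).2.1 m 1 0 0
      rw [one_smul, one_smul, add_zero] at h
      exact left_eq_add.1 h
    have h := (Pool.Agent.TWB.thm_Ftc LP AA c hc).2.1 m b f 0
    rw [add_zero, h0, add_zero] at h
    exact h

private theorem phi_F_pow (c : ℤ) (hc : c = 1 ∨ c = -1) (m κ : ℕ) (f : Ten LP) :
    (Pool.Agent.TWB.FT AA c m)^[κ] f = ((phi_F c hc m) ^ κ) f := by
  rw [Module.End.pow_apply]
  rfl

private theorem phi_res_rb (x : List ℤˣ) :
    phi_res x.length (phi_op x) (phi_rb x.length) = phi_wu x • phi_d x := by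
  funext u
  show (if u.length = x.length then _ else _) = phi_wu x * (if u = x then 1 else 0)
  by_cases hu : u.length = x.length
  · rw [if_pos hu, phi_rb_val x u hu]
    by_cases h : u = x
    · rw [if_pos h, if_pos h, mul_one]
    · rw [if_neg h, if_neg h, mul_zero]
  · rw [if_neg hu, if_neg (fun h => hu (by rw [h])), mul_zero]

private theorem phi_entry (c : ℤ) (hc : c = 1 ∨ c = -1) (κ : ℕ) (x : List ℤˣ) :
    (Pool.Agent.TWB.FT AA c x.length)^[κ] (phi_rb x.length) (x ++ phi_op x) =
      phi_wu x * ((phi_F c hc x.length) ^ κ) (phi_d x) x := by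
  have h1 : phi_res x.length (phi_op x)
      ((Pool.Agent.TWB.FT AA c x.length)^[κ] (phi_rb x.length)) x =
      (Pool.Agent.TWB.FT AA c x.length)^[κ] (phi_rb x.length) (x ++ phi_op x) := if_pos rfl
  rw [← h1, phi_res_FT, phi_res_rb, phi_F_pow c hc, map_smul]
  rfl

/-- the coefficient of the basis vector of `σ` -/
private noncomputable def phi_co {n : ℕ} (D : Matrix (Spin n) (Spin n) LP) (σ : Spin n) :
    Ten LP →ₗ[LP] LP where
  toFun f := ∑ ε : Spin n, D σ ε * f (lst ε)
  map_add' f g := by
    rw [← Finset.sum_add_distrib]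
    refine Finset.sum_congr rfl fun ε _ => ?_
    show D σ ε * (f (lst ε) + g (lst ε)) = _
    ring
  map_smul' b f := by
    rw [RingHom.id_apply, smul_eq_mul, Finset.mul_sum]
    refine Finset.sum_congr rfl fun ε _ => ?_
    show D σ ε * (b * f (lst ε)) = _
    ring

private theorem phi_co_vL {n : ℕ} {D : Matrix (Spin n) (Spin n) LP} (hD : D * Vm AA n = 1)
    (σ τ : Spin n) : phi_co D σ (vL AA (lst τ)) = if σ = τ then 1 else 0 := by
  have := congrFun (congrFun hD σ) τ
  rw [Matrix.mul_apply, Matrix.one_apply] at this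
  exact this

private theorem phi_lst {n : ℕ} (t : List ℤˣ) (ht : t.length = n + 1) :
    ∃ τ : Spin n, lst τ = t := by
  refine ⟨fun i => t.get (Fin.cast ht.symm i), ?_⟩
  unfold lst
  refine List.ext_getElem ?_ ?_
  · rw [List.length_ofFn, ht]
  · intro i h1 h2
    rw [List.getElem_ofFn]
    rfl

private theorem phi_co_low {n : ℕ} {D : Matrix (Spin n) (Spin n) LP} (hD : D * Vm AA n = 1)
    (σ : Spin n) (m : ℕ) (hm : m ≤ mm (lst σ)) (f : Ten LP) (hf : f ∈ Low AA (n + 1) m) :
    phi_co D σ f = 0 := by
  have h : Low AA (n + 1) m ≤ LinearMap.ker (phi_co D σ) := by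
    unfold Low
    rw [Submodule.span_le]
    rintro _ ⟨t, ht, hmt, rfl⟩
    obtain ⟨τ, rfl⟩ := phi_lst t ht
    rw [SetLike.mem_coe, LinearMap.mem_ker, phi_co_vL hD, if_neg]
    rintro rfl
    omega
  exact LinearMap.mem_ker.1 (h hf)

private theorem phi_twa : St_Twa :=
  Pool.Agent.TWB.thm_Twa Pool.Agent.TWB.thm_Rel Pool.Agent.TWB.thm_Ftc Pool.Agent.TWB.thm_Val
    Pool.Agent.TWB.thm_Cmb (Pool.Agent.TWB.thm_Act Pool.Agent.TWB.thm_Rel
      Pool.Agent.TWB.thm_Val Pool.Agent.TWB.thm_Cmb)

private theorem phi_spn : St_Spn :=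
  Pool.Agent.TWB.thm_Spn Pool.Agent.TWB.thm_Rel Pool.Agent.TWB.thm_Val Pool.Agent.TWB.thm_Cmb

/-- the eigenvalue -/
private noncomputable def phi_ev (c : ℤ) (s : List ℤˣ) : ℤ :=
  c * ((mm s : ℤ) ^ 2 + 2 * mm s - 3 * s.length)

private theorem phi_pow (c : ℤ) (hc : c = 1 ∨ c = -1) (s : List ℤˣ) (κ : ℕ) :
    ((phi_F c hc s.length) ^ κ) (vL AA s) - (T (κ * phi_ev c s) : LP) • vL AA s ∈
      Low AA s.length (mm s) := by
  induction κ with
  | zero =>
    rw [pow_zero, Module.End.one_apply, Nat.cast_zero, zero_mul, T_zero, one_smul, sub_self]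
    exact Submodule.zero_mem _
  | succ κ ih =>
    have h1 := (phi_twa LP AA c hc).2.1 s.length (mm s) _ ih
    have h2 := (phi_twa LP AA c hc).2.2 s
    rw [phi_AA] at h2
    have h3 : Pool.Agent.TWB.FT AA c s.length (((phi_F c hc s.length) ^ κ) (vL AA s) -
        (T (κ * phi_ev c s) : LP) • vL AA s) = ((phi_F c hc s.length) ^ (κ + 1)) (vL AA s) -
        (T (κ * phi_ev c s) : LP) • Pool.Agent.TWB.FT AA c s.length (vL AA s) := by
      have h4 := map_sub (phi_F c hc s.length) (((phi_F c hc s.length) ^ κ) (vL AA s))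
        ((T (κ * phi_ev c s) : LP) • vL AA s)
      rw [map_smul] at h4
      rw [pow_succ', Module.End.mul_apply]
      exact h4
    rw [h3] at h1
    have h5 := Submodule.add_mem _ h1 (Submodule.smul_mem _ (T (κ * phi_ev c s) : LP) h2)
    have h6 : ((phi_F c hc s.length) ^ (κ + 1)) (vL AA s) -
        (T (κ * phi_ev c s) : LP) • Pool.Agent.TWB.FT AA c s.length (vL AA s) +
        (T (κ * phi_ev c s) : LP) • (Pool.Agent.TWB.FT AA c s.length (vL AA s) -
          (T (c * ((mm s : ℤ) ^ 2 + 2 * mm s - 3 * s.length)) : LP) • vL AA s) =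
        ((phi_F c hc s.length) ^ (κ + 1)) (vL AA s) -
          (T ((κ + 1 : ℕ) * phi_ev c s) : LP) • vL AA s := by
      have hT : (T ((κ + 1 : ℕ) * phi_ev c s) : LP) = T (κ * phi_ev c s) *
          T (c * ((mm s : ℤ) ^ 2 + 2 * mm s - 3 * s.length)) := by
        rw [← T_add]
        congr 1
        unfold phi_ev
        push_cast
        ring
      rw [smul_sub, smul_smul, ← hT]
      abel
    rw [h6] at h5
    exact h5

/-- the weights of the states -/
private noncomputable def phi_W (n : ℕ) (σ : Spin n) : LP :=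
  C ((-1 : ℤ) ^ (n + 1)) * T (2 * sm (lst σ))

private theorem phi_comm {n : ℕ} {D : Matrix (Spin n) (Spin n) LP} (hD : Vm AA n * D = 1)
    (hD' : D * Vm AA n = 1) (σ x : Spin n) : D σ x * phi_W n x = phi_W n σ * D σ x := by
  have h2 : Matrix.diagonal (phi_W n) * Vm AA n = Vm AA n * Matrix.diagonal (phi_W n) := by
    refine Matrix.ext fun ε τ => ?_
    rw [Matrix.diagonal_mul, Matrix.mul_diagonal]
    show _ * vL AA (lst τ) (lst ε) = vL AA (lst τ) (lst ε) * _
    by_cases h : vL AA (lst τ) (lst ε) = 0
    · rw [h, mul_zero, zero_mul]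
    · unfold phi_W
      rw [(Pool.Agent.TWB.thm_Val LP AA).2.2.1 _ _ h, mul_comm]
  have h3 : D * Matrix.diagonal (phi_W n) = Matrix.diagonal (phi_W n) * D := by
    calc D * Matrix.diagonal (phi_W n) = D * (Matrix.diagonal (phi_W n) * Vm AA n) * D := by
          rw [Matrix.mul_assoc, Matrix.mul_assoc, hD, Matrix.mul_one]
      _ = Matrix.diagonal (phi_W n) * D := by
          rw [h2, ← Matrix.mul_assoc, hD', Matrix.one_mul]
  have h4 := congrFun (congrFun h3 σ) x
  rw [Matrix.mul_diagonal, Matrix.diagonal_mul] at h4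
  exact h4

private theorem phi_trace (c : ℤ) (hc : c = 1 ∨ c = -1) (n κ : ℕ) :
    ∑ x : Spin n, phi_W n x * ((phi_F c hc (n + 1)) ^ κ) (phi_d (lst x)) (lst x) =
      ∑ σ : Spin n, phi_W n σ * T (κ * phi_ev c (lst σ)) := by
  obtain ⟨D, hD, hD'⟩ := phi_spn LP AA n
  have hlen : ∀ σ : Spin n, (lst σ).length = n + 1 := fun σ => List.length_ofFn
  -- the delta functions in the basis
  have h1 : ∀ x : Spin n, phi_d (lst x) = ∑ σ : Spin n, D σ x • vL AA (lst σ) := by
    intro x
    funext e
    rw [Finset.sum_apply]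
    by_cases he : e.length = n + 1
    · obtain ⟨ε, rfl⟩ := phi_lst e he
      have h2 := congrFun (congrFun hD ε) x
      rw [Matrix.mul_apply, Matrix.one_apply] at h2
      have h3 : ∑ σ : Spin n, (D σ x • vL AA (lst σ)) (lst ε) =
          ∑ σ : Spin n, Vm AA n ε σ * D σ x := by
        refine Finset.sum_congr rfl fun σ _ => ?_
        rw [mul_comm]
        rfl
      rw [h3, h2]
      show (if lst ε = lst x then (1 : LP) else 0) = _
      by_cases h : ε = x
      · rw [if_pos h, if_pos (by rw [h])]
      · have h' : ¬ lst ε = lst x := fun h' => h (List.ofFn_injective h')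
        rw [if_neg h, if_neg h']
    · have h2 : phi_d (lst x) e = 0 := if_neg (fun h => he (by rw [h, hlen]))
      rw [h2]
      symm
      refine Finset.sum_eq_zero fun σ _ => ?_
      have h3 : vL AA (lst σ) e = 0 :=
        (Pool.Agent.TWB.thm_Val LP AA).2.1 (lst σ) e (by rw [hlen]; exact he)
      rw [Pi.smul_apply, h3, smul_zero]
  have h2 : ∀ x : Spin n, phi_W n x * ((phi_F c hc (n + 1)) ^ κ) (phi_d (lst x)) (lst x) =
      ∑ σ : Spin n, phi_W n σ * (D σ x *
        ((phi_F c hc (n + 1)) ^ κ) (vL AA (lst σ)) (lst x)) := by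
    intro x
    rw [h1 x, map_sum, Finset.sum_apply, Finset.mul_sum]
    refine Finset.sum_congr rfl fun σ _ => ?_
    rw [map_smul, Pi.smul_apply, smul_eq_mul, ← mul_assoc, mul_comm (phi_W n x),
      phi_comm hD hD' σ x, mul_assoc]
  rw [Finset.sum_congr rfl fun x _ => h2 x, Finset.sum_comm]
  refine Finset.sum_congr rfl fun σ _ => ?_
  rw [← Finset.mul_sum]
  congr 1
  have h3 := phi_pow c hc (lst σ) κ
  rw [hlen] at h3
  have h4 := phi_co_low hD' σ (mm (lst σ)) le_rfl _ h3
  rw [map_sub, map_smul, phi_co_vL hD', if_pos rfl, sub_eq_zero, smul_eq_mul, mul_one] at h4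
  exact h4

/-! ### the theorem -/

private theorem phi_caps_hom {M : Model LP (Ten LP)} (hM : TM M) (m : ℕ) : ∀ g : Ten LP,
    Hom (2 * m) g → Hom 0 (runC M (caps m) g) := by
  induction m with
  | zero => intro g hg; exact hg
  | succ m ih =>
    intro g hg
    rw [phi_caps]
    refine ih _ ?_
    rw [← hM.supp] at hg ⊢
    exact M.supp_cap (2 * m) m g (by omega) hg

theorem thm_PHI : St_PHI := by
  intro M hM k m
  have hΨ : Psi M (PF M k) m = runC M (caps m) ((T (3 * k * m) : LP) •
      (Pool.Agent.TWB.FT AA (if 0 < k then 1 else -1) m)^[k.natAbs] (phi_rb m)) := by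
    unfold Psi PF
    rw [phi_runcups hM, phi_twist hM]
  obtain ⟨c, hc⟩ : ∃ c : ℤ, c = if 0 < k then 1 else -1 := ⟨_, rfl⟩
  have hc' : c = 1 ∨ c = -1 := by
    rw [hc]
    by_cases h : 0 < k
    · exact Or.inl (if_pos h)
    · exact Or.inr (if_neg h)
  have hck : (k.natAbs : ℤ) * c = k := by
    rw [hc]
    by_cases h : 0 < k
    · rw [if_pos h, mul_one]
      omega
    · rw [if_neg h]
      omega
  rw [← hc] at hΨ
  have hhom : Hom (2 * m) ((T (3 * k * m) : LP) •
      (Pool.Agent.TWB.FT AA c m)^[k.natAbs] (phi_rb m)) := by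
    have h1 : ∀ κ : ℕ, Hom (2 * m) ((Pool.Agent.TWB.FT AA c m)^[κ] (phi_rb m)) := by
      intro κ
      induction κ with
      | zero => exact phi_rb_hom m
      | succ κ ih =>
        rw [Function.iterate_succ_apply']
        exact (Pool.Agent.TWB.thm_Ftc LP AA c hc').1 (2 * m) m _ ih
    intro e he
    rw [Pi.smul_apply, h1 _ e he, smul_zero]
  have hval : runC M (caps m) ((T (3 * k * m) : LP) •
      (Pool.Agent.TWB.FT AA c m)^[k.natAbs] (phi_rb m)) [] = Ph k m := by
    rw [phi_runcaps hM]
    have h1 : ∀ x : Fin m → ℤˣ, phi_wc (List.ofFn x) * ((T (3 * k * m) : LP) •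
        (Pool.Agent.TWB.FT AA c m)^[k.natAbs] (phi_rb m))
          (List.ofFn x ++ phi_op (List.ofFn x)) =
        T (3 * k * m) * ((C ((-1 : ℤ) ^ m) * T (2 * sm (List.ofFn x))) *
          ((phi_F c hc' m) ^ k.natAbs) (phi_d (List.ofFn x)) (List.ofFn x)) := by
      intro x
      have h2 := phi_entry c hc' k.natAbs (List.ofFn x)
      have h3 := phi_weight (List.ofFn x)
      rw [List.length_ofFn] at h2 h3
      rw [Pi.smul_apply, h2, ← h3, smul_eq_mul]
      ring
    rw [Finset.sum_congr rfl fun x _ => h1 x, ← Finset.mul_sum]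
    cases m with
    | zero =>
      unfold Ph
      rw [Finset.univ_unique, Finset.sum_singleton, Finset.sum_singleton]
      have h4 : ((phi_F c hc' 0) ^ k.natAbs) (phi_d []) = phi_d [] := by
        rw [← phi_F_pow c hc']
        have h5 : Pool.Agent.TWB.FT AA c 0 = id := rfl
        rw [h5, Function.iterate_id]
        rfl
      rw [List.ofFn_zero, h4]
      have h6 : phi_d [] [] = 1 := if_pos rfl
      have h7 : (mm [] : ℤ) = 0 := rfl
      have h8 : sm [] = 0 := rfl
      rw [h6, h7, h8]
      simp
    | succ n =>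
      have h4 := phi_trace c hc' n k.natAbs
      unfold phi_W at h4
      have h5 : ∑ x : Fin (n + 1) → ℤˣ, ((C ((-1 : ℤ) ^ (n + 1)) * T (2 * sm (List.ofFn x))) *
          ((phi_F c hc' (n + 1)) ^ k.natAbs) (phi_d (List.ofFn x)) (List.ofFn x)) =
          ∑ σ : Spin n, C ((-1 : ℤ) ^ (n + 1)) * T (2 * sm (lst σ)) *
            T (k.natAbs * phi_ev c (lst σ)) := h4
      rw [h5, Finset.mul_sum]
      unfold Ph
      refine Finset.sum_congr rfl fun σ _ => ?_
      have h6 : (T (2 * sm (lst σ) + k * ((mm (lst σ) : ℤ) ^ 2 + 2 * mm (lst σ))) : LP) =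
          T (3 * k * ((n + 1 : ℕ) : ℤ)) * (T (2 * sm (lst σ)) *
            T (k.natAbs * phi_ev c (lst σ))) := by
        rw [← T_add, ← T_add]
        congr 1
        unfold phi_ev
        have h7 : (lst σ).length = n + 1 := List.length_ofFn
        rw [h7, ← mul_assoc (k.natAbs : ℤ) c, hck]
        ring
      show _ = C ((-1 : ℤ) ^ (n + 1)) *
        T (2 * sm (lst σ) + k * ((mm (lst σ) : ℤ) ^ 2 + 2 * mm (lst σ)))
      rw [h6]
      ring
  funext e
  rw [hΨ, Pi.smul_apply, hM.init]
  show _ = Ph k m • (if e = [] then (1 : LP) else 0)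
  by_cases he : e = []
  · subst he
    rw [hval, if_pos rfl, smul_eq_mul, mul_one]
  · rw [if_neg he, smul_zero]
    exact phi_caps_hom hM m _ hhom e fun h => he (List.length_eq_zero_iff.1 h)

end Pool.TWC
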