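import Pool.Agent.TWC.StA
import Pool.Agent.TWB.Cmb

/-!
# TWC [PHT]: the extreme coefficients of `Ph`
-/

set_option autoImplicit false

namespace Pool.TWC

open LaurentPolynomial Pool.Agent.ARB Pool.Agent.Helper2 Pool.ALT

/-- the exponent of a sequence -/
private def qE (k : ℤ) (s : List ℤˣ) : ℤ :=
  2 * Pool.Agent.TWB.sm s + k * ((Pool.Agent.TWB.mm s : ℤ) ^ 2 + 2 * Pool.Agent.TWB.mm s)

private theorem coeff_CT (a : ℤ) (n j : ℤ) :
    (C a * T n : LP).coeff j = if n = j then a else 0 := by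
  rw [← single_eq_C_mul_T, AddMonoidAlgebra.coeff_single, Finsupp.single_apply]

private theorem coeff_Ph (k : ℤ) (m : ℕ) (j : ℤ) : (Ph k m).coeff j =
    ∑ ε : Fin m → ℤˣ, if qE k (List.ofFn ε) = j then (-1 : ℤ) ^ m else 0 := by
  unfold Ph
  rw [AddMonoidAlgebra.coeff_sum, Finsupp.finsetSum_apply]
  exact Finset.sum_congr rfl fun ε _ => coeff_CT _ _ _

private theorem bd (k τ : ℤ) (hτ : τ = 1 ∨ τ = -1) (hk : τ * k < 0) (s : List ℤˣ) :
    (s.length % 2 = 0 → τ * qE k s ≤ 0) ∧ (s.length % 2 = 1 → τ * qE k s ≤ 2 + 3 * (τ * k)) := by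
  obtain ⟨-, -, -, h, -⟩ := Pool.Agent.TWB.thm_Cmb
  obtain ⟨-, h2, h3, -⟩ := h s
  set t : ℤ := (Pool.Agent.TWB.mm s : ℤ) with ht
  have ht0 : 0 ≤ t := Int.natCast_nonneg _
  have h4 : 2 * (τ * Pool.Agent.TWB.sm s) ≤ 2 * t := by
    have h5 : τ * Pool.Agent.TWB.sm s ≤ |Pool.Agent.TWB.sm s| := by
      rcases hτ with rfl | rfl
      · rw [one_mul]; exact le_abs_self _
      · rw [neg_one_mul]; exact neg_le_abs _
    linarith
  have e : τ * qE k s = 2 * (τ * Pool.Agent.TWB.sm s) + (τ * k) * (t ^ 2 + 2 * t) := by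
    unfold qE
    rw [← ht]
    ring
  rw [e]
  set κ : ℤ := τ * k with hκ
  constructor
  · intro _
    nlinarith [mul_nonneg ht0 ht0, mul_nonneg (by linarith : 0 ≤ -κ - 1)
      (by positivity : 0 ≤ t ^ 2 + 2 * t)]
  · intro hl
    have h6 : 1 ≤ t := by
      have : 1 ≤ Pool.Agent.TWB.mm s := by omega
      rw [ht]
      exact_mod_cast this
    nlinarith [mul_nonneg (by linarith : 0 ≤ -κ - 1) (by nlinarith : 0 ≤ t ^ 2 + 2 * t - 3)]

private theorem le_of {k τ d : ℤ} {m : ℕ} (hτ : τ = 1 ∨ τ = -1)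
    (h : ∀ ε : Fin m → ℤˣ, τ * qE k (List.ofFn ε) ≤ d) : Le τ d (Ph k m) := by
  intro j hj
  rw [coeff_Ph]
  refine Finset.sum_eq_zero fun ε _ => if_neg fun h1 => ?_
  have h2 := h ε
  rw [h1, ← mul_assoc] at h2
  have h3 : τ * τ = 1 := by rcases hτ with rfl | rfl <;> norm_num
  rw [h3, one_mul] at h2
  linarith

private theorem c0 (k j : ℤ) : (Ph k 0).coeff j = if j = 0 then 1 else 0 := by
  have h : ∀ ε : Fin 0 → ℤˣ, qE k (List.ofFn ε) = 0 := by
    intro ε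
    simp [qE, Pool.Agent.TWB.sm, Pool.Agent.TWB.mm, Pool.Agent.TWB.unm]
  rw [coeff_Ph]
  simp only [h, pow_zero]
  rw [Finset.sum_const, Finset.card_univ, Fintype.card_unique, one_smul]
  by_cases h1 : j = 0
  · rw [if_pos h1, if_pos h1.symm]
  · rw [if_neg h1, if_neg (Ne.symm h1)]

private theorem uu : (Finset.univ : Finset ℤˣ) = {1, -1} := by decide

private theorem c1 (k j : ℤ) : (Ph k 1).coeff j =
    (if 2 + 3 * k = j then -1 else 0) + (if -2 + 3 * k = j then -1 else 0) := by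
  rw [coeff_Ph, ← (Equiv.funUnique (Fin 1) ℤˣ).symm.sum_comp, uu,
    Finset.sum_pair (by decide)]
  have h1 : qE k (List.ofFn ((Equiv.funUnique (Fin 1) ℤˣ).symm 1)) = 2 + 3 * k := by
    simp [qE, Pool.Agent.TWB.sm, Pool.Agent.TWB.mm, Pool.Agent.TWB.unm]
    ring
  have h2 : qE k (List.ofFn ((Equiv.funUnique (Fin 1) ℤˣ).symm (-1))) = -2 + 3 * k := by
    simp [qE, Pool.Agent.TWB.sm, Pool.Agent.TWB.mm, Pool.Agent.TWB.unm]
    ring
  rw [h1, h2, pow_one]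

private theorem c2 (k j : ℤ) : (Ph k 2).coeff j =
    (if 4 + 8 * k = j then 1 else 0) + (if 0 = j then 1 else 0) +
      ((if 8 * k = j then 1 else 0) + (if -4 + 8 * k = j then 1 else 0)) := by
  rw [coeff_Ph, ← (finTwoArrowEquiv ℤˣ).symm.sum_comp, Fintype.sum_prod_type, uu,
    Finset.sum_pair (by decide), Finset.sum_pair (by decide), Finset.sum_pair (by decide)]
  have h1 : qE k (List.ofFn ((finTwoArrowEquiv ℤˣ).symm (1, 1))) = 4 + 8 * k := by
    simp [qE, Pool.Agent.TWB.sm, Pool.Agent.TWB.mm, Pool.Agent.TWB.unm, finTwoArrowEquiv]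
    ring
  have h2 : qE k (List.ofFn ((finTwoArrowEquiv ℤˣ).symm (1, -1))) = 0 := by
    simp [qE, Pool.Agent.TWB.sm, Pool.Agent.TWB.mm, Pool.Agent.TWB.unm, finTwoArrowEquiv]
  have h3 : qE k (List.ofFn ((finTwoArrowEquiv ℤˣ).symm (-1, 1))) = 8 * k := by
    simp [qE, Pool.Agent.TWB.sm, Pool.Agent.TWB.mm, Pool.Agent.TWB.unm, finTwoArrowEquiv]
    ring
  have h4 : qE k (List.ofFn ((finTwoArrowEquiv ℤˣ).symm (-1, -1))) = -4 + 8 * k := by
    simp [qE, Pool.Agent.TWB.sm, Pool.Agent.TWB.mm, Pool.Agent.TWB.unm, finTwoArrowEquiv]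
    ring
  rw [h1, h2, h3, h4]
  norm_num

theorem thm_PHT : St_PHT := by
  intro k τ hτ hk
  have hle0 : ∀ m : ℕ, m % 2 = 0 → Le τ 0 (Ph k m) := fun m hm =>
    le_of hτ fun ε => (bd k τ hτ hk _).1 (by rw [List.length_ofFn]; exact hm)
  have hle1 : ∀ m : ℕ, m % 2 = 1 → Le τ (2 + 3 * (τ * k)) (Ph k m) := fun m hm =>
    le_of hτ fun ε => (bd k τ hτ hk _).2 (by rw [List.length_ofFn]; exact hm)
  refine ⟨hle0, hle1, ⟨hle0 0 rfl, ?_, ?_, ?_⟩, ⟨hle1 1 rfl, ?_, ?_, ?_⟩,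
    ⟨hle0 2 rfl, ?_, ?_, ?_⟩, ?_⟩
  · rw [c0, mul_zero, if_pos rfl]
  · intro j h1 h2
    rw [c0, if_neg]
    rcases hτ with rfl | rfl <;> omega
  · rw [c0, if_neg]
    rcases hτ with rfl | rfl <;> omega
  · rw [c1]
    rcases hτ with rfl | rfl <;> split_ifs <;> omega
  · intro j h1 h2
    rw [c1]
    rcases hτ with rfl | rfl <;> split_ifs <;> omega
  · rw [c1]
    rcases hτ with rfl | rfl <;> split_ifs <;> omega
  · rw [c2]
    rcases hτ with rfl | rfl <;> split_ifs <;> omega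
  · intro j h1 h2
    rw [c2]
    rcases hτ with rfl | rfl <;> split_ifs <;> omega
  · rw [c2]
    rcases hτ with rfl | rfl <;> split_ifs <;> omega
  · intro m
    unfold Ph
    rw [map_sum]
    have h : ∀ ε : Fin m → ℤˣ, (LaurentPolynomial.eval₂ (RingHom.id ℤ) 1)
        (C ((-1 : ℤ) ^ m) * T (2 * Pool.Agent.TWB.sm (List.ofFn ε) +
        k * ((Pool.Agent.TWB.mm (List.ofFn ε) : ℤ) ^ 2 +
          2 * Pool.Agent.TWB.mm (List.ofFn ε)))) = (-1 : ℤ) ^ m := by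
      intro ε
      rw [map_mul, eval₂_C, eval₂_T]
      simp
    rw [Finset.sum_congr rfl fun ε _ => h ε, Finset.sum_const, Finset.card_univ,
      Fintype.card_fun, Fintype.card_units_int, Fintype.card_fin, nsmul_eq_mul]
    push_cast
    rw [← mul_pow]
    norm_num

end Pool.TWC
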