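import Pool.Agent.TWC.StA

/-!
# TWC, module PR: pole reduction
-/

set_option autoImplicit false

namespace Pool.TWC

open LaurentPolynomial Pool.Agent.ARB Pool.Agent.Helper2 Pool.ALT

section

variable {R V : Type} [CommRing R] [AddCommGroup V] [Module R V]

private theorem pr_smul (M : Model R V) (c : R) : ∀ (w : Word) (x : V),
    runC M w (c • x) = c • runC M w x
  | [], _ => rfl
  | ⟨.U, i⟩ :: w, x => by
      show runC M w (M.cup i (c • x)) = c • runC M w (M.cup i x)
      rw [map_smul, pr_smul M c w]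
  | ⟨.N, i⟩ :: w, x => by
      show runC M w (M.cap i (c • x)) = c • runC M w (M.cap i x)
      rw [map_smul, pr_smul M c w]
  | ⟨.X _, _⟩ :: w, x => pr_smul M c w x

private theorem pr_app (M : Model R V) : ∀ (u v : Word) (x : V),
    runC M (u ++ v) x = runC M v (runC M u x)
  | [], _, _ => rfl
  | ⟨.U, i⟩ :: u, v, x => pr_app M u v (M.cup i x)
  | ⟨.N, i⟩ :: u, v, x => pr_app M u v (M.cap i x)
  | ⟨.X _, _⟩ :: u, v, x => pr_app M u v x

end

private theorem pr_nox : ∀ (w : Word) (B : ℕ → Bool), NoX (jo B w)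
  | [], _ => fun s hs => absurd hs (by simp [jo])
  | ⟨.X _, i⟩ :: w, B => by
      intro s hs
      unfold jo at hs
      split_ifs at hs with h
      · rcases List.mem_cons.1 hs with rfl | hs
        · exact Or.inr rfl
        rcases List.mem_cons.1 hs with rfl | hs
        · exact Or.inl rfl
        exact pr_nox w _ s hs
      · exact pr_nox w _ s hs
  | ⟨.U, i⟩ :: w, B => by
      intro s hs
      unfold jo at hs
      rcases List.mem_cons.1 hs with rfl | hs
      · exact Or.inl rfl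
      · exact pr_nox w _ s hs
  | ⟨.N, i⟩ :: w, B => by
      intro s hs
      unfold jo at hs
      rcases List.mem_cons.1 hs with rfl | hs
      · exact Or.inr rfl
      · exact pr_nox w _ s hs

private theorem pr_ok : ∀ (w : Word) (B : ℕ → Bool) (n m : ℕ), Pool.Agent.ARB.Ok w n m →
    Pool.Agent.ARB.Ok (jo B w) n m
  | [], _, _, _, h => h
  | ⟨.X _, i⟩ :: w, B, n, m, h => by
      have h1 : i + 2 ≤ n := h.1
      have h2 : Pool.Agent.ARB.Ok w (n - 2 + 2) m := h.2
      unfold jo
      split_ifs with hb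
      · refine ⟨h1, ?_, pr_ok w _ _ _ h2⟩
        show i + 0 ≤ n - 2 + 0
        omega
      · have e1 : n - 2 + 2 = n := by omega
        rw [e1] at h2
        exact pr_ok w _ _ _ h2
  | ⟨.U, i⟩ :: w, B, n, m, h => ⟨h.1, pr_ok w B _ _ h.2⟩
  | ⟨.N, i⟩ :: w, B, n, m, h => ⟨h.1, pr_ok w B _ _ h.2⟩

/-- words without crossings on stacks of cups -/
private theorem pr_run : ∀ (w : Word) (n m : ℕ) (C : List ℕ), NoX w → Pool.Agent.ARB.Ok w n m →
    CupsOk C n → ∃ (C' : List ℕ) (e : ℕ), CupsOk C' m ∧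
      ∀ {R V : Type} [CommRing R] [AddCommGroup V] [Module R V] (M : Model R V),
        runC M w (M.build C) = M.δ ^ e • M.build C'
  | [], n, m, C, _, h, hC => by
      have h' : n = m := h
      subst h'
      refine ⟨C, 0, hC, fun M => ?_⟩
      rw [pow_zero, one_smul]
      rfl
  | ⟨.U, i⟩ :: w, n, m, C, hw, h, hC => by
      have h1 : i + 0 ≤ n := h.1
      have h2 : Pool.Agent.ARB.Ok w (n + 2) m := h.2
      obtain ⟨C', e, hC', H⟩ := pr_run w (n + 2) m (i :: C)
        (fun s hs => hw s (List.mem_cons_of_mem _ hs)) h2 (CupsOk.cons hC h1)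
      exact ⟨C', e, hC', fun M => H M⟩
  | ⟨.N, i⟩ :: w, n, m, C, hw, h, hC => by
      have h1 : i + 2 ≤ n := h.1
      have h2 : Pool.Agent.ARB.Ok w (n - 2 + 0) m := h.2
      obtain ⟨k, rfl⟩ : ∃ k, n = k + 2 := ⟨n - 2, by omega⟩
      have e1 : k + 2 - 2 + 0 = k := by omega
      rw [e1] at h2
      obtain ⟨C₁, e₁, hC₁, H₁⟩ := cap_build C k i hC (by omega)
      obtain ⟨C', e, hC', H⟩ := pr_run w k m C₁
        (fun s hs => hw s (List.mem_cons_of_mem _ hs)) h2 hC₁
      refine ⟨C', e₁ + e, hC', fun M => ?_⟩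
      show runC M w (M.cap i (M.build C)) = _
      rw [H₁ M, pr_smul, H M, smul_smul, ← pow_add]
  | ⟨.X p, i⟩ :: w, n, m, C, hw, h, hC => by
      rcases hw ⟨.X p, i⟩ List.mem_cons_self with h1 | h1
      · exact absurd h1 (by simp)
      · exact absurd h1 (by simp)

private theorem pr_cups : ∀ n : ℕ, cups (n + 1) = cups n ++ [pU n]
  | 0 => rfl
  | n + 1 => by
      have h1 : cups (n + 2) = pU 0 :: sh 1 (cups (n + 1)) := rfl
      have h2 : cups (n + 1) = pU 0 :: sh 1 (cups n) := rfl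
      rw [h1, pr_cups n]
      conv_rhs => rw [← pr_cups n, h2]
      unfold sh
      rw [List.map_append]
      rfl

private theorem pr_rb {R V : Type} [CommRing R] [AddCommGroup V] [Module R V] (M : Model R V) :
    ∀ w : ℕ, M.build (rb w) = runC M (cups w) M.init
  | 0 => rfl
  | w + 1 => by
      rw [pr_cups w, pr_app, ← pr_rb M w]
      rfl

/-- the claim -/
private theorem pr_claim (h1 : St_N1) (h2 : St_N2) : ∀ (n w : ℕ) (v : Word) (C : List ℕ), w ≤ n →
    NoX v → Pool.Agent.ARB.Ok v n 0 → CupsOk C n → ∃ l m : ℕ,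
      ∀ {R V : Type} [CommRing R] [AddCommGroup V] [Module R V] (M : Model R V)
        (P : ℕ → V → V), Cc M → Pole M P →
        runC M v (P w (M.build C)) = M.δ ^ l • Psi M P m := by
  intro n
  induction n using Nat.strong_induction_on with
  | _ n ih =>
  intro w v C hw hv hok hC
  rcases h1 C n w hC hw with ⟨i, C', n', rfl, hi, hne, hC', hB⟩ | ⟨hn, rfl⟩
  · by_cases hiw : i + 2 ≤ w
    · obtain ⟨w', rfl⟩ : ∃ w', w = w' + 2 := ⟨w - 2, by omega⟩
      obtain ⟨l, m, H⟩ := ih n' (by omega) w' (pU i :: v) C' (by omega)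
        (fun s hs => by
          rcases List.mem_cons.1 hs with rfl | hs
          · exact Or.inl rfl
          · exact hv s hs) ⟨by show i + 0 ≤ n'; omega, hok⟩ hC'
      refine ⟨l, m, fun M P hcc hP => ?_⟩
      rw [hB M hcc, hP.cupL n' w' i _ (by omega) (by omega) (M.supp_build hC')]
      exact H M P hcc hP
    · obtain ⟨l, m, H⟩ := ih n' (by omega) w (pU i :: v) C' (by omega)
        (fun s hs => by
          rcases List.mem_cons.1 hs with rfl | hs
          · exact Or.inl rfl
          · exact hv s hs) ⟨by show i + 0 ≤ n'; omega, hok⟩ hC'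
      refine ⟨l, m, fun M P hcc hP => ?_⟩
      rw [hB M hcc, hP.cupR n' w i _ (by omega) (by omega) (M.supp_build hC')]
      exact H M P hcc hP
  · rcases h2 v n w hv hok hw with ⟨j, e, v', n', rfl, hj, hne, hv', hok', hB⟩ | ⟨-, e, hB⟩
    · obtain ⟨C₂, e', hC₂, HC⟩ := cap_build (rb w) n' j hC hj
      by_cases hjw : j + 2 ≤ w
      · obtain ⟨w', rfl⟩ : ∃ w', w = w' + 2 := ⟨w - 2, by omega⟩
        obtain ⟨l, m, H⟩ := ih n' (by omega) w' v' C₂ (by omega) hv' hok' hC₂
        refine ⟨e + e' + l, m, fun M P hcc hP => ?_⟩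
        rw [hB M hcc _ (hP.supp _ _ _ hw (M.supp_build hC)),
          hP.capL n' w' j _ (by omega) (by omega) (M.supp_build hC), HC M,
          hP.smul n' w' _ _ (by omega) (M.supp_build hC₂), pr_smul, H M P hcc hP, smul_smul,
          smul_smul, ← pow_add, ← pow_add]
      · obtain ⟨l, m, H⟩ := ih n' (by omega) w v' C₂ (by omega) hv' hok' hC₂
        refine ⟨e + e' + l, m, fun M P hcc hP => ?_⟩
        rw [hB M hcc _ (hP.supp _ _ _ hw (M.supp_build hC)),
          hP.capR n' w j _ (by omega) (by omega) (M.supp_build hC), HC M,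
          hP.smul n' w _ _ (by omega) (M.supp_build hC₂), pr_smul, H M P hcc hP, smul_smul,
          smul_smul, ← pow_add, ← pow_add]
    · refine ⟨e, w, fun M P hcc hP => ?_⟩
      rw [hB M hcc _ (hP.supp _ _ _ hw (M.supp_build hC)), pr_rb]
      rfl

/-- **PR.** -/
theorem thm_PR (h1 : St_N1) (h2 : St_N2) : St_PR := by
  intro B u v n w hu hv hw
  obtain ⟨C, e, hC, HC⟩ := pr_run (jo B u) 0 n [] (pr_nox u B) (pr_ok u B 0 n hu) CupsOk.nil
  obtain ⟨l, m, H⟩ := pr_claim h1 h2 n w (jo (fun k => B (k + nX u)) v) C hw (pr_nox v _)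
    (pr_ok v _ n 0 hv) hC
  refine ⟨e + l, m, ?_⟩
  intro R V _ _ _ M P hcc hP
  have h3 : runC M (jo B u) M.init = M.δ ^ e • M.build C := HC M
  rw [h3, hP.smul n w _ _ hw (M.supp_build hC), pr_smul, H M P hcc hP, smul_smul, ← pow_add]

end Pool.TWC
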