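import Pool.Agent.TWC.StB

/-!
# TWC, module PS3: the value of the colour poles inside of concentric circles
-/

set_option autoImplicit false

namespace Pool.TWC

open LaurentPolynomial Pool.Agent.ARB Pool.Agent.Helper2 Pool.ALT

private theorem PS3_caps : ∀ m : ℕ, caps (m + 1) = pN m :: caps m
  | 0 => rfl
  | m + 1 => by
    show sh 1 (caps (m + 1)) ++ [pN 0] = pN (m + 1) :: caps (m + 1)
    rw [PS3_caps m]
    show pN (m + 1) :: (sh 1 (caps m) ++ [pN 0]) = _
    show pN (m + 1) :: caps (m + 1) = _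
    rw [PS3_caps m]

private theorem PS3_cups : ∀ m : ℕ, cups (m + 1) = cups m ++ [pU m]
  | 0 => rfl
  | m + 1 => by
    show pU 0 :: sh 1 (cups (m + 1)) = cups (m + 1) ++ [pU (m + 1)]
    have h : sh 1 (cups (m + 1)) = sh 1 (cups m) ++ [pU (m + 1)] := by
      rw [PS3_cups m]
      simp [sh]
    rw [h]
    rfl

private theorem PS3_append {R V : Type} [CommRing R] [AddCommGroup V] [Module R V]
    (M : Model R V) : ∀ (x y : Word) (z : V), runC M (x ++ y) z = runC M y (runC M x z)
  | [], _, _ => rfl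
  | ⟨.U, i⟩ :: x, y, z => PS3_append M x y (M.cup i z)
  | ⟨.N, i⟩ :: x, y, z => PS3_append M x y (M.cap i z)
  | ⟨.X _, _⟩ :: x, y, z => PS3_append M x y z

private theorem PS3_smul {R V : Type} [CommRing R] [AddCommGroup V] [Module R V]
    (M : Model R V) (a : R) : ∀ (x : Word) (z : V), runC M x (a • z) = a • runC M x z
  | [], _ => rfl
  | ⟨.U, i⟩ :: x, z => by
    show runC M x (M.cup i (a • z)) = a • runC M x (M.cup i z)
    rw [map_smul, PS3_smul M a x]
  | ⟨.N, i⟩ :: x, z => by
    show runC M x (M.cap i (a • z)) = a • runC M x (M.cap i z)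
    rw [map_smul, PS3_smul M a x]
  | ⟨.X _, _⟩ :: x, z => PS3_smul M a x z

private theorem PS3_dlins (i : ℕ) (b : ZMod 3) (c : Cg) : dl3 i (ins3 i b c) = c := by
  funext j
  unfold dl3 ins3
  by_cases h : j ≤ i
  · simp [h]
  · have h1 : ¬ j + 2 ≤ i := by omega
    have h2 : j + 2 ≠ i + 1 := by omega
    simp [h, h1, h2]

private theorem PS3_tws1 (w : ℕ) (c : Cg) : tws 1 w c = c := by
  funext j
  unfold tws
  simp

private theorem PS3_ins0 (i : ℕ) (b : ZMod 3) (c : Cg) : ins3 i b c 0 = c 0 := by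
  simp [ins3]

open Classical in
/-- the condition at `0` only -/
private noncomputable def PS3_Q (ρ : Bool) (ψ : Cg → ℝ) : Cg → ℝ := fun c =>
  if ρ = true → c 0 = 0 then ψ c else 0

private theorem PS3_A {ρ : Bool} {M : Model ℝ (Cg → ℝ)} (hM : CM ρ M) (s : ZMod 3) {n m : ℕ}
    {ψ : Cg → ℝ} (hψ : M.Supp n ψ) (hm : decide (m % 2 = 0) ≠ ρ) :
    M.cap m (PG ρ s (m + 1) (M.cup m ψ)) = (Real.sqrt 3)⁻¹ • PG ρ s m ψ := by
  classical
  have hm1 : decide ((m + 1) % 2 = 0) = ρ := by
    rcases Nat.mod_two_eq_zero_or_one m with h | h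
    · have h' : (m + 1) % 2 = 1 := by omega
      cases ρ <;> simp_all
    · have h' : (m + 1) % 2 = 0 := by omega
      cases ρ <;> simp_all
  funext c
  rw [hM.cap, if_neg hm]
  show _ = (Real.sqrt 3)⁻¹ * PG ρ s m ψ c
  congr 1
  rw [Finset.sum_eq_single (0 : ZMod 3)]
  · unfold PG
    rw [PS3_ins0]
    have e1 : ins3 m 0 c (m + 1) = 0 := by simp [ins3]
    rw [e1]
    by_cases h0 : ρ = true → c 0 = 0
    · rw [if_pos ⟨h0, fun _ => rfl⟩, if_pos ⟨h0, fun h => absurd h hm⟩, hM.cup, if_neg hm]
      refine (hM.supp n ψ).1 hψ _ _ ?_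
      intro j hj hp
      have hjm : j ≠ m := by
        rintro rfl
        exact hm hp
      unfold dl3 tws ins3
      by_cases h : j ≤ m
      · rw [if_pos h]
        by_cases hj0 : 0 < j
        · rw [if_pos ⟨hj0, by omega⟩, if_pos h, if_pos ⟨hj0, by omega⟩]
        · rw [if_neg (by omega), if_pos h, if_neg (by omega)]
      · rw [if_neg h, if_neg (by omega), if_neg (by omega), if_neg (by omega), if_neg (by omega)]
        rfl
    · rw [if_neg (fun h => h0 h.1), if_neg (fun h => h0 h.1)]
  · intro b _ hb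
    unfold PG
    rw [if_neg]
    intro h
    have e1 : ins3 m b c (m + 1) = b := by simp [ins3]
    have := h.2 hm1
    rw [e1] at this
    exact hb this
  · intro h
    exact absurd (Finset.mem_univ _) h

private theorem PS3_par {ρ : Bool} {m : ℕ} (hm : decide (m % 2 = 0) = ρ) :
    decide ((m + 1) % 2 = 0) ≠ ρ := by
  rcases Nat.mod_two_eq_zero_or_one m with h | h
  · have h' : (m + 1) % 2 = 1 := by omega
    cases ρ <;> simp_all
  · have h' : (m + 1) % 2 = 0 := by omega
    cases ρ <;> simp_all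

private theorem PS3_B {ρ : Bool} {M : Model ℝ (Cg → ℝ)} (hM : CM ρ M) {n m : ℕ}
    {ψ : Cg → ℝ} (hψ : M.Supp n ψ) (hm : decide (m % 2 = 0) = ρ) :
    M.cap m (PG ρ (-1) (m + 1) (M.cup m ψ)) = Real.sqrt 3 • PG ρ (-1) m ψ := by
  classical
  funext c
  rw [hM.cap, if_pos hm]
  show _ = Real.sqrt 3 * PG ρ (-1) m ψ c
  unfold PG
  rw [PS3_ins0]
  by_cases h0 : ρ = true → c 0 = 0
  · rw [if_pos ⟨h0, fun h => absurd h (PS3_par hm)⟩, hM.cup, if_pos hm]
    have e2 : tws (-1) (m + 1) (ins3 m 0 c) (m + 2) = c m := by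
      unfold tws ins3
      rw [if_neg (by omega), if_neg (by omega), if_neg (by omega)]
      rfl
    rw [e2]
    by_cases hm0 : 0 < m
    · have e1 : tws (-1) (m + 1) (ins3 m 0 c) m = -1 * c m := by
        unfold tws ins3
        rw [if_pos ⟨hm0, by omega⟩, if_pos le_rfl]
      rw [e1]
      have key : ∀ x : ZMod 3, -1 * x = x ↔ x = 0 := by decide
      by_cases hc : c m = 0
      · rw [if_pos ((key _).2 hc), if_pos ⟨h0, fun _ => hc⟩]
        congr 1
        refine (hM.supp n ψ).1 hψ _ _ ?_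
        intro j hj hp
        unfold dl3 tws ins3
        by_cases h : j ≤ m
        · rw [if_pos h]
          by_cases hj0 : 0 < j
          · rw [if_pos ⟨hj0, by omega⟩, if_pos h]
            by_cases hjm : j < m
            · rw [if_pos ⟨hj0, hjm⟩]
            · have : j = m := by omega
              rw [if_neg (by omega), this, hc, mul_zero]
          · rw [if_neg (by omega), if_pos h, if_neg (by omega)]
        · rw [if_neg h, if_neg (by omega), if_neg (by omega), if_neg (by omega), if_neg (by omega)]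
          rfl
      · rw [if_neg (fun h => hc ((key _).1 h)), if_neg (fun h => hc (h.2 hm)), mul_zero]
    · have hm00 : m = 0 := by omega
      subst hm00
      have e1 : tws (-1) (0 + 1) (ins3 0 0 c) 0 = c 0 := by
        unfold tws ins3
        rw [if_neg (by omega), if_pos le_rfl]
      have hρ : ρ = true := by
        rw [← hm]
        decide
      rw [e1, if_pos rfl, if_pos ⟨h0, fun _ => h0 hρ⟩]
      congr 1
      refine (hM.supp n ψ).1 hψ _ _ ?_
      intro j hj hp
      unfold dl3 tws ins3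
      by_cases h : j ≤ 0
      · rw [if_pos h, if_neg (by omega), if_pos h, if_neg (by omega)]
      · rw [if_neg h, if_neg (by omega), if_neg (by omega), if_neg (by omega), if_neg (by omega)]
        rfl
  · rw [if_neg (fun h => h0 h.1), if_neg (fun h => h0 h.1), mul_zero]

private theorem PS3_C {ρ : Bool} {M : Model ℝ (Cg → ℝ)} (hM : CM ρ M) {m : ℕ}
    {ψ : Cg → ℝ} (hm : decide (m % 2 = 0) = ρ) :
    M.cap m (PG ρ 1 (m + 1) (M.cup m ψ)) = Real.sqrt 3 • PS3_Q ρ ψ := by
  classical
  funext c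
  rw [hM.cap, if_pos hm]
  show _ = Real.sqrt 3 * PS3_Q ρ ψ c
  unfold PG PS3_Q
  rw [PS3_ins0, PS3_tws1]
  by_cases h0 : ρ = true → c 0 = 0
  · rw [if_pos ⟨h0, fun h => absurd h (PS3_par hm)⟩, if_pos h0, hM.cup, if_pos hm, if_pos,
      PS3_dlins]
    simp [ins3]
  · rw [if_neg (fun h => h0 h.1), if_neg h0, mul_zero]

private theorem PS3_D {ρ : Bool} {M : Model ℝ (Cg → ℝ)} (hM : CM ρ M) {m : ℕ} {ψ : Cg → ℝ} :
    M.cap m (PS3_Q ρ (M.cup m ψ)) = Real.sqrt 3 • PS3_Q ρ ψ := by
  classical
  have h3 : (Real.sqrt 3)⁻¹ * 3 = Real.sqrt 3 := by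
    have h : Real.sqrt 3 * Real.sqrt 3 = 3 := Real.mul_self_sqrt (by norm_num)
    have h' : Real.sqrt 3 ≠ 0 := by
      intro h0
      rw [h0] at h
      norm_num at h
    rw [inv_mul_eq_iff_eq_mul₀ h', h]
  funext c
  rw [hM.cap]
  show _ = Real.sqrt 3 * PS3_Q ρ ψ c
  by_cases hm : decide (m % 2 = 0) = ρ
  · rw [if_pos hm]
    unfold PS3_Q
    rw [PS3_ins0]
    by_cases h0 : ρ = true → c 0 = 0
    · rw [if_pos h0, if_pos h0, hM.cup, if_pos hm, if_pos, PS3_dlins]
      simp [ins3]
    · rw [if_neg h0, if_neg h0, mul_zero]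
  · rw [if_neg hm]
    have e : ∀ b : ZMod 3, PS3_Q ρ (M.cup m ψ) (ins3 m b c) = PS3_Q ρ ψ c := by
      intro b
      unfold PS3_Q
      rw [PS3_ins0, hM.cup, if_neg hm, PS3_dlins]
    rw [Finset.sum_congr rfl (fun b _ => e b), Finset.sum_const, Finset.card_univ, ZMod.card,
      nsmul_eq_mul, ← mul_assoc]
    push_cast
    rw [h3]

private theorem PS3_supp (M : Model ℝ (Cg → ℝ)) : ∀ m : ℕ,
    M.Supp (2 * m) (runC M (cups m) M.init)
  | 0 => M.supp_init
  | m + 1 => by
    rw [PS3_cups, PS3_append]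
    have := M.supp_cup (2 * m) m _ (by omega) (PS3_supp M m)
    have e : 2 * (m + 1) = 2 * m + 2 := by ring
    rw [e]
    exact this

private theorem PS3_step (M : Model ℝ (Cg → ℝ)) (P : ℕ → (Cg → ℝ) → Cg → ℝ) (m : ℕ) :
    Psi M P (m + 1) =
      runC M (caps m) (M.cap m (P (m + 1) (M.cup m (runC M (cups m) M.init)))) := by
  unfold Psi
  rw [PS3_caps, PS3_cups, PS3_append]
  rfl

private theorem PS3_QQ {ρ : Bool} {M : Model ℝ (Cg → ℝ)} (hM : CM ρ M) : ∀ m : ℕ,
    runC M (caps m) (PS3_Q ρ (runC M (cups m) M.init)) (fun _ => 0) = Real.sqrt 3 ^ m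
  | 0 => by
    show PS3_Q ρ M.init (fun _ => 0) = _
    unfold PS3_Q
    rw [if_pos (fun _ => rfl), hM.init, pow_zero]
  | m + 1 => by
    rw [PS3_caps, PS3_cups, PS3_append]
    show runC M (caps m) (M.cap m (PS3_Q ρ (M.cup m (runC M (cups m) M.init)))) _ = _
    rw [PS3_D hM, PS3_smul]
    show Real.sqrt 3 * runC M (caps m) (PS3_Q ρ (runC M (cups m) M.init)) (fun _ => 0) = _
    rw [PS3_QQ hM m, pow_succ, mul_comm]

private theorem PS3_frs (ρ : Bool) (m : ℕ) : fr ρ (m + 1) =
    fr ρ m + if 0 < m ∧ decide (m % 2 = 0) = ρ then 1 else 0 := by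
  unfold fr
  rw [Finset.range_add_one, Finset.filter_insert]
  split_ifs with h
  · rw [Finset.card_insert_of_notMem (by simp)]
  · rfl

private theorem PS3_ff (m : ℕ) : fr false m = m / 2 := by
  induction m with
  | zero => rfl
  | succ m ih =>
    rw [PS3_frs, ih]
    rcases Nat.mod_two_eq_zero_or_one m with h | h
    · rw [if_neg (by simp [h])]
      omega
    · rw [if_pos ⟨by omega, by simp [h]⟩]
      omega

private theorem PS3_ft (m : ℕ) : fr true m = (m - 1) / 2 := by
  induction m with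
  | zero => rfl
  | succ m ih =>
    rw [PS3_frs, ih]
    rcases Nat.mod_two_eq_zero_or_one m with h | h
    · by_cases h0 : 0 < m
      · rw [if_pos ⟨h0, by simp [h]⟩]
        omega
      · rw [if_neg (by omega)]
        omega
    · rw [if_neg (by simp [h])]
      omega

theorem thm_PS3 : St_PS3 := by
  intro ρ M hM
  have h3 : (Real.sqrt 3 : ℝ) ≠ 0 := by
    have h : (0 : ℝ) < 3 := by norm_num
    exact (Real.sqrt_pos.2 h).ne'
  intro m
  induction m with
  | zero =>
    have e : ∀ s : ZMod 3, Psi M (PG ρ s) 0 (fun _ => 0) = 1 := by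
      intro s
      show PG ρ s 0 M.init (fun _ => 0) = 1
      unfold PG
      rw [if_pos ⟨fun _ => rfl, fun _ => rfl⟩, hM.init]
    rw [e, e]
    cases ρ <;> simp [gm, PS3_ff, PS3_ft]
  | succ m ih =>
    obtain ⟨ih1, ih2⟩ := ih
    have hs := PS3_supp M m
    by_cases hm : decide (m % 2 = 0) = ρ
    · constructor
      · rw [PS3_step, PS3_B hM hs hm, PS3_smul]
        show Real.sqrt 3 * Psi M (PG ρ (-1)) m (fun _ => 0) = _
        rw [ih1, ← zpow_one_add₀ h3]
        congr 1
        unfold gm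
        rcases Nat.mod_two_eq_zero_or_one m with h | h
        · have h' : (m + 1) % 2 = 1 := by omega
          have hρ : ρ = true := by rw [← hm]; simp [h]
          simp [h, h', hρ]
        · have h' : (m + 1) % 2 = 0 := by omega
          have hρ : ρ = false := by rw [← hm]; simp [h]
          simp [h, h', hρ]
      · rw [PS3_step, PS3_C hM hm, PS3_smul]
        show Real.sqrt 3 * runC M (caps m) (PS3_Q ρ (runC M (cups m) M.init)) (fun _ => 0) = _
        rw [PS3_QQ hM, mul_comm, ← pow_succ, ← zpow_natCast]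
        congr 1
        unfold gm
        rcases Nat.mod_two_eq_zero_or_one m with h | h
        · have h' : (m + 1) % 2 = 1 := by omega
          have hρ : ρ = true := by rw [← hm]; simp [h]
          subst hρ
          rw [PS3_ft, if_neg (by omega), if_pos rfl]
          omega
        · have h' : (m + 1) % 2 = 0 := by omega
          have hρ : ρ = false := by rw [← hm]; simp [h]
          subst hρ
          rw [PS3_ff, if_pos h']
          omega
    · have hA : ∀ s : ZMod 3, Psi M (PG ρ s) (m + 1) (fun _ => 0) =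
          (Real.sqrt 3)⁻¹ * Psi M (PG ρ s) m (fun _ => 0) := by
        intro s
        rw [PS3_step, PS3_A hM s hs hm, PS3_smul]
        rfl
      have hg : gm ρ (m + 1) = -1 + gm ρ m := by
        unfold gm
        rcases Nat.mod_two_eq_zero_or_one m with h | h
        · have h' : (m + 1) % 2 = 1 := by omega
          have hρ : ρ = false := by
            cases ρ
            · rfl
            · exact absurd (by simp [h]) hm
          simp [h, h', hρ]
        · have h' : (m + 1) % 2 = 0 := by omega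
          have hρ : ρ = true := by
            cases ρ
            · exact absurd (by simp [h]) hm
            · rfl
          simp [h, h', hρ]
      have hf : fr ρ (m + 1) = fr ρ m := by
        rw [PS3_frs, if_neg (fun h => hm h.2), add_zero]
      constructor
      · rw [hA, ih1, hg, zpow_add₀ h3, zpow_neg_one]
      · rw [hA, ih2, hg, hf, add_assoc, zpow_add₀ h3 (-1), zpow_neg_one]

end Pool.TWC
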