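import Pool.Agent.TWC.StA
import Pool.Agent.ARB.VertA
import Pool.Agent.TWB.Rel

/-!
# TWC, TMD: the tensor model
-/

set_option autoImplicit false

namespace Pool.TWC

open LaurentPolynomial Pool.Agent.ARB Pool.Agent.Helper2 Pool.ALT

/-- signs as Booleans: `false` is `+` -/
private def tmd_b (t : ℤˣ) : Bool := if t = 1 then false else true

/-- Booleans as signs -/
private def tmd_u (b : Bool) : ℤˣ := if b then -1 else 1

private theorem tmd_bu (b : Bool) : tmd_b (tmd_u b) = b := by cases b <;> decide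

private theorem tmd_ub (t : ℤˣ) : tmd_u (tmd_b t) = t := by
  rcases Int.units_eq_one_or t with rfl | rfl <;> decide

private theorem tmd_bul (l : List Bool) : (l.map tmd_u).map tmd_b = l := by
  rw [List.map_map]
  conv_rhs => rw [← List.map_id l]
  exact List.map_congr_left fun b _ => tmd_bu b

private theorem tmd_ubl (e : List ℤˣ) : (e.map tmd_b).map tmd_u = e := by
  rw [List.map_map]
  conv_rhs => rw [← List.map_id e]
  exact List.map_congr_left fun t _ => tmd_ub t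

/-- from Boolean lists to lists of signs -/
private noncomputable def tmd_P : (List Bool → LP) →ₗ[LP] Pool.Agent.TWB.Ten LP where
  toFun ψ := fun e => ψ (e.map tmd_b)
  map_add' _ _ := rfl
  map_smul' _ _ := rfl

/-- from lists of signs to Boolean lists -/
private noncomputable def tmd_Q : Pool.Agent.TWB.Ten LP →ₗ[LP] (List Bool → LP) where
  toFun f := fun l => f (l.map tmd_u)
  map_add' _ _ := rfl
  map_smul' _ _ := rfl

private theorem tmd_PQ (f : Pool.Agent.TWB.Ten LP) : tmd_P (tmd_Q f) = f := by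
  funext e
  show f ((e.map tmd_b).map tmd_u) = f e
  rw [tmd_ubl]

private theorem tmd_QP (ψ : List Bool → LP) : tmd_Q (tmd_P ψ) = ψ := by
  funext l
  show ψ ((l.map tmd_u).map tmd_b) = ψ l
  rw [tmd_bul]

private theorem tmd_sQ {n : ℕ} {f : Pool.Agent.TWB.Ten LP} (h : Pool.Agent.TWB.Hom n f) :
    Vert.vM.Supp n (tmd_Q f) := by
  intro l hl
  by_contra hne
  apply hl
  exact h (l.map tmd_u) (by rwa [List.length_map])

private theorem tmd_sP {n : ℕ} {ψ : List Bool → LP} (h : Vert.vM.Supp n ψ) :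
    Pool.Agent.TWB.Hom n (tmd_P ψ) := by
  intro e he
  by_contra hne
  apply he
  have h1 := h (e.map tmd_b) hne
  rwa [List.length_map] at h1

/-- the model -/
private noncomputable def tmd_M : Model LP (Pool.Agent.TWB.Ten LP) where
  Supp := Pool.Agent.TWB.Hom
  δ := loopVal
  init := fun e => if e = [] then 1 else 0
  cup i := tmd_P ∘ₗ Vert.vM.cup i ∘ₗ tmd_Q
  cap i := tmd_P ∘ₗ Vert.vM.cap i ∘ₗ tmd_Q
  supp_init := by
    intro e he
    have h : e ≠ [] := by
      rintro rfl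
      exact he rfl
    exact if_neg h
  supp_cup n i f hi h := tmd_sP (Vert.vM.supp_cup n i _ hi (tmd_sQ h))
  supp_cap n i f hi h := tmd_sP (Vert.vM.supp_cap n i _ hi (tmd_sQ h))
  rel1 n i f h hi := by
    show tmd_P (Vert.vM.cap i (tmd_Q (tmd_P (Vert.vM.cup i (tmd_Q f))))) = loopVal • f
    rw [tmd_QP, Vert.vM.rel1 n i _ (tmd_sQ h) hi, map_smul, tmd_PQ]
    rfl
  rel2 n i f h hi := by
    show tmd_P (Vert.vM.cap (i + 1) (tmd_Q (tmd_P (Vert.vM.cup i (tmd_Q f))))) = f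
    rw [tmd_QP, Vert.vM.rel2 n i _ (tmd_sQ h) hi, tmd_PQ]
  rel3 n i f h hi := by
    show tmd_P (Vert.vM.cap i (tmd_Q (tmd_P (Vert.vM.cup (i + 1) (tmd_Q f))))) = f
    rw [tmd_QP, Vert.vM.rel3 n i _ (tmd_sQ h) hi, tmd_PQ]
  rel4 n i k f h hi := by
    show tmd_P (Vert.vM.cap (i + k + 2) (tmd_Q (tmd_P (Vert.vM.cup i (tmd_Q f))))) =
      tmd_P (Vert.vM.cup i (tmd_Q (tmd_P (Vert.vM.cap (i + k) (tmd_Q f)))))
    rw [tmd_QP, tmd_QP, Vert.vM.rel4 n i k _ (tmd_sQ h) hi]
  rel5 n i k f h hi := by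
    show tmd_P (Vert.vM.cap i (tmd_Q (tmd_P (Vert.vM.cup (i + k + 2) (tmd_Q f))))) =
      tmd_P (Vert.vM.cup (i + k) (tmd_Q (tmd_P (Vert.vM.cap i (tmd_Q f)))))
    rw [tmd_QP, tmd_QP, Vert.vM.rel5 n i k _ (tmd_sQ h) hi]

private theorem tmd_w (x y : ℤˣ) :
    Vert.wU (tmd_b x) (tmd_b y) = Pool.Agent.TWB.cup2 Pool.Agent.TWB.AA x y := by
  have hz : (((Pool.Agent.TWB.AA) ^ (2 : ℤ) : (Pool.Agent.TWB.RR)ˣ) : Pool.Agent.TWB.RR) = T 2 :=
    Pool.Agent.Per.unitA_zpow (RingHom.id Pool.Agent.TWB.RR) 2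
  have h1 : ¬ ((-1 : ℤˣ) = 1) := by decide
  have h2 : ¬ ((1 : ℤˣ) = -1) := by decide
  have b1 : tmd_b 1 = false := by decide
  have b2 : tmd_b (-1) = true := by decide
  rcases Int.units_eq_one_or x with rfl | rfl <;> rcases Int.units_eq_one_or y with rfl | rfl
  · rw [b1]
    simp only [Vert.wU, Pool.Agent.TWB.cup2, if_neg h2]
  · rw [b1, b2]
    simp only [Vert.wU, Pool.Agent.TWB.cup2, if_true, hz]
  · rw [b1, b2]
    simp only [Vert.wU, Pool.Agent.TWB.cup2, neg_neg, if_true, if_neg h1]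
  · rw [b2]
    simp only [Vert.wU, Pool.Agent.TWB.cup2, neg_neg, if_neg h1]

private theorem tmd_cup (i : ℕ) : ∀ (f : Pool.Agent.TWB.Ten LP) (e : List ℤˣ),
    lift Vert.cup0 i (fun l => f (l.map tmd_u)) (e.map tmd_b) =
      Pool.Agent.TWB.cupL Pool.Agent.TWB.AA i f e := by
  induction i with
  | zero =>
    intro f e
    match e with
    | [] => rfl
    | [_] => rfl
    | x :: y :: e =>
      show Vert.wU (tmd_b x) (tmd_b y) * f ((e.map tmd_b).map tmd_u) =
        Pool.Agent.TWB.cup2 Pool.Agent.TWB.AA x y * f e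
      rw [tmd_w, tmd_ubl]
  | succ i ih =>
    intro f e
    match e with
    | [] => rfl
    | x :: e =>
      show lift Vert.cup0 i (fun l => f (tmd_u (tmd_b x) :: l.map tmd_u)) (e.map tmd_b) =
        Pool.Agent.TWB.cupL Pool.Agent.TWB.AA i (fun e' => f (x :: e')) e
      rw [tmd_ub]
      exact ih (fun e' => f (x :: e')) e

private theorem tmd_cap (i : ℕ) : ∀ (f : Pool.Agent.TWB.Ten LP) (e : List ℤˣ),
    lift Vert.cap0 i (fun l => f (l.map tmd_u)) (e.map tmd_b) =
      capL Pool.Agent.TWB.AA i f e := by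
  induction i with
  | zero =>
    intro f e
    have hz : (((Pool.Agent.TWB.AA) ^ (-2 : ℤ) : (Pool.Agent.TWB.RR)ˣ) : Pool.Agent.TWB.RR) =
        T (-2) := Pool.Agent.Per.unitA_zpow (RingHom.id Pool.Agent.TWB.RR) (-2)
    have h1 : ¬ ((-1 : ℤˣ) = 1) := by decide
    have e1 : capL Pool.Agent.TWB.AA 0 f e =
        ∑ t : ℤˣ, Pool.Agent.TWB.cap1 Pool.Agent.TWB.AA t * f (t :: -t :: e) := by
      cases e <;> rfl
    rw [e1, Pool.Agent.TWB.rel_sum, lift_zero]
    show f ((false :: true :: e.map tmd_b).map tmd_u) -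
        T (-2) * f ((true :: false :: e.map tmd_b).map tmd_u) = _
    rw [List.map_cons, List.map_cons, List.map_cons, List.map_cons, tmd_ubl]
    have u1 : tmd_u false = 1 := by decide
    have u2 : tmd_u true = -1 := by decide
    rw [u1, u2, neg_neg]
    simp only [Pool.Agent.TWB.cap1, if_true, if_neg h1, hz]
    ring
  | succ i ih =>
    intro f e
    match e with
    | [] => rfl
    | x :: e =>
      show lift Vert.cap0 i (fun l => f (tmd_u (tmd_b x) :: l.map tmd_u)) (e.map tmd_b) =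
        capL Pool.Agent.TWB.AA i (fun e' => f (x :: e')) e
      rw [tmd_ub]
      exact ih (fun e' => f (x :: e')) e

theorem thm_TMD : St_TMD := by
  refine ⟨tmd_M, ⟨⟨rfl, ?_, ?_, ?_, ?_⟩, fun _ _ => Iff.rfl, rfl, ?_, ?_⟩⟩
  · intro n x y hx hy e he
    show x e + y e = 0
    rw [hx e he, hy e he, add_zero]
  · intro n c x hx e he
    show c * x e = 0
    rw [hx e he, mul_zero]
  · intro n i k f hi h
    show tmd_P (Vert.vM.cup (i + 2 + k) (tmd_Q (tmd_P (Vert.vM.cup i (tmd_Q f))))) =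
      tmd_P (Vert.vM.cup i (tmd_Q (tmd_P (Vert.vM.cup (i + k) (tmd_Q f)))))
    rw [tmd_QP, tmd_QP]
    exact congrArg tmd_P (Vert.cupcup n i k (tmd_Q f) (tmd_sQ h) hi)
  · intro n i k f hi h
    show tmd_P (Vert.vM.cap (i + k) (tmd_Q (tmd_P (Vert.vM.cap i (tmd_Q f))))) =
      tmd_P (Vert.vM.cap i (tmd_Q (tmd_P (Vert.vM.cap (i + 2 + k) (tmd_Q f)))))
    rw [tmd_QP, tmd_QP]
    exact congrArg tmd_P (Vert.capcap n i k (tmd_Q f) (tmd_sQ h) hi)
  · intro i f
    funext e
    exact tmd_cup i f e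
  · intro i f
    funext e
    exact tmd_cap i f e

end Pool.TWC
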