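import Pool.Agent.TWC.StB

/-! # TWC, module TR3: the transfer formula for three colours (helper78) -/

set_option autoImplicit false

namespace Pool.TWC

open LaurentPolynomial Pool.Agent.ARB Pool.Agent.Helper2 Pool.ALT

/-- the row with the entries `c` -/
private def TR3ex {n : ℕ} (c : Fin (n + 1) → ZMod 3) : Cg := fun j => c (Fin.ofNat (n + 1) j)

/-- `x` agrees with `d` at the entries of parity `ρ` and is zero at the others -/
private def TR3is (ρ : Bool) (n : ℕ) (x d : Cg) : Prop :=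
  (∀ j ≤ n, decide (j % 2 = 0) ≠ ρ → x j = 0) ∧ ∀ j ≤ n, decide (j % 2 = 0) = ρ → x j = d j

/-- the restriction of `d` to the entries `≤ n` of parity `ρ` -/
private def TR3row (ρ : Bool) (n : ℕ) (d : Cg) : Fin (n + 1) → ZMod 3 :=
  fun j => if decide (j.val % 2 = 0) = ρ then d j.val else 0

private theorem TR3_ofv {n j : ℕ} (h : j ≤ n) : (Fin.ofNat (n + 1) j).val = j := by
  rw [Fin.val_ofNat]
  exact Nat.mod_eq_of_lt (by omega)

private theorem TR3_par (ρ : Bool) :
    ∃ r : ℕ, r < 2 ∧ ∀ j : ℕ, (decide (j % 2 = 0) = ρ ↔ j % 2 = r) := by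
  cases ρ
  · refine ⟨1, by omega, fun j => ?_⟩
    rw [decide_eq_false_iff_not]
    omega
  · refine ⟨0, by omega, fun j => ?_⟩
    rw [decide_eq_true_eq]

private theorem TR3_ex {ρ : Bool} {n : ℕ} (d : Cg) : TR3is ρ n (TR3ex (TR3row ρ n d)) d := by
  refine ⟨fun j hj hp => ?_, fun j hj hp => ?_⟩
  · show (if decide ((Fin.ofNat (n + 1) j).val % 2 = 0) = ρ then d (Fin.ofNat (n + 1) j).val
      else (0 : ZMod 3)) = 0
    rw [TR3_ofv hj, if_neg hp]
  · show (if decide ((Fin.ofNat (n + 1) j).val % 2 = 0) = ρ then d (Fin.ofNat (n + 1) j).val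
      else (0 : ZMod 3)) = d j
    rw [TR3_ofv hj, if_pos hp]

private theorem TR3_rs {ρ : Bool} {n : ℕ} (c : Fin (n + 1) → ZMod 3) (d : Cg) :
    TR3is ρ n (TR3ex c) d ↔ c = TR3row ρ n d := by
  constructor
  · rintro ⟨h1, h2⟩
    funext j
    have e : Fin.ofNat (n + 1) j.val = j := Fin.ext (TR3_ofv (by omega))
    by_cases hp : decide (j.val % 2 = 0) = ρ
    · have h3 : c (Fin.ofNat (n + 1) j.val) = d j.val := h2 j.val (by omega) hp
      rw [e] at h3
      rw [h3, TR3row, if_pos hp]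
    · have h3 : c (Fin.ofNat (n + 1) j.val) = 0 := h1 j.val (by omega) hp
      rw [e] at h3
      rw [h3, TR3row, if_neg hp]
  · rintro rfl
    exact TR3_ex d

private theorem TR3_sum {ρ : Bool} {M : Model ℝ (Cg → ℝ)} (hM : CM ρ M) {n : ℕ} {ψ : Cg → ℝ}
    (h : M.Supp n ψ) {β : Type} [Fintype β] (d : β → Cg)
    (hd : ∀ b b', TR3row ρ n (d b) = TR3row ρ n (d b') → b = b') (P : Cg → Prop)
    [DecidablePred fun c : Fin (n + 1) → ZMod 3 => P (TR3ex c)]
    (hP : ∀ x, P x ↔ ∃ b, TR3is ρ n x (d b)) :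
    ∑ c ∈ Finset.univ.filter (fun c : Fin (n + 1) → ZMod 3 => P (TR3ex c)), ψ (TR3ex c) =
      ∑ b, ψ (d b) := by
  classical
  have h1 : (Finset.univ.filter fun c : Fin (n + 1) → ZMod 3 => P (TR3ex c)) =
      Finset.univ.image fun b => TR3row ρ n (d b) := by
    ext c
    rw [Finset.mem_filter, Finset.mem_image, hP]
    constructor
    · rintro ⟨_, b, hb⟩
      exact ⟨b, Finset.mem_univ _, ((TR3_rs c (d b)).1 hb).symm⟩
    · rintro ⟨b, _, rfl⟩
      exact ⟨Finset.mem_univ _, b, TR3_ex _⟩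
  rw [h1, Finset.sum_image fun b _ b' _ hb => hd b b' hb]
  refine Finset.sum_congr rfl fun b _ => ?_
  exact (hM.supp n ψ).1 h _ _ fun j hj hp => (TR3_ex (d b)).2 j hj hp

private theorem TR3_one {ρ : Bool} {M : Model ℝ (Cg → ℝ)} (hM : CM ρ M) {n : ℕ} {ψ : Cg → ℝ}
    (h : M.Supp n ψ) (d : Cg) (P : Cg → Prop)
    [DecidablePred fun c : Fin (n + 1) → ZMod 3 => P (TR3ex c)]
    (hP : ∀ x, P x ↔ TR3is ρ n x d) :
    ∑ c ∈ Finset.univ.filter (fun c : Fin (n + 1) → ZMod 3 => P (TR3ex c)), ψ (TR3ex c) =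
      ψ d := by
  rw [TR3_sum hM h (fun _ : Unit => d) (fun _ _ _ => rfl) P fun x =>
    (hP x).trans ⟨fun h => ⟨(), h⟩, fun ⟨_, h⟩ => h⟩]
  rw [Finset.univ_unique, Finset.sum_singleton]

private theorem TR3_none {n : ℕ} {ψ : Cg → ℝ} (P : Cg → Prop)
    [DecidablePred fun c : Fin (n + 1) → ZMod 3 => P (TR3ex c)]
    (hP : ∀ x, ¬ P x) :
    ∑ c ∈ Finset.univ.filter (fun c : Fin (n + 1) → ZMod 3 => P (TR3ex c)), ψ (TR3ex c) = 0 := by
  rw [Finset.filter_false_of_mem fun c _ => hP _, Finset.sum_empty]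

private theorem TR3_three {ρ : Bool} {M : Model ℝ (Cg → ℝ)} (hM : CM ρ M) {n : ℕ} {ψ : Cg → ℝ}
    (h : M.Supp n ψ) (d : ZMod 3 → Cg) (k : ℕ) (hk : k ≤ n) (hp : decide (k % 2 = 0) = ρ)
    (hd : ∀ b, d b k = b) (P : Cg → Prop)
    [DecidablePred fun c : Fin (n + 1) → ZMod 3 => P (TR3ex c)]
    (hP : ∀ x, P x ↔ TR3is ρ n x (d (x k))) :
    ∑ c ∈ Finset.univ.filter (fun c : Fin (n + 1) → ZMod 3 => P (TR3ex c)), ψ (TR3ex c) =
      ∑ b, ψ (d b) := by
  refine TR3_sum hM h d (fun b b' hb => ?_) P fun x => (hP x).trans ⟨fun h => ⟨x k, h⟩, ?_⟩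
  · have h1 := congrFun hb (Fin.ofNat (n + 1) k)
    have h2 : ∀ b, TR3row ρ n (d b) (Fin.ofNat (n + 1) k) = b := by
      intro b
      show (if decide ((Fin.ofNat (n + 1) k).val % 2 = 0) = ρ then d b (Fin.ofNat (n + 1) k).val
        else (0 : ZMod 3)) = b
      rw [TR3_ofv hk, if_pos hp, hd]
    rw [h2, h2] at h1
    exact h1
  · rintro ⟨b, hb⟩
    have h1 : x k = b := (hb.2 k hk hp).trans (hd b)
    rw [h1]
    exact hb

/-- the operator of a piece -/
private noncomputable def TR3pop (M : Model ℝ (Cg → ℝ)) (b : Bool) (s : Piece) (ψ : Cg → ℝ) :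
    Cg → ℝ :=
  match s.k with
  | .U => M.cup s.i ψ
  | .N => M.cap s.i ψ
  | .X _ => if b = decide (s.i % 2 = 0) then M.cup s.i (M.cap s.i ψ) else ψ

/-- the exponent of a piece -/
private def TR3g (ρ b : Bool) (s : Piece) : ℤ :=
  match s.k with
  | .U => if decide (s.i % 2 = 0) = ρ then 1 else 0
  | .N => if decide (s.i % 2 = 0) = ρ then 0 else -1
  | .X _ => if b = decide (s.i % 2 = 0) then (if decide (s.i % 2 = 0) = ρ then 1 else -1) else 0

/-- the condition at a crossing -/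
private def TR3x (ρ b : Bool) (s : Piece) (c c' : Cg) : Prop :=
  match s.k with
  | .U => True
  | .N => True
  | .X _ => b = ρ → if decide (s.i % 2 = 0) = ρ then c s.i = c (s.i + 2)
      else c (s.i + 1) = c' (s.i + 1)

/-- the rows `c` (below) and `c'` (above) fit to the piece -/
private def TR3P (ρ b : Bool) (s : Piece) (n : ℕ) (c c' : Cg) : Prop :=
  (∀ j ≤ n, decide (j % 2 = 0) ≠ ρ → c j = 0) ∧
  (∀ j j' : ℕ, j ≤ n → j' ≤ n - s.k.inn + s.k.out → gl s j j' → decide (j % 2 = 0) = ρ →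
    c j = c' j') ∧ TR3x ρ b s c c'

private theorem TR3_supp {M : Model ℝ (Cg → ℝ)} (b : Bool) (s : Piece)
    (n : ℕ) (ψ : Cg → ℝ) (hn : s.i + s.k.inn ≤ n) (h : M.Supp n ψ) :
    M.Supp (n - s.k.inn + s.k.out) (TR3pop M b s ψ) := by
  obtain ⟨k, i⟩ := s
  cases k with
  | U =>
      have hn' : i ≤ n := hn
      exact M.supp_cup n i ψ hn' h
  | N =>
      have hn' : i + 2 ≤ n := hn
      obtain ⟨n, rfl⟩ : ∃ q, n = q + 2 := ⟨n - 2, by omega⟩
      exact M.supp_cap n i ψ (by omega) h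
  | X p =>
      have hn' : i + 2 ≤ n := hn
      obtain ⟨n, rfl⟩ : ∃ q, n = q + 2 := ⟨n - 2, by omega⟩
      show M.Supp (n + 2) (if b = decide (i % 2 = 0) then M.cup i (M.cap i ψ) else ψ)
      split_ifs
      · exact M.supp_cup n i _ (by omega) (M.supp_cap n i ψ (by omega) h)
      · exact h

open Classical in
private theorem TR3_piece {ρ : Bool} {M : Model ℝ (Cg → ℝ)} (hM : CM ρ M) (b : Bool) (s : Piece)
    (n : ℕ) (ψ : Cg → ℝ) (c' : Cg) (hn : s.i + s.k.inn ≤ n) (h : M.Supp n ψ) :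
    TR3pop M b s ψ c' = Real.sqrt 3 ^ TR3g ρ b s *
      ∑ c ∈ Finset.univ.filter (fun c : Fin (n + 1) → ZMod 3 => TR3P ρ b s n (TR3ex c) c'),
        ψ (TR3ex c) := by
  obtain ⟨r, hr2, hr⟩ := TR3_par ρ
  obtain ⟨k, i⟩ := s
  cases k with
  | U =>
    have hn' : i ≤ n := hn
    have key : ∀ x, TR3P ρ b ⟨.U, i⟩ n x c' ↔ TR3is ρ n x (dl3 i c') ∧
        (decide (i % 2 = 0) = ρ → c' i = c' (i + 2)) := by
      intro x
      constructor
      · rintro ⟨h1, h2, _⟩
        have h2' : ∀ j j' : ℕ, j ≤ n → j' ≤ n + 2 → ((j ≤ i ∧ j' = j) ∨ (i ≤ j ∧ j' = j + 2)) →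
            decide (j % 2 = 0) = ρ → x j = c' j' := h2
        refine ⟨⟨h1, fun j hj hp => ?_⟩, fun hp => ?_⟩
        · unfold dl3
          split_ifs with hji
          · exact h2' j j hj (by omega) (Or.inl ⟨hji, rfl⟩) hp
          · exact h2' j (j + 2) hj (by omega) (Or.inr ⟨by omega, rfl⟩) hp
        · exact (h2' i i hn' (by omega) (Or.inl ⟨le_rfl, rfl⟩) hp).symm.trans
            (h2' i (i + 2) hn' (by omega) (Or.inr ⟨le_rfl, rfl⟩) hp)
      · rintro ⟨⟨h1, h2⟩, h3⟩
        refine ⟨h1, ?_, trivial⟩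
        rintro j j' hj hj' (⟨ha, hb⟩ | ⟨ha, hb⟩) hp
        · rw [h2 j hj hp, hb, dl3, if_pos ha]
        · rw [h2 j hj hp, hb, dl3]
          split_ifs with hji
          · have e : j = i := le_antisymm hji ha
            rw [e]
            rw [e] at hp
            exact h3 hp
          · rfl
    show M.cup i ψ c' = _
    rw [hM.cup]
    by_cases hp : decide (i % 2 = 0) = ρ
    · have hg : TR3g ρ b ⟨.U, i⟩ = 1 := if_pos hp
      rw [if_pos hp, hg, zpow_one]
      by_cases hc : c' i = c' (i + 2)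
      · rw [if_pos hc, TR3_one hM h (dl3 i c') (fun x => TR3P ρ b ⟨.U, i⟩ n x c') fun x =>
          (key x).trans (and_iff_left fun _ => hc)]
      · rw [if_neg hc, TR3_none (fun x => TR3P ρ b ⟨.U, i⟩ n x c') fun x hx =>
          hc (((key x).1 hx).2 hp), mul_zero]
    · have hg : TR3g ρ b ⟨.U, i⟩ = 0 := if_neg hp
      rw [if_neg hp, hg, zpow_zero, one_mul,
        TR3_one hM h (dl3 i c') (fun x => TR3P ρ b ⟨.U, i⟩ n x c') fun x =>
          (key x).trans (and_iff_left fun h => absurd h hp)]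
  | N =>
    have hn' : i + 2 ≤ n := hn
    have key : ∀ x, TR3P ρ b ⟨.N, i⟩ n x c' ↔ TR3is ρ n x (ins3 i (x (i + 1)) c') := by
      intro x
      constructor
      · rintro ⟨h1, h2, _⟩
        have h2' : ∀ j j' : ℕ, j ≤ n → j' ≤ n - 2 + 0 →
            ((j' ≤ i ∧ j = j') ∨ (i ≤ j' ∧ j = j' + 2)) →
            decide (j % 2 = 0) = ρ → x j = c' j' := h2
        refine ⟨h1, fun j hj hp => ?_⟩
        unfold ins3
        split_ifs with hji hj1
        · exact h2' j j hj (by omega) (Or.inl ⟨hji, rfl⟩) hp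
        · rw [hj1]
        · exact h2' j (j - 2) hj (by omega) (Or.inr ⟨by omega, by omega⟩) hp
      · rintro ⟨h1, h2⟩
        refine ⟨h1, ?_, trivial⟩
        rintro j j' hj hj' (⟨ha, hb⟩ | ⟨ha, hb⟩) hp
        · have ha' : j' ≤ i := ha
          rw [h2 j hj hp, hb, ins3, if_pos ha']
        · have ha' : i ≤ j' := ha
          rw [h2 j hj hp, hb, ins3, if_neg (by omega), if_neg (by omega)]
          rfl
    show M.cap i ψ c' = _
    rw [hM.cap]
    by_cases hp : decide (i % 2 = 0) = ρ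
    · have hg : TR3g ρ b ⟨.N, i⟩ = 0 := if_pos hp
      rw [if_pos hp, hg, zpow_zero, one_mul,
        TR3_one hM h (ins3 i 0 c') (fun x => TR3P ρ b ⟨.N, i⟩ n x c') fun x =>
          (key x).trans (and_congr Iff.rfl (forall_congr' fun j => forall_congr' fun hj =>
            forall_congr' fun hp' => ?_))]
      have hj1 : j ≠ i + 1 := by
        have h1 := (hr i).1 hp
        have h2 := (hr j).1 hp'
        omega
      rw [ins3, ins3, if_neg hj1, if_neg hj1]
    · have hg : TR3g ρ b ⟨.N, i⟩ = -1 := if_neg hp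
      have hp1 : decide ((i + 1) % 2 = 0) = ρ := by
        rw [hr]
        rw [hr] at hp
        omega
      rw [if_neg hp, hg, zpow_neg_one,
        TR3_three hM h (fun a => ins3 i a c') (i + 1) (by omega) hp1 (fun a => by simp [ins3])
          (fun x => TR3P ρ b ⟨.N, i⟩ n x c') key]
  | X p =>
    have hn' : i + 2 ≤ n := hn
    have key : ∀ x, TR3P ρ b ⟨.X p, i⟩ n x c' ↔
        (∀ j ≤ n, decide (j % 2 = 0) ≠ ρ → x j = 0) ∧
        (∀ j ≤ n, j ≠ i + 1 → decide (j % 2 = 0) = ρ → x j = c' j) ∧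
        (b = ρ → if decide (i % 2 = 0) = ρ then x i = x (i + 2) else x (i + 1) = c' (i + 1)) := by
      intro x
      constructor
      · rintro ⟨h1, h2, h3⟩
        have h2' : ∀ j j' : ℕ, j ≤ n → j' ≤ n - 2 + 2 → (j = j' ∧ j ≠ i + 1) →
            decide (j % 2 = 0) = ρ → x j = c' j' := h2
        exact ⟨h1, fun j hj hj1 hp => h2' j j hj (by omega) ⟨rfl, hj1⟩ hp, h3⟩
      · rintro ⟨h1, h2, h3⟩
        refine ⟨h1, ?_, h3⟩
        rintro j j' hj hj' ⟨rfl, hb⟩ hp
        exact h2 j hj hb hp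
    have hval : ∀ (a : ZMod 3) (j : ℕ), (j = i + 2 → c' i = c' (i + 2)) →
        ins3 i a (dl3 i c') j = if j = i + 1 then a else c' j := by
      intro a j hj
      unfold ins3 dl3
      split_ifs with h1 h2 h2 h3
      · omega
      · rfl
      · rfl
      · have h4 : j = i + 2 := by omega
        rw [show j - 2 = i by omega, h4]
        exact hj h4
      · rw [show j - 2 + 2 = j by omega]
    show (if b = decide (i % 2 = 0) then M.cup i (M.cap i ψ) else ψ) c' = _
    by_cases hb : b = decide (i % 2 = 0)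
    · rw [if_pos hb, hM.cup]
      by_cases hp : decide (i % 2 = 0) = ρ
      · have hg : TR3g ρ b ⟨.X p, i⟩ = 1 := (if_pos hb).trans (if_pos hp)
        have hbr : b = ρ := hb.trans hp
        have hp2 : decide ((i + 2) % 2 = 0) = ρ := by
          rw [hr]
          rw [hr] at hp
          omega
        rw [if_pos hp, hg, zpow_one]
        by_cases hc : c' i = c' (i + 2)
        · rw [if_pos hc, hM.cap, if_pos hp,
            TR3_one hM h (ins3 i 0 (dl3 i c')) (fun x => TR3P ρ b ⟨.X p, i⟩ n x c') fun x => ?_]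
          rw [key]
          constructor
          · rintro ⟨h1, h2, _⟩
            refine ⟨h1, fun j hj hpj => ?_⟩
            have hj1 : j ≠ i + 1 := by
              have h1 := (hr i).1 hp
              have h2 := (hr j).1 hpj
              omega
            rw [hval _ _ fun _ => hc, if_neg hj1]
            exact h2 j hj hj1 hpj
          · rintro ⟨h1, h2⟩
            refine ⟨h1, fun j hj hj1 hpj => ?_, fun _ => ?_⟩
            · rw [h2 j hj hpj, hval _ _ fun _ => hc, if_neg hj1]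
            · rw [if_pos hp, h2 i (by omega) hp, h2 (i + 2) (by omega) hp2, hval _ _ fun _ => hc,
                hval _ _ fun _ => hc, if_neg (by omega), if_neg (by omega)]
              exact hc
        · rw [if_neg hc, TR3_none (fun x => TR3P ρ b ⟨.X p, i⟩ n x c') fun x hx => ?_, mul_zero]
          rw [key] at hx
          obtain ⟨_, h2, h3⟩ := hx
          have h4 := h3 hbr
          rw [if_pos hp] at h4
          exact hc ((h2 i (by omega) (by omega) hp).symm.trans
            (h4.trans (h2 (i + 2) (by omega) (by omega) hp2)))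
      · have hg : TR3g ρ b ⟨.X p, i⟩ = -1 := (if_pos hb).trans (if_neg hp)
        have hbr : b ≠ ρ := fun h => hp (hb.symm.trans h)
        have hp1 : decide ((i + 1) % 2 = 0) = ρ := by
          rw [hr]
          rw [hr] at hp
          omega
        rw [if_neg hp, hM.cap, if_neg hp, hg, zpow_neg_one,
          TR3_three hM h (fun a => ins3 i a (dl3 i c')) (i + 1) (by omega) hp1
            (fun a => by simp [ins3]) (fun x => TR3P ρ b ⟨.X p, i⟩ n x c') fun x => ?_]
        rw [key]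
        have hj2 : ∀ j : ℕ, decide (j % 2 = 0) = ρ → j = i + 2 → c' i = c' (i + 2) := by
          intro j hpj hj2
          exfalso
          rw [hr] at hp hpj
          omega
        constructor
        · rintro ⟨h1, h2, _⟩
          refine ⟨h1, fun j hj hpj => ?_⟩
          show x j = ins3 i (x (i + 1)) (dl3 i c') j
          rw [hval _ _ (hj2 j hpj)]
          split_ifs with hj1
          · rw [hj1]
          · exact h2 j hj hj1 hpj
        · rintro ⟨h1, h2⟩
          refine ⟨h1, fun j hj hj1 hpj => ?_, fun h => absurd h hbr⟩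
          have h3 : x j = ins3 i (x (i + 1)) (dl3 i c') j := h2 j hj hpj
          rw [h3, hval _ _ (hj2 j hpj), if_neg hj1]
    · have hg : TR3g ρ b ⟨.X p, i⟩ = 0 := if_neg hb
      rw [if_neg hb, hg, zpow_zero, one_mul,
        TR3_one hM h c' (fun x => TR3P ρ b ⟨.X p, i⟩ n x c') fun x => ?_]
      rw [key]
      by_cases hp : decide (i % 2 = 0) = ρ
      · have hbr : b ≠ ρ := fun h => hb (h.trans hp.symm)
        constructor
        · rintro ⟨h1, h2, _⟩
          refine ⟨h1, fun j hj hpj => h2 j hj ?_ hpj⟩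
          rw [hr] at hp hpj
          omega
        · rintro ⟨h1, h2⟩
          exact ⟨h1, fun j hj _ hpj => h2 j hj hpj, fun h => absurd h hbr⟩
      · have hbr : b = ρ := by
          revert hb hp
          cases b <;> cases ρ <;> cases decide (i % 2 = 0) <;> simp
        have hp1 : decide ((i + 1) % 2 = 0) = ρ := by
          rw [hr]
          rw [hr] at hp
          omega
        constructor
        · rintro ⟨h1, h2, h3⟩
          refine ⟨h1, fun j hj hpj => ?_⟩
          by_cases hj1 : j = i + 1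
          · have h4 := h3 hbr
            rw [if_neg hp] at h4
            rw [hj1]
            exact h4
          · exact h2 j hj hj1 hpj
        · rintro ⟨h1, h2⟩
          refine ⟨h1, fun j hj _ hpj => h2 j hj hpj, fun _ => ?_⟩
          rw [if_neg hp]
          exact h2 (i + 1) (by omega) hp1

/-- the colouring of the local regions of `s :: w` -/
private def TR3F (s : Piece) (w : Word) (n : ℕ) (c : Fin (n + 1) → ZMod 3)
    (f : Loc (n - s.k.inn + s.k.out) w → ZMod 3) : Loc n (s :: w) → ZMod 3 :=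
  fun x => Sum.elim c f (show Fin (n + 1) ⊕ Loc (n - s.k.inn + s.k.out) w from x)

/-- the remaining smoothings -/
private def TR3B (B : ℕ → Bool) (s : Piece) : ℕ → Bool :=
  match s.k with
  | .U => B
  | .N => B
  | .X _ => fun k => B (k + 1)

private theorem TR3_ed (ρ : Bool) (B : ℕ → Bool) (s : Piece) (w : Word) (n : ℕ)
    (c : Fin (n + 1) → ZMod 3) (f : Loc (n - s.k.inn + s.k.out) w → ZMod 3) :
    (∀ k : Fin (nX (s :: w)), B k = ρ →
      TR3F s w n c f (ed ρ n (s :: w) k).1 = TR3F s w n c f (ed ρ n (s :: w) k).2) ↔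
    TR3x ρ (B 0) s (TR3ex c) (fun j => f (bo (n - s.k.inn + s.k.out) w j)) ∧
      ∀ k : Fin (nX w), TR3B B s k = ρ →
        f (ed ρ (n - s.k.inn + s.k.out) w k).1 = f (ed ρ (n - s.k.inn + s.k.out) w k).2 := by
  obtain ⟨k, i⟩ := s
  cases k with
  | U => exact ⟨fun h => ⟨trivial, h⟩, fun h => h.2⟩
  | N => exact ⟨fun h => ⟨trivial, h⟩, fun h => h.2⟩
  | X p =>
    have e3 : (∀ k : Fin (nX (⟨.X p, i⟩ :: w)), B k = ρ →
        TR3F ⟨.X p, i⟩ w n c f (ed ρ n (⟨.X p, i⟩ :: w) k).1 =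
          TR3F ⟨.X p, i⟩ w n c f (ed ρ n (⟨.X p, i⟩ :: w) k).2) ↔
        ∀ k : Fin (nX w + 1), B k = ρ →
        TR3F ⟨.X p, i⟩ w n c f (ed ρ n (⟨.X p, i⟩ :: w) k).1 =
          TR3F ⟨.X p, i⟩ w n c f (ed ρ n (⟨.X p, i⟩ :: w) k).2 := Iff.rfl
    rw [e3, Fin.forall_fin_succ]
    refine and_congr ?_ Iff.rfl
    show (B 0 = ρ → TR3F ⟨.X p, i⟩ w n c f (if decide (i % 2 = 0) = ρ then
          (bo n (⟨.X p, i⟩ :: w) i, bo n (⟨.X p, i⟩ :: w) (i + 2))
          else (bo n (⟨.X p, i⟩ :: w) (i + 1), Sum.inr (bo (n - 2 + 2) w (i + 1)))).1 =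
        TR3F ⟨.X p, i⟩ w n c f (if decide (i % 2 = 0) = ρ then
          (bo n (⟨.X p, i⟩ :: w) i, bo n (⟨.X p, i⟩ :: w) (i + 2))
          else (bo n (⟨.X p, i⟩ :: w) (i + 1), Sum.inr (bo (n - 2 + 2) w (i + 1)))).2) ↔
      (B 0 = ρ → if decide (i % 2 = 0) = ρ then TR3ex c i = TR3ex c (i + 2)
        else TR3ex c (i + 1) = f (bo (n - 2 + 2) w (i + 1)))
    by_cases h : decide (i % 2 = 0) = ρ
    · rw [if_pos h, if_pos h]
      exact Iff.rfl
    · rw [if_neg h, if_neg h]
      exact Iff.rfl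

private theorem TR3_TC (ρ : Bool) (B : ℕ → Bool) (s : Piece) (w : Word) (n : ℕ)
    (c : Fin (n + 1) → ZMod 3) (f : Loc (n - s.k.inn + s.k.out) w → ZMod 3) :
    Cz ρ B n (s :: w) (TR3F s w n c f) ↔
      TR3P ρ (B 0) s n (TR3ex c) (fun j => f (bo (n - s.k.inn + s.k.out) w j)) ∧
        Cz ρ (TR3B B s) (n - s.k.inn + s.k.out) w f := by
  constructor
  · rintro ⟨h1, h2, h3⟩
    obtain ⟨h4, h5⟩ := (TR3_ed ρ B s w n c f).1 h3
    refine ⟨⟨fun j hj hp => ?_, fun j j' hj hj' hg hp => ?_, h4⟩, fun y hy => ?_,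
      fun x y hxy => ?_, h5⟩
    · refine h1 (Sum.inl (Fin.ofNat (n + 1) j) : Fin (n + 1) ⊕ Loc (n - s.k.inn + s.k.out) w) ?_
      show decide ((Fin.ofNat (n + 1) j).val % 2 = 0) ≠ ρ
      rw [TR3_ofv hj]
      exact hp
    · exact h2 _ _ (Or.inl ⟨j, j', hj, hj', hg, rfl, rfl⟩)
    · exact h1 (Sum.inr y : Fin (n + 1) ⊕ Loc (n - s.k.inn + s.k.out) w) hy
    · exact h2 _ _ (Or.inr ⟨x, y, rfl, rfl, hxy⟩)
  · rintro ⟨⟨h1, h2, h4⟩, h6, h7, h5⟩
    refine ⟨?_, ?_, (TR3_ed ρ B s w n c f).2 ⟨h4, h5⟩⟩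
    · intro x hx
      rcases hxx : (show Fin (n + 1) ⊕ Loc (n - s.k.inn + s.k.out) w from x) with j | y
      · have e : x = (Sum.inl j : Fin (n + 1) ⊕ Loc (n - s.k.inn + s.k.out) w) := hxx
        subst e
        have hx' : decide (j.val % 2 = 0) ≠ ρ := hx
        have h8 : c (Fin.ofNat (n + 1) j.val) = 0 := h1 j.val (by omega) hx'
        have e : Fin.ofNat (n + 1) j.val = j := Fin.ext (TR3_ofv (by omega))
        rw [e] at h8
        exact h8
      · have e : x = (Sum.inr y : Fin (n + 1) ⊕ Loc (n - s.k.inn + s.k.out) w) := hxx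
        subst e
        exact h6 y hx
    · rintro x y (⟨j, j', hj, hj', hg, rfl, rfl⟩ | ⟨x', y', rfl, rfl, hr⟩)
      · by_cases hp : decide (j % 2 = 0) = ρ
        · exact h2 j j' hj hj' hg hp
        · have e3 : j % 2 = j' % 2 := by
            obtain ⟨k, i⟩ := s
            cases k <;> simp only [gl] at hg <;> omega
          have e4 : f (bo (n - s.k.inn + s.k.out) w j') = 0 := by
            refine h6 _ ?_
            rw [pa_bo _ _ _ hj', ← e3]
            exact hp
          have e5 : c (Fin.ofNat (n + 1) j) = 0 := h1 j hj hp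
          show c (Fin.ofNat (n + 1) j) = f (bo (n - s.k.inn + s.k.out) w j')
          rw [e4, e5]
      · exact h7 x' y' hr

private theorem TR3_run (M : Model ℝ (Cg → ℝ)) (B : ℕ → Bool) (s : Piece) (w : Word)
    (ψ : Cg → ℝ) : runC M (jo B (s :: w)) ψ =
      runC M (jo (TR3B B s) w) (TR3pop M (B 0) s ψ) := by
  obtain ⟨k, i⟩ := s
  cases k with
  | U => rfl
  | N => rfl
  | X p =>
    by_cases h : B 0 = decide (i % 2 = 0)
    · have h1 : jo B (⟨.X p, i⟩ :: w) = pN i :: pU i :: jo (fun k => B (k + 1)) w := if_pos h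
      have h2 : TR3pop M (B 0) ⟨.X p, i⟩ ψ = M.cup i (M.cap i ψ) := if_pos h
      rw [h1, h2]
      rfl
    · have h1 : jo B (⟨.X p, i⟩ :: w) = jo (fun k => B (k + 1)) w := if_neg h
      have h2 : TR3pop M (B 0) ⟨.X p, i⟩ ψ = ψ := if_neg h
      rw [h1, h2]
      rfl

private theorem TR3_gam (ρ : Bool) (B : ℕ → Bool) (s : Piece) (w : Word) :
    gam ρ B (s :: w) = TR3g ρ (B 0) s + gam ρ (TR3B B s) w := by
  obtain ⟨k, i⟩ := s
  cases k <;> rfl

/-- [TR3] -/
theorem thm_TR3 : St_TR3 := by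
  classical
  intro ρ M hM w
  induction w with
  | nil =>
    intro B n m ψ d hok hsu
    have hnm : n = m := hok
    subst hnm
    have h0 : ∀ f : Loc n [] → ZMod 3,
        (Cz ρ B n [] f ∧ ∀ j ≤ n, decide (j % 2 = 0) = ρ → f (tp n [] j) = d j) ↔
        TR3is ρ n (TR3ex (show Fin (n + 1) → ZMod 3 from f)) d := by
      intro f
      constructor
      · rintro ⟨⟨h2, _, _⟩, h3⟩
        refine ⟨fun j hj hp => ?_, h3⟩
        refine h2 (Fin.ofNat (n + 1) j) ?_
        show decide ((Fin.ofNat (n + 1) j).val % 2 = 0) ≠ ρ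
        rw [TR3_ofv hj]
        exact hp
      · rintro ⟨h2, h3⟩
        refine ⟨⟨fun x hx => ?_, fun x y h => h.elim, fun k => k.elim0⟩, h3⟩
        have hlt := (show Fin (n + 1) from x).isLt
        have h4 : f (Fin.ofNat (n + 1) (show Fin (n + 1) from x).val) = 0 :=
          h2 (show Fin (n + 1) from x).val (by omega) hx
        have e : Fin.ofNat (n + 1) (show Fin (n + 1) from x).val = (show Fin (n + 1) from x) :=
          Fin.ext (TR3_ofv (by omega))
        rw [e] at h4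
        exact h4
    have h1 : (Finset.univ.filter (fun f : Loc n [] → ZMod 3 =>
        Cz ρ B n [] f ∧ ∀ j ≤ n, decide (j % 2 = 0) = ρ → f (tp n [] j) = d j)) =
        {(fun x => TR3row ρ n d (show Fin (n + 1) from x) : Loc n [] → ZMod 3)} := by
      ext f
      rw [Finset.mem_filter, Finset.mem_singleton, h0 f]
      exact (and_iff_right (Finset.mem_univ _)).trans (TR3_rs (show Fin (n + 1) → ZMod 3 from f) d)
    rw [h1, Finset.sum_singleton]
    show ψ d = Real.sqrt 3 ^ (0 : ℤ) * ψ (TR3ex (TR3row ρ n d))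
    have h5 : ψ (TR3ex (TR3row ρ n d)) = ψ d :=
      (hM.supp n ψ).1 hsu _ _ fun j hj hp => (TR3_ex d).2 j hj hp
    rw [h5, zpow_zero, one_mul]
  | cons s w ih =>
    intro B n m ψ d hok hsu
    have h3 : Real.sqrt 3 ≠ 0 := (Real.sqrt_pos.2 (by norm_num)).ne'
    rw [TR3_run, TR3_gam, ih (TR3B B s) _ m _ d hok.2 (TR3_supp (B 0) s n ψ hok.1 hsu)]
    rw [Finset.sum_congr rfl fun f _ => TR3_piece hM (B 0) s n ψ
      (fun j => f (bo (n - s.k.inn + s.k.out) w j)) hok.1 hsu]
    rw [← Finset.mul_sum, ← mul_assoc, ← zpow_add₀ h3, add_comm (gam ρ (TR3B B s) w),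
      Finset.sum_sigma']
    congr 1
    refine Finset.sum_bij'
      (fun p _ => TR3F s w n p.2 p.1)
      (fun f _ => ⟨fun x => f (Sum.inr x : Fin (n + 1) ⊕ Loc (n - s.k.inn + s.k.out) w),
        fun x => f (Sum.inl x : Fin (n + 1) ⊕ Loc (n - s.k.inn + s.k.out) w)⟩) ?_ ?_ ?_ ?_ ?_
    · rintro ⟨f, c⟩ hp
      rw [Finset.mem_sigma, Finset.mem_filter, Finset.mem_filter] at hp
      obtain ⟨⟨_, h4, h5⟩, _, h6⟩ := hp
      rw [Finset.mem_filter]
      exact ⟨Finset.mem_univ _, (TR3_TC ρ B s w n c f).2 ⟨h6, h4⟩, h5⟩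
    · intro f hf
      rw [Finset.mem_filter] at hf
      obtain ⟨_, h4, h5⟩ := hf
      have h6 : f = TR3F s w n
          (fun x => f (Sum.inl x : Fin (n + 1) ⊕ Loc (n - s.k.inn + s.k.out) w))
          (fun x => f (Sum.inr x : Fin (n + 1) ⊕ Loc (n - s.k.inn + s.k.out) w)) := by
        funext x
        rcases (show Fin (n + 1) ⊕ Loc (n - s.k.inn + s.k.out) w from x) with x | x
        · rfl
        · rfl
      rw [h6] at h4
      have h7 := (TR3_TC ρ B s w n _ _).1 h4
      rw [Finset.mem_sigma, Finset.mem_filter, Finset.mem_filter]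
      exact ⟨⟨Finset.mem_univ _, h7.2, h5⟩, Finset.mem_univ _, h7.1⟩
    · rintro ⟨f, c⟩ _
      rfl
    · intro f _
      funext x
      rcases (show Fin (n + 1) ⊕ Loc (n - s.k.inn + s.k.out) w from x) with x | x
      · rfl
      · rfl
    · rintro ⟨f, c⟩ _
      rfl

end Pool.TWC
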