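import Pool.Agent.TWC.StB

/-!
# TWC, module VAN: joined everywhere and zero somewhere: zero (helper91)
-/

set_option autoImplicit false

namespace Pool.TWC

open LaurentPolynomial Pool.Agent.ARB Pool.Agent.Helper2 Pool.ALT

/-- a solution which is joined everywhere vanishes -/
private theorem VAN_zero (hE : St_EMB) (ρ : Bool) (s : ZMod 3) (u v : Word) (w : ℕ)
    (hs : s = 1 ∨ s = -1) (hu : Ok u 0 (wd 0 u)) (hw : w ≤ wd 0 u)
    (hρ : ρ = true ∨ decide (w % 2 = 0) = ρ)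
    (hC : Con (u ++ v)) (p : Lv u v) (hp : p ∈ Sol ρ s u v w Finset.univ) : p = 0 := by
  obtain ⟨-, -, hpa, hR, -, hed, hgl, hn⟩ := hE
  unfold Sol at hp
  rw [Submodule.mem_inf] at hp
  obtain ⟨⟨⟨a1, a2⟩, ⟨a3, a4⟩, a5, a6, a7⟩, hL⟩ := hp
  have hmid : ∀ j ≤ wd 0 u, (fun y => p.2 y ^ 2) (bo (wd 0 u) v j) =
      (fun x => p.1 x ^ 2) (tp 0 u j) := by
    intro j hj
    show p.2 _ ^ 2 = p.1 _ ^ 2
    rw [a5 j hj, mul_pow]
    have h1 : (if 0 < j ∧ j < w then s else 1) ^ 2 = (1 : ZMod 3) := by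
      split_ifs
      · rcases hs with rfl | rfl
        · exact one_pow 2
        · exact neg_one_sq
      · exact one_pow 2
    rw [h1, one_mul]
  obtain ⟨F, hF1, hF2⟩ := hgl u v 0 (ZMod 3) (fun x => p.1 x ^ 2) (fun y => p.2 y ^ 2) hmid
  have hF1' : ∀ x, F (iu 0 u v x) = p.1 x ^ 2 := hF1
  have hF2' : ∀ y, F (iv 0 u v y) = p.2 y ^ 2 := hF2
  have hconst := hC ρ (ZMod 3) F
    (fun x y hxy => by
      rcases hR u v 0 x y hxy with ⟨x', y', h1, rfl, rfl⟩ | ⟨x', y', h1, rfl, rfl⟩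
      · rw [hF1', hF1', a3 x' y' h1]
      · rw [hF2', hF2', a4 x' y' h1])
    (fun k => by
      have hk : Lk ρ u v (k : ℕ) p = 0 := by
        rw [Submodule.mem_iInf] at hL
        have h1 := hL k
        rw [Submodule.mem_iInf] at h1
        exact LinearMap.mem_ker.1 (h1 (Finset.mem_univ _))
      have hk2 : (if h : (k : ℕ) < nX u then
            p.1 (ed ρ 0 u ⟨(k : ℕ), h⟩).1 - p.1 (ed ρ 0 u ⟨(k : ℕ), h⟩).2
          else if h : (k : ℕ) - nX u < nX v then
            p.2 (ed ρ (wd 0 u) v ⟨(k : ℕ) - nX u, h⟩).1 -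
              p.2 (ed ρ (wd 0 u) v ⟨(k : ℕ) - nX u, h⟩).2
          else 0) = 0 := hk
      by_cases h : (k : ℕ) < nX u
      · rw [dif_pos h] at hk2
        rw [(hed ρ u v 0 k).1 h]
        show F (iu 0 u v _) = F (iu 0 u v _)
        rw [hF1', hF1', sub_eq_zero.1 hk2]
      · have h' : (k : ℕ) - nX u < nX v := by
          have h1 := k.isLt
          have h2 := hn u v
          omega
        rw [dif_neg h, dif_pos h'] at hk2
        rw [(hed ρ u v 0 k).2 h' (not_lt.1 h)]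
        show F (iv 0 u v _) = F (iv 0 u v _)
        rw [hF2', hF2', sub_eq_zero.1 hk2])
  -- a local region of parity `ρ` where `F` vanishes
  have hz : ∃ z, pa 0 (u ++ v) z = ρ ∧ F z = 0 := by
    rcases hρ with hρ | hρ
    · refine ⟨iu 0 u v (tp 0 u 0), ?_, ?_⟩
      · rw [(hpa u v 0).1, pa_tp u 0 (wd 0 u) 0 hu (Nat.zero_le _), hρ]
        rfl
      · rw [hF1', a6]
        exact zero_pow two_ne_zero
    · refine ⟨iu 0 u v (tp 0 u w), ?_, ?_⟩
      · rw [(hpa u v 0).1, pa_tp u 0 (wd 0 u) w hu hw, hρ]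
      · rw [hF1', a7]
        exact zero_pow two_ne_zero
  obtain ⟨z, hz1, hz2⟩ := hz
  refine Prod.ext (funext fun x => ?_) (funext fun y => ?_)
  · show p.1 x = 0
    by_cases hx : pa 0 u x = ρ
    · have h1 := hconst _ _ (((hpa u v 0).1 x).trans hx) hz1
      rw [hF1', hz2] at h1
      exact pow_eq_zero_iff two_ne_zero |>.1 h1
    · exact a1 x hx
  · show p.2 y = 0
    by_cases hy : pa (wd 0 u) v y = ρ
    · have h1 := hconst _ _ (((hpa u v 0).2 y).trans hy) hz1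
      rw [hF2', hz2] at h1
      exact pow_eq_zero_iff two_ne_zero |>.1 h1
    · exact a2 y hy

/-- **[VAN]** (helper91) -/
theorem thm_VAN (h : St_EMB) : St_VAN := by
  intro ρ s u v w hs hu _ hw hρ hC
  have hbot : Sol ρ s u v w Finset.univ = ⊥ := by
    rw [Submodule.eq_bot_iff]
    intro p hp
    exact VAN_zero h ρ s u v w hs hu hw hρ hC p hp
  rw [hbot, finrank_bot]

end Pool.TWC
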