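import Pool.Agent.TWC.CIR
import Pool.Agent.TWC.CMD
import Pool.Agent.TWC.CN2
import Pool.Agent.TWC.CNN
import Pool.Agent.TWC.CNT
import Pool.Agent.TWC.COE
import Pool.Agent.TWC.Cnx
import Pool.Agent.TWC.EMB
import Pool.Agent.TWC.EQN
import Pool.Agent.TWC.EXP
import Pool.Agent.TWC.FOR
import Pool.Agent.TWC.FTN
import Pool.Agent.TWC.FTP
import Pool.Agent.TWC.FTU
import Pool.Agent.TWC.GAM
import Pool.Agent.TWC.HGT
import Pool.Agent.TWC.HMD
import Pool.Agent.TWC.HPS
import Pool.Agent.TWC.HTR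
import Pool.Agent.TWC.LIN
import Pool.Agent.TWC.LOO
import Pool.Agent.TWC.MHT
import Pool.Agent.TWC.MNU
import Pool.Agent.TWC.MTR
import Pool.Agent.TWC.N1
import Pool.Agent.TWC.N2
import Pool.Agent.TWC.NBR
import Pool.Agent.TWC.NFF
import Pool.Agent.TWC.ONE
import Pool.Agent.TWC.P1
import Pool.Agent.TWC.PAR
import Pool.Agent.TWC.PHI
import Pool.Agent.TWC.PHT
import Pool.Agent.TWC.POS
import Pool.Agent.TWC.PR
import Pool.Agent.TWC.PS3
import Pool.Agent.TWC.RED
import Pool.Agent.TWC.RKF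
import Pool.Agent.TWC.TMD
import Pool.Agent.TWC.TR3
import Pool.Agent.TWC.VAN

/-!
# TWC: assembly
-/

set_option autoImplicit false

namespace Pool.TWC

open LaurentPolynomial Pool.Agent.ARB Pool.Agent.Helper2 Pool.ALT

theorem p1 : St_P1 := thm_P1
theorem n1 : St_N1 := thm_N1
theorem n2 : St_N2 := thm_N2 p1
theorem prr : St_PR := thm_PR n1 n2
theorem ftu : St_FTU := thm_FTU
theorem ftn : St_FTN := thm_FTN
theorem ftp : St_FTP := thm_FTP ftu ftn
theorem tmd : St_TMD := thm_TMD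
theorem phi : St_PHI := thm_PHI
theorem pht : St_PHT := thm_PHT
theorem exx : St_EXP := thm_EXP
theorem frm : St_FOR := thm_FOR ftp tmd phi exx
theorem coe : St_COE := thm_COE
theorem cnn : St_CNN := thm_CNN
theorem cir : St_CIR := thm_CIR p1
theorem hmd : St_HMD := thm_HMD
theorem mht : St_MHT := thm_MHT prr hmd thm_HPS thm_HTR
theorem par : St_PAR := thm_PAR
theorem poss : St_POS := thm_POS
theorem nff : St_NFF := thm_NFF poss thm_NBR
theorem mnu : St_MNU := thm_MNU mht par nff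
theorem cmd : St_CMD := thm_CMD
theorem cnt : St_CNT := thm_CNT cmd thm_TR3
theorem eqn : St_EQN := thm_EQN cmd thm_PS3 cnt
theorem mtr : St_MTR := thm_MTR eqn thm_GAM (thm_VAN thm_EMB) (thm_ONE thm_EMB) (thm_LOO thm_EMB)
  thm_RKF thm_LIN mnu mht par (thm_HGT poss thm_NBR) nff

theorem far_ne (u v : Word) (w : ℕ) (h : Far u v w) : w ≠ 0 := by
  rintro rfl
  exact h 0 (by omega) (Arc.same (Relation.EqvGen.refl _))

/-- **Full twists along an arc between distant regions of a reduced alternating diagram.** -/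
theorem main (e : Bool) (u v : Word) (n w : ℕ) (k : ℤ) (K : List Slice)
    (hu : Pool.Agent.ARB.Ok u 0 n) (hv : Pool.Agent.ARB.Ok v n 0) (hw : w ≤ n)
    (ha : ∀ (p : Bool) (i : ℕ), pX i p ∈ u ++ v → (p = e ↔ i % 2 = 0)) (hr : Reduced (u ++ v))
    (hF : Far u v w) (hk : k ≠ 0) (hK : IsDiagram K) (hKf : forget K = u ++ FT w k ++ v) :
    ¬ IsUnit (bracket K) := by
  have hw0 := far_ne u v w hF
  have hu0 : u ≠ [] := by
    rintro rfl
    have : 0 = n := hu
    omega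
  have hD0 : u ++ v ≠ [] := by simp [hu0]
  have hK0 : K ≠ [] := by
    rintro rfl
    have h : ([] : Word) = u ++ FT w k ++ v := hKf
    have := congrArg List.length h
    simp only [List.length_nil, List.length_append] at this
    exact hu0 (List.length_eq_zero_iff.1 (by omega))
  intro hunit
  obtain ⟨τ, r, hτ, hτk, hτr⟩ : ∃ (τ : ℤ) (r : Bool), (τ = 1 ∨ τ = -1) ∧ τ * k < 0 ∧
      τ = (if r = e then 1 else -1) := by
    rcases lt_or_gt_of_ne hk with h | h
    · exact ⟨1, e, Or.inl rfl, by omega, by simp⟩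
    · exact ⟨-1, !e, Or.inr rfl, by omega, by cases e <;> simp⟩
  have hex : ∀ S : Finset (Fin (nX (u ++ v))), ∃ x : ℕ × ℕ, Pr (st r S) u v w x.1 x.2 := by
    intro S
    obtain ⟨l, m, h⟩ := prr (st r S) u v n w hu hv hw
    exact ⟨(l, m), h⟩
  choose x hx using hex
  have hfor := frm u v n w k K r e τ hu hv hw hK hK0 hKf ha hτr (fun S => (x S).1)
    (fun S => (x S).2) hx
  have hmod : ∃ M : Model ℤ ((ℕ → ℤ) → ℤ), M.δ = 2 ∧ Cc M ∧ M.init = fun _ => 1 := by
    obtain ⟨M, hM⟩ := hmd.1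
    exact ⟨M, hM.del, (hmd.2 M hM).1, hM.init⟩
  have hpos : ∀ S, 1 ≤ (x S).1 + (x S).2 := fun S =>
    cir hmod (st r S) u v n w _ _ hu hv hw hD0 (hx S)
  obtain ⟨S, hS⟩ := cnn (nX (u ++ v)) w k τ (bracket K) (fun S => (x S).1) (fun S => (x S).2)
    (pht k τ hτ hτk).2.2.2.2.2 hfor hpos hunit
  have hCon : Con (u ++ v) := thm_CN2 (u ++ v) (hu.append hv)
    ⟨st r S, thm_CON (st r S) u v n w _ _ hu hv hw hD0 (hx S) hS⟩
  obtain ⟨n₀, rk, h1, h2, h3, h4, h5, h6, h7, h8⟩ := mtr r u v n w hu hv hw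
    (fun k => thm_RED poss (u ++ v) (hu.append hv) hr r k) hF hCon (fun S => (x S).1)
    (fun S => (x S).2) hx
  exact coe (nX (u ++ v)) w n₀ (m0 r w) k τ (bracket K) (fun S => (x S).1) (fun S => (x S).2) rk
    hτ hτk pht hfor h1 h2 h3 h4 h5 h6 h7 h8 hunit

/-- The same for the normalized polynomial. -/
theorem mainF (e : Bool) (u v : Word) (n w : ℕ) (k : ℤ) (K : List Slice)
    (hu : Pool.Agent.ARB.Ok u 0 n) (hv : Pool.Agent.ARB.Ok v n 0) (hw : w ≤ n)
    (ha : ∀ (p : Bool) (i : ℕ), pX i p ∈ u ++ v → (p = e ↔ i % 2 = 0)) (hr : Reduced (u ++ v))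
    (hF : Far u v w) (hk : k ≠ 0) (hK : IsDiagram K) (hKf : forget K = u ++ FT w k ++ v) :
    ¬ IsUnit (fPoly K) := by
  intro h
  refine main e u v n w k K hu hv hw ha hr hF hk hK hKf ?_
  unfold fPoly at h
  exact isUnit_of_mul_isUnit_right h

end Pool.TWC
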