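import Pool.Agent.TWC.StD
import Pool.Agent.TWB.Uni

/-!
# TWC / CO2: the two extreme coefficients, without the hypothesis on the crossings
-/

set_option autoImplicit false

namespace Pool.TWC

open LaurentPolynomial Pool.Agent.ARB Pool.Agent.Helper2 Pool.ALT

private theorem co2_T (c m : ℤ) (p : LP) : (T c * p : LP).coeff m = p.coeff (m - c) := by
  have h : (T c : LP) = AddMonoidAlgebra.single c 1 := rfl
  rw [h, AddMonoidAlgebra.coeff_single_mul_eq_mul_coeff (m - c) (fun m' _ => by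
    constructor <;> intro h <;> omega), one_mul]

private theorem co2_loop (m : ℤ) (p : LP) :
    (loopVal * p : LP).coeff m = -(p.coeff (m - 2) + p.coeff (m + 2)) := by
  have h : (loopVal * p : LP) + (T 2 * p + T (-2) * p) = 0 := by
    rw [loopVal]
    ring
  have h2 := congrArg (fun q : LP => q.coeff m) h
  rw [AddMonoidAlgebra.coeff_add, AddMonoidAlgebra.coeff_add, Finsupp.add_apply,
    Finsupp.add_apply, co2_T, co2_T, sub_neg_eq_add] at h2
  have h3 : (0 : LP).coeff m = 0 := rfl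
  rw [h3] at h2
  linarith

private theorem co2_loop' {τ : ℤ} (hτ : τ = 1 ∨ τ = -1) (j : ℤ) (p : LP) :
    (loopVal * p : LP).coeff (τ * j) = -(p.coeff (τ * (j - 2)) + p.coeff (τ * (j + 2))) := by
  rw [co2_loop]
  rcases hτ with rfl | rfl
  · simp only [one_mul]
  · have e1 : (-1 : ℤ) * (j - 2) = -1 * j + 2 := by ring
    have e2 : (-1 : ℤ) * (j + 2) = -1 * j - 2 := by ring
    rw [e1, e2, add_comm]

private theorem co2_T' {τ : ℤ} (c j : ℤ) (p : LP) :
    (T (τ * c) * p : LP).coeff (τ * j) = p.coeff (τ * (j - c)) := by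
  rw [co2_T]
  congr 1
  ring

private theorem co2_le_T {τ d : ℤ} (c : ℤ) {p : LP} (h : Le τ d p) :
    Le τ (d + c) (T (τ * c) * p) := by
  intro j hj
  rw [co2_T']
  exact h _ (by omega)

private theorem co2_tp_T {τ d a b : ℤ} (c : ℤ) {p : LP} (h : Tp τ d a b p) :
    Tp τ (d + c) a b (T (τ * c) * p) := by
  refine ⟨co2_le_T c h.le, ?_, fun j h1 h2 => ?_, ?_⟩
  · rw [co2_T', add_sub_cancel_right]
    exact h.top
  · rw [co2_T']
    exact h.gap _ (by omega) (by omega)
  · rw [co2_T']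
    have e : d + c - 4 - c = d - 4 := by ring
    rw [e]
    exact h.next

private theorem co2_le_loop {τ d : ℤ} (hτ : τ = 1 ∨ τ = -1) {p : LP} (h : Le τ d p) :
    Le τ (d + 2) (loopVal * p) := by
  intro j hj
  rw [co2_loop' hτ, h _ (by omega), h _ (by omega)]
  simp

private theorem co2_tp_loop {τ d a b : ℤ} (hτ : τ = 1 ∨ τ = -1) {p : LP} (h : Tp τ d a b p) :
    Tp τ (d + 2) (-a) (-(a + b)) (loopVal * p) := by
  refine ⟨co2_le_loop hτ h.le, ?_, fun j h1 h2 => ?_, ?_⟩
  · rw [co2_loop' hτ, add_sub_cancel_right, h.top, h.le _ (by omega), add_zero]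
  · rw [co2_loop' hτ, h.gap _ (by omega) (by omega), h.le _ (by omega)]
    simp
  · rw [co2_loop' hτ]
    have e1 : d + 2 - 4 - 2 = d - 4 := by ring
    have e2 : d + 2 - 4 + 2 = d := by ring
    rw [e1, e2, h.next, h.top, add_comm]

private theorem co2_le_pow {τ d : ℤ} (hτ : τ = 1 ∨ τ = -1) {p : LP} (h : Le τ d p) (l : ℕ) :
    Le τ (d + 2 * l) (loopVal ^ l * p) := by
  induction l with
  | zero => simpa using h
  | succ l ih =>
    have e : (loopVal ^ (l + 1) * p : LP) = loopVal * (loopVal ^ l * p) := by ring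
    have e2 : d + 2 * ((l + 1 : ℕ) : ℤ) = (d + 2 * (l : ℤ)) + 2 := by
      push_cast
      ring
    rw [e, e2]
    exact co2_le_loop hτ ih

private theorem co2_tp_pow {τ d a b : ℤ} (hτ : τ = 1 ∨ τ = -1) {p : LP} (h : Tp τ d a b p)
    (l : ℕ) : Tp τ (d + 2 * l) ((-1) ^ l * a) ((-1) ^ l * (l * a + b)) (loopVal ^ l * p) := by
  induction l with
  | zero => simpa using h
  | succ l ih =>
    have e : (loopVal ^ (l + 1) * p : LP) = loopVal * (loopVal ^ l * p) := by ring
    have e2 : d + 2 * ((l + 1 : ℕ) : ℤ) = (d + 2 * (l : ℤ)) + 2 := by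
      push_cast
      ring
    have e3 : (-1 : ℤ) ^ (l + 1) * a = -((-1) ^ l * a) := by ring
    have e4 : (-1 : ℤ) ^ (l + 1) * (((l + 1 : ℕ) : ℤ) * a + b) =
        -((-1) ^ l * a + (-1) ^ l * (l * a + b)) := by
      push_cast
      ring
    rw [e, e2, e3, e4]
    exact co2_tp_loop hτ ih

private theorem co2_top_pow {τ d : ℤ} (hτ : τ = 1 ∨ τ = -1) {p : LP} (h : Le τ d p) (l : ℕ) :
    (loopVal ^ l * p : LP).coeff (τ * (d + 2 * l)) = (-1) ^ l * p.coeff (τ * d) := by
  induction l with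
  | zero => simp
  | succ l ih =>
    have e : (loopVal ^ (l + 1) * p : LP) = loopVal * (loopVal ^ l * p) := by ring
    have e2 : d + 2 * ((l + 1 : ℕ) : ℤ) = (d + 2 * (l : ℤ)) + 2 := by
      push_cast
      ring
    rw [e, co2_loop' hτ, co2_le_pow hτ h l (d + 2 * ((l + 1 : ℕ) : ℤ) + 2) (by rw [e2]; omega)]
    have e3 : d + 2 * ((l + 1 : ℕ) : ℤ) - 2 = d + 2 * (l : ℤ) := by
      push_cast
      ring
    rw [e3, ih, add_zero, pow_succ]
    ring

/-- the unit -/
private theorem co2_unit {τ : ℤ} (hτ : τ = 1 ∨ τ = -1) (c s : ℤ) :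
    Tp τ (τ * c + 2) (-s) (-s) (loopVal * (C s * T c)) := by
  have h0 : ∀ i : ℤ, (C s * T c : LP).coeff (τ * i) = if i = τ * c then s else 0 := by
    intro i
    rw [← single_eq_C_mul_T, AddMonoidAlgebra.coeff_single, Finsupp.single_apply]
    congr 1
    rw [eq_iff_iff]
    rcases hτ with rfl | rfl
    · constructor <;> intro h <;> omega
    · constructor <;> intro h <;> omega
  refine ⟨fun j hj => ?_, ?_, fun j h1 h2 => ?_, ?_⟩
  · rw [co2_loop' hτ, h0, h0, if_neg (by omega), if_neg (by omega)]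
    simp
  · rw [co2_loop' hτ, h0, h0, if_pos (by omega), if_neg (by omega), add_zero]
  · rw [co2_loop' hτ, h0, h0, if_neg (by omega), if_neg (by omega)]
    simp
  · rw [co2_loop' hτ, h0, h0, if_neg (by omega), if_pos (by omega), zero_add]

theorem thm_CO2 : St_CO2 := by
  classical
  intro N w n₀ m₀ k τ p l m rk hτ hk hPHT hPH2 h hmt hu
  obtain ⟨hm, hm0, hm0w, hme, hl, hrk, hrk1, hsum⟩ := hmt
  obtain ⟨P1, P2, P3, P4, P5, -⟩ := hPHT k τ hτ hk
  obtain ⟨P6, P7⟩ := hPH2 k τ hτ hk
  have hττ : τ * τ = 1 := by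
    rcases hτ with rfl | rfl <;> norm_num
  -- the parity
  obtain ⟨dφ, α, β, hα, hle, htop, hβ, hph⟩ : ∃ dφ α β : ℤ, (α = 1 ∨ α = -1) ∧
      (∀ S, Le τ dφ (Ph k (m S))) ∧
      (∀ S, rk S = 1 → (Ph k (m S)).coeff (τ * dφ) = α * cw m₀ (m S)) ∧
      (α * β ≤ (if m₀ = 0 then 0 else 1)) ∧ Tp τ dφ α β (Ph k (m ∅)) := by
    rcases (by omega : m₀ = 0 ∨ m₀ = 1 ∨ m₀ = 2) with h0 | h0 | h0
    · refine ⟨0, 1, 0, Or.inl rfl, fun S => P1 _ (by have := hm S; omega), fun S hS => ?_, ?_, ?_⟩
      · have hc : cw m₀ (m S) = 1 := by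
          unfold cw
          rw [if_neg]
          rintro ⟨-, h2⟩
          exact h2 h0
        rw [hc, mul_one]
        rcases hrk1 S hS with h1 | h1 | h1
        · rw [h1, h0]
          exact P3.top
        · omega
        · rw [h1, h0]
          exact P5.top
      · rw [if_pos h0]
        norm_num
      · rw [hme, h0]
        exact P3
    · refine ⟨2 + 3 * (τ * k), -1, -1, Or.inr rfl, fun S => P2 _ (by have := hm S; omega),
        fun S hS => ?_, ?_, ?_⟩
      · rcases hrk1 S hS with h1 | h1 | h1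
        · have hc : cw m₀ (m S) = 1 := by
            unfold cw
            rw [if_neg]
            rintro ⟨h2, -⟩
            omega
          rw [hc, mul_one, h1, h0]
          exact P4.top
        · omega
        · have hc : cw m₀ (m S) = 2 := by
            unfold cw
            rw [if_pos ⟨h1, by omega⟩]
          rw [hc, h1, h0, P6]
          norm_num
      · rw [if_neg (by omega)]
        norm_num
      · rw [hme, h0]
        exact P4
    · refine ⟨0, 1, if τ * k = -1 then 1 else 0, Or.inl rfl,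
        fun S => P1 _ (by have := hm S; omega), fun S hS => ?_, ?_, ?_⟩
      · rcases hrk1 S hS with h1 | h1 | h1
        · have hc : cw m₀ (m S) = 1 := by
            unfold cw
            rw [if_neg]
            rintro ⟨h2, -⟩
            omega
          rw [hc, mul_one, h1, h0]
          exact P5.top
        · have hc : cw m₀ (m S) = 1 := by
            unfold cw
            rw [if_neg]
            rintro ⟨h2, -⟩
            omega
          rw [hc, mul_one, h1.2]
          exact P3.top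
        · have hc : cw m₀ (m S) = 2 := by
            unfold cw
            rw [if_pos ⟨h1, by omega⟩]
          rw [hc, h1, h0, P7]
          norm_num
      · rw [if_neg (show ¬ m₀ = 0 by omega)]
        split_ifs <;> norm_num
      · rw [hme, h0]
        exact P5
  -- the terms
  set F : Finset (Fin N) → LP := fun S =>
    T (τ * ((N : ℤ) - 2 * S.card)) * (loopVal ^ l S * Ph k (m S)) with hF
  set d₀ : ℤ := N + 2 * n₀ + dφ with hd₀
  have hd : ∀ S, dφ + 2 * (l S : ℤ) + ((N : ℤ) - 2 * S.card) = d₀ - 4 * rk S := by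
    intro S
    have h1 := hl S
    have h2 : (l S : ℤ) + 2 * rk S = n₀ + S.card := by exact_mod_cast h1
    rw [hd₀]
    linarith
  have hFle : ∀ S, Le τ (d₀ - 4 * rk S) (F S) := by
    intro S
    rw [← hd S]
    exact co2_le_T _ (co2_le_pow hτ (hle S) _)
  have hF1 : ∀ S, rk S = 1 →
      (F S).coeff (τ * (d₀ - 4)) = (-1) ^ n₀ * α * ((-1) ^ S.card * cw m₀ (m S)) := by
    intro S hS
    have e1 : d₀ - 4 = dφ + 2 * (l S : ℤ) + ((N : ℤ) - 2 * S.card) := by
      rw [hd S, hS]
      push_cast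
      ring
    rw [e1, hF]
    simp only
    rw [co2_T', add_sub_cancel_right, co2_top_pow hτ (hle S), htop S hS]
    have h1 := hl S
    rw [hS] at h1
    have e2 : (-1 : ℤ) ^ l S = (-1) ^ n₀ * (-1) ^ S.card := by
      rw [← pow_add, ← h1, pow_add]
      norm_num
    rw [e2]
    ring
  have hF0 : Tp τ d₀ ((-1) ^ n₀ * α) ((-1) ^ n₀ * (n₀ * α + β)) (F ∅) := by
    have h1 : rk ∅ = 0 := (hrk ∅).2 rfl
    have h2 : l ∅ = n₀ := by
      have := hl ∅
      rw [h1, Finset.card_empty] at this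
      omega
    have h3 := co2_tp_T ((N : ℤ) - 2 * (∅ : Finset (Fin N)).card) (co2_tp_pow hτ hph (l ∅))
    rw [hd ∅, h1, h2] at h3
    have e : d₀ - 4 * ((0 : ℕ) : ℤ) = d₀ := by
      push_cast
      ring
    rw [e] at h3
    rw [hF]
    simp only
    rw [h2]
    exact h3
  -- the coefficients of the sum
  have hco : ∀ j : ℤ, (∑ S : Finset (Fin N), F S).coeff j = ∑ S : Finset (Fin N), (F S).coeff j := by
    intro j
    rw [AddMonoidAlgebra.coeff_sum, Finset.sum_apply']
  have hpos : ∀ S : Finset (Fin N), S ≠ ∅ → 1 ≤ rk S := by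
    intro S hS
    rcases Nat.eq_zero_or_pos (rk S) with h1 | h1
    · exact absurd ((hrk S).1 h1) hS
    · exact h1
  have hzero : ∀ S : Finset (Fin N), S ≠ ∅ → ∀ j : ℤ, d₀ - 4 < j → (F S).coeff (τ * j) = 0 := by
    intro S hS j hj
    refine hFle S j ?_
    have : (1 : ℤ) ≤ rk S := by exact_mod_cast hpos S hS
    linarith
  have hTp : Tp τ d₀ ((-1) ^ n₀ * α) ((-1) ^ n₀ * (n₀ * α + β) +
      ∑ S ∈ Finset.univ.filter (fun S => rk S = 1),
        (-1) ^ n₀ * α * ((-1) ^ S.card * cw m₀ (m S)))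
      (∑ S : Finset (Fin N), F S) := by
    refine ⟨fun j hj => ?_, ?_, fun j h1 h2 => ?_, ?_⟩
    · rw [hco]
      refine Finset.sum_eq_zero fun S _ => hFle S j ?_
      have : (0 : ℤ) ≤ rk S := by positivity
      linarith
    · rw [hco, Finset.sum_eq_single ∅]
      · exact hF0.top
      · intro S _ hS
        exact hzero S hS _ (by linarith)
      · intro h1
        exact absurd (Finset.mem_univ _) h1
    · rw [hco, Finset.sum_eq_single ∅]
      · exact hF0.gap j h1 h2
      · intro S _ hS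
        exact hzero S hS _ h1
      · intro h1
        exact absurd (Finset.mem_univ _) h1
    · rw [hco, ← Finset.add_sum_erase _ _ (Finset.mem_univ (∅ : Finset (Fin N))), hF0.next]
      congr 1
      have e1 : Finset.univ.filter (fun S : Finset (Fin N) => rk S = 1) =
          (Finset.univ.erase (∅ : Finset (Fin N))).filter (fun S => rk S = 1) := by
        ext S
        simp only [Finset.mem_filter, Finset.mem_univ, true_and, Finset.mem_erase, and_true]
        constructor
        · intro h1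
          refine ⟨fun h2 => ?_, h1⟩
          rw [(hrk S).2 h2] at h1
          exact absurd h1 (by norm_num)
        · exact fun h1 => h1.2
      rw [e1, Finset.sum_filter]
      refine Finset.sum_congr rfl fun S hS => ?_
      split_ifs with h1
      · exact hF1 S h1
      · refine hFle S _ ?_
        have h2 := hpos S (Finset.ne_of_mem_erase hS)
        have h3 : (2 : ℤ) ≤ rk S := by exact_mod_cast (by omega : 2 ≤ rk S)
        linarith
  -- the left side
  obtain ⟨j, ε, hp⟩ := Pool.Agent.TWB.thm_Uni p hu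
  have hs : (((ε : ℤˣ) : ℤ) = 1) ∨ (((ε : ℤˣ) : ℤ) = -1) := by
    rcases Int.units_eq_one_or ε with h1 | h1
    · left
      rw [h1]
      rfl
    · right
      rw [h1]
      rfl
  generalize ((ε : ℤˣ) : ℤ) = s at hp hs
  have hL : Tp τ (τ * j + 2 + τ * (3 * k * w)) (-s) (-s) (T (3 * k * w) * (loopVal * p)) := by
    have h1 := co2_tp_T (τ * (3 * k * w)) (co2_unit hτ j s)
    have e : τ * (τ * (3 * k * w)) = 3 * k * w := by
      rw [← mul_assoc, hττ, one_mul]
    rw [e] at h1
    rw [hp]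
    exact h1
  rw [h] at hL
  set d₁ : ℤ := τ * j + 2 + τ * (3 * k * w) with hd₁
  set b : ℤ := (-1) ^ n₀ * (n₀ * α + β) +
      ∑ S ∈ Finset.univ.filter (fun S => rk S = 1),
        (-1) ^ n₀ * α * ((-1) ^ S.card * cw m₀ (m S)) with hb
  have hsg : ((-1 : ℤ) ^ n₀ = 1) ∨ ((-1 : ℤ) ^ n₀ = -1) := neg_one_pow_eq_or ℤ n₀
  have hane : (-1 : ℤ) ^ n₀ * α ≠ 0 := by
    rcases hsg with h1 | h1 <;> rcases hα with h2 | h2 <;> rw [h1, h2] <;> norm_num
  have hsne : -s ≠ 0 := by
    rcases hs with h1 | h1 <;> rw [h1] <;> norm_num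
  have hdd : d₀ = d₁ := by
    rcases lt_trichotomy d₀ d₁ with h1 | h1 | h1
    · exact absurd (hL.top.symm.trans (hTp.le _ h1)) hsne
    · exact h1
    · exact absurd (hTp.top.symm.trans (hL.le _ h1)) hane
  rw [← hdd] at hL
  have ha : (-1 : ℤ) ^ n₀ * α = -s := hTp.top.symm.trans hL.top
  have hbs : b = -s := hTp.next.symm.trans hL.next
  have hab : ((-1 : ℤ) ^ n₀ * α) * b = 1 := by
    rw [ha, hbs]
    rcases hs with h1 | h1 <;> rw [h1] <;> norm_num
  have hab2 : ((-1 : ℤ) ^ n₀ * α) * b = (n₀ : ℤ) + α * β +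
      ∑ S ∈ Finset.univ.filter (fun S => rk S = 1), (-1 : ℤ) ^ S.card * cw m₀ (m S) := by
    rw [hb, ← Finset.mul_sum]
    have e1 : (-1 : ℤ) ^ n₀ * (-1) ^ n₀ = 1 := by
      rcases hsg with h1 | h1 <;> rw [h1] <;> norm_num
    have e2 : α * α = 1 := by
      rcases hα with h1 | h1 <;> rw [h1] <;> norm_num
    generalize (∑ S ∈ Finset.univ.filter (fun S => rk S = 1),
      (-1 : ℤ) ^ S.card * cw m₀ (m S)) = Q
    calc ((-1 : ℤ) ^ n₀ * α) * ((-1) ^ n₀ * (n₀ * α + β) + (-1) ^ n₀ * α * Q) =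
        ((-1 : ℤ) ^ n₀ * (-1) ^ n₀) * ((α * α) * n₀ + α * β + (α * α) * Q) := by ring
      _ = _ := by rw [e1, e2]; ring
  have hfin := hab.symm.trans hab2
  linarith

end Pool.TWC
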