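import Pool.Agent.TWC.StD

/-!
# TWC: [CRV] antiperiodic colourings along paths (helper6)
-/

set_option autoImplicit false

namespace Pool.TWC

open LaurentPolynomial Pool.Agent.ARB Pool.Agent.Helper2 Pool.ALT
open Pool.TWI (Same Pass)

private theorem CRV_lc_zero : ∀ (n : ℕ) (w : Word) (i : ℕ), lc n w 0 i = bo n w i
  | _, [], _ => rfl
  | _, _ :: _, _ => rfl

private theorem CRV_lc_length : ∀ (u : Word) (n j : ℕ), lc n u u.length j = tp n u j
  | [], _, _ => rfl
  | s :: u, n, j => by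
      show (Sum.inr (lc (n - s.k.inn + s.k.out) u u.length j) :
        Fin (n + 1) ⊕ Loc (n - s.k.inn + s.k.out) u) = Sum.inr (tp (n - s.k.inn + s.k.out) u j)
      rw [CRV_lc_length u _ j]

private theorem CRV_strn_length : ∀ (u : Word) (n : ℕ), strn n u u.length = wd n u
  | [], _ => rfl
  | s :: u, n => CRV_strn_length u (n - s.k.inn + s.k.out)

private theorem CRV_pass_gl {s : Piece} {i j : ℕ} (h : Pass s i j) : gl s i j := by
  obtain ⟨k, a⟩ := s
  cases h with
  | left i h =>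
    have h' : i ≤ a := h
    cases k with
    | U => exact Or.inl ⟨h', rfl⟩
    | N => exact Or.inl ⟨h', rfl⟩
    | X p =>
      refine ⟨rfl, ?_⟩
      show i ≠ a + 1
      omega
  | right i =>
    cases k with
    | U =>
      refine Or.inr ⟨?_, ?_⟩
      · show a ≤ a + 0 + i
        omega
      · show a + 2 + i = a + 0 + i + 2
        omega
    | N =>
      refine Or.inr ⟨?_, ?_⟩
      · show a ≤ a + 0 + i
        omega
      · show a + 2 + i = a + 0 + i + 2
        omega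
    | X p =>
      refine ⟨rfl, ?_⟩
      show a + 2 + i ≠ a + 1
      omega

private theorem CRV_pass_le {s : Piece} {i j n : ℕ} (hs : s.i + s.k.inn ≤ n) (h : Pass s i j) :
    i ≤ n ↔ j ≤ n - s.k.inn + s.k.out := by
  cases h with
  | left i h => omega
  | right i => omega

private theorem CRV_step : ∀ (w : Word) (n m l i j : ℕ) (s : Piece), Ok w n m → w[l]? = some s →
    Pass s i j → (i ≤ strn n w l ↔ j ≤ strn n w (l + 1)) ∧
      (i ≤ strn n w l → R0 n w (lc n w l i) (lc n w (l + 1) j))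
  | [], _, _, _, _, _, _, _, h, _ => by simp at h
  | s' :: w, n, m, 0, i, j, s, hok, h, hp => by
      have hs : s' = s := by simpa using h
      subst hs
      have h1 := CRV_pass_le hok.1 hp
      refine ⟨h1, fun hi => Or.inl ⟨i, j, hi, h1.1 hi, CRV_pass_gl hp, rfl, ?_⟩⟩
      show (Sum.inr (lc (n - s'.k.inn + s'.k.out) w 0 j) :
        Fin (n + 1) ⊕ Loc (n - s'.k.inn + s'.k.out) w) = _
      rw [CRV_lc_zero]
  | s' :: w, n, m, l + 1, i, j, s, hok, h, hp => by
      have h' : w[l]? = some s := by simpa using h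
      have ih := CRV_step w (n - s'.k.inn + s'.k.out) m l i j s hok.2 h' hp
      exact ⟨ih.1, fun hi => Or.inr ⟨_, _, rfl, rfl, ih.2 hi⟩⟩

private theorem CRV_same {w : Word} {n m : ℕ} (hok : Ok w n m) (f : Loc n w → ZMod 3)
    (hf : ∀ x y, R0 n w x y → f x = f y) {x y : ℕ × ℕ} (h : Same w x y) :
    ((x.1 ≤ w.length ∧ x.2 ≤ strn n w x.1) ↔ (y.1 ≤ w.length ∧ y.2 ≤ strn n w y.1)) ∧
      ((x.1 ≤ w.length ∧ x.2 ≤ strn n w x.1) →
        f (lc n w y.1 y.2) = f (lc n w x.1 x.2)) := by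
  induction h with
  | rel x y h =>
    obtain ⟨s, h1, h2, h3⟩ := h
    obtain ⟨l, i⟩ := x
    obtain ⟨l', j⟩ := y
    have h2' : l' = l + 1 := h2
    subst h2'
    have h1' : w[l]? = some s := h1
    have h3' : Pass s i j := h3
    have hl : l < w.length := by
      by_contra hl
      rw [List.getElem?_eq_none (not_lt.1 hl)] at h1'
      exact absurd h1' (by simp)
    obtain ⟨h4, h5⟩ := CRV_step w n m l i j s hok h1' h3'
    refine ⟨⟨fun h => ⟨hl, h4.1 h.2⟩, fun h => ⟨hl.le, h4.2 h.2⟩⟩, fun h => ?_⟩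
    exact (hf _ _ (h5 h.2)).symm
  | refl x => exact ⟨Iff.rfl, fun _ => rfl⟩
  | symm x y _ ih => exact ⟨ih.1.symm, fun h => (ih.2 (ih.1.2 h)).symm⟩
  | trans x y z _ _ ih1 ih2 =>
    exact ⟨ih1.1.trans ih2.1, fun h => (ih2.2 (ih1.1.1 h)).trans (ih1.2 h)⟩

theorem thm_CRV : St_CRV := by
  intro ρ u v w hu hv hw p hp c x y h
  obtain ⟨_, ⟨hR1, hR2⟩, hmid, h0, hw0⟩ := hp
  induction h with
  | @low x y h =>
    have h1 := CRV_same hu p.1 hR1 h
    obtain ⟨l, i⟩ := x
    obtain ⟨l', j⟩ := y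
    refine ⟨h1.1, fun h2 => ?_⟩
    have h3 : p.1 (lc 0 u l' j) = p.1 (lc 0 u l i) := h1.2 h2
    show p.1 (lc 0 u l' j) = (if false = true then -1 else 1) * p.1 (lc 0 u l i)
    rw [h3, if_neg (by simp), one_mul]
  | @high x y h =>
    have h1 := CRV_same hv p.2 hR2 h
    obtain ⟨l, i⟩ := x
    obtain ⟨l', j⟩ := y
    refine ⟨h1.1, fun h2 => ?_⟩
    have h3 : p.2 (lc (wd 0 u) v l' j) = p.2 (lc (wd 0 u) v l i) := h1.2 h2
    show p.2 (lc (wd 0 u) v l' j) = (if false = true then -1 else 1) * p.2 (lc (wd 0 u) v l i)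
    rw [h3, if_neg (by simp), one_mul]
  | seam j c hc hc' =>
    have h1 : strn 0 u u.length = wd 0 u := CRV_strn_length u 0
    have h2 : lc 0 u u.length j = tp 0 u j := CRV_lc_length u 0 j
    have h3 : lc (wd 0 u) v 0 j = bo (wd 0 u) v j := CRV_lc_zero _ v j
    have hv0 : vld u v (false, u.length, j) ↔ j ≤ wd 0 u := by
      show (u.length ≤ u.length ∧ j ≤ strn 0 u u.length) ↔ _
      rw [h1]
      simp
    have hv1 : vld u v (true, 0, j) ↔ j ≤ wd 0 u := by
      show (0 ≤ v.length ∧ j ≤ wd 0 u) ↔ _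
      simp
    refine ⟨hv0.trans hv1.symm, fun h4 => ?_⟩
    have h5 := hmid j (hv0.1 h4)
    show p.2 (lc (wd 0 u) v 0 j) = (if c = true then -1 else 1) * p.1 (lc 0 u u.length j)
    rw [h2, h3, h5]
    rcases Nat.eq_zero_or_pos j with hj | hj
    · subst hj
      rw [h0, mul_zero, mul_zero]
    · rcases lt_trichotomy j w with hjw | hjw | hjw
      · rw [if_pos ⟨hj, hjw⟩, if_pos (hc hj hjw)]
      · subst hjw
        rw [hw0, mul_zero, mul_zero]
      · rw [if_neg (by omega), hc' hjw, if_neg (by simp)]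
  | @symm c x y _ ih =>
    refine ⟨ih.1.symm, fun h1 => ?_⟩
    rw [ih.2 (ih.1.2 h1)]
    cases c <;> simp
  | @trans c d x y z _ _ ih1 ih2 =>
    refine ⟨ih1.1.trans ih2.1, fun h1 => ?_⟩
    rw [ih2.2 (ih1.1.1 h1), ih1.2 h1]
    cases c <;> cases d <;> simp

end Pool.TWC
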