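import Pool.Agent.TWC.StD

set_option autoImplicit false

/-!
# TWC, [FAC]: antiperiodic colourings of single regions
-/

namespace Pool.TWC

open LaurentPolynomial Pool.Agent.ARB Pool.Agent.Helper2 Pool.ALT

private theorem FAC_cov : ∀ (u : Word) (n : ℕ) (v : Word) (z : Loc n (u ++ v)),
    (∃ x, iu n u v x = z) ∨ ∃ y, iv n u v y = z
  | [], _, _, z => Or.inr ⟨z, rfl⟩
  | s :: u, n, v, z => by
      rcases z with j | z
      · exact Or.inl ⟨(Sum.inl j : Fin (n + 1) ⊕ Loc (n - s.k.inn + s.k.out) u), rfl⟩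
      · rcases FAC_cov u (n - s.k.inn + s.k.out) v z with ⟨x, hx⟩ | ⟨y, hy⟩
        · refine Or.inl ⟨(Sum.inr x : Fin (n + 1) ⊕ Loc (n - s.k.inn + s.k.out) u), ?_⟩
          show (Sum.inr (iu (n - s.k.inn + s.k.out) u v x) :
            Fin (n + 1) ⊕ Loc (n - s.k.inn + s.k.out) (u ++ v)) = Sum.inr z
          rw [hx]
        · refine Or.inr ⟨y, ?_⟩
          show (Sum.inr (iv (n - s.k.inn + s.k.out) u v y) :
            Fin (n + 1) ⊕ Loc (n - s.k.inn + s.k.out) (u ++ v)) = Sum.inr z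
          rw [hy]

/-- the predicate: the colour is zero -/
private theorem FAC_Z (hE : St_EMB) {ρ : Bool} {s : ZMod 3} (hs : s = 1 ∨ s = -1) {u v : Word}
    {w : ℕ} {p : Lv u v} (hp : p ∈ Base ρ s u v w) :
    ∃ Z : Loc 0 (u ++ v) → Prop, (∀ x, Z (iu 0 u v x) = (p.1 x = 0)) ∧
      (∀ y, Z (iv 0 u v y) = (p.2 y = 0)) ∧
      (∀ z z', gs 0 (u ++ v) z z' → (Z z ↔ Z z')) ∧
      (∀ z, pa 0 (u ++ v) z ≠ ρ → Z z) ∧ Z (md 0 u v 0) ∧ Z (md 0 u v w) := by
  obtain ⟨e1, -, e3, e4, -, -, e7, -⟩ := hE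
  obtain ⟨⟨a1, a2⟩, ⟨a3, a4⟩, a5, a6, a7⟩ := hp
  have hs0 : s ≠ 0 := by
    rcases hs with rfl | rfl <;> decide
  obtain ⟨Z, hZ1, hZ2⟩ := e7 u v 0 Prop (fun x => p.1 x = 0) (fun y => p.2 y = 0) (by
    intro j hj
    show (p.2 (bo (wd 0 u) v j) = 0) = (p.1 (tp 0 u j) = 0)
    rw [a5 j hj]
    apply propext
    split_ifs with h
    · rw [mul_eq_zero]
      exact or_iff_right hs0
    · rw [one_mul])
  refine ⟨Z, hZ1, hZ2, ?_, ?_, ?_, ?_⟩
  · intro z z' h
    have h1 : gs 0 (u ++ v) ≤ Setoid.ker Z := by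
      refine iSup_le fun x => iSup_le fun y => iSup_le fun h => (pr_le_iff _ _ _).2 ?_
      show Z x = Z y
      rcases e4 u v 0 x y h with ⟨x', y', h', rfl, rfl⟩ | ⟨x', y', h', rfl, rfl⟩
      · rw [hZ1, hZ1, a3 x' y' h']
      · rw [hZ2, hZ2, a4 x' y' h']
    have h2 : Z z = Z z' := h1 h
    rw [h2]
  · intro z hz
    rcases FAC_cov u 0 v z with ⟨x, rfl⟩ | ⟨y, rfl⟩
    · rw [hZ1]
      exact a1 x (by rw [← (e3 u v 0).1 x]; exact hz)
    · rw [hZ2]
      exact a2 y (by rw [← (e3 u v 0).2 y]; exact hz)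
  · rw [← (e1 u v 0 0).1, hZ1]
    exact a6
  · rw [← (e1 u v 0 w).1, hZ1]
    exact a7

open Classical in
/-- evaluation at a local region -/
private noncomputable def FAC_ev (u v : Word) (z : Loc 0 (u ++ v)) : Lv u v →ₗ[ZMod 3] ZMod 3 :=
  if h : ∃ x, iu 0 u v x = z then
    (LinearMap.proj h.choose).comp (LinearMap.fst (ZMod 3) (Loc 0 u → ZMod 3)
      (Loc (wd 0 u) v → ZMod 3))
  else if h' : ∃ y, iv 0 u v y = z then
    (LinearMap.proj h'.choose).comp (LinearMap.snd (ZMod 3) (Loc 0 u → ZMod 3)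
      (Loc (wd 0 u) v → ZMod 3))
  else 0

private theorem FAC_ev_spec (u v : Word) (z : Loc 0 (u ++ v)) :
    (∃ x, iu 0 u v x = z ∧ ∀ p, FAC_ev u v z p = p.1 x) ∨
    ∃ y, iv 0 u v y = z ∧ ∀ p, FAC_ev u v z p = p.2 y := by
  unfold FAC_ev
  split_ifs with h h'
  · exact Or.inl ⟨h.choose, h.choose_spec, fun p => rfl⟩
  · exact Or.inr ⟨h'.choose, h'.choose_spec, fun p => rfl⟩
  · rcases FAC_cov u 0 v z with h1 | h1
    · exact absurd h1 h
    · exact absurd h1 h'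

private theorem FAC_base (hE : St_EMB) {ρ : Bool} {u v : Word} {w : ℕ}
    (G : Loc 0 (u ++ v) → ZMod 3) (hpar : ∀ z, pa 0 (u ++ v) z ≠ ρ → G z = 0)
    (hR : ∀ z z', gs 0 (u ++ v) z z' → G z = G z') (h0 : G (md 0 u v 0) = 0)
    (hw : G (md 0 u v w) = 0) :
    ((fun a => G (iu 0 u v a), fun b => G (iv 0 u v b)) : Lv u v) ∈ Base ρ 1 u v w := by
  obtain ⟨e1, -, e3, -, e5, -, -, -⟩ := hE
  have hgs : ∀ z z', R0 0 (u ++ v) z z' → gs 0 (u ++ v) z z' := by
    intro z z' h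
    have h1 : pr z z' ≤ gs 0 (u ++ v) :=
      le_iSup_of_le z (le_iSup_of_le z' (le_iSup_of_le h le_rfl))
    exact (pr_le_iff _ _ _).1 h1
  refine ⟨⟨fun a ha => ?_, fun b hb => ?_⟩, ⟨fun a b h => ?_, fun a b h => ?_⟩, fun j hj => ?_,
    ?_, ?_⟩
  · exact hpar _ (by rw [(e3 u v 0).1 a]; exact ha)
  · exact hpar _ (by rw [(e3 u v 0).2 b]; exact hb)
  · exact hR _ _ (hgs _ _ ((e5 u v 0).1 a b h))
  · exact hR _ _ (hgs _ _ ((e5 u v 0).2 a b h))
  · show G (iv 0 u v (bo (wd 0 u) v j)) = _ * G (iu 0 u v (tp 0 u j))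
    rw [(e1 u v 0 j).1, (e1 u v 0 j).2, ite_self, one_mul]
  · show G (iu 0 u v (tp 0 u 0)) = 0
    rw [(e1 u v 0 0).1]
    exact h0
  · show G (iu 0 u v (tp 0 u w)) = 0
    rw [(e1 u v 0 w).1]
    exact hw

/-- [FAC] -/
theorem thm_FAC (hE : St_EMB) : St_FAC := by
  classical
  intro ρ u v w hu hv hw hfin z hz hF hF'
  have hok : Ok (u ++ v) 0 0 := hu.append hv
  let good : Loc 0 (u ++ v) → Prop := fun z => pa 0 (u ++ v) z = ρ ∧
    ¬ gs 0 (u ++ v) (md 0 u v 0) z ∧ ¬ gs 0 (u ++ v) (md 0 u v w) z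
  have hgood : ∀ z z', gs 0 (u ++ v) z z' → good z → good z' := by
    rintro z z' h ⟨h1, h2, h3⟩
    exact ⟨by rw [← pa_gs hok h, h1], fun h4 => h2 ((gs 0 (u ++ v)).trans h4 ((gs 0 (u ++ v)).symm h)),
      fun h4 => h3 ((gs 0 (u ++ v)).trans h4 ((gs 0 (u ++ v)).symm h))⟩
  let Q : Type := {q : Quotient (gs 0 (u ++ v)) // ∃ z, Quotient.mk (gs 0 (u ++ v)) z = q ∧ good z}
  have hQf : Finite (Quotient (gs 0 (u ++ v))) := Quotient.finite _
  have hQ : Finite Q := inferInstanceAs (Finite {q : Quotient (gs 0 (u ++ v)) // _})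
  have hQt : Fintype Q := Fintype.ofFinite _
  let rep : Q → Loc 0 (u ++ v) := fun q => q.1.out
  have hrep : ∀ q : Q, Quotient.mk (gs 0 (u ++ v)) (rep q) = q.1 := fun q => Quotient.out_eq _
  have hrepgood : ∀ q : Q, good (rep q) := by
    intro q
    obtain ⟨z, h1, h2⟩ := q.2
    refine hgood z _ ?_ h2
    exact Quotient.exact (h1.trans (hrep q).symm)
  let ev : Lv u v →ₗ[ZMod 3] (Q → ZMod 3) := LinearMap.pi fun q => FAC_ev u v (rep q)
  -- a pair of colourings with value zero on all good classes is zero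
  have hZero : ∀ s : ZMod 3, (s = 1 ∨ s = -1) → ∀ p ∈ Base ρ s u v w,
      ∃ Z : Loc 0 (u ++ v) → Prop, (∀ x, Z (iu 0 u v x) = (p.1 x = 0)) ∧
        (∀ y, Z (iv 0 u v y) = (p.2 y = 0)) ∧ (∀ z z', gs 0 (u ++ v) z z' → (Z z ↔ Z z')) ∧
        (∀ z, ¬ good z → Z z) ∧ ∀ q : Q, ev p q = 0 ↔ Z (rep q) := by
    intro s hs p hp
    obtain ⟨Z, z1, z2, z3, z4, z5, z6⟩ := FAC_Z hE hs hp
    refine ⟨Z, z1, z2, z3, ?_, ?_⟩
    · intro z hz
      by_cases h1 : pa 0 (u ++ v) z = ρ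
      · by_cases h2 : gs 0 (u ++ v) (md 0 u v 0) z
        · exact (z3 _ _ h2).1 z5
        · by_cases h3 : gs 0 (u ++ v) (md 0 u v w) z
          · exact (z3 _ _ h3).1 z6
          · exact absurd ⟨h1, h2, h3⟩ hz
      · exact z4 z h1
    · intro q
      show FAC_ev u v (rep q) p = 0 ↔ Z (rep q)
      rcases FAC_ev_spec u v (rep q) with ⟨x, hx, h⟩ | ⟨y, hy, h⟩
      · rw [h, ← hx, z1]
      · rw [h, ← hy, z2]
  -- injectivity
  have hinj : ∀ s : ZMod 3, (s = 1 ∨ s = -1) →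
      Function.Injective (ev.domRestrict (Base ρ s u v w)) := by
    intro s hs
    rw [← LinearMap.ker_eq_bot, LinearMap.ker_eq_bot']
    rintro ⟨p, hp⟩ h
    obtain ⟨Z, z1, z2, z3, z4, z5⟩ := hZero s hs p hp
    have hall : ∀ z, Z z := by
      intro z
      by_cases hg : good z
      · let q : Q := ⟨Quotient.mk (gs 0 (u ++ v)) z, z, rfl, hg⟩
        have h1 : ev p q = 0 := congrFun h q
        have h2 : gs 0 (u ++ v) (rep q) z := Quotient.exact (hrep q)
        exact (z3 _ _ h2).1 ((z5 q).1 h1)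
      · exact z4 z hg
    apply Subtype.ext
    show p = 0
    refine Prod.ext (funext fun x => ?_) (funext fun y => ?_)
    · have h1 := hall (iu 0 u v x)
      rw [z1] at h1
      exact h1
    · have h1 := hall (iv 0 u v y)
      rw [z2] at h1
      exact h1
  -- surjectivity for `s = 1`
  have hsurj1 : Function.Surjective (ev.domRestrict (Base ρ 1 u v w)) := by
    intro c
    let G : Loc 0 (u ++ v) → ZMod 3 := fun z =>
      if h : good z then c ⟨Quotient.mk (gs 0 (u ++ v)) z, z, rfl, h⟩ else 0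
    have hG1 : ∀ z (h : good z), G z = c ⟨Quotient.mk (gs 0 (u ++ v)) z, z, rfl, h⟩ :=
      fun z h => dif_pos h
    have hG0 : ∀ z, ¬ good z → G z = 0 := fun z h => dif_neg h
    have hGR : ∀ z z', gs 0 (u ++ v) z z' → G z = G z' := by
      intro z z' h
      by_cases hg : good z
      · have hg' := hgood z z' h hg
        rw [hG1 z hg, hG1 z' hg']
        congr 1
        exact Subtype.ext (Quotient.sound h)
      · have hg' : ¬ good z' := fun h' => hg (hgood z' z ((gs 0 (u ++ v)).symm h) h')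
        rw [hG0 z hg, hG0 z' hg']
    have hp := FAC_base hE (ρ := ρ) (w := w) G (fun z hz => hG0 z fun h => hz h.1) hGR
      (hG0 _ fun h => h.2.1 ((gs 0 (u ++ v)).refl _)) (hG0 _ fun h => h.2.2 ((gs 0 (u ++ v)).refl _))
    refine ⟨⟨_, hp⟩, ?_⟩
    funext q
    show FAC_ev u v (rep q) ((fun a => G (iu 0 u v a), fun b => G (iv 0 u v b)) : Lv u v) = c q
    have h1 : FAC_ev u v (rep q) ((fun a => G (iu 0 u v a), fun b => G (iv 0 u v b)) : Lv u v) =
        G (rep q) := by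
      rcases FAC_ev_spec u v (rep q) with ⟨x, hx, h⟩ | ⟨y, hy, h⟩
      · rw [h]
        exact congrArg G hx
      · rw [h]
        exact congrArg G hy
    rw [h1, hG1 _ (hrepgood q)]
    congr 1
    exact Subtype.ext (hrep q)
  -- dimensions
  have hd1 : Module.finrank (ZMod 3) (Q → ZMod 3) ≤ Module.finrank (ZMod 3) (Base ρ 1 u v w) := by
    have h1 := LinearMap.finrank_range_le (ev.domRestrict (Base ρ 1 u v w))
    rwa [LinearMap.range_eq_top.2 hsurj1, finrank_top] at h1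
  have hd2 : Module.finrank (ZMod 3) (Base ρ (-1) u v w) ≤ Module.finrank (ZMod 3) (Q → ZMod 3) :=
    LinearMap.finrank_le_finrank_of_injective (hinj (-1) (Or.inr rfl))
  have hd : Module.finrank (ZMod 3) (Base ρ (-1) u v w) = Module.finrank (ZMod 3) (Q → ZMod 3) :=
    le_antisymm hd2 (by rw [hfin]; exact hd1)
  have hsurj : Function.Surjective (ev.domRestrict (Base ρ (-1) u v w)) :=
    (LinearMap.injective_iff_surjective_of_finrank_eq_finrank hd).1 (hinj (-1) (Or.inr rfl))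
  let q0 : Q := ⟨Quotient.mk (gs 0 (u ++ v)) z, z, rfl, hz, hF, hF'⟩
  obtain ⟨⟨p, hp⟩, hpq⟩ := hsurj (fun q => if q = q0 then 1 else 0)
  have hpq' : ∀ q : Q, ev p q = if q = q0 then 1 else 0 := fun q => congrFun hpq q
  obtain ⟨Z, z1, z2, z3, z4, z5⟩ := hZero (-1) (Or.inr rfl) p hp
  have hZz : ¬ Z z := by
    intro h
    have h2 : gs 0 (u ++ v) (rep q0) z := Quotient.exact (hrep q0)
    have h3 := (z5 q0).2 ((z3 _ _ h2).2 h)
    rw [hpq' q0, if_pos rfl] at h3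
    exact absurd h3 (by decide)
  have hZn : ∀ z', ¬ gs 0 (u ++ v) z z' → Z z' := by
    intro z' h
    by_cases hg : good z'
    · let q : Q := ⟨Quotient.mk (gs 0 (u ++ v)) z', z', rfl, hg⟩
      have hq : q ≠ q0 := by
        intro h1
        have h2 : Quotient.mk (gs 0 (u ++ v)) z' = Quotient.mk (gs 0 (u ++ v)) z :=
          congrArg Subtype.val h1
        exact h ((gs 0 (u ++ v)).symm (Quotient.exact h2))
      have h1 : ev p q = 0 := by rw [hpq' q, if_neg hq]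
      have h2 : gs 0 (u ++ v) (rep q) z' := Quotient.exact (hrep q)
      exact (z3 _ _ h2).1 ((z5 q).1 h1)
    · exact z4 z' hg
  refine ⟨p, hp, fun x => ⟨fun h h0 => ?_, fun h => ?_⟩, fun y => ⟨fun h h0 => ?_, fun h => ?_⟩⟩
  · apply hZz
    refine (z3 _ _ h).2 ?_
    rw [z1]
    exact h0
  · have h1 := hZn _ h
    rw [z1] at h1
    exact h1
  · apply hZz
    refine (z3 _ _ h).2 ?_
    rw [z2]
    exact h0
  · have h1 := hZn _ h
    rw [z2] at h1
    exact h1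

end Pool.TWC
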