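import Pool.Agent.TWC.StD

/-!
# TWC [GCR]: regions are connected by paths (helper86)
-/

set_option autoImplicit false

namespace Pool.TWC

open LaurentPolynomial Pool.Agent.ARB Pool.Agent.Helper2 Pool.ALT
open Pool.TWI (Same Pass)

private theorem GCR_ofNat (n : ℕ) (x : Fin (n + 1)) : Fin.ofNat (n + 1) x.val = x := by
  apply Fin.ext
  rw [Fin.val_ofNat, Nat.mod_eq_of_lt x.2]

private theorem GCR_inr (n : ℕ) (s : Piece) (w : Word) (y : Loc (n - s.k.inn + s.k.out) w) :
    pos n (s :: w) (Sum.inr y : Fin (n + 1) ⊕ Loc (n - s.k.inn + s.k.out) w) =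
      ((pos (n - s.k.inn + s.k.out) w y).1 + 1, (pos (n - s.k.inn + s.k.out) w y).2) := rfl

private theorem GCR_bo : ∀ (w : Word) (n j : ℕ), j ≤ n → pos n w (bo n w j) = (0, j)
  | [], n, j, h => by
      show ((0, (Fin.ofNat (n + 1) j).val) : ℕ × ℕ) = (0, j)
      rw [Fin.val_ofNat, Nat.mod_eq_of_lt (show j < n + 1 by omega)]
  | s :: w, n, j, h => by
      show ((0, (Fin.ofNat (n + 1) j).val) : ℕ × ℕ) = (0, j)
      rw [Fin.val_ofNat, Nat.mod_eq_of_lt (show j < n + 1 by omega)]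

private theorem GCR_iu (v : Word) : ∀ (u : Word) (n : ℕ) (x : Loc n u),
    pos n (u ++ v) (iu n u v x) = pos n u x
  | [], n, x => by
    have h : (show Fin (n + 1) from x).val ≤ n := Nat.lt_succ_iff.1 (show Fin (n + 1) from x).2
    exact GCR_bo v n _ h
  | s :: u, n, x => by
    rcases x with x | x
    · rfl
    · have h := GCR_iu v u (n - s.k.inn + s.k.out) x
      show ((pos (n - s.k.inn + s.k.out) (u ++ v) (iu (n - s.k.inn + s.k.out) u v x)).1 + 1,
        (pos (n - s.k.inn + s.k.out) (u ++ v) (iu (n - s.k.inn + s.k.out) u v x)).2) =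
        ((pos (n - s.k.inn + s.k.out) u x).1 + 1, (pos (n - s.k.inn + s.k.out) u x).2)
      rw [h]

private theorem GCR_iv (v : Word) : ∀ (u : Word) (n : ℕ) (y : Loc (wd n u) v),
    pos n (u ++ v) (iv n u v y) = ((pos (wd n u) v y).1 + u.length, (pos (wd n u) v y).2)
  | [], _, _ => rfl
  | s :: u, n, y => by
    have h := GCR_iv v u (n - s.k.inn + s.k.out) y
    show ((pos (n - s.k.inn + s.k.out) (u ++ v) (iv (n - s.k.inn + s.k.out) u v y)).1 + 1,
      (pos (n - s.k.inn + s.k.out) (u ++ v) (iv (n - s.k.inn + s.k.out) u v y)).2) =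
      ((pos (wd (n - s.k.inn + s.k.out) u) v y).1 + (u.length + 1),
        (pos (wd (n - s.k.inn + s.k.out) u) v y).2)
    rw [h]
    rfl

private theorem GCR_le : ∀ (w : Word) (n : ℕ) (x : Loc n w),
    (pos n w x).1 ≤ w.length ∧ (pos n w x).2 ≤ strn n w (pos n w x).1
  | [], n, x => ⟨le_rfl, Nat.lt_succ_iff.1 (show Fin (n + 1) from x).2⟩
  | s :: w, n, x => by
    rcases x with x | x
    · exact ⟨Nat.zero_le _, Nat.lt_succ_iff.1 (show Fin (n + 1) from x).2⟩
    · have h := GCR_le w (n - s.k.inn + s.k.out) x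
      exact ⟨Nat.succ_le_succ h.1, h.2⟩

private theorem GCR_lc : ∀ (w : Word) (n : ℕ) (x : Loc n w),
    lc n w (pos n w x).1 (pos n w x).2 = x
  | [], n, x => GCR_ofNat n x
  | s :: w, n, x => by
    rcases x with x | x
    · show (Sum.inl (Fin.ofNat (n + 1) x.val) : Fin (n + 1) ⊕ Loc (n - s.k.inn + s.k.out) w) =
        Sum.inl x
      rw [GCR_ofNat]
    · have h := GCR_lc w (n - s.k.inn + s.k.out) x
      show (Sum.inr (lc (n - s.k.inn + s.k.out) w (pos (n - s.k.inn + s.k.out) w x).1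
        (pos (n - s.k.inn + s.k.out) w x).2) : Fin (n + 1) ⊕ Loc (n - s.k.inn + s.k.out) w) =
        Sum.inr x
      rw [h]

private theorem GCR_refl (u v : Word) (w : ℕ) : ∀ p : Bool × ℕ × ℕ, Cr u v w false p p
  | (false, x) => Cr.low (Relation.EqvGen.refl x)
  | (true, x) => Cr.high (Relation.EqvGen.refl x)

private theorem GCR_can_iv (u v : Word) (y : Loc (wd 0 u) v) :
    can u v (iv 0 u v y) = (true, pos (wd 0 u) v y) := by
  unfold can
  rw [GCR_iv v u 0 y, if_neg (by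
    show ¬ (pos (wd 0 u) v y).1 + u.length < u.length
    omega)]
  show (true, (pos (wd 0 u) v y).1 + u.length - u.length, (pos (wd 0 u) v y).2) = _
  rw [Nat.add_sub_cancel]

private theorem GCR_can_iu (u v : Word) (w : ℕ) (x : Loc 0 u) :
    ∃ c, Cr u v w c (false, pos 0 u x) (can u v (iu 0 u v x)) := by
  unfold can
  rw [GCR_iu v u 0 x]
  by_cases h : (pos 0 u x).1 < u.length
  · rw [if_pos h]
    exact ⟨false, GCR_refl u v w _⟩
  · rw [if_neg h]
    have h1 : (pos 0 u x).1 = u.length := le_antisymm (GCR_le u 0 x).1 (not_lt.1 h)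
    have h2 : pos 0 u x = (u.length, (pos 0 u x).2) := Prod.ext h1 rfl
    refine ⟨decide ((pos 0 u x).2 < w), ?_⟩
    have h3 : Cr u v w (decide ((pos 0 u x).2 < w)) (false, u.length, (pos 0 u x).2)
        (true, 0, (pos 0 u x).2) := by
      refine Cr.seam _ _ (fun _ h4 => decide_eq_true h4) (fun h4 => decide_eq_false ?_)
      omega
    rw [h1, Nat.sub_self]
    rw [← h2] at h3
    exact h3

/-- [GCR] -/
theorem thm_GCR (h1 : St_POS) (h2 : St_EMB) : St_GCR := by
  refine ⟨fun u v w hu hv => ⟨?_, GCR_can_iu u v w, GCR_can_iv u v⟩,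
    fun n w x => GCR_lc w n x, fun w n m x _ => GCR_le w n x⟩
  let T : Setoid (Loc 0 (u ++ v)) :=
    { r := fun x y => ∃ c, Cr u v w c (can u v x) (can u v y)
      iseqv := ⟨fun x => ⟨false, GCR_refl u v w _⟩,
        fun ⟨c, h⟩ => ⟨c, Cr.symm h⟩,
        fun ⟨c, h⟩ ⟨d, h'⟩ => ⟨xor c d, Cr.trans h h'⟩⟩ }
  have hT : gs 0 (u ++ v) ≤ T := by
    refine iSup_le fun x => iSup_le fun y => iSup_le fun h => (pr_le_iff _ _ _).2 ?_
    show ∃ c, Cr u v w c (can u v x) (can u v y)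
    rcases h2.2.2.2.1 u v 0 x y h with ⟨x', y', h', rfl, rfl⟩ | ⟨x', y', h', rfl, rfl⟩
    · obtain ⟨c, hc⟩ := GCR_can_iu u v w x'
      obtain ⟨d, hd⟩ := GCR_can_iu u v w y'
      have h3 : Same u (pos 0 u x') (pos 0 u y') := h1.1 u 0 (wd 0 u) x' y' hu h'
      exact ⟨_, Cr.trans (Cr.symm hc) (Cr.trans (Cr.low h3) hd)⟩
    · have h3 : Same v (pos (wd 0 u) v x') (pos (wd 0 u) v y') :=
        h1.1 v (wd 0 u) 0 x' y' hv h'
      rw [GCR_can_iv, GCR_can_iv]
      exact ⟨false, Cr.high h3⟩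
  exact fun x y h => hT h

end Pool.TWC
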