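import Pool.Agent.TWC.StD

/-!
# TWC: parallel classes inside of a set (LI2)
-/

set_option autoImplicit false

namespace Pool.TWC

private theorem LI2_rk {N : ℕ} {r : Finset (Fin N) → ℕ} (hr : RkF r) (E : Finset (Fin N)) :
    RkF fun S => r (S ∩ E) + (S \ E).card where
  emp := by simp [hr.emp]
  mono := fun S T h => Nat.add_le_add (hr.mono _ _ (Finset.inter_subset_inter_right h))
    (Finset.card_le_card (Finset.sdiff_subset_sdiff h le_rfl))
  one := by
    intro S e
    show r (insert e S ∩ E) + (insert e S \ E).card ≤ r (S ∩ E) + (S \ E).card + 1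
    by_cases h : e ∈ E
    · rw [Finset.insert_inter_of_mem h, Finset.insert_sdiff_of_mem _ h]
      have := hr.one (S ∩ E) e
      omega
    · rw [Finset.insert_inter_of_notMem h, Finset.insert_sdiff_of_notMem _ h]
      have := Finset.card_insert_le e (S \ E)
      omega
  sub := by
    intro S T
    show r ((S ∪ T) ∩ E) + ((S ∪ T) \ E).card + (r ((S ∩ T) ∩ E) + ((S ∩ T) \ E).card) ≤
      r (S ∩ E) + (S \ E).card + (r (T ∩ E) + (T \ E).card)
    have h1 := hr.sub (S ∩ E) (T ∩ E)
    have h2 := Finset.card_union_add_card_inter (S \ E) (T \ E)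
    rw [← Finset.union_inter_distrib_right] at h1
    rw [← Finset.union_sdiff_distrib] at h2
    have h3 : S ∩ E ∩ (T ∩ E) = S ∩ T ∩ E := by
      ext x
      simp only [Finset.mem_inter]
      tauto
    have h4 : (S \ E) ∩ (T \ E) = (S ∩ T) \ E := by
      ext x
      simp only [Finset.mem_inter, Finset.mem_sdiff]
      tauto
    rw [h3] at h1
    rw [h4] at h2
    omega

theorem thm_LI2 (h : St_LIN) : St_LI2 := by
  intro N r hr h1 E
  have hs : ∀ e, (fun S => r (S ∩ E) + (S \ E).card) {e} = 1 := by
    intro e
    show r ({e} ∩ E) + ({e} \ E).card = 1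
    by_cases he : e ∈ E
    · rw [Finset.singleton_inter_of_mem he, Finset.sdiff_eq_empty_iff_subset.2
        (Finset.singleton_subset_iff.2 he), h1, Finset.card_empty]
    · rw [Finset.singleton_inter_of_notMem he, hr.emp, Finset.sdiff_eq_self_of_disjoint
        (Finset.disjoint_singleton_left.2 he), Finset.card_singleton]
  have h2 := h N _ _ (LI2_rk hr E) (LI2_rk hr E) hs hs (fun _ _ => le_rfl) ∅
  beta_reduce at h2
  rw [Finset.empty_inter, hr.emp, Finset.empty_sdiff, Finset.card_empty, Finset.univ_inter] at h2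
  have h3 : Finset.univ.filter (fun T : Finset (Fin N) => r (T ∩ E) + (T \ E).card = 1) =
      Finset.univ.filter (fun T : Finset (Fin N) => T ⊆ E ∧ r T = 1) ∪
        (Finset.univ \ E).image (fun e => ({e} : Finset (Fin N))) := by
    ext T
    rw [Finset.mem_filter, Finset.mem_union, Finset.mem_filter, Finset.mem_image]
    constructor
    · rintro ⟨-, hT⟩
      by_cases h4 : T \ E = ∅
      · left
        have h5 : T ⊆ E := Finset.sdiff_eq_empty_iff_subset.1 h4
        rw [h4, Finset.card_empty, add_zero, Finset.inter_eq_left.2 h5] at hT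
        exact ⟨Finset.mem_univ _, h5, hT⟩
      · right
        have h5 : 0 < (T \ E).card := Finset.card_pos.2 (Finset.nonempty_iff_ne_empty.2 h4)
        have h6 : (T \ E).card = 1 := by omega
        have h7 : r (T ∩ E) = 0 := by omega
        obtain ⟨e, he⟩ := Finset.card_eq_one.1 h6
        have h8 : T ∩ E = ∅ := by
          by_contra h9
          obtain ⟨x, hx⟩ := Finset.nonempty_iff_ne_empty.2 h9
          have h10 := hr.mono {x} (T ∩ E) (Finset.singleton_subset_iff.2 hx)
          rw [h1] at h10
          omega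
        have h9 : T \ E = T := Finset.sdiff_eq_self_of_disjoint
          (Finset.disjoint_iff_inter_eq_empty.2 h8)
        refine ⟨e, ?_, by rw [← he, h9]⟩
        have h10 : e ∈ T \ E := by rw [he]; exact Finset.mem_singleton_self e
        exact Finset.mem_sdiff.2 ⟨Finset.mem_univ _, (Finset.mem_sdiff.1 h10).2⟩
    · rintro (⟨-, h4, h5⟩ | ⟨e, he, rfl⟩)
      · refine ⟨Finset.mem_univ _, ?_⟩
        rw [Finset.inter_eq_left.2 h4, Finset.sdiff_eq_empty_iff_subset.2 h4, h5,
          Finset.card_empty]
      · exact ⟨Finset.mem_univ _, hs e⟩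
  have h4 : Disjoint (Finset.univ.filter (fun T : Finset (Fin N) => T ⊆ E ∧ r T = 1))
      ((Finset.univ \ E).image (fun e => ({e} : Finset (Fin N)))) := by
    rw [Finset.disjoint_left]
    intro T hT hT'
    obtain ⟨e, he, rfl⟩ := Finset.mem_image.1 hT'
    exact (Finset.mem_sdiff.1 he).2
      (Finset.singleton_subset_iff.1 (Finset.mem_filter.1 hT).2.1)
  rw [h3, Finset.sum_union h4, Finset.sum_image (fun a _ b _ hab => Finset.singleton_injective hab)]
    at h2
  simp only [Finset.card_singleton, pow_one, Finset.sum_const, nsmul_eq_mul] at h2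
  push_cast at h2
  linarith

end Pool.TWC
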