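import Pool.Agent.TWC.StD

/-!
# TWC, module LOM: no crossing is a loop for the antiperiodic colourings
-/

set_option autoImplicit false

namespace Pool.TWC

open LaurentPolynomial Pool.Agent.ARB Pool.Agent.Helper2 Pool.ALT
open Pool.TWI (Same Pass)

private theorem LOM_refl {u v : Word} {w : ℕ} (x : Bool × ℕ × ℕ) : Cr u v w false x x := by
  obtain ⟨b, y⟩ := x
  cases b
  · exact Cr.low (Relation.EqvGen.refl _)
  · exact Cr.high (Relation.EqvGen.refl _)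

/-- the core, for both kinds of crossings -/
private theorem LOM_core (hC : St_CRV) (hG : St_GCR) (hFc : St_FAC) (hP : St_POS) {ρ : Bool}
    {u v : Word} {w : ℕ} (hu : Ok u 0 (wd 0 u)) (hv : Ok v (wd 0 u) 0) (hw : w ≤ wd 0 u)
    (hfin : Module.finrank (ZMod 3) (Base ρ (-1) u v w) =
      Module.finrank (ZMod 3) (Base ρ 1 u v w)) (L : Lv u v → ZMod 3)
    (X Y : Loc 0 (u ++ v)) (qx qy : Bool × ℕ × ℕ) (hX : pa 0 (u ++ v) X = ρ)
    (hY : pa 0 (u ++ v) Y = ρ)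
    (h1 : ¬ (gs 0 (u ++ v) (md 0 u v 0) X ∧ gs 0 (u ++ v) (md 0 u v w) Y))
    (h2 : ¬ (gs 0 (u ++ v) (md 0 u v 0) Y ∧ gs 0 (u ++ v) (md 0 u v w) X))
    (hx : ∃ c, Cr u v w c qx (can u v X)) (hy : ∃ c, Cr u v w c qy (can u v Y))
    (hvx : vld u v qx)
    (hval : ∀ (z : Loc 0 (u ++ v)) (p : Lv u v),
      ((∀ x, (gs 0 (u ++ v) z (iu 0 u v x) → p.1 x ≠ 0) ∧
        (¬ gs 0 (u ++ v) z (iu 0 u v x) → p.1 x = 0)) ∧
      ∀ y, (gs 0 (u ++ v) z (iv 0 u v y) → p.2 y ≠ 0) ∧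
        (¬ gs 0 (u ++ v) z (iv 0 u v y) → p.2 y = 0)) →
      ((gs 0 (u ++ v) z X → vp p qx ≠ 0) ∧ (¬ gs 0 (u ++ v) z X → vp p qx = 0)) ∧
      ((gs 0 (u ++ v) z Y → vp p qy ≠ 0) ∧ (¬ gs 0 (u ++ v) z Y → vp p qy = 0)))
    (hL : ∀ p : Lv u v, L p = vp p qx - vp p qy) (hred : ¬ Cr u v w false qx qy) :
    ∃ p ∈ Base ρ (-1) u v w, L p ≠ 0 := by
  have F0 := hFc ρ u v w hu hv hw hfin
  have S := (gs 0 (u ++ v)).iseqv
  obtain ⟨c1, hx⟩ := hx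
  obtain ⟨c2, hy⟩ := hy
  by_cases hg : gs 0 (u ++ v) X Y
  · obtain ⟨c3, h3⟩ := (hG.1 u v w hu hv).1 X Y hg
    have h4 : Cr u v w (xor (xor c1 c3) c2) qx qy := (hx.trans h3).trans hy.symm
    have h5 : xor (xor c1 c3) c2 = true := by
      by_contra h
      have h' : xor (xor c1 c3) c2 = false := by
        revert h
        cases xor (xor c1 c3) c2 <;> simp
      rw [h'] at h4
      exact hred h4
    rw [h5] at h4
    have end0 : ∀ j, j ≤ wd 0 u → (j = 0 ∨ j = w) → ¬ gs 0 (u ++ v) (md 0 u v j) X := by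
      intro j hj hj0 hgj
      obtain ⟨d, hd⟩ := (hG.1 u v w hu hv).1 _ _ hgj
      have hpos := hP.2.2.1 u v 0 _ j hu hj
      have hcan : can u v (md 0 u v j) = (true, 0, j) := by
        unfold can
        rw [hpos, if_neg (by simp)]
        simp
      rw [hcan] at hd
      have s1 : Cr u v w true (false, u.length, j) (true, 0, j) :=
        Cr.seam j true (fun _ _ => rfl) (fun h => by omega)
      have s2 : Cr u v w false (false, u.length, j) (true, 0, j) :=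
        Cr.seam j false (fun a b => by omega) (fun _ => rfl)
      have loop : Cr u v w true (true, 0, j) (true, 0, j) := by
        have := s1.symm.trans s2
        simpa using this
      have a1 : Cr u v w (xor d c1) (true, 0, j) qx := hd.trans hx.symm
      have a2 := (a1.symm.trans loop).trans a1
      have a3 := a2.trans h4
      have e : xor (xor (xor (xor d c1) true) (xor d c1)) true = false := by
        cases d <;> cases c1 <;> rfl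
      rw [e] at a3
      exact hred a3
    obtain ⟨p, hp, hp1⟩ := F0 X hX (end0 0 (Nat.zero_le _) (Or.inl rfl)) (end0 w hw (Or.inr rfl))
    refine ⟨p, hp, ?_⟩
    have hne := (hval X p hp1).1.1 (S.refl X)
    have hcr := (hC ρ u v w hu hv hw p hp true qx qy h4).2 hvx
    rw [if_pos rfl] at hcr
    rw [hL, hcr]
    have key : ∀ a : ZMod 3, a ≠ 0 → a - -1 * a ≠ 0 := by decide
    exact key _ hne
  · by_cases hXF : gs 0 (u ++ v) (md 0 u v 0) X ∨ gs 0 (u ++ v) (md 0 u v w) X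
    · have hYF : ¬ gs 0 (u ++ v) (md 0 u v 0) Y ∧ ¬ gs 0 (u ++ v) (md 0 u v w) Y := by
        rcases hXF with h | h
        · exact ⟨fun h' => hg (S.trans (S.symm h) h'), fun h' => h1 ⟨h, h'⟩⟩
        · exact ⟨fun h' => h2 ⟨h', h⟩, fun h' => hg (S.trans (S.symm h) h')⟩
      obtain ⟨p, hp, hp1⟩ := F0 Y hY hYF.1 hYF.2
      refine ⟨p, hp, ?_⟩
      have a1 := (hval Y p hp1).1.2 (fun h => hg (S.symm h))
      have a2 := (hval Y p hp1).2.1 (S.refl Y)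
      rw [hL, a1, zero_sub]
      exact neg_ne_zero.2 a2
    · obtain ⟨p, hp, hp1⟩ := F0 X hX (fun h => hXF (Or.inl h)) (fun h => hXF (Or.inr h))
      refine ⟨p, hp, ?_⟩
      have a1 := (hval X p hp1).1.1 (S.refl X)
      have a2 := (hval X p hp1).2.2 hg
      rw [hL, a2, sub_zero]
      exact a1

theorem thm_LOM (h1 : St_CRV) (h2 : St_GCR) (h3 : St_FAC) (h4 : St_POS) (h5 : St_EMB) :
    St_LOM := by
  intro ρ u v w hu hv hw hR hfin hN k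
  obtain ⟨-, -, hpa, -, -, hed, -, hn⟩ := h5
  have G := h2.1 u v w hu hv
  by_cases hk : (k : ℕ) < nX u
  · have he := (hed ρ u v 0 k).1 hk
    have hp := pa_ed u 0 (wd 0 u) ρ ⟨(k : ℕ), hk⟩ hu
    have hN' := hN k
    rw [he] at hN'
    refine LOM_core h1 h2 h3 h4 hu hv hw hfin (fun p => Lk ρ u v (k : ℕ) p)
      (iu 0 u v (ed ρ 0 u ⟨(k : ℕ), hk⟩).1) (iu 0 u v (ed ρ 0 u ⟨(k : ℕ), hk⟩).2)
      (false, pos 0 u (ed ρ 0 u ⟨(k : ℕ), hk⟩).1) (false, pos 0 u (ed ρ 0 u ⟨(k : ℕ), hk⟩).2)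
      (((hpa u v 0).1 _).trans hp.1) (((hpa u v 0).1 _).trans hp.2) hN'.1 hN'.2
      (G.2.1 _) (G.2.1 _) (h2.2.2 u 0 _ _ hu) ?_ ?_ ?_
    · intro z p hz
      have e1 : vp p (false, pos 0 u (ed ρ 0 u ⟨(k : ℕ), hk⟩).1) =
          p.1 (ed ρ 0 u ⟨(k : ℕ), hk⟩).1 := congrArg p.1 (h2.2.1 0 u _)
      have e2 : vp p (false, pos 0 u (ed ρ 0 u ⟨(k : ℕ), hk⟩).2) =
          p.1 (ed ρ 0 u ⟨(k : ℕ), hk⟩).2 := congrArg p.1 (h2.2.1 0 u _)
      rw [e1, e2]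
      exact ⟨hz.1 _, hz.1 _⟩
    · intro p
      have e1 : vp p (false, pos 0 u (ed ρ 0 u ⟨(k : ℕ), hk⟩).1) =
          p.1 (ed ρ 0 u ⟨(k : ℕ), hk⟩).1 := congrArg p.1 (h2.2.1 0 u _)
      have e2 : vp p (false, pos 0 u (ed ρ 0 u ⟨(k : ℕ), hk⟩).2) =
          p.1 (ed ρ 0 u ⟨(k : ℕ), hk⟩).2 := congrArg p.1 (h2.2.1 0 u _)
      rw [e1, e2]
      exact dif_pos hk
    · obtain ⟨l, i, q, hq, -, hpos⟩ := h4.2.1 u 0 _ ⟨(k : ℕ), hk⟩ hu
      have hh := hpos ρ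
      split_ifs at hh with hc
      · rw [hh.1, hh.2]
        exact (hR.1 l i q hq).1
      · rw [hh.1, hh.2]
        exact (hR.1 l i q hq).2
  · have hk' : (k : ℕ) - nX u < nX v := by
      have a1 := k.isLt
      have a2 := hn u v
      omega
    have he := (hed ρ u v 0 k).2 hk' (not_lt.1 hk)
    have hp := pa_ed v (wd 0 u) 0 ρ ⟨(k : ℕ) - nX u, hk'⟩ hv
    have hN' := hN k
    rw [he] at hN'
    have cn : ∀ y : Loc (wd 0 u) v, ∃ c, Cr u v w c (true, pos (wd 0 u) v y)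
        (can u v (iv 0 u v y)) := by
      intro y
      rw [G.2.2 y]
      exact ⟨false, LOM_refl _⟩
    refine LOM_core h1 h2 h3 h4 hu hv hw hfin (fun p => Lk ρ u v (k : ℕ) p)
      (iv 0 u v (ed ρ (wd 0 u) v ⟨(k : ℕ) - nX u, hk'⟩).1)
      (iv 0 u v (ed ρ (wd 0 u) v ⟨(k : ℕ) - nX u, hk'⟩).2)
      (true, pos (wd 0 u) v (ed ρ (wd 0 u) v ⟨(k : ℕ) - nX u, hk'⟩).1)
      (true, pos (wd 0 u) v (ed ρ (wd 0 u) v ⟨(k : ℕ) - nX u, hk'⟩).2)
      (((hpa u v 0).2 _).trans hp.1) (((hpa u v 0).2 _).trans hp.2) hN'.1 hN'.2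
      (cn _) (cn _) (h2.2.2 v (wd 0 u) _ _ hv) ?_ ?_ ?_
    · intro z p hz
      have e1 : vp p (true, pos (wd 0 u) v (ed ρ (wd 0 u) v ⟨(k : ℕ) - nX u, hk'⟩).1) =
          p.2 (ed ρ (wd 0 u) v ⟨(k : ℕ) - nX u, hk'⟩).1 := congrArg p.2 (h2.2.1 (wd 0 u) v _)
      have e2 : vp p (true, pos (wd 0 u) v (ed ρ (wd 0 u) v ⟨(k : ℕ) - nX u, hk'⟩).2) =
          p.2 (ed ρ (wd 0 u) v ⟨(k : ℕ) - nX u, hk'⟩).2 := congrArg p.2 (h2.2.1 (wd 0 u) v _)
      rw [e1, e2]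
      exact ⟨hz.2 _, hz.2 _⟩
    · intro p
      have e1 : vp p (true, pos (wd 0 u) v (ed ρ (wd 0 u) v ⟨(k : ℕ) - nX u, hk'⟩).1) =
          p.2 (ed ρ (wd 0 u) v ⟨(k : ℕ) - nX u, hk'⟩).1 := congrArg p.2 (h2.2.1 (wd 0 u) v _)
      have e2 : vp p (true, pos (wd 0 u) v (ed ρ (wd 0 u) v ⟨(k : ℕ) - nX u, hk'⟩).2) =
          p.2 (ed ρ (wd 0 u) v ⟨(k : ℕ) - nX u, hk'⟩).2 := congrArg p.2 (h2.2.1 (wd 0 u) v _)
      rw [e1, e2]
      exact (dif_neg hk).trans (dif_pos hk')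
    · obtain ⟨l, i, q, hq, -, hpos⟩ := h4.2.1 v (wd 0 u) _ ⟨(k : ℕ) - nX u, hk'⟩ hv
      have hh := hpos ρ
      split_ifs at hh with hc
      · rw [hh.1, hh.2]
        exact (hR.2 l i q hq).1
      · rw [hh.1, hh.2]
        exact (hR.2 l i q hq).2

end Pool.TWC
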