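import Pool.Agent.TWC.StB

/-!
# TWC: statements, part D (crossings which are nugatory in the diagram but not after the twist)

The theorem of `TWC/All.lean` with a weaker hypothesis than `Reduced`: a region may touch itself at a crossing if the closed curve
separates the two ends of the arc. Every statement has its complete proof in the docstring. The statements already proved are
in `StA`, `StB`, `StC`, `StL`.
-/

set_option autoImplicit false

namespace Pool.TWC

open LaurentPolynomial Pool.Agent.ARB Pool.Agent.Helper2 Pool.ALT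
open Pool.TWI (Same Pass)

/-! ### paths which cross the arc -/

/-- `(false, l, i)`: the gap `i` above the first `l` pieces of `u` (below the arc), `(true, l, i)`: the gap `i` above the first
`l` pieces of `v` (above the arc). `Cr u v w c x y`: some path from `x` to `y` in the complement of `u ++ v` crosses the arc from the
gap `0` to the gap `w` between `u` and `v` an even number of times (`c = false`) or an odd number of times (`c = true`). -/
inductive Cr (u v : Word) (w : ℕ) : Bool → Bool × ℕ × ℕ → Bool × ℕ × ℕ → Prop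
  | low {x y : ℕ × ℕ} (h : Same u x y) : Cr u v w false (false, x) (false, y)
  | high {x y : ℕ × ℕ} (h : Same v x y) : Cr u v w false (true, x) (true, y)
  | seam (j : ℕ) (c : Bool) (h : 0 < j → j < w → c = true) (h' : w < j → c = false) :
      Cr u v w c (false, u.length, j) (true, 0, j)
  | symm {c : Bool} {x y : Bool × ℕ × ℕ} (h : Cr u v w c x y) : Cr u v w c y x
  | trans {c d : Bool} {x y z : Bool × ℕ × ℕ} (h : Cr u v w c x y) (h' : Cr u v w d y z) :
      Cr u v w (xor c d) x z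

/-- No crossing of `u ++ v` is nugatory in the twisted diagram: opposite regions at a crossing are not connected by a path which
crosses the arc an even number of times. -/
def RedA (u v : Word) (w : ℕ) : Prop :=
  (∀ (l i : ℕ) (p : Bool), u[l]? = some (pX i p) →
    ¬ Cr u v w false (false, l, i) (false, l, i + 2) ∧
    ¬ Cr u v w false (false, l, i + 1) (false, l + 1, i + 1)) ∧
  ∀ (l i : ℕ) (p : Bool), v[l]? = some (pX i p) →
    ¬ Cr u v w false (true, l, i) (true, l, i + 2) ∧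
    ¬ Cr u v w false (true, l, i + 1) (true, l + 1, i + 1)

/-- the local region at a position -/
def lc : (n : ℕ) → (w : Word) → ℕ → ℕ → Loc n w
  | n, [], _, i => bo n [] i
  | n, s :: w, 0, i => bo n (s :: w) i
  | n, s :: w, l + 1, i =>
      (Sum.inr (lc (n - s.k.inn + s.k.out) w l i) : Fin (n + 1) ⊕ Loc (n - s.k.inn + s.k.out) w)

/-- the value of a pair of colourings at a position -/
def vp {u v : Word} (p : Lv u v) : Bool × ℕ × ℕ → ZMod 3
  | (false, l, i) => p.1 (lc 0 u l i)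
  | (true, l, i) => p.2 (lc (wd 0 u) v l i)

/-- the positions which exist -/
def vld (u v : Word) : Bool × ℕ × ℕ → Prop
  | (false, l, i) => l ≤ u.length ∧ i ≤ strn 0 u l
  | (true, l, i) => l ≤ v.length ∧ i ≤ strn (wd 0 u) v l

/-- [CRV] antiperiodic colourings along paths.
PROOF. Induction on `Cr`. `low`: induction on `Same` (`EqvGen`): a generator `u[l]? = some s`, `Pass s i j`, from `(l, i)` to `(l + 1, j)`: `l + 1 ≤ u.length`; `s.i + s.k.inn ≤ strn 0 u l`
by `Ok`, `strn 0 u (l+1) = strn 0 u l - s.k.inn + s.k.out`, so `i ≤ strn l ↔ j ≤ strn (l + 1)` for both cases of `Pass`; `Pass s i j → gl s i j`, so (if the positions exist)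
`R0 0 u (lc 0 u l i) (lc 0 u (l + 1) j)` (induction on `u`; more generally for `n` instead of `0`) and the values are equal by `Base`. `high` the same for `v`. `seam`: `lc 0 u u.length j = tp 0 u j`,
`lc (wd 0 u) v 0 j = bo (wd 0 u) v j`, `strn 0 u u.length = wd 0 u`; for `j = 0` and `j = w` both values are `0`, for `0 < j < w` `c = true`, for `w < j` `c = false`: `Base`. `symm`: `± 1` is its
own inverse; `trans`: product of the signs. -/
def St_CRV : Prop := ∀ (ρ : Bool) (u v : Word) (w : ℕ), Ok u 0 (wd 0 u) → Ok v (wd 0 u) 0 →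
  w ≤ wd 0 u → ∀ p ∈ Base ρ (-1) u v w, ∀ (c : Bool) (x y : Bool × ℕ × ℕ), Cr u v w c x y →
  (vld u v x ↔ vld u v y) ∧ (vld u v x → vp p y = (if c = true then -1 else 1) * vp p x)

/-- the position of a local region of `u ++ v` (the row in the middle is above the arc) -/
def can (u v : Word) (z : Loc 0 (u ++ v)) : Bool × ℕ × ℕ :=
  if (pos 0 (u ++ v) z).1 < u.length then (false, pos 0 (u ++ v) z)
  else (true, (pos 0 (u ++ v) z).1 - u.length, (pos 0 (u ++ v) z).2)

/-- [GCR] regions are connected by paths.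
PROOF (from POS, EMB). (1) `pos 0 (u ++ v) (iu 0 u v x) = pos 0 u x` and `pos 0 (u ++ v) (iv 0 u v y) = (l + u.length, i)` if `pos (wd 0 u) v y = (l, i)` (induction on `u`, for all `n` instead of `0`). The third
claim follows, and the second: if the height of `x` is `< u.length` the two positions are equal; if it is `u.length` they are `(false, u.length, i)` and `(true, 0, i)`: the seam, with the `c` of its
kind (`c = true` if `0 < i < w`, else `false`). (The height is `≤ u.length`.) (2) First claim: the relation `∃ c, Cr c (can x) (can y)` is an equivalence relation (`Cr false` is reflexive: `low`,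
`high` with `Same` reflexive), so it suffices for `R0 0 (u ++ v) x y` (`gs` is the smallest setoid, `iSup_le`, `pr_le_iff`, as in `pa_gs`); by [EMB] (4) the pair comes from `u` or from `v`; [POS] (1)
for `u` resp. `v`, and the second resp. third claim. (3) `lc` and `pos` are inverse to each other: induction on `w`. -/
def St_GCR : Prop :=
  (∀ (u v : Word) (w : ℕ), Ok u 0 (wd 0 u) → Ok v (wd 0 u) 0 →
    (∀ x y, gs 0 (u ++ v) x y → ∃ c, Cr u v w c (can u v x) (can u v y)) ∧
    (∀ x : Loc 0 u, ∃ c, Cr u v w c (false, pos 0 u x) (can u v (iu 0 u v x))) ∧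
    ∀ y : Loc (wd 0 u) v, can u v (iv 0 u v y) = (true, pos (wd 0 u) v y)) ∧
  (∀ (n : ℕ) (w : Word) (x : Loc n w), lc n w (pos n w x).1 (pos n w x).2 = x) ∧
  ∀ (w : Word) (n m : ℕ) (x : Loc n w), Ok w n m →
    (pos n w x).1 ≤ w.length ∧ (pos n w x).2 ≤ strn n w (pos n w x).1

/-- [FAC] antiperiodic colourings of single regions.
PROOF (from EMB). Let `Q` be the set of the classes of `gs 0 (u ++ v)` of parity `ρ` other than those of `F = md 0` and `F' = md w`, and for each `q ∈ Q` choose a representative; it is `iu x` or `iv y`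
(every element of `Loc 0 (u ++ v)` is: apply [EMB] (7), or induction on `u`), so there is a linear functional `ev q` on `Lv u v`: the value there. For `p ∈ Base ρ s`, `s = ± 1`: the predicate `p.1 x = 0`,
`p.2 y = 0` fits in the middle row (`s ≠ 0`), so by [EMB] (7) it is a predicate `Z` on `Loc 0 (u ++ v)`, equal on touching pairs ([EMB] (4)), so constant on the classes of `gs`; it is true on the classes of `F`,
`F'` and on the other parity. So if `ev q p = 0` for all `q ∈ Q` then `p = 0`: `ev : Base ρ s → (Q → ZMod 3)` is injective for `s = ± 1`. For `s = 1` it is surjective (the indicator functions of the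
classes, as in [LOO]). So `finrank Base ρ 1 = |Q|`, by hypothesis `finrank Base ρ (-1) = |Q|`, and `ev` is surjective for `s = -1` too (`LinearMap.injective_iff_surjective_of_finrank_eq_finrank`). Take `p` with
`ev q p = 1` for the class `q` of `z` and `0` for the others. -/
def St_FAC : Prop := ∀ (ρ : Bool) (u v : Word) (w : ℕ), Ok u 0 (wd 0 u) → Ok v (wd 0 u) 0 →
  w ≤ wd 0 u →
  Module.finrank (ZMod 3) (Base ρ (-1) u v w) = Module.finrank (ZMod 3) (Base ρ 1 u v w) →
  ∀ z : Loc 0 (u ++ v), pa 0 (u ++ v) z = ρ → ¬ gs 0 (u ++ v) (md 0 u v 0) z →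
  ¬ gs 0 (u ++ v) (md 0 u v w) z → ∃ p ∈ Base ρ (-1) u v w,
    (∀ x, (gs 0 (u ++ v) z (iu 0 u v x) → p.1 x ≠ 0) ∧
      (¬ gs 0 (u ++ v) z (iu 0 u v x) → p.1 x = 0)) ∧
    ∀ y, (gs 0 (u ++ v) z (iv 0 u v y) → p.2 y ≠ 0) ∧
      (¬ gs 0 (u ++ v) z (iv 0 u v y) → p.2 y = 0)

/-- [LOM] no crossing is a loop for the antiperiodic colourings.
PROOF (from CRV, GCR, FAC, POS, EMB). Let `k < nX u` (the case of `v` is the same with `iv`, `true`), `x' = (ed ρ 0 u k).1`, `y' = (ed ρ 0 u k).2`, `x = iu x'`, `y = iu y'` the two ends of `ed ρ 0 (u ++ v) k` ([EMB] (6)), both of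
parity `ρ`; `Lk p = p.1 x' - p.1 y'`. Case `¬ gs x y`: one of them, say `x`, is not in the region of `F` nor of `F'` (last hypothesis, and not both in the same one); [FAC] for `z = x`: `p.1 x' ≠ 0`,
`p.1 y' = 0`. Case `gs x y`: by [GCR] there is `c` with `Cr c (false, pos x') (false, pos y')`. By [POS] (2) for `u` the positions are those in `RedA`, so `c = false` is impossible for every such `c`. So `c = true`.
If `gs F x` there is `d` with `Cr d (false, pos x') (false, u.length, 0)` (`md 0 = iu (tp 0 u 0)`, `pos (tp 0 u 0) = (u.length, 0)` by [POS] (3) with `v = []`, or from `can (md 0) = (true, 0, 0)` and the seam), the loop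
seam (`c = true`) and seam (`c = false`) back gives `Cr true` from `(false, u.length, 0)` to itself, so `Cr true (false, pos x') (false, pos x')` and `Cr (xor true true) (false, pos x') (false, pos y')`: contradiction. The same for
`F'` with the gap `w`. So [FAC] applies to `z = x`: `p.1 x' ≠ 0`, and by [CRV] (`vp p (false, pos x') = p.1 x'` by [GCR] (3)) `p.1 y' = - p.1 x'`, `Lk p = 2 p.1 x' ≠ 0`. -/
def St_LOM : Prop := ∀ (ρ : Bool) (u v : Word) (w : ℕ), Ok u 0 (wd 0 u) → Ok v (wd 0 u) 0 →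
  w ≤ wd 0 u → RedA u v w →
  Module.finrank (ZMod 3) (Base ρ (-1) u v w) = Module.finrank (ZMod 3) (Base ρ 1 u v w) →
  (∀ k : Fin (nX (u ++ v)),
    ¬ (gs 0 (u ++ v) (md 0 u v 0) (ed ρ 0 (u ++ v) k).1 ∧
      gs 0 (u ++ v) (md 0 u v w) (ed ρ 0 (u ++ v) k).2) ∧
    ¬ (gs 0 (u ++ v) (md 0 u v 0) (ed ρ 0 (u ++ v) k).2 ∧
      gs 0 (u ++ v) (md 0 u v w) (ed ρ 0 (u ++ v) k).1)) →
  ∀ k : Fin (nX (u ++ v)), ∃ p ∈ Base ρ (-1) u v w, Lk ρ u v (k : ℕ) p ≠ 0

/-! ### ranks -/

/-- [LI2] parallel classes inside of a set.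
PROOF (from LIN). `r₁ S = r (S ∩ E) + |S \ E|` is a rank function (`emp`, `mono`, `one` clear; `sub`: `(S ∪ T) ∩ E = (S ∩ E) ∪ (T ∩ E)`, the same for `∩`, and `|·|` is modular) with `r₁ {e} = 1`. `r₁ S = 1` iff
(`S ⊆ E` and `r S = 1`) or (`S = {e}`, `e ∉ E`) [if `S ∩ E ≠ ∅` then `r (S ∩ E) ≥ 1` by `mono`]. LIN for `r₁`, `r' = r₁`, `S = ∅`: `∑_(r₁ S = 1) (-1)^|S| ≤ - r₁ univ = - r E - |univ \ E|`, and the sets `{e}`, `e ∉ E`, contribute
`-|univ \ E|` to the sum. -/
def St_LI2 : Prop := ∀ (N : ℕ) (r : Finset (Fin N) → ℕ), RkF r → (∀ e, r {e} = 1) →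
  ∀ E : Finset (Fin N),
    ∑ T ∈ Finset.univ.filter (fun T : Finset (Fin N) => T ⊆ E ∧ r T = 1), (-1 : ℤ) ^ T.card ≤
      -(r E : ℤ)

/-- the weight of a state of rank one -/
def cw (m₀ m : ℕ) : ℤ := if m = m₀ + 2 ∧ m₀ ≠ 0 then 2 else 1

/-- the properties of `l`, `m` used in [CO2] -/
def Mtr2 (N w n₀ m₀ : ℕ) (l m rk : Finset (Fin N) → ℕ) : Prop :=
  (∀ S, m S % 2 = w % 2) ∧ m₀ ≤ 2 ∧ m₀ % 2 = w % 2 ∧ m ∅ = m₀ ∧
  (∀ S, l S + 2 * rk S = n₀ + S.card) ∧ (∀ S, rk S = 0 ↔ S = ∅) ∧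
  (∀ S, rk S = 1 → m S = m₀ ∨ (m₀ = 2 ∧ m S = 0) ∨ m S = m₀ + 2) ∧
  ∑ S ∈ Finset.univ.filter (fun S => rk S = 1), (-1 : ℤ) ^ S.card * cw m₀ (m S) ≤
    -(n₀ : ℤ) - (if m₀ = 0 then 0 else 1)

/-- [MT2] (compare [MTR], `TWC/MTR.lean`, whose proof should be copied.)
PROOF (from EQN, GAM, VAN, ONE, LOM, RKF, LIN, LI2, MNU, MHT, PAR, HGT, NFF). Points (1) to (5) of [MTR] do not use the hypothesis on the crossings. `d⁺ ∅ = d ∅` is `finrank Base r 1 = finrank Base r (-1)` (`Sol` of `∅` is `Base`).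
(6') `rk {k} = 1` by LOM (NFF for its last hypothesis) and RKF; so `rk S = 0` iff `S = ∅`. `rk' {k} ≤ 1`. (7') `rk S = 1`: `rk' S = 1`: `fr r (m S) = 0` and `m S = m₀` or (`m₀ = 2`, `m S = 0`) as in (7). `rk' S = 0`: `fr r (m S) = 1`: `w` odd: `m S = 3 =
m₀ + 2` (`fr ρ m ≥ 2` for `m ≥ 5`, `fr ρ 1 = 0`); `w` even, `r = true`, `m₀ = 2`: `m S = 4` (`fr true 0 = fr true 2 = 0`, `fr true m ≥ 2` for `m ≥ 5`); `w` even, `r = false`, `m₀ = 0`: `m S = 2` (`fr false 0 = 0`, `fr false 4 = 2`). So `m S = m₀ + 2` iff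
`rk' S = 0`, for `rk S = 1`. (8') `m₀ = 0`: `cw = 1`, LI2 with `E = univ`: the sum is `≤ -rk univ = -n₀`. `m₀ ≠ 0`: the sum is `Σ₁ + Σ₂`, `Σ₁` over all `S` with `rk S = 1` and `Σ₂` over those with `rk' S = 0`, which are the `S ⊆ E`, `rk S = 1`, `E = {e | rk' {e} = 0}`
(`rk' S = 0` iff `rk' {e} = 0` for all `e ∈ S`: `mono`; conversely `sub`, induction). If `E ≠ ∅`: LI2: `Σ₁ ≤ -rk univ = -n₀`, `Σ₂ ≤ -rk E ≤ -1`. If `E = ∅`: `rk' {e} = 1` for all `e` (`≤ 1` by `one`), `Σ₂ = 0` (the only `S ⊆ ∅` has rank `0`), and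
`Σ₁ ≤ -n₀ - 1` as in (8). -/
def St_MT2 : Prop := ∀ (r : Bool) (u v : Word) (n w : ℕ), Ok u 0 n → Ok v n 0 → w ≤ n →
  RedA u v w → Far u v w → Con (u ++ v) → ∀ l m : Finset (Fin (nX (u ++ v))) → ℕ,
  (∀ S, Pr (st r S) u v w (l S) (m S)) →
  ∃ (n₀ : ℕ) (rk : Finset (Fin (nX (u ++ v))) → ℕ), Mtr2 (nX (u ++ v)) w n₀ (m0 r w) l m rk

/-! ### coefficients -/

/-- [PH2] the top coefficients of `Ph k 3` and `Ph k 4` (compare [PHT], `TWC/PHT.lean`).
PROOF. `κ = |k| ≥ 1`; the exponent of the term of `ε` in direction `τ` is `2 τ sm - κ (t² + 2 t)`, `t = mm`, `|sm| ≤ t`. `m = 3`: exponent `2 - 3κ` only for `t = 1`, `τ sm = 1` (`t = 3`: `≤ 6 - 15κ < 2 - 3κ`); there are two lists of three signs with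
`mm = 1`, `sm = τ` (`decide` on the 8 lists), sign `(-1)^3`. `m = 4`: exponent `0` only for `t = 0` (`t = 2`: `≤ 4 - 8κ < 0`, `t = 4`: `≤ 8 - 24κ < 0`), two lists: `+ - + -`, `+ + - -`. -/
def St_PH2 : Prop := ∀ (k τ : ℤ), (τ = 1 ∨ τ = -1) → τ * k < 0 →
  (Ph k 3).coeff (τ * (2 + 3 * (τ * k))) = -2 ∧ (Ph k 4).coeff (τ * 0) = 2

/-- [CO2] (compare [COE], `TWC/COE.lean`, whose proof should be copied.)
PROOF (from PHT, PH2). As [COE]; for `rk S = 1` the top coefficient of `Ph k (m S)` (at the degree `dφ`) is now `α * cw m₀ (m S)`: new is only `m S = m₀ + 2`: `m₀ = 0`: `Ph k 2`: `1 = α`; `m₀ = 1`: `Ph k 3`: `-2 = 2 α`; `m₀ = 2`: `Ph k 4`: `2 = 2 α`. So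
`b = (-1)^(n₀) (n₀ α + β + α ∑_(rk S = 1) (-1)^|S| cw m₀ (m S))` and `a b ≤ 0` as before. -/
def St_CO2 : Prop := ∀ (N w n₀ m₀ : ℕ) (k τ : ℤ) (p : LP) (l m rk : Finset (Fin N) → ℕ),
  (τ = 1 ∨ τ = -1) → τ * k < 0 → St_PHT → St_PH2 →
  T (3 * k * w) * (loopVal * p) = ∑ S : Finset (Fin N),
    T (τ * ((N : ℤ) - 2 * S.card)) * (loopVal ^ l S * Ph k (m S)) →
  Mtr2 N w n₀ m₀ l m rk → ¬ IsUnit p

end Pool.TWC
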