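import Pool.Agent.TWC.MTR
import Pool.Agent.TWC.StD

/-!
# TWC, module MT2: the assembly of part D
-/

set_option autoImplicit false

namespace Pool.TWC

open LaurentPolynomial Pool.Agent.ARB Pool.Agent.Helper2 Pool.ALT

theorem MT2_fr_ge (ρ : Bool) (m : ℕ) (h : 5 ≤ m) : 2 ≤ fr ρ m := by
  unfold fr
  cases ρ
  · have : ({1, 3} : Finset ℕ) ⊆ (Finset.range m).filter fun g =>
        0 < g ∧ decide (g % 2 = 0) = false := by
      intro g hg
      simp only [Finset.mem_insert, Finset.mem_singleton] at hg
      rw [Finset.mem_filter, Finset.mem_range]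
      rcases hg with rfl | rfl
      · exact ⟨by omega, by omega, by decide⟩
      · exact ⟨by omega, by omega, by decide⟩
    calc 2 = ({1, 3} : Finset ℕ).card := by decide
      _ ≤ _ := Finset.card_le_card this
  · have : ({2, 4} : Finset ℕ) ⊆ (Finset.range m).filter fun g =>
        0 < g ∧ decide (g % 2 = 0) = true := by
      intro g hg
      simp only [Finset.mem_insert, Finset.mem_singleton] at hg
      rw [Finset.mem_filter, Finset.mem_range]
      rcases hg with rfl | rfl
      · exact ⟨by omega, by omega, by decide⟩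
      · exact ⟨by omega, by omega, by decide⟩
    calc 2 = ({2, 4} : Finset ℕ).card := by decide
      _ ≤ _ := Finset.card_le_card this

/-- the value of `m` if `fr = 1` -/
theorem MT2_fr_one (r : Bool) (w m : ℕ) (hm : m % 2 = w % 2) (h : fr r m = 1) :
    m = m0 r w + 2 := by
  have h5 : m < 5 := by
    by_contra h5
    have := MT2_fr_ge r m (by omega)
    omega
  have e : m = 0 ∨ m = 1 ∨ m = 2 ∨ m = 3 ∨ m = 4 := by omega
  rcases Nat.mod_two_eq_zero_or_one w with hw | hw
  · rcases e with rfl | rfl | rfl | rfl | rfl
    · exact absurd h (by cases r <;> decide)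
    · omega
    · cases r
      · simp [m0, hw]
      · exact absurd h (by decide)
    · omega
    · cases r
      · exact absurd h (by decide)
      · simp [m0, hw]
  · have hm0 : m0 r w = 1 := by cases r <;> simp [m0, hw]
    rcases e with rfl | rfl | rfl | rfl | rfl
    · omega
    · exact absurd h (by cases r <;> decide)
    · omega
    · rw [hm0]
    · omega

/-- rank zero -/
theorem MT2_zero {N : ℕ} {r : Finset (Fin N) → ℕ} (hr : RkF r) (S : Finset (Fin N)) :
    r S = 0 ↔ S ⊆ Finset.univ.filter fun e => r {e} = 0 := by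
  classical
  constructor
  · intro h e he
    rw [Finset.mem_filter]
    refine ⟨Finset.mem_univ _, ?_⟩
    have := hr.mono {e} S (Finset.singleton_subset_iff.2 he)
    omega
  · intro h
    induction S using Finset.induction_on with
    | empty => exact hr.emp
    | insert e S he ih =>
      have h1 := ih (fun x hx => h (Finset.mem_insert_of_mem hx))
      have h2 : r {e} = 0 := (Finset.mem_filter.1 (h (Finset.mem_insert_self e S))).2
      have h3 := hr.sub {e} S
      rw [← Finset.insert_eq] at h3
      omega

theorem thm_MT2 (h1 : St_EQN) (h2 : St_GAM) (h3 : St_VAN) (h4 : St_ONE) (h5 : St_LOM)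
    (h6 : St_RKF) (h7 : St_LIN) (h7' : St_LI2) (h8 : St_MNU) (h9 : St_MHT) (h10 : St_PAR)
    (h11 : St_HGT) (h12 : St_NFF) : St_MT2 := by
  classical
  intro r u v n w hu hv hw hR hF hC l m hP
  have hn : n = wd 0 u := MTR_wd u 0 n hu
  subst hn
  -- dimensions
  obtain ⟨d, hd⟩ : ∃ d : Bool → ZMod 3 → Finset (Fin (nX (u ++ v))) → ℕ, ∀ ρ s S,
      d ρ s S = Module.finrank (ZMod 3) (Sol ρ s u v w S) := ⟨_, fun _ _ _ => rfl⟩
  have mpar : ∀ S, m S % 2 = w % 2 := by
    intro S
    obtain ⟨f, hf, hfm⟩ := (h9 (st r S) u v _ w (l S) (m S) hu hv hw (hP S)).2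
    have := (h10 (st r S) u v _ w hu hv hw).2 f hf
    rw [hfm] at this
    omega
  have E := fun (ρ : Bool) (S : Finset (Fin (nX (u ++ v)))) =>
    h1 ρ (st r S) u v w (l S) (m S) hu hv hw (hP S)
  have E1 : ∀ S, (l S : ℤ) + gm r (m S) = gam r (st r S) (u ++ v) + 2 * (d r (-1) S : ℤ) := by
    intro S
    have := (E r S).1
    rw [MTR_filt, ← hd] at this
    exact this
  have E2 : ∀ S, (l S : ℤ) + gm r (m S) + 2 * fr r (m S) =
      gam r (st r S) (u ++ v) + 2 * (d r 1 S : ℤ) := by
    intro S
    have := (E r S).2
    rw [MTR_filt, ← hd] at this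
    exact this
  have E3 : (l ∅ : ℤ) + gm (!r) (m ∅) = gam (!r) (st r (∅ : Finset (Fin (nX (u ++ v))))) (u ++ v) +
      2 * (d (!r) (-1) Finset.univ : ℤ) := by
    have := (E (!r) ∅).1
    rw [MTR_filt0, ← hd] at this
    exact this
  have E4 : (l ∅ : ℤ) + gm (!r) (m ∅) + 2 * fr (!r) (m ∅) = gam (!r) (st r (∅ : Finset (Fin (nX (u ++ v))))) (u ++ v) +
      2 * (d (!r) 1 Finset.univ : ℤ) := by
    have := (E (!r) ∅).2
    rw [MTR_filt0, ← hd] at this
    exact this
  have G1 : ∀ S : Finset (Fin (nX (u ++ v))), gam r (st r S) (u ++ v) = gam r (st r (∅ : Finset (Fin (nX (u ++ v))))) (u ++ v) + S.card := by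
    intro S
    rw [h2.1 r (u ++ v) (st r S), h2.1 r (u ++ v) (st r (∅ : Finset (Fin (nX (u ++ v))))), MTR_filt, MTR_filt]
    simp
  have G2 : gam r (st r (∅ : Finset (Fin (nX (u ++ v))))) (u ++ v) + gam (!r) (st r (∅ : Finset (Fin (nX (u ++ v))))) (u ++ v) = 0 := by
    have := h2.2 (u ++ v) (st r (∅ : Finset (Fin (nX (u ++ v))))) 0 0 (hu.append hv)
    cases r
    · simp only [Bool.not_false]
      omega
    · simp only [Bool.not_true]
      omega
  have gmc : ∀ S, gm r (m S) = gm r (m ∅) := fun S =>
    MTR_gm r _ _ ((mpar S).trans (mpar ∅).symm)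
  have gms : gm r (m ∅) + gm (!r) (m ∅) = 0 := by
    have := MTR_gm2 (m ∅)
    cases r
    · simp only [Bool.not_false]; omega
    · simp only [Bool.not_true]; omega
  have hm0 : m ∅ = m0 r w := h8 r u v _ w (l ∅) (m ∅) hu hv hw hF hC (hP ∅)
  -- the two rank functions
  have K := fun s => h6 (ZMod 3) (Lv u v) (nX (u ++ v)) (Base r s u v w)
    (fun k : Fin (nX (u ++ v)) => Lk r u v (k : ℕ))
  have dle : ∀ s S, d r s S ≤ d r s ∅ := by
    intro s S
    have hb : Sol r s u v w ∅ = Base r s u v w := by
      unfold Sol
      simp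
    rw [hd, hd, hb]
    exact (K s).2.1 S
  have hbase : ∀ s, d r s ∅ = Module.finrank (ZMod 3) (Base r s u v w) := by
    intro s
    have hb : Sol r s u v w ∅ = Base r s u v w := by
      unfold Sol
      simp
    rw [hd, hb]
  have KR : ∀ s, RkF fun S => d r s ∅ - d r s S := by
    intro s
    have := (K s).1
    simp only [hbase]
    simp only [hd]
    exact this
  have hfr : ∀ S, (fr r (m S) : ℤ) = d r 1 S - d r (-1) S := by
    intro S
    have a1 := E1 S
    have a2 := E2 S
    omega
  have hfr0 : fr r (m ∅) = 0 := by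
    rw [hm0]
    unfold m0 fr
    rcases Nat.mod_two_eq_zero_or_one w with h | h <;> cases r <;> simp [h] <;> decide
  have hd0 : d r 1 ∅ = d r (-1) ∅ := by
    have := hfr ∅
    rw [hfr0] at this
    push_cast at this
    omega
  -- the other colour
  have D1 : d (!r) (-1) Finset.univ = 0 := by
    by_cases hc : (!r) = true ∨ decide (w % 2 = 0) = !r
    · rw [hd]
      exact h3 (!r) (-1) u v w (Or.inr rfl) hu hv hw hc hC
    · have hr : r = true := by
        cases r
        · exact absurd (Or.inl rfl) hc
        · rfl
      subst hr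
      have hw2 : w % 2 = 0 := by
        by_contra hw2
        exact hc (Or.inr (by simp [hw2]))
      have h0 : m ∅ = 2 := by
        rw [hm0]
        simp [m0, hw2]
      have h10 : d (!true) 1 Finset.univ ≤ 1 := by
        rw [hd]
        exact h4 _ u v w hu hv hw hC
      have h11 : fr (!true) (m ∅) = 1 := by
        rw [h0]
        decide
      rw [h11] at E4
      push_cast at E4
      omega
  have hn0 : l ∅ = d r (-1) ∅ := by
    have a1 := E1 ∅
    rw [D1] at E3
    push_cast at E3
    omega
  -- the colour r, everything joined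
  have D2 : d r (-1) Finset.univ = 0 := by
    by_cases hc : r = true ∨ decide (w % 2 = 0) = r
    · rw [hd]
      exact h3 r (-1) u v w (Or.inr rfl) hu hv hw hc hC
    · have hr : r = false := by
        cases r
        · rfl
        · exact absurd (Or.inl rfl) hc
      subst hr
      have hw2 : w % 2 = 0 := by
        by_contra hw2
        exact hc (Or.inr (by simp [hw2]))
      have hP' : Pr (st true (∅ : Finset (Fin (nX (u ++ v))))) u v w (l Finset.univ)
          (m Finset.univ) := by
        refine MTR_Pr ?_ (hP Finset.univ)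
        intro k hk
        have hk' : k < nX (u ++ v) := by
          rw [MTR_nX]
          exact hk
        unfold st
        rw [if_pos ⟨hk', Finset.mem_univ _⟩,
          if_neg (by rintro ⟨_, h⟩; exact absurd h (Finset.notMem_empty _))]
        rfl
      have h0 : m Finset.univ = 2 := by
        rw [h8 true u v _ w _ _ hu hv hw hF hC hP']
        simp [m0, hw2]
      have h10 : d false 1 Finset.univ ≤ 1 := by
        rw [hd]
        exact h4 _ u v w hu hv hw hC
      have h11 := hfr Finset.univ
      rw [h0] at h11
      have h12 : fr false 2 = 1 := by decide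
      rw [h12] at h11
      push_cast at h11
      omega
  -- loops
  have N := h12 u v _ w hu hv hw hF
  have hle : ∀ S, d r 1 ∅ - d r 1 S ≤ d r (-1) ∅ - d r (-1) S := by
    intro S
    have a1 := hfr S
    have a2 := dle 1 S
    have a3 := dle (-1) S
    omega
  have hfin : Module.finrank (ZMod 3) (Base r (-1) u v w) =
      Module.finrank (ZMod 3) (Base r 1 u v w) := by
    rw [← hbase, ← hbase, hd0]
  have L2 : ∀ k : Fin (nX (u ++ v)), d r (-1) ∅ - d r (-1) {k} = 1 := by
    intro k
    have h := h5 r u v w hu hv hw hR hfin (fun k => N.2.1 r k) k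
    have := (K (-1)).2.2 k h
    rw [hbase, hd]
    exact this
  have L1 : ∀ k : Fin (nX (u ++ v)), d r 1 ∅ - d r 1 {k} ≤ 1 := by
    intro k
    have a1 := hle {k}
    rw [L2 k] at a1
    exact a1
  have hrk : ∀ S, S ≠ ∅ → 1 ≤ d r (-1) ∅ - d r (-1) S := by
    intro S hS
    obtain ⟨k, hk⟩ := Finset.nonempty_iff_ne_empty.2 hS
    have h : d r (-1) ∅ - d r (-1) {k} ≤ d r (-1) ∅ - d r (-1) S :=
      (KR (-1)).mono {k} S (Finset.singleton_subset_iff.2 hk)
    rw [L2 k] at h
    exact h
  -- rank one
  have key : ∀ S, d r (-1) ∅ - d r (-1) S = 1 →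
      (d r 1 ∅ - d r 1 S = 1 ∧ (m S = m0 r w ∨ (m0 r w = 2 ∧ m S = 0))) ∨
      (d r 1 ∅ - d r 1 S = 0 ∧ m S = m0 r w + 2) := by
    intro S hS
    have a1 := hle S
    have a2 := hfr S
    have a3 := dle 1 S
    have a4 := dle (-1) S
    have a7 := mpar S
    have a8 : d r 1 ∅ - d r 1 S = 1 ∨ d r 1 ∅ - d r 1 S = 0 := by omega
    rcases a8 with a8 | a8
    · left
      refine ⟨a8, ?_⟩
      have a5 : fr r (m S) = 0 := by omega
      have a6 := MTR_fr_le r (m S) a5
      rcases Nat.mod_two_eq_zero_or_one w with h | h
      · cases r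
        · left
          have a8 : m S ≠ 2 := by
            intro h2
            rw [h2] at a5
            revert a5
            decide
          have a9 : m0 false w = 0 := by simp [m0, h]
          rw [a9]
          omega
        · have a9 : m0 true w = 2 := by simp [m0, h]
          rw [a9]
          omega
      · left
        have a9 : m0 r w = 1 := by cases r <;> simp [m0, h]
        rw [a9]
        omega
    · right
      exact ⟨a8, MT2_fr_one r w _ a7 (by omega)⟩
  refine ⟨d r (-1) ∅, fun S => d r (-1) ∅ - d r (-1) S, mpar, MTR_m0_le r w, MTR_m0_mod r w, hm0,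
    ?_, ?_, ?_, ?_⟩
  · intro S
    have a1 := E1 S
    have a2 := E1 ∅
    have a3 := G1 S
    have a4 := gmc S
    have a5 := dle (-1) S
    show l S + 2 * (d r (-1) ∅ - d r (-1) S) = d r (-1) ∅ + S.card
    omega
  · intro S
    constructor
    · intro h
      by_contra hS
      have a1 := hrk S hS
      have h' : d r (-1) ∅ - d r (-1) S = 0 := h
      omega
    · rintro rfl
      simp
  · intro S hS
    rcases key S hS with ⟨-, h | h⟩ | ⟨-, h⟩
    · exact Or.inl h
    · exact Or.inr (Or.inl h)
    · exact Or.inr (Or.inr h)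
  · have S1 : ∑ S ∈ Finset.univ.filter (fun S : Finset (Fin (nX (u ++ v))) =>
        d r (-1) ∅ - d r (-1) S = 1), (-1 : ℤ) ^ S.card ≤ -(d r (-1) ∅ : ℤ) := by
      have := h7' (nX (u ++ v)) (fun S => d r (-1) ∅ - d r (-1) S) (KR _) L2 Finset.univ
      simp only [D2, Nat.sub_zero, Finset.subset_univ, true_and] at this
      exact this
    by_cases hz : m0 r w = 0
    · rw [if_pos hz, sub_zero]
      refine le_trans (le_of_eq ?_) S1
      refine Finset.sum_congr rfl fun S _ => ?_
      rw [cw, if_neg (fun h => h.2 hz), mul_one]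
    · rw [if_neg hz]
      have split : ∑ S ∈ Finset.univ.filter (fun S : Finset (Fin (nX (u ++ v))) =>
            d r (-1) ∅ - d r (-1) S = 1), (-1 : ℤ) ^ S.card * cw (m0 r w) (m S) =
          ∑ S ∈ Finset.univ.filter (fun S : Finset (Fin (nX (u ++ v))) =>
            d r (-1) ∅ - d r (-1) S = 1), (-1 : ℤ) ^ S.card +
          ∑ S ∈ Finset.univ.filter (fun S : Finset (Fin (nX (u ++ v))) =>
            S ⊆ (Finset.univ.filter fun e => d r 1 ∅ - d r 1 {e} = 0) ∧
              d r (-1) ∅ - d r (-1) S = 1), (-1 : ℤ) ^ S.card := by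
        rw [Finset.sum_filter, Finset.sum_filter, Finset.sum_filter, ← Finset.sum_add_distrib]
        refine Finset.sum_congr rfl fun S _ => ?_
        by_cases h1 : d r (-1) ∅ - d r (-1) S = 1
        · rw [if_pos h1, if_pos h1]
          rcases key S h1 with ⟨h2, h3⟩ | ⟨h2, h3⟩
          · rw [if_neg, cw, if_neg, mul_one, add_zero]
            · rintro ⟨h4, -⟩
              rcases h3 with h3 | ⟨-, h3⟩ <;> omega
            · rintro ⟨h4, -⟩
              have h5 : d r 1 ∅ - d r 1 S = 0 := (MT2_zero (KR 1) S).2 h4
              omega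
          · rw [if_pos ⟨(MT2_zero (KR 1) S).1 h2, h1⟩, cw, if_pos ⟨h3, hz⟩]
            ring
        · rw [if_neg h1, if_neg h1, if_neg (fun h => h1 h.2), add_zero]
      rw [split]
      by_cases hE : ∃ e : Fin (nX (u ++ v)), d r 1 ∅ - d r 1 {e} = 0
      · obtain ⟨e, he⟩ := hE
        have S2 := h7' (nX (u ++ v)) (fun S => d r (-1) ∅ - d r (-1) S) (KR _) L2
          (Finset.univ.filter fun e => d r 1 ∅ - d r 1 {e} = 0)
        have hne : (Finset.univ.filter fun e : Fin (nX (u ++ v)) => d r 1 ∅ - d r 1 {e} = 0) ≠
            ∅ := by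
          intro h
          have : e ∈ (∅ : Finset (Fin (nX (u ++ v)))) := by
            rw [← h]
            exact Finset.mem_filter.2 ⟨Finset.mem_univ _, he⟩
          exact absurd this (Finset.notMem_empty _)
        have h3 := hrk _ hne
        have h4 : (1 : ℤ) ≤ ((d r (-1) ∅ - d r (-1)
            (Finset.univ.filter fun e : Fin (nX (u ++ v)) => d r 1 ∅ - d r 1 {e} = 0) : ℕ) : ℤ) := by
          exact_mod_cast h3
        linarith
      · have L1' : ∀ k : Fin (nX (u ++ v)), d r 1 ∅ - d r 1 {k} = 1 := by
          intro k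
          have a1 := L1 k
          have a2 : d r 1 ∅ - d r 1 {k} ≠ 0 := fun h => hE ⟨k, h⟩
          omega
        have S2 : ∑ S ∈ Finset.univ.filter (fun S : Finset (Fin (nX (u ++ v))) =>
            S ⊆ (Finset.univ.filter fun e => d r 1 ∅ - d r 1 {e} = 0) ∧
              d r (-1) ∅ - d r (-1) S = 1), (-1 : ℤ) ^ S.card = 0 := by
          rw [Finset.sum_eq_zero]
          intro S hS
          exfalso
          obtain ⟨h4, h5⟩ := (Finset.mem_filter.1 hS).2
          have h6 : S = ∅ := by
            by_contra hne
            obtain ⟨e, he⟩ := Finset.nonempty_iff_ne_empty.2 hne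
            exact hE ⟨e, (Finset.mem_filter.1 (h4 he)).2⟩
          rw [h6] at h5
          omega
        rw [S2, add_zero]
        have hg : r = true ∨ decide (w % 2 = 0) = r := by
          cases r
          · right
            by_contra hw2
            have : w % 2 = 0 := by
              by_contra h
              exact hw2 (by simp [h])
            exact hz (by simp [m0, this])
          · left; rfl
        have D3 : d r 1 Finset.univ = 0 := by
          rw [hd]
          exact h3 r 1 u v w (Or.inl rfl) hu hv hw hg hC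
        obtain ⟨S₀, f, hf, hfd⟩ := h11 r u v _ w hu hv hw hF
        have hb := (h9 (st r S₀) u v _ w (l S₀) (m S₀) hu hv hw (hP S₀)).1 f hf
        rw [hfd] at hb
        have hfr1 : 1 ≤ fr r (m S₀) := by
          rcases Nat.mod_two_eq_zero_or_one w with h | h
          · rw [if_pos h] at hb
            have h4' : 4 ≤ m S₀ := by
              have : |(4 : ℤ)| = 4 := by norm_num
              rw [this] at hb
              omega
            have hr : r = true := by
              cases r
              · exfalso
                rcases hg with hg | hg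
                · cases hg
                · simp [h] at hg
              · rfl
            subst hr
            exact MTR_fr_pos true _ 2 (by omega) (by omega) (by decide)
          · rw [if_neg (by omega)] at hb
            have h4' : 3 ≤ m S₀ := by
              have : |(3 : ℤ)| = 3 := by norm_num
              rw [this] at hb
              omega
            cases r
            · exact MTR_fr_pos false _ 1 (by omega) (by omega) (by decide)
            · exact MTR_fr_pos true _ 2 (by omega) (by omega) (by decide)
        have := h7 (nX (u ++ v)) (fun S => d r (-1) ∅ - d r (-1) S)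
          (fun S => d r 1 ∅ - d r 1 S) (KR _) (KR _) L2 L1' (fun e e' => hle _) S₀
        have a2 := hfr S₀
        have a3 := dle 1 S₀
        have a4 := dle (-1) S₀
        simp only [D3] at this ⊢
        omega

end Pool.TWC
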