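import Pool.Agent.TWC.StD
import Pool.Agent.TWB.Cmb

/-!
# TWC [PH2]: two more extreme coefficients of `Ph`
-/

set_option autoImplicit false

namespace Pool.TWC

open LaurentPolynomial Pool.Agent.ARB Pool.Agent.Helper2 Pool.ALT

/-- the exponent of a sequence -/
private def PH2q (k : ℤ) (s : List ℤˣ) : ℤ :=
  2 * Pool.Agent.TWB.sm s + k * ((Pool.Agent.TWB.mm s : ℤ) ^ 2 + 2 * Pool.Agent.TWB.mm s)

private theorem PH2_coeff_CT (a : ℤ) (n j : ℤ) :
    (C a * T n : LP).coeff j = if n = j then a else 0 := by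
  rw [← single_eq_C_mul_T, AddMonoidAlgebra.coeff_single, Finsupp.single_apply]

private theorem PH2_coeff_Ph (k : ℤ) (m : ℕ) (j : ℤ) : (Ph k m).coeff j =
    ∑ ε : Fin m → ℤˣ, if PH2q k (List.ofFn ε) = j then (-1 : ℤ) ^ m else 0 := by
  unfold Ph
  rw [AddMonoidAlgebra.coeff_sum, Finsupp.finsetSum_apply]
  exact Finset.sum_congr rfl fun ε _ => PH2_coeff_CT _ _ _

private theorem PH2_t3 : ∀ ε : Fin 3 → ℤˣ,
    Pool.Agent.TWB.mm (List.ofFn ε) = 1 ∨
      (Pool.Agent.TWB.mm (List.ofFn ε) = 3 ∧ Pool.Agent.TWB.sm (List.ofFn ε) ≤ 3 ∧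
        -3 ≤ Pool.Agent.TWB.sm (List.ofFn ε)) := by
  decide +kernel

private theorem PH2_t4 : ∀ ε : Fin 4 → ℤˣ,
    (Pool.Agent.TWB.mm (List.ofFn ε) = 0 ∧ Pool.Agent.TWB.sm (List.ofFn ε) = 0) ∨
    (Pool.Agent.TWB.mm (List.ofFn ε) = 2 ∧ Pool.Agent.TWB.sm (List.ofFn ε) ≤ 2 ∧
        -2 ≤ Pool.Agent.TWB.sm (List.ofFn ε)) ∨
      (Pool.Agent.TWB.mm (List.ofFn ε) = 4 ∧ Pool.Agent.TWB.sm (List.ofFn ε) ≤ 4 ∧
        -4 ≤ Pool.Agent.TWB.sm (List.ofFn ε)) := by
  decide +kernel

private theorem PH2_s3 : ∀ τ : ℤ, (τ = 1 ∨ τ = -1) → (∑ ε : Fin 3 → ℤˣ,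
    if (Pool.Agent.TWB.mm (List.ofFn ε) = 1 ∧ Pool.Agent.TWB.sm (List.ofFn ε) = τ)
      then (-1 : ℤ) ^ 3 else 0) = -2 := by
  rintro τ (rfl | rfl) <;> decide +kernel

private theorem PH2_s4 : (∑ ε : Fin 4 → ℤˣ,
    if Pool.Agent.TWB.mm (List.ofFn ε) = 0 then (-1 : ℤ) ^ 4 else 0) = 2 := by
  decide +kernel

theorem thm_PH2 : St_PH2 := by
  intro k τ hτ hk
  constructor
  · rw [PH2_coeff_Ph, ← PH2_s3 τ hτ]
    refine Finset.sum_congr rfl fun ε _ => if_congr ?_ rfl rfl
    unfold PH2q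
    rcases PH2_t3 ε with h | ⟨h, h1, h2⟩
    · rw [h]
      rcases hτ with rfl | rfl <;> constructor
      · intro h3
        exact ⟨rfl, by push_cast at h3; omega⟩
      · rintro ⟨-, h3⟩
        push_cast
        omega
      · intro h3
        exact ⟨rfl, by push_cast at h3; omega⟩
      · rintro ⟨-, h3⟩
        push_cast
        omega
    · rw [h]
      rcases hτ with rfl | rfl <;> constructor
      · intro h3
        push_cast at h3
        omega
      · rintro ⟨h3, -⟩
        omega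
      · intro h3
        push_cast at h3
        omega
      · rintro ⟨h3, -⟩
        omega
  · rw [PH2_coeff_Ph, ← PH2_s4, mul_zero]
    refine Finset.sum_congr rfl fun ε _ => if_congr ?_ rfl rfl
    unfold PH2q
    rcases PH2_t4 ε with ⟨h, h1⟩ | ⟨h, h1, h2⟩ | ⟨h, h1, h2⟩
    · rw [h, h1]
      simp
    · rw [h]
      rcases hτ with rfl | rfl <;> constructor
      · intro h3
        push_cast at h3
        omega
      · intro h3
        omega
      · intro h3
        push_cast at h3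
        omega
      · intro h3
        omega
    · rw [h]
      rcases hτ with rfl | rfl <;> constructor
      · intro h3
        push_cast at h3
        omega
      · intro h3
        omega
      · intro h3
        push_cast at h3
        omega
      · intro h3
        omega

end Pool.TWC
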