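import Pool.Agent.TWC.All
import Pool.Agent.TWC.CO2
import Pool.Agent.TWC.CRV
import Pool.Agent.TWC.FAC
import Pool.Agent.TWC.GCR
import Pool.Agent.TWC.LI2
import Pool.Agent.TWC.LOM
import Pool.Agent.TWC.MT2
import Pool.Agent.TWC.PH2

/-!
# TWC: assembly of part D (the theorem with the weaker hypothesis on the crossings)
-/

set_option autoImplicit false

namespace Pool.TWC

open LaurentPolynomial Pool.Agent.ARB Pool.Agent.Helper2 Pool.ALT

theorem lom : St_LOM := thm_LOM thm_CRV (thm_GCR poss thm_EMB) (thm_FAC thm_EMB) poss thm_EMB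
theorem mt2 : St_MT2 := thm_MT2 eqn thm_GAM (thm_VAN thm_EMB) (thm_ONE thm_EMB) lom
  thm_RKF thm_LIN (thm_LI2 thm_LIN) mnu mht par (thm_HGT poss thm_NBR) nff

/-- **Full twists along an arc between distant regions of a reduced alternating diagram.** -/
theorem mainP (e : Bool) (u v : Word) (n w : ℕ) (k : ℤ) (K : List Slice)
    (hu : Pool.Agent.ARB.Ok u 0 n) (hv : Pool.Agent.ARB.Ok v n 0) (hw : w ≤ n)
    (ha : ∀ (p : Bool) (i : ℕ), pX i p ∈ u ++ v → (p = e ↔ i % 2 = 0)) (hr : RedA u v w)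
    (hF : Far u v w) (hk : k ≠ 0) (hK : IsDiagram K) (hKf : forget K = u ++ FT w k ++ v) :
    ¬ IsUnit (bracket K) := by
  have hw0 := far_ne u v w hF
  have hu0 : u ≠ [] := by
    rintro rfl
    have : 0 = n := hu
    omega
  have hD0 : u ++ v ≠ [] := by simp [hu0]
  have hK0 : K ≠ [] := by
    rintro rfl
    have h : ([] : Word) = u ++ FT w k ++ v := hKf
    have := congrArg List.length h
    simp only [List.length_nil, List.length_append] at this
    exact hu0 (List.length_eq_zero_iff.1 (by omega))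
  intro hunit
  obtain ⟨τ, r, hτ, hτk, hτr⟩ : ∃ (τ : ℤ) (r : Bool), (τ = 1 ∨ τ = -1) ∧ τ * k < 0 ∧
      τ = (if r = e then 1 else -1) := by
    rcases lt_or_gt_of_ne hk with h | h
    · exact ⟨1, e, Or.inl rfl, by omega, by simp⟩
    · exact ⟨-1, !e, Or.inr rfl, by omega, by cases e <;> simp⟩
  have hex : ∀ S : Finset (Fin (nX (u ++ v))), ∃ x : ℕ × ℕ, Pr (st r S) u v w x.1 x.2 := by
    intro S
    obtain ⟨l, m, h⟩ := prr (st r S) u v n w hu hv hw
    exact ⟨(l, m), h⟩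
  choose x hx using hex
  have hfor := frm u v n w k K r e τ hu hv hw hK hK0 hKf ha hτr (fun S => (x S).1)
    (fun S => (x S).2) hx
  have hmod : ∃ M : Model ℤ ((ℕ → ℤ) → ℤ), M.δ = 2 ∧ Cc M ∧ M.init = fun _ => 1 := by
    obtain ⟨M, hM⟩ := hmd.1
    exact ⟨M, hM.del, (hmd.2 M hM).1, hM.init⟩
  have hpos : ∀ S, 1 ≤ (x S).1 + (x S).2 := fun S =>
    cir hmod (st r S) u v n w _ _ hu hv hw hD0 (hx S)
  obtain ⟨S, hS⟩ := cnn (nX (u ++ v)) w k τ (bracket K) (fun S => (x S).1) (fun S => (x S).2)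
    (pht k τ hτ hτk).2.2.2.2.2 hfor hpos hunit
  have hCon : Con (u ++ v) := thm_CN2 (u ++ v) (hu.append hv)
    ⟨st r S, thm_CON (st r S) u v n w _ _ hu hv hw hD0 (hx S) hS⟩
  obtain ⟨n₀, rk, h1⟩ := mt2 r u v n w hu hv hw hr hF hCon (fun S => (x S).1)
    (fun S => (x S).2) hx
  exact thm_CO2 (nX (u ++ v)) w n₀ (m0 r w) k τ (bracket K) (fun S => (x S).1)
    (fun S => (x S).2) rk hτ hτk pht thm_PH2 hfor h1 hunit

/-- The same for the normalized polynomial. -/
theorem mainPF (e : Bool) (u v : Word) (n w : ℕ) (k : ℤ) (K : List Slice)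
    (hu : Pool.Agent.ARB.Ok u 0 n) (hv : Pool.Agent.ARB.Ok v n 0) (hw : w ≤ n)
    (ha : ∀ (p : Bool) (i : ℕ), pX i p ∈ u ++ v → (p = e ↔ i % 2 = 0)) (hr : RedA u v w)
    (hF : Far u v w) (hk : k ≠ 0) (hK : IsDiagram K) (hKf : forget K = u ++ FT w k ++ v) :
    ¬ IsUnit (fPoly K) := by
  intro h
  refine mainP e u v n w k K hu hv hw ha hr hF hk hK hKf ?_
  unfold fPoly at h
  exact isUnit_of_mul_isUnit_right h

end Pool.TWC
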