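import Pool.Agent.TWC.StA
import Pool.Agent.ALT.Mo.JO

/-! # TWC, module CIR: every state has a circle -/

set_option autoImplicit false

namespace Pool.TWC

open LaurentPolynomial Pool.Agent.ARB Pool.Agent.Helper2 Pool.ALT

section
variable {R V : Type} [CommRing R] [AddCommGroup V] [Module R V]

private theorem cir_app (M : Model R V) : ∀ (u v : Word) (x : V),
    runC M (u ++ v) x = runC M v (runC M u x)
  | [], _, _ => rfl
  | ⟨.U, i⟩ :: u, v, x => cir_app M u v (M.cup i x)
  | ⟨.N, i⟩ :: u, v, x => cir_app M u v (M.cap i x)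
  | ⟨.X _, _⟩ :: u, v, x => cir_app M u v x

private theorem cir_smul (M : Model R V) (r : R) : ∀ (w : Word) (x : V),
    runC M w (r • x) = r • runC M w x
  | [], _ => rfl
  | ⟨.U, i⟩ :: w, x => by
      show runC M w (M.cup i (r • x)) = r • runC M w (M.cup i x)
      rw [map_smul, cir_smul M r w]
  | ⟨.N, i⟩ :: w, x => by
      show runC M w (M.cap i (r • x)) = r • runC M w (M.cap i x)
      rw [map_smul, cir_smul M r w]
  | ⟨.X _, i⟩ :: w, x => cir_smul M r w x

end

private theorem cir_jo : ∀ (u v : Word) (B : ℕ → Bool),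
    jo B (u ++ v) = jo B u ++ jo (fun k => B (k + nX u)) v
  | [], _, _ => rfl
  | ⟨.U, i⟩ :: u, v, B => by
      show pU i :: jo B (u ++ v) = pU i :: (jo B u ++ jo (fun k => B (k + nX u)) v)
      rw [cir_jo u v B]
  | ⟨.N, i⟩ :: u, v, B => by
      show pN i :: jo B (u ++ v) = pN i :: (jo B u ++ jo (fun k => B (k + nX u)) v)
      rw [cir_jo u v B]
  | ⟨.X p, i⟩ :: u, v, B => by
      have h := cir_jo u v (fun k => B (k + 1))
      show jo B (⟨.X p, i⟩ :: (u ++ v)) =
        jo B (⟨.X p, i⟩ :: u) ++ jo (fun k => B (k + (nX u + 1))) v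
      simp only [jo]
      rw [h]
      split_ifs
      · rfl
      · rfl

private theorem cir_ok : ∀ (u v : Word) (a b c : ℕ), Ok u a b → Ok v b c → Ok (u ++ v) a c
  | [], _, _, _, _, h, h' => by
      have e : _ = _ := h
      rw [e]
      exact h'
  | _ :: u, v, _, b, c, h, h' => ⟨h.1, cir_ok u v _ b c h.2 h'⟩

private theorem cir_one (h : St_P1) : ∀ (N : ℕ) (v : Word), v.length ≤ N → NoX v → Ok v 0 0 →
    ∃ L : ℕ, (v ≠ [] → 1 ≤ L) ∧ ∀ {R V : Type} [CommRing R] [AddCommGroup V] [Module R V]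
      (M : Model R V) (y : V), M.Supp 0 y → runC M v y = M.δ ^ L • y := by
  intro N
  induction N with
  | zero =>
    intro v hv _ _
    have e : v = [] := List.length_eq_zero_iff.1 (Nat.le_zero.1 hv)
    subst e
    exact ⟨0, fun h => absurd rfl h, fun M y _ => by simp [runC]⟩
  | succ N ih =>
    intro v hv hX hO
    rcases v with _ | ⟨⟨k, i⟩, v₁⟩
    · exact ⟨0, fun h => absurd rfl h, fun M y _ => by simp [runC]⟩
    · cases k with
      | N => exact absurd (show i + 2 ≤ 0 from hO.1) (by omega)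
      | X p => exact absurd (show i + 2 ≤ 0 from hO.1) (by omega)
      | U =>
        have hi : i = 0 := Nat.le_zero.1 (show i + 0 ≤ 0 from hO.1)
        subst hi
        have hX1 : NoX v₁ := fun s hs => hX s (List.mem_cons_of_mem _ hs)
        have hO1 : Ok v₁ (0 + 2) 0 := hO.2
        obtain ⟨j, e, v', hj, hX', hO', hl, H⟩ := h v₁ 0 hX1 hO1
        have hj0 : j = 0 := Nat.le_zero.1 hj
        subst hj0
        have hv1 : v₁.length + 1 ≤ N + 1 := hv
        obtain ⟨L, hL, HL⟩ := ih v' (by omega) hX' hO'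
        refine ⟨e + 1 + L, fun _ => by omega, fun M y hy => ?_⟩
        show runC M v₁ (M.cup 0 y) = _
        rw [H M (M.cup 0 y) (M.supp_cup 0 0 y le_rfl hy), M.rel1 0 0 y hy le_rfl, cir_smul,
          HL M y hy, smul_smul, smul_smul]
        congr 1
        ring

private theorem cir_caps : ∀ m : ℕ, caps (m + 1) = pN m :: caps m
  | 0 => rfl
  | m + 1 => by
      show sh 1 (caps (m + 1)) ++ [pN 0] = pN (m + 1) :: (sh 1 (caps m) ++ [pN 0])
      rw [cir_caps m]
      rfl

private theorem cir_cups : ∀ m : ℕ, cups (m + 1) = cups m ++ [pU m]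
  | 0 => rfl
  | m + 1 => by
      show pU 0 :: sh 1 (cups (m + 1)) = (pU 0 :: sh 1 (cups m)) ++ [pU (m + 1)]
      rw [cir_cups m]
      simp [sh]

section
variable {R V : Type} [CommRing R] [AddCommGroup V] [Module R V]

private theorem cir_supp (M : Model R V) : ∀ m : ℕ, M.Supp (2 * m) (runC M (cups m) M.init)
  | 0 => M.supp_init
  | m + 1 => by
      rw [cir_cups, cir_app]
      exact M.supp_cup (2 * m) m _ (by omega) (cir_supp M m)

private theorem cir_psi (M : Model R V) : ∀ m : ℕ,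
    Psi M (fun (_ : ℕ) (x : V) => x) m = M.δ ^ m • M.init
  | 0 => by
      show M.init = _
      rw [pow_zero, one_smul]
  | m + 1 => by
      have h := cir_psi M m
      unfold Psi at h ⊢
      rw [cir_caps, cir_cups, cir_app]
      show runC M (caps m) (M.cap m (M.cup m (runC M (cups m) M.init))) = _
      rw [M.rel1 (2 * m) m _ (cir_supp M m) (by omega), cir_smul]
      rw [h, smul_smul]
      congr 1
      ring

end

private theorem cir_ne (B : ℕ → Bool) : ∀ w : Word, w ≠ [] → Ok w 0 0 → jo B w ≠ []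
  | [], h, _ => absurd rfl h
  | ⟨.U, i⟩ :: w, _, _ => by
      show pU i :: jo B w ≠ []
      exact List.cons_ne_nil _ _
  | ⟨.N, i⟩ :: w, _, h => absurd (show i + 2 ≤ 0 from h.1) (by omega)
  | ⟨.X _, i⟩ :: w, _, h => absurd (show i + 2 ≤ 0 from h.1) (by omega)

theorem thm_CIR (h : St_P1) : St_CIR := by
  rintro ⟨M, hδ, hc, hini⟩ B u v n w l m hu hv hw hne hPr
  have hO : Ok (u ++ v) 0 0 := cir_ok u v 0 n 0 hu hv
  obtain ⟨hX, hO'⟩ := thm_JO.1 B (u ++ v) 0 0 hO
  obtain ⟨L, hL, HL⟩ := cir_one h _ (jo B (u ++ v)) le_rfl hX hO'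
  have hL1 : 1 ≤ L := hL (cir_ne B (u ++ v) hne hO)
  have hP : Pole M (fun (_ : ℕ) (x : (ℕ → ℤ) → ℤ) => x) :=
    ⟨fun _ _ _ _ h => h, fun _ _ _ _ _ _ => rfl, fun _ _ _ _ _ _ _ => rfl,
      fun _ _ _ _ _ _ _ => rfl, fun _ _ _ _ _ _ _ => rfl, fun _ _ _ _ _ _ _ => rfl⟩
  have h1 := hPr M (fun _ x => x) hc hP
  rw [cir_psi] at h1
  have h2 := HL M M.init M.supp_init
  rw [cir_jo, cir_app] at h2
  have h3 : M.δ ^ l • (M.δ ^ m • M.init) = M.δ ^ L • M.init := h1.symm.trans h2
  rw [hδ, hini] at h3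
  have h4 := congrFun h3 (fun _ => 0)
  have h5 : (2 : ℤ) ^ l * ((2 : ℤ) ^ m * 1) = (2 : ℤ) ^ L * 1 := h4
  rw [mul_one, mul_one, ← pow_add] at h5
  have h6 : (2 : ℕ) ^ (l + m) = 2 ^ L := by exact_mod_cast h5
  have h7 : l + m = L := Nat.pow_right_injective le_rfl h6
  omega

end Pool.TWC
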