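import Pool.Agent.TWI.Defs
import Pool.Agent.Helper2.Diagram

/-!
# TWC: full twists along an arc between two distant regions of an alternating diagram

Diagrams in Morse position are words of elementary pieces, read from bottom to top (`Word`, see
`ARB/Defs.lean`). The strands at every height are numbered `0, 1, 2, ...` from left to right, and
so are the gaps: gap `i` is to the left of strand `i`; `(l, i)` is gap `i` above the first `l`
pieces. `Same D` (see `TWI/Defs.lean`): two gaps belong to the same region of `D`.
-/

set_option autoImplicit false

namespace Pool.TWC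

open Pool.Agent.ARB
open Pool.TWI (Same)

/-- the strand `w - 1` passes under (`p = true`) or over (`p = false`) the strands
`w - 2, ..., 0` to the left -/
def sweep (w : ℕ) (p : Bool) : Word := ((List.range (w - 1)).map fun j => pX j p).reverse

/-- `k` full twists of the first `w` strands (right or left handed, according to the sign of
`k`) -/
def FT (w : ℕ) (k : ℤ) : Word :=
  (List.replicate (w * k.natAbs) (sweep w (decide (0 < k)))).flatten

/-- the number of strands above the first `l` pieces of a closed word -/
def str (D : Word) (l : ℕ) : ℕ := (D.take l).foldl (fun n s => n - s.k.inn + s.k.out) 0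

/-- no crossing is nugatory: opposite regions at a crossing are different -/
def Reduced (D : Word) : Prop := ∀ (l i : ℕ) (p : Bool), D[l]? = some (pX i p) →
  ¬ Same D (l, i) (l, i + 2) ∧ ¬ Same D (l, i + 1) (l + 1, i + 1)

/-- `Arc D j x y`: some path from the region of the gap `x` to the region of the gap `y` meets `D`
in `j` points (and no crossing). -/
inductive Arc (D : Word) : ℕ → ℕ × ℕ → ℕ × ℕ → Prop
  | same {x y : ℕ × ℕ} (h : Same D x y) : Arc D 0 x y
  | right {j : ℕ} {x y : ℕ × ℕ} {l i : ℕ} (h : Arc D j x (l, i)) (hl : l ≤ D.length)
      (hi : i < str D l) (h' : Same D (l, i + 1) y) : Arc D (j + 1) x y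
  | left {j : ℕ} {x y : ℕ × ℕ} {l i : ℕ} (h : Arc D j x (l, i + 1)) (hl : l ≤ D.length)
      (hi : i < str D l) (h' : Same D (l, i) y) : Arc D (j + 1) x y

end Pool.TWC
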