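import Pool.Agent.TWC.Defs

/-!
# TWC: crossings which are nugatory after the twist

`FT`, `str`, `Arc`: see `TWC/Defs.lean`. Same definitions as `Cr`, `RedA` in `TWC/StD.lean`.
-/

set_option autoImplicit false

namespace Pool.TWC

open Pool.Agent.ARB
open Pool.TWI (Same)

/-- Positions in the complement of `u ++ v`: `(false, l, i)` is the gap `i` above the first `l`
pieces of `u` (below the arc), `(true, l, i)` the gap `i` above the first `l` pieces of `v` (above
the arc). `Path u v w c x y`: some path from `x` to `y` in the complement of `u ++ v` crosses the
arc, which goes from the gap `0` to the gap `w` between `u` and `v`, an even (`c = false`) or an odd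
(`c = true`) number of times. (In the regions of the two ends one can pass on both sides.) -/
inductive Path (u v : Word) (w : ℕ) : Bool → Bool × ℕ × ℕ → Bool × ℕ × ℕ → Prop
  | low {x y : ℕ × ℕ} (h : Same u x y) : Path u v w false (false, x) (false, y)
  | high {x y : ℕ × ℕ} (h : Same v x y) : Path u v w false (true, x) (true, y)
  | seam (j : ℕ) (c : Bool) (h : 0 < j → j < w → c = true) (h' : w < j → c = false) :
      Path u v w c (false, u.length, j) (true, 0, j)
  | symm {c : Bool} {x y : Bool × ℕ × ℕ} (h : Path u v w c x y) : Path u v w c y x
  | trans {c d : Bool} {x y z : Bool × ℕ × ℕ} (h : Path u v w c x y) (h' : Path u v w d y z) :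
      Path u v w (xor c d) x z

/-- No crossing of `u ++ v` is nugatory relative to the arc: opposite regions at a crossing are not
connected by a path which crosses the arc an even number of times. -/
def RelRed (u v : Word) (w : ℕ) : Prop :=
  (∀ (l i : ℕ) (p : Bool), u[l]? = some (pX i p) →
    ¬ Path u v w false (false, l, i) (false, l, i + 2) ∧
    ¬ Path u v w false (false, l, i + 1) (false, l + 1, i + 1)) ∧
  ∀ (l i : ℕ) (p : Bool), v[l]? = some (pX i p) →
    ¬ Path u v w false (true, l, i) (true, l, i + 2) ∧
    ¬ Path u v w false (true, l, i + 1) (true, l + 1, i + 1)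

end Pool.TWC
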