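import Pool.Agent.TWC.DefsP
import Pool.Agent.TWC.All2

set_option autoImplicit false

namespace Pool.TWC

open Pool.Agent.ARB Pool.Agent.Helper2

theorem path_of_cr {u v : Word} {w : ℕ} {c : Bool} {x y : Bool × ℕ × ℕ} (h : Cr u v w c x y) :
    Path u v w c x y := by
  induction h with
  | low h => exact Path.low h
  | high h => exact Path.high h
  | seam j c h h' => exact Path.seam j c h h'
  | symm _ ih => exact ih.symm
  | trans _ _ ih ih' => exact ih.trans ih'

theorem redA_of {u v : Word} {w : ℕ} (h : RelRed u v w) : RedA u v w :=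
  ⟨fun l i p hl => ⟨fun hc => (h.1 l i p hl).1 (path_of_cr hc),
      fun hc => (h.1 l i p hl).2 (path_of_cr hc)⟩,
    fun l i p hl => ⟨fun hc => (h.2 l i p hl).1 (path_of_cr hc),
      fun hc => (h.2 l i p hl).2 (path_of_cr hc)⟩⟩

end Pool.TWC
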