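import Pool.Agent.TWC.StA

/-!
# TWC, module HTR: height functions and the height model (helper58)
-/

set_option autoImplicit false

namespace Pool.TWC

open LaurentPolynomial Pool.Agent.ARB Pool.Agent.Helper2 Pool.ALT

/-- near rows -/
private def htr_near (n : ℕ) (c : ℕ → ℤ) : Prop := ∀ j < n, NearZ (c j) (c (j + 1))

private theorem htr_ns {a b : ℤ} (h : NearZ a b) : NearZ b a := Or.symm h

/-- the good functions of rows -/
private structure htr_G (M : Model ℤ ((ℕ → ℤ) → ℤ)) (n : ℕ) (ψ : (ℕ → ℤ) → ℤ) : Prop where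
  pos : ∀ c, 0 ≤ ψ c
  sup : M.Supp n ψ
  dep : ∀ c c' : ℕ → ℤ, (∀ j ≤ n, c j = c' j) → ψ c = ψ c'

/-- the operator of a piece in the state `b` -/
private noncomputable def htr_pop (M : Model ℤ ((ℕ → ℤ) → ℤ)) (b : Bool) (s : Piece)
    (ψ : (ℕ → ℤ) → ℤ) : (ℕ → ℤ) → ℤ :=
  match s.k with
  | .U => M.cup s.i ψ
  | .N => M.cap s.i ψ
  | .X _ => if b = decide (s.i % 2 = 0) then M.cup s.i (M.cap s.i ψ) else ψ

/-- the rows `c` (below) and `c'` (above) fit to the piece in the state `b` -/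
private def htr_F (b : Bool) (s : Piece) (n : ℕ) (c c' : ℕ → ℤ) : Prop :=
  match s.k with
  | .U => (∀ j ≤ s.i, c j = c' j) ∧ ∀ j, s.i ≤ j → j ≤ n → c j = c' (j + 2)
  | .N => (∀ j ≤ s.i, c j = c' j) ∧ ∀ j, s.i ≤ j → j + 2 ≤ n → c (j + 2) = c' j
  | .X _ => (∀ j ≤ n, j ≠ s.i + 1 → c j = c' j) ∧
      (if b = decide (s.i % 2 = 0) then c s.i = c (s.i + 2) else c (s.i + 1) = c' (s.i + 1))

private theorem htr_gcup {M : Model ℤ ((ℕ → ℤ) → ℤ)} (hM : HM M) {n i : ℕ} (hi : i ≤ n)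
    {ψ : (ℕ → ℤ) → ℤ} (h : htr_G M n ψ) : htr_G M (n + 2) (M.cup i ψ) := by
  refine ⟨fun c => ?_, M.supp_cup n i ψ hi h.sup, fun c c' hc => ?_⟩
  · rw [hM.cup]
    split_ifs
    · exact h.pos _
    · exact le_rfl
  · rw [hM.cup, hM.cup, hc i (by omega), hc (i + 1) (by omega), hc (i + 2) (by omega)]
    rw [h.dep (dlZ i c) (dlZ i c') fun j hj => ?_]
    unfold dlZ
    split_ifs
    · exact hc j (by omega)
    · exact hc (j + 2) (by omega)

private theorem htr_gcap {M : Model ℤ ((ℕ → ℤ) → ℤ)} (hM : HM M) {n i : ℕ} (hi : i ≤ n)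
    {ψ : (ℕ → ℤ) → ℤ} (h : htr_G M (n + 2) ψ) : htr_G M n (M.cap i ψ) := by
  refine ⟨fun c => ?_, M.supp_cap n i ψ hi h.sup, fun c c' hc => ?_⟩
  · rw [hM.cap]
    exact add_nonneg (h.pos _) (h.pos _)
  · have h1 : ∀ b : ℤ, ψ (insZ i b c) = ψ (insZ i b c') := fun b => h.dep _ _ fun j hj => by
      unfold insZ
      split_ifs
      · exact hc j (by omega)
      · rfl
      · exact hc (j - 2) (by omega)
    rw [hM.cap, hM.cap, h1, h1, hc i hi]

private theorem htr_gpop {M : Model ℤ ((ℕ → ℤ) → ℤ)} (hM : HM M) (b : Bool) (s : Piece) (n : ℕ)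
    (ψ : (ℕ → ℤ) → ℤ) (hn : s.i + s.k.inn ≤ n) (h : htr_G M n ψ) :
    htr_G M (n - s.k.inn + s.k.out) (htr_pop M b s ψ) := by
  obtain ⟨k, i⟩ := s
  cases k with
  | U =>
      have hn' : i ≤ n := hn
      exact htr_gcup hM hn' h
  | N =>
      have hn' : i + 2 ≤ n := hn
      obtain ⟨n', rfl⟩ : ∃ n', n = n' + 2 := ⟨n - 2, by omega⟩
      exact htr_gcap hM (by omega) h
  | X p =>
      have hn' : i + 2 ≤ n := hn
      obtain ⟨n', rfl⟩ : ∃ n', n = n' + 2 := ⟨n - 2, by omega⟩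
      show htr_G M (n' + 2) (if b = decide (i % 2 = 0) then M.cup i (M.cap i ψ) else ψ)
      split_ifs
      · exact htr_gcup hM (by omega) (htr_gcap hM (by omega) h)
      · exact h

private theorem htr_capne {M : Model ℤ ((ℕ → ℤ) → ℤ)} (hM : HM M) {n i : ℕ} (hi : i ≤ n)
    {ψ : (ℕ → ℤ) → ℤ} (h : htr_G M (n + 2) ψ) (c' : ℕ → ℤ) :
    M.cap i ψ c' ≠ 0 ↔ ∃ c : ℕ → ℤ, ψ c ≠ 0 ∧ (∀ j ≤ i, c j = c' j) ∧
      ∀ j, i ≤ j → j ≤ n → c (j + 2) = c' j := by
  rw [hM.cap]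
  have key : ∀ b : ℤ, ψ (insZ i b c') ≠ 0 → ∃ c : ℕ → ℤ, ψ c ≠ 0 ∧ (∀ j ≤ i, c j = c' j) ∧
      ∀ j, i ≤ j → j ≤ n → c (j + 2) = c' j := by
    intro b hb
    refine ⟨_, hb, fun j hj => ?_, fun j hj _ => ?_⟩
    · unfold insZ
      rw [if_pos hj]
    · unfold insZ
      rw [if_neg (by omega), if_neg (by omega)]
      rfl
  constructor
  · intro h1
    by_cases h2 : ψ (insZ i (c' i + 1) c') = 0
    · by_cases h3 : ψ (insZ i (c' i - 1) c') = 0
      · exact absurd (by rw [h2, h3, add_zero]) h1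
      · exact key _ h3
    · exact key _ h2
  · rintro ⟨c, hc, h1, h2⟩ h3
    have h4 : NearZ (c i) (c (i + 1)) := (hM.supp _ _).1 h.sup c hc i (by omega)
    have h5 : ψ c = ψ (insZ i (c (i + 1)) c') := h.dep _ _ fun j hj => by
      unfold insZ
      split_ifs with h6 h7
      · exact h1 j h6
      · rw [h7]
      · have h8 := h2 (j - 2) (by omega) (by omega)
        rwa [show j - 2 + 2 = j by omega] at h8
    rw [h1 i le_rfl] at h4
    have h6 := h.pos (insZ i (c' i + 1) c')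
    have h7 := h.pos (insZ i (c' i - 1) c')
    rcases h4 with h4 | h4
    · rw [show c (i + 1) = c' i - 1 by omega] at h5
      omega
    · rw [show c (i + 1) = c' i + 1 by omega] at h5
      omega

private theorem htr_popne {M : Model ℤ ((ℕ → ℤ) → ℤ)} (hM : HM M) (b : Bool) (s : Piece) (n : ℕ)
    (ψ : (ℕ → ℤ) → ℤ) (hn : s.i + s.k.inn ≤ n) (h : htr_G M n ψ) (c' : ℕ → ℤ)
    (hc' : htr_near (n - s.k.inn + s.k.out) c') :
    htr_pop M b s ψ c' ≠ 0 ↔ ∃ c : ℕ → ℤ, ψ c ≠ 0 ∧ htr_F b s n c c' := by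
  obtain ⟨k, i⟩ := s
  cases k with
  | U =>
      have hn' : i ≤ n := hn
      have hc : htr_near (n + 2) c' := hc'
      show M.cup i ψ c' ≠ 0 ↔ ∃ c : ℕ → ℤ, ψ c ≠ 0 ∧ (∀ j ≤ i, c j = c' j) ∧
        ∀ j, i ≤ j → j ≤ n → c j = c' (j + 2)
      rw [hM.cup]
      constructor
      · intro h1
        rw [ne_eq, ite_eq_right_iff, Classical.not_imp] at h1
        obtain ⟨⟨h2, _⟩, h3⟩ := h1
        refine ⟨_, h3, fun j hj => ?_, fun j hj _ => ?_⟩
        · unfold dlZ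
          rw [if_pos hj]
        · unfold dlZ
          split_ifs with h4
          · rw [show j = i by omega]
            exact h2
          · rfl
      · rintro ⟨c, h1, h2, h3⟩
        have h4 : c' i = c' (i + 2) := (h2 i le_rfl).symm.trans (h3 i le_rfl hn')
        rw [if_pos ⟨h4, hc i (by omega)⟩, ← h.dep c (dlZ i c') fun j hj => ?_]
        · exact h1
        · unfold dlZ
          split_ifs with h5
          · exact h2 j h5
          · exact h3 j (by omega) hj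
  | N =>
      have hn' : i + 2 ≤ n := hn
      obtain ⟨n', rfl⟩ : ∃ n', n = n' + 2 := ⟨n - 2, by omega⟩
      show M.cap i ψ c' ≠ 0 ↔ ∃ c : ℕ → ℤ, ψ c ≠ 0 ∧ (∀ j ≤ i, c j = c' j) ∧
        ∀ j, i ≤ j → j + 2 ≤ n' + 2 → c (j + 2) = c' j
      rw [htr_capne hM (by omega) h c']
      constructor
      · rintro ⟨c, h1, h2, h3⟩
        exact ⟨c, h1, h2, fun j hj hj' => h3 j hj (by omega)⟩
      · rintro ⟨c, h1, h2, h3⟩
        exact ⟨c, h1, h2, fun j hj hj' => h3 j hj (by omega)⟩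
  | X p =>
      have hn' : i + 2 ≤ n := hn
      obtain ⟨n', rfl⟩ : ∃ n', n = n' + 2 := ⟨n - 2, by omega⟩
      have hc : htr_near (n' + 2) c' := hc'
      show (if b = decide (i % 2 = 0) then M.cup i (M.cap i ψ) else ψ) c' ≠ 0 ↔
        ∃ c : ℕ → ℤ, ψ c ≠ 0 ∧ (∀ j ≤ n' + 2, j ≠ i + 1 → c j = c' j) ∧
          (if b = decide (i % 2 = 0) then c i = c (i + 2) else c (i + 1) = c' (i + 1))
      by_cases hb : b = decide (i % 2 = 0)
      · simp only [if_pos hb]
        rw [hM.cup]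
        constructor
        · intro h1
          rw [ne_eq, ite_eq_right_iff, Classical.not_imp] at h1
          obtain ⟨⟨h2, _⟩, h3⟩ := h1
          obtain ⟨c, h4, h5, h6⟩ := (htr_capne hM (by omega) h _).1 h3
          have h7 : c i = c' i := by
            rw [h5 i le_rfl]
            unfold dlZ
            rw [if_pos le_rfl]
          have h8 : ∀ j ≤ n' + 2, j ≠ i + 1 → c j = c' j := by
            intro j hj hj'
            by_cases h9 : j ≤ i
            · rw [h5 j h9]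
              unfold dlZ
              rw [if_pos h9]
            · have h10 := h6 (j - 2) (by omega) (by omega)
              rw [show j - 2 + 2 = j by omega] at h10
              rw [h10]
              unfold dlZ
              split_ifs with h11
              · rw [show j = i + 2 by omega, show i + 2 - 2 = i by omega]
                exact h2
              · rw [show j - 2 + 2 = j by omega]
          exact ⟨c, h4, h8, by rw [h7, h8 (i + 2) (by omega) (by omega), h2]⟩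
        · rintro ⟨c, h1, h2, h3⟩
          have h4 : c' i = c' (i + 2) := by
            rw [← h2 i (by omega) (by omega), ← h2 (i + 2) (by omega) (by omega), h3]
          rw [if_pos ⟨h4, hc i (by omega)⟩]
          refine (htr_capne hM (by omega) h _).2 ⟨c, h1, fun j hj => ?_, fun j hj hj' => ?_⟩
          · unfold dlZ
            rw [if_pos hj]
            exact h2 j (by omega) (by omega)
          · unfold dlZ
            split_ifs with h5
            · rw [show j = i by omega, h2 (i + 2) (by omega) (by omega), h4]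
            · exact h2 (j + 2) (by omega) (by omega)
      · simp only [if_neg hb]
        constructor
        · intro h1
          exact ⟨c', h1, fun _ _ _ => rfl, rfl⟩
        · rintro ⟨c, h1, h2, h3⟩
          rw [← h.dep c c' fun j hj => ?_]
          · exact h1
          · by_cases h4 : j = i + 1
            · rw [h4]
              exact h3
            · exact h2 j hj h4

/-! ### height functions, one piece removed -/

/-- the bottom row -/
private def htr_row {n : ℕ} {w : Word} (f : Loc n w → ℤ) : ℕ → ℤ := fun j => f (bo n w j)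

/-- the function above the first piece -/
private def htr_up {n : ℕ} {s : Piece} {w : Word} (f : Loc n (s :: w) → ℤ) :
    Loc (n - s.k.inn + s.k.out) w → ℤ :=
  fun x => f (Sum.inr x : Fin (n + 1) ⊕ Loc (n - s.k.inn + s.k.out) w)

private theorem htr_R (s : Piece) (w : Word) (n : ℕ) (f : Loc n (s :: w) → ℤ) :
    (∀ x y, R0 n (s :: w) x y → f x = f y) ↔
      (∀ j j' : ℕ, j ≤ n → j' ≤ n - s.k.inn + s.k.out → gl s j j' →
        htr_row f j = htr_row (htr_up f) j') ∧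
      ∀ x' y', R0 (n - s.k.inn + s.k.out) w x' y' → htr_up f x' = htr_up f y' := by
  constructor
  · intro h
    exact ⟨fun j j' hj hj' hg => h _ _ (Or.inl ⟨j, j', hj, hj', hg, rfl, rfl⟩),
      fun x' y' hr => h _ _ (Or.inr ⟨x', y', rfl, rfl, hr⟩)⟩
  · rintro ⟨h1, h2⟩ x y (⟨j, j', hj, hj', hg, rfl, rfl⟩ | ⟨x', y', rfl, rfl, hr⟩)
    · exact h1 j j' hj hj' hg
    · exact h2 x' y' hr

private theorem htr_Ad (n : ℕ) (w : Word) (f : Loc n w → ℤ) :
    (∀ x y, Ad n w x y → f x = f y + 1 ∨ f y = f x + 1) ↔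
      ∀ x y, Rt n w x y → NearZ (f x) (f y) := by
  constructor
  · intro h x y hr
    exact h x y (Or.inl hr)
  · rintro h x y (hr | hr)
    · exact h x y hr
    · exact htr_ns (h y x hr)

private theorem htr_N (s : Piece) (w : Word) (n : ℕ) (f : Loc n (s :: w) → ℤ) :
    (∀ x y, Rt n (s :: w) x y → NearZ (f x) (f y)) ↔
      htr_near n (htr_row f) ∧
      ∀ x' y', Rt (n - s.k.inn + s.k.out) w x' y' → NearZ (htr_up f x') (htr_up f y') := by
  constructor
  · intro h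
    exact ⟨fun j hj => h _ _ (Or.inl ⟨j, hj, rfl, rfl⟩),
      fun x' y' hr => h _ _ (Or.inr ⟨x', y', rfl, rfl, hr⟩)⟩
  · rintro ⟨h1, h2⟩ x y (⟨j, hj, rfl, rfl⟩ | ⟨x', y', rfl, rfl, hr⟩)
    · exact h1 j hj
    · exact h2 x' y' hr

/-- the states of the crossings above the first piece -/
private def htr_B (B : ℕ → Bool) (s : Piece) : ℕ → Bool :=
  fun k => B (k + (if s.k = .U ∨ s.k = .N then 0 else 1))

private theorem htr_J (B : ℕ → Bool) (s : Piece) (w : Word) (n : ℕ) (hn : s.i + s.k.inn ≤ n)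
    (f : Loc n (s :: w) → ℤ) :
    ((∀ j j' : ℕ, j ≤ n → j' ≤ n - s.k.inn + s.k.out → gl s j j' →
        htr_row f j = htr_row (htr_up f) j') ∧
      ∀ k : Fin (nX (s :: w)), f (ed (B k) n (s :: w) k).1 = f (ed (B k) n (s :: w) k).2) ↔
    htr_F (B 0) s n (htr_row f) (htr_row (htr_up f)) ∧
      ∀ k : Fin (nX w), htr_up f (ed (htr_B B s k) (n - s.k.inn + s.k.out) w k).1 =
        htr_up f (ed (htr_B B s k) (n - s.k.inn + s.k.out) w k).2 := by
  obtain ⟨k, i⟩ := s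
  cases k with
  | U =>
    have hi' : i ≤ n := hn
    show ((∀ j j' : ℕ, j ≤ n → j' ≤ n - 0 + 2 → gl ⟨.U, i⟩ j j' →
        htr_row f j = htr_row (htr_up f) j') ∧
      ∀ k : Fin (nX w), htr_up f (ed (B k) (n - 0 + 2) w k).1 =
        htr_up f (ed (B k) (n - 0 + 2) w k).2) ↔
      ((∀ j ≤ i, htr_row f j = htr_row (htr_up f) j) ∧
        ∀ j, i ≤ j → j ≤ n → htr_row f j = htr_row (htr_up f) (j + 2)) ∧
      ∀ k : Fin (nX w), htr_up f (ed (B k) (n - 0 + 2) w k).1 =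
        htr_up f (ed (B k) (n - 0 + 2) w k).2
    refine and_congr ?_ Iff.rfl
    constructor
    · intro h1
      exact ⟨fun j hj => h1 j j (by omega) (by omega) (Or.inl ⟨hj, rfl⟩),
        fun j hj hj' => h1 j (j + 2) hj' (by omega) (Or.inr ⟨hj, rfl⟩)⟩
    · rintro ⟨h1, h2⟩ j j' hj hj' (⟨h5, rfl⟩ | ⟨h5, rfl⟩)
      · exact h1 _ h5
      · exact h2 _ h5 hj
  | N =>
    have hi' : i + 2 ≤ n := hn
    show ((∀ j j' : ℕ, j ≤ n → j' ≤ n - 2 + 0 → gl ⟨.N, i⟩ j j' →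
        htr_row f j = htr_row (htr_up f) j') ∧
      ∀ k : Fin (nX w), htr_up f (ed (B k) (n - 2 + 0) w k).1 =
        htr_up f (ed (B k) (n - 2 + 0) w k).2) ↔
      ((∀ j ≤ i, htr_row f j = htr_row (htr_up f) j) ∧
        ∀ j, i ≤ j → j + 2 ≤ n → htr_row f (j + 2) = htr_row (htr_up f) j) ∧
      ∀ k : Fin (nX w), htr_up f (ed (B k) (n - 2 + 0) w k).1 =
        htr_up f (ed (B k) (n - 2 + 0) w k).2
    refine and_congr ?_ Iff.rfl
    constructor
    · intro h1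
      exact ⟨fun j hj => h1 j j (by omega) (by omega) (Or.inl ⟨hj, rfl⟩),
        fun j hj hj' => h1 (j + 2) j hj' (by omega) (Or.inr ⟨hj, rfl⟩)⟩
    · rintro ⟨h1, h2⟩ j j' hj hj' (⟨h5, rfl⟩ | ⟨h5, rfl⟩)
      · exact h1 _ h5
      · exact h2 _ h5 hj
  | X p =>
    have hi' : i + 2 ≤ n := hn
    have e3 : (∀ k : Fin (nX (⟨.X p, i⟩ :: w)),
        f (ed (B k) n (⟨.X p, i⟩ :: w) k).1 = f (ed (B k) n (⟨.X p, i⟩ :: w) k).2) ↔
        ((if B 0 = decide (i % 2 = 0) then htr_row f i = htr_row f (i + 2)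
          else htr_row f (i + 1) = htr_row (htr_up f) (i + 1)) ∧
        ∀ k : Fin (nX w), htr_up f (ed (B (k + 1)) (n - 2 + 2) w k).1 =
          htr_up f (ed (B (k + 1)) (n - 2 + 2) w k).2) := by
      have e4 : (∀ k : Fin (nX (⟨.X p, i⟩ :: w)),
        f (ed (B k) n (⟨.X p, i⟩ :: w) k).1 = f (ed (B k) n (⟨.X p, i⟩ :: w) k).2) ↔
        ∀ k : Fin (nX w + 1),
        f (ed (B k) n (⟨.X p, i⟩ :: w) k).1 = f (ed (B k) n (⟨.X p, i⟩ :: w) k).2 := Iff.rfl
      rw [e4, Fin.forall_fin_succ]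
      refine and_congr ?_ Iff.rfl
      show (f (if decide (i % 2 = 0) = B 0 then
          (bo n (⟨.X p, i⟩ :: w) i, bo n (⟨.X p, i⟩ :: w) (i + 2))
          else (bo n (⟨.X p, i⟩ :: w) (i + 1), Sum.inr (bo (n - 2 + 2) w (i + 1)))).1 =
        f (if decide (i % 2 = 0) = B 0 then
          (bo n (⟨.X p, i⟩ :: w) i, bo n (⟨.X p, i⟩ :: w) (i + 2))
          else (bo n (⟨.X p, i⟩ :: w) (i + 1), Sum.inr (bo (n - 2 + 2) w (i + 1)))).2) ↔ _
      by_cases h : B 0 = decide (i % 2 = 0)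
      · rw [if_pos h, if_pos h.symm]
        exact Iff.rfl
      · rw [if_neg h, if_neg (fun h' => h h'.symm)]
        exact Iff.rfl
    rw [e3]
    show ((∀ j j' : ℕ, j ≤ n → j' ≤ n - 2 + 2 → gl ⟨.X p, i⟩ j j' →
        htr_row f j = htr_row (htr_up f) j') ∧
      (if B 0 = decide (i % 2 = 0) then htr_row f i = htr_row f (i + 2)
          else htr_row f (i + 1) = htr_row (htr_up f) (i + 1)) ∧
        ∀ k : Fin (nX w), htr_up f (ed (B (k + 1)) (n - 2 + 2) w k).1 =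
          htr_up f (ed (B (k + 1)) (n - 2 + 2) w k).2) ↔
      ((∀ j ≤ n, j ≠ i + 1 → htr_row f j = htr_row (htr_up f) j) ∧
        (if B 0 = decide (i % 2 = 0) then htr_row f i = htr_row f (i + 2)
          else htr_row f (i + 1) = htr_row (htr_up f) (i + 1))) ∧
      ∀ k : Fin (nX w), htr_up f (ed (B (k + 1)) (n - 2 + 2) w k).1 =
          htr_up f (ed (B (k + 1)) (n - 2 + 2) w k).2
    constructor
    · rintro ⟨h1, h2, h4⟩
      exact ⟨⟨fun j hj hj' => h1 j j hj (by omega) ⟨rfl, hj'⟩, h2⟩, h4⟩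
    · rintro ⟨⟨h1, h2⟩, h4⟩
      refine ⟨?_, h2, h4⟩
      rintro j j' hj hj' ⟨rfl, h5⟩
      exact h1 _ hj h5

private theorem htr_hv (B : ℕ → Bool) (s : Piece) (w : Word) (n : ℕ) (hn : s.i + s.k.inn ≤ n)
    (f : Loc n (s :: w) → ℤ) : Hv B n (s :: w) f ↔
      (htr_near n (htr_row f) ∧ htr_F (B 0) s n (htr_row f) (htr_row (htr_up f))) ∧
        Hv (htr_B B s) (n - s.k.inn + s.k.out) w (htr_up f) := by
  constructor
  · rintro ⟨h1, h2, h3⟩
    rw [htr_R] at h1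
    rw [htr_Ad, htr_N] at h3
    have h4 := (htr_J B s w n hn f).1 ⟨h1.1, h2⟩
    exact ⟨⟨h3.1, h4.1⟩, h1.2, h4.2, (htr_Ad _ _ _).2 h3.2⟩
  · rintro ⟨⟨h1, h2⟩, h3, h4, h5⟩
    have h6 := (htr_J B s w n hn f).2 ⟨h2, h4⟩
    exact ⟨(htr_R s w n f).2 ⟨h6.1, h3⟩, h6.2,
      (htr_Ad _ _ _).2 ((htr_N s w n f).2 ⟨h1, (htr_Ad _ _ _).1 h5⟩)⟩

private theorem htr_nb : ∀ (n : ℕ) (w : Word) (f : Loc n w → ℤ),
    (∀ x y, Rt n w x y → NearZ (f x) (f y)) → htr_near n (htr_row f)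
  | _, [], _, h => fun j hj => h _ _ ⟨j, hj, rfl, rfl⟩
  | n, s :: w, f, h => ((htr_N s w n f).1 h).1

/-- one piece removed -/
private theorem htr_step {M : Model ℤ ((ℕ → ℤ) → ℤ)} (hM : HM M) (B : ℕ → Bool) (s : Piece)
    (w : Word) (n : ℕ) (hn : s.i + s.k.inn ≤ n) (ψ : (ℕ → ℤ) → ℤ) (h : htr_G M n ψ)
    (Q : (Loc (n - s.k.inn + s.k.out) w → ℤ) → Prop) :
    (∃ f' : Loc (n - s.k.inn + s.k.out) w → ℤ, Hv (htr_B B s) (n - s.k.inn + s.k.out) w f' ∧
      htr_pop M (B 0) s ψ (htr_row f') ≠ 0 ∧ Q f') ↔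
    ∃ f : Loc n (s :: w) → ℤ, Hv B n (s :: w) f ∧ ψ (htr_row f) ≠ 0 ∧ Q (htr_up f) := by
  constructor
  · rintro ⟨f', h1, h2, h3⟩
    have h4 := htr_nb _ w f' ((htr_Ad _ _ _).1 h1.near)
    obtain ⟨c, h5, h6⟩ := (htr_popne hM (B 0) s n ψ hn h _ h4).1 h2
    obtain ⟨f, hf⟩ : ∃ f : Loc n (s :: w) → ℤ, f = fun x => Sum.elim
      (fun j : Fin (n + 1) => c j.val) f'
        (show Fin (n + 1) ⊕ Loc (n - s.k.inn + s.k.out) w from x) := ⟨_, rfl⟩
    have h7 : htr_up f = f' := by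
      rw [hf]
      rfl
    have h8 : ∀ j ≤ n, htr_row f j = c j := by
      intro j hj
      rw [hf]
      show c (Fin.ofNat (n + 1) j).val = c j
      rw [Fin.val_ofNat, Nat.mod_eq_of_lt (show j < n + 1 by omega)]
    have h9 : ψ (htr_row f) = ψ c := h.dep _ _ h8
    have h10 : htr_near n (htr_row f) := by
      intro j hj
      rw [h8 j (by omega), h8 (j + 1) (by omega)]
      exact (hM.supp _ _).1 h.sup c h5 j hj
    have h11 : htr_F (B 0) s n (htr_row f) (htr_row f') := by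
      obtain ⟨k, i⟩ := s
      cases k with
      | U =>
        have hn' : i ≤ n := hn
        exact ⟨fun j hj => (h8 j (hj.trans hn')).trans (h6.1 j hj),
          fun j hj hj' => (h8 j hj').trans (h6.2 j hj hj')⟩
      | N =>
        have hn' : i + 2 ≤ n := hn
        have h12 : ∀ j ≤ i, c j = htr_row f' j := h6.1
        exact ⟨fun j hj => (h8 j (by omega)).trans (h12 j hj),
          fun j hj hj' => (h8 (j + 2) hj').trans (h6.2 j hj hj')⟩
      | X p =>
        have hn' : i + 2 ≤ n := hn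
        refine ⟨fun j hj hj' => (h8 j hj).trans (h6.1 j hj hj'), ?_⟩
        have h12 : (if B 0 = decide (i % 2 = 0) then c i = c (i + 2) else
            c (i + 1) = htr_row f' (i + 1)) := h6.2
        show (if B 0 = decide (i % 2 = 0) then htr_row f i = htr_row f (i + 2) else
            htr_row f (i + 1) = htr_row f' (i + 1))
        rw [h8 i (by omega), h8 (i + 1) (by omega), h8 (i + 2) (by omega)]
        exact h12
    refine ⟨f, (htr_hv B s w n hn f).2 ⟨⟨h10, ?_⟩, ?_⟩, by rw [h9]; exact h5, by rw [h7]; exact h3⟩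
    · rw [h7]
      exact h11
    · rw [h7]
      exact h1
  · rintro ⟨f, h1, h2, h3⟩
    obtain ⟨⟨_, h5⟩, h6⟩ := (htr_hv B s w n hn f).1 h1
    exact ⟨htr_up f, h6, (htr_popne hM (B 0) s n ψ hn h _
      (htr_nb _ w _ ((htr_Ad _ _ _).1 h6.near))).2 ⟨_, h2, h5⟩, h3⟩

private theorem htr_run (M : Model ℤ ((ℕ → ℤ) → ℤ)) (B : ℕ → Bool) (s : Piece) (w : Word)
    (ψ : (ℕ → ℤ) → ℤ) :
    runC M (jo B (s :: w)) ψ = runC M (jo (htr_B B s) w) (htr_pop M (B 0) s ψ) := by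
  obtain ⟨k, i⟩ := s
  cases k with
  | U => rfl
  | N => rfl
  | X p =>
    by_cases h : B 0 = decide (i % 2 = 0)
    · have h1 : jo B (⟨.X p, i⟩ :: w) = pN i :: pU i :: jo (fun k => B (k + 1)) w := if_pos h
      have h2 : htr_pop M (B 0) ⟨.X p, i⟩ ψ = M.cup i (M.cap i ψ) := if_pos h
      rw [h1, h2]
      rfl
    · have h1 : jo B (⟨.X p, i⟩ :: w) = jo (fun k => B (k + 1)) w := if_neg h
      have h2 : htr_pop M (B 0) ⟨.X p, i⟩ ψ = ψ := if_neg h
      rw [h1, h2]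
      rfl

private theorem htr_nX (B : ℕ → Bool) (s : Piece) (u : Word) :
    (fun k => B (k + nX (s :: u))) = fun k => htr_B B s (k + nX u) := by
  obtain ⟨k, i⟩ := s
  cases k with
  | U => rfl
  | N => rfl
  | X p =>
    funext k
    rfl

/-- a word without the pole -/
private theorem htr_V {M : Model ℤ ((ℕ → ℤ) → ℤ)} (hM : HM M) (v : Word) :
    ∀ (B : ℕ → Bool) (n m : ℕ) (ψ : (ℕ → ℤ) → ℤ) (c' : ℕ → ℤ), Ok v n m → htr_G M n ψ →
      (runC M (jo B v) ψ c' ≠ 0 ↔ ∃ f : Loc n v → ℤ, Hv B n v f ∧ ψ (htr_row f) ≠ 0 ∧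
        ∀ j ≤ m, f (tp n v j) = c' j) := by
  induction v with
  | nil =>
    intro B n m ψ c' hok h
    have hnm : n = m := hok
    subst hnm
    show ψ c' ≠ 0 ↔ _
    constructor
    · intro h1
      obtain ⟨f, hf⟩ : ∃ f : Loc n [] → ℤ, f = fun x => c' (show Fin (n + 1) from x).val :=
        ⟨_, rfl⟩
      have h2 : ∀ j ≤ n, htr_row f j = c' j := by
        intro j hj
        rw [hf]
        show c' (Fin.ofNat (n + 1) j).val = c' j
        rw [Fin.val_ofNat, Nat.mod_eq_of_lt (show j < n + 1 by omega)]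
      refine ⟨f, ⟨fun x y h => h.elim, fun k => k.elim0, (htr_Ad _ _ _).2 ?_⟩, ?_, h2⟩
      · rintro x y ⟨j, hj, rfl, rfl⟩
        have h3 := h2 j (by omega)
        have h4 := h2 (j + 1) (by omega)
        unfold htr_row at h3 h4
        rw [h3, h4]
        exact (hM.supp _ _).1 h.sup c' h1 j hj
      · rw [h.dep (htr_row f) c' h2]
        exact h1
    · rintro ⟨f, _, h1, h2⟩
      rw [← h.dep (htr_row f) c' h2]
      exact h1
  | cons s v ih =>
    intro B n m ψ c' hok h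
    rw [htr_run, ih _ _ m _ c' hok.2 (htr_gpop hM (B 0) s n ψ hok.1 h)]
    exact htr_step hM B s v n hok.1 ψ h fun f' => ∀ j ≤ m, f' (tp _ v j) = c' j

/-- a word with the pole -/
private theorem htr_U {M : Model ℤ ((ℕ → ℤ) → ℤ)} (hM : HM M) (θ : ℤ → ℤ) (hθ : ∀ x, 0 ≤ θ x)
    (v : Word) (u : Word) :
    ∀ (B : ℕ → Bool) (n₀ n m w : ℕ) (ψ : (ℕ → ℤ) → ℤ) (c' : ℕ → ℤ), Ok u n₀ n → Ok v n m →
      w ≤ n → htr_G M n₀ ψ →
      (runC M (jo (fun k => B (k + nX u)) v) (PZ θ w (runC M (jo B u) ψ)) c' ≠ 0 ↔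
        ∃ f : Loc n₀ (u ++ v) → ℤ, Hv B n₀ (u ++ v) f ∧ ψ (htr_row f) ≠ 0 ∧
          (θ (f (md n₀ u v w) - f (md n₀ u v 0)) ≠ 0 ∧
            ∀ j ≤ m, f (tp n₀ (u ++ v) j) = c' j)) := by
  induction u with
  | nil =>
    intro B n₀ n m w ψ c' hu hv hw h
    have hnm : n₀ = n := hu
    subst hnm
    show runC M (jo B v) (PZ θ w ψ) c' ≠ 0 ↔ _
    have h1 : htr_G M n₀ (PZ θ w ψ) := by
      refine ⟨fun c => mul_nonneg (hθ _) (h.pos c), (hM.supp _ _).2 fun c hc => ?_,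
        fun c c' hc => ?_⟩
      · exact (hM.supp _ _).1 h.sup c (right_ne_zero_of_mul hc)
      · show θ (c w - c 0) * ψ c = θ (c' w - c' 0) * ψ c'
        rw [hc w hw, hc 0 (Nat.zero_le _), h.dep c c' hc]
    rw [htr_V hM v B n₀ m _ c' hv h1]
    refine exists_congr fun f => and_congr Iff.rfl ?_
    show θ (htr_row f w - htr_row f 0) * ψ (htr_row f) ≠ 0 ∧ _ ↔ _
    rw [mul_ne_zero_iff]
    constructor
    · rintro ⟨⟨h2, h3⟩, h4⟩
      exact ⟨h3, h2, h4⟩
    · rintro ⟨h3, h2, h4⟩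
      exact ⟨⟨h2, h3⟩, h4⟩
  | cons s u ih =>
    intro B n₀ n m w ψ c' hu hv hw h
    rw [htr_run, htr_nX, ih _ _ n m w _ c' hu.2 hv hw (htr_gpop hM (B 0) s n₀ ψ hu.1 h)]
    exact htr_step hM B s (u ++ v) n₀ hu.1 ψ h fun f' =>
      θ (f' (md _ u v w) - f' (md _ u v 0)) ≠ 0 ∧ ∀ j ≤ m, f' (tp _ (u ++ v) j) = c' j

theorem thm_HTR : St_HTR := by
  intro M hM B u v n w r c hu hv hw
  have h1 : htr_G M 0 M.init := by
    refine ⟨fun c => ?_, M.supp_init, fun c c' _ => ?_⟩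
    · rw [hM.init]
      exact zero_le_one
    · rw [hM.init]
  rw [htr_U hM (fun x => if x = r then 1 else 0) (fun x => by split_ifs <;> norm_num) v u B 0 n 0 w
    M.init c hu hv hw h1]
  constructor
  · rintro ⟨f, h2, _, h3, _⟩
    refine ⟨f, h2, ?_⟩
    by_contra h4
    exact h3 (if_neg h4)
  · rintro ⟨f, h2, h3⟩
    obtain ⟨a, ha⟩ : ∃ a, a = c 0 - f (tp 0 (u ++ v) 0) := ⟨_, rfl⟩
    refine ⟨fun x => f x + a, ⟨fun x y h => by rw [h2.touch x y h], fun k => by rw [h2.join k],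
      fun x y h => ?_⟩, ?_, ?_, ?_⟩
    · rcases h2.near x y h with h4 | h4 <;> omega
    · rw [hM.init]
      exact one_ne_zero
    · have h5 : (f (md 0 u v w) + a) - (f (md 0 u v 0) + a) = r := by omega
      show (if (f (md 0 u v w) + a) - (f (md 0 u v 0) + a) = r then (1 : ℤ) else 0) ≠ 0
      rw [if_pos h5]
      exact one_ne_zero
    · intro j hj
      rw [Nat.le_zero.1 hj, ha]
      ring

end Pool.TWC
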