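import Mathlib

/-!
# TWC: the rank function of a family of linear forms

`thm_MAT`, `thm_MAT'`, `rk_one'`.
-/

set_option autoImplicit false
set_option linter.unusedSectionVars false

namespace Pool.TWC

open Module

section
variable {K E : Type} [Field K] [AddCommGroup E] [Module K E]

/-- the common zeros of the forms in `S` -/
def sol {N : ℕ} (l : Fin N → E →ₗ[K] K) (S : Finset (Fin N)) : Submodule K E :=
  ⨅ e ∈ S, LinearMap.ker (l e)

/-- the rank of the forms in `S` -/
noncomputable def rk {N : ℕ} (l : Fin N → E →ₗ[K] K) (S : Finset (Fin N)) : ℕ :=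
  finrank K E - finrank K (sol l S)

end

section
variable {K E : Type} [Field K] [AddCommGroup E] [Module K E] {N : ℕ}

theorem mem_sol {l : Fin N → E →ₗ[K] K} {S : Finset (Fin N)} {x : E} :
    x ∈ sol l S ↔ ∀ e ∈ S, l e x = 0 := by
  simp [sol, Submodule.mem_iInf]

theorem sol_empty (l : Fin N → E →ₗ[K] K) : sol l ∅ = ⊤ := by
  simp [sol]

variable [FiniteDimensional K E]

theorem rk_empty (l : Fin N → E →ₗ[K] K) : rk l ∅ = 0 := by
  rw [rk, sol_empty]
  simp

theorem sol_anti (l : Fin N → E →ₗ[K] K) {S S' : Finset (Fin N)} (h : S ⊆ S') :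
    sol l S' ≤ sol l S := fun _ hx => mem_sol.2 fun e he => mem_sol.1 hx e (h he)

theorem fin_le (l : Fin N → E →ₗ[K] K) (S : Finset (Fin N)) :
    finrank K (sol l S) ≤ finrank K E := Submodule.finrank_le _

theorem rk_add (l : Fin N → E →ₗ[K] K) (S : Finset (Fin N)) :
    rk l S + finrank K (sol l S) = finrank K E := Nat.sub_add_cancel (fin_le l S)

theorem sol_insert (l : Fin N → E →ₗ[K] K) (e : Fin N) (S : Finset (Fin N)) :
    sol l (insert e S) = sol l S ⊓ LinearMap.ker (l e) := by
  ext x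
  rw [Submodule.mem_inf, mem_sol, mem_sol, LinearMap.mem_ker]
  constructor
  · intro h
    exact ⟨fun f hf => h f (Finset.mem_insert_of_mem hf), h e (Finset.mem_insert_self _ _)⟩
  · rintro ⟨h1, h2⟩ f hf
    rcases Finset.mem_insert.1 hf with rfl | hf
    · exact h2
    · exact h1 f hf

theorem ker_fin (f : E →ₗ[K] K) : finrank K E ≤ finrank K (LinearMap.ker f) + 1 := by
  have h := LinearMap.finrank_range_add_finrank_ker f
  have h2 : finrank K (LinearMap.range f) ≤ 1 := by
    have := Submodule.finrank_le (LinearMap.range f)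
    rwa [finrank_self] at this
  omega

theorem rk_insert_le (l : Fin N → E →ₗ[K] K) (e : Fin N) (S : Finset (Fin N)) :
    rk l (insert e S) ≤ rk l S + 1 := by
  have h1 := rk_add l (insert e S)
  have h2 := rk_add l S
  have h3 : finrank K (sol l S) ≤ finrank K (sol l (insert e S)) + 1 := by
    have h4 := Submodule.finrank_sup_add_finrank_inf_eq (sol l S) (LinearMap.ker (l e))
    have h5 := ker_fin (l e)
    have h6 := Submodule.finrank_le (sol l S ⊔ LinearMap.ker (l e))
    rw [sol_insert]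
    omega
  omega

theorem rk_le_card (l : Fin N → E →ₗ[K] K) (S : Finset (Fin N)) : rk l S ≤ S.card := by
  classical
  induction S using Finset.induction_on with
  | empty => rw [rk_empty]; simp
  | insert e S he ih =>
    have := rk_insert_le l e S
    rw [Finset.card_insert_of_notMem he]
    omega

theorem rk_mono (l : Fin N → E →ₗ[K] K) {S S' : Finset (Fin N)} (h : S ⊆ S') :
    rk l S ≤ rk l S' := by
  have h1 := rk_add l S
  have h2 := rk_add l S'
  have h3 := Submodule.finrank_mono (sol_anti l h)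
  omega

theorem rk_union_le (l : Fin N → E →ₗ[K] K) (S T : Finset (Fin N)) :
    rk l (S ∪ T) ≤ rk l S + T.card := by
  classical
  induction T using Finset.induction_on with
  | empty => simp
  | insert e T he ih =>
    have h := rk_insert_le l e (S ∪ T)
    rw [Finset.union_insert, Finset.card_insert_of_notMem he]
    omega

theorem sol_single (l : Fin N → E →ₗ[K] K) (e : Fin N) : sol l {e} = LinearMap.ker (l e) := by
  ext x
  rw [mem_sol, LinearMap.mem_ker]
  simp

theorem rk_single (l : Fin N → E →ₗ[K] K) {e : Fin N} (h : l e ≠ 0) : rk l {e} = 1 := by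
  have h1 := rk_add l {e}
  have h2 := rk_le_card l {e}
  rw [Finset.card_singleton] at h2
  by_contra h3
  have h4 : finrank K (sol l {e}) = finrank K E := by omega
  have h5 : sol l {e} = ⊤ := Submodule.eq_top_of_finrank_eq h4
  rw [sol_single] at h5
  exact h (LinearMap.ker_eq_top.1 h5)

theorem rk_eq_zero {l : Fin N → E →ₗ[K] K} (h : ∀ e, l e ≠ 0) (S : Finset (Fin N)) :
    rk l S = 0 ↔ S = ∅ := by
  constructor
  · intro h0
    by_contra hS
    obtain ⟨e, he⟩ := Finset.nonempty_iff_ne_empty.2 hS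
    have h1 := rk_mono l (Finset.singleton_subset_iff.2 he)
    rw [rk_single l (h e)] at h1
    omega
  · rintro rfl
    exact rk_empty l

/-- the class of a form -/
noncomputable def cl (l : Fin N → E →ₗ[K] K) (e : Fin N) : Finset (Fin N) := by
  classical
  exact Finset.univ.filter fun f => LinearMap.ker (l f) = LinearMap.ker (l e)

theorem mem_cl {l : Fin N → E →ₗ[K] K} {e f : Fin N} :
    f ∈ cl l e ↔ LinearMap.ker (l f) = LinearMap.ker (l e) := by
  simp [cl]

/-- all forms in a set of rank one have the same kernel -/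
theorem rk_one {l : Fin N → E →ₗ[K] K} (h : ∀ e, l e ≠ 0) (S : Finset (Fin N)) :
    rk l S = 1 ↔ ∃ e ∈ S, S ⊆ cl l e := by
  constructor
  · intro h1
    have hS : S ≠ ∅ := by
      intro h0
      rw [(rk_eq_zero h S).2 h0] at h1
      omega
    obtain ⟨e, he⟩ := Finset.nonempty_iff_ne_empty.2 hS
    refine ⟨e, he, fun f hf => ?_⟩
    have key : ∀ g ∈ S, sol l S = LinearMap.ker (l g) := by
      intro g hg
      rw [← sol_single]
      refine Submodule.eq_of_le_of_finrank_eq (sol_anti l (Finset.singleton_subset_iff.2 hg)) ?_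
      have h2 := rk_add l S
      have h3 := rk_add l {g}
      rw [rk_single l (h g)] at h3
      omega
    rw [mem_cl, ← key f hf, ← key e he]
  · rintro ⟨e, he, hS⟩
    have : sol l S = sol l {e} := by
      rw [sol_single]
      ext x
      rw [mem_sol]
      constructor
      · intro hx
        exact hx e he
      · intro hx f hf
        have := mem_cl.1 (hS hf)
        have hx' : x ∈ LinearMap.ker (l f) := by rw [this]; exact hx
        exact hx'
    rw [rk, this]
    exact rk_single l (h e)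

theorem mem_cl_self (l : Fin N → E →ₗ[K] K) (e : Fin N) : e ∈ cl l e := mem_cl.2 rfl

theorem cl_eq {l : Fin N → E →ₗ[K] K} {e f : Fin N}
    (h : LinearMap.ker (l f) = LinearMap.ker (l e)) : cl l f = cl l e := by
  ext g
  rw [mem_cl, mem_cl, h]

/-- the classes -/
noncomputable def Cs (l : Fin N → E →ₗ[K] K) : Finset (Finset (Fin N)) := by
  classical
  exact Finset.univ.image (cl l)

theorem mem_Cs {l : Fin N → E →ₗ[K] K} {C : Finset (Fin N)} : C ∈ Cs l ↔ ∃ e, cl l e = C := by
  simp [Cs]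

theorem sum_one {l : Fin N → E →ₗ[K] K} (h : ∀ e, l e ≠ 0) :
    ∑ S ∈ Finset.univ.filter (fun S => rk l S = 1), (-1 : ℤ) ^ S.card = -((Cs l).card : ℤ) := by
  classical
  have h1 : Finset.univ.filter (fun S => rk l S = 1) =
      (Cs l).biUnion fun C => C.powerset.erase ∅ := by
    ext S
    rw [Finset.mem_filter, rk_one h, Finset.mem_biUnion]
    constructor
    · rintro ⟨-, e, he, hS⟩
      refine ⟨cl l e, mem_Cs.2 ⟨e, rfl⟩, Finset.mem_erase.2 ⟨?_, Finset.mem_powerset.2 hS⟩⟩
      exact Finset.nonempty_iff_ne_empty.1 ⟨e, he⟩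
    · rintro ⟨C, hC, hS⟩
      obtain ⟨e, rfl⟩ := mem_Cs.1 hC
      obtain ⟨hne, hsub⟩ := Finset.mem_erase.1 hS
      obtain ⟨f, hf⟩ := Finset.nonempty_iff_ne_empty.2 hne
      have hsub' := Finset.mem_powerset.1 hsub
      refine ⟨Finset.mem_univ _, f, hf, ?_⟩
      rw [cl_eq (mem_cl.1 (hsub' hf))]
      exact hsub'
  rw [h1, Finset.sum_biUnion]
  · have h2 : ∀ C ∈ Cs l, ∑ S ∈ C.powerset.erase ∅, (-1 : ℤ) ^ S.card = -1 := by
      intro C hC
      obtain ⟨e, rfl⟩ := mem_Cs.1 hC
      have h3 := Finset.sum_powerset_neg_one_pow_card_of_nonempty (x := cl l e)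
        ⟨e, mem_cl_self l e⟩
      have h4 := Finset.add_sum_erase (cl l e).powerset (fun S => (-1 : ℤ) ^ S.card)
        (Finset.empty_mem_powerset _)
      simp only [Finset.card_empty, pow_zero] at h4
      linarith
    rw [Finset.sum_congr rfl h2]
    simp
  · intro C hC C' hC' hne
    obtain ⟨e, rfl⟩ := mem_Cs.1 (Finset.mem_coe.1 hC)
    obtain ⟨e', rfl⟩ := mem_Cs.1 (Finset.mem_coe.1 hC')
    rw [Function.onFun, Finset.disjoint_left]
    intro S hS hS'
    obtain ⟨h3, h4⟩ := Finset.mem_erase.1 hS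
    obtain ⟨-, h4'⟩ := Finset.mem_erase.1 hS'
    obtain ⟨f, hf⟩ := Finset.nonempty_iff_ne_empty.2 h3
    refine hne ?_
    rw [← cl_eq (mem_cl.1 (Finset.mem_powerset.1 h4 hf)),
      ← cl_eq (mem_cl.1 (Finset.mem_powerset.1 h4' hf))]

/-- the representative of the class of `e` -/
noncomputable def rp (l : Fin N → E →ₗ[K] K) (e : Fin N) : Fin N :=
  (cl l e).min' ⟨e, mem_cl_self l e⟩

theorem ker_rp (l : Fin N → E →ₗ[K] K) (e : Fin N) :
    LinearMap.ker (l (rp l e)) = LinearMap.ker (l e) := mem_cl.1 (Finset.min'_mem _ _)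

/-- one form of each class -/
noncomputable def BB (l : Fin N → E →ₗ[K] K) : Finset (Fin N) := by
  classical
  exact Finset.univ.image (rp l)

theorem mem_BB {l : Fin N → E →ₗ[K] K} {f : Fin N} : f ∈ BB l ↔ ∃ e, rp l e = f := by
  simp [BB]

theorem cl_rp (l : Fin N → E →ₗ[K] K) (e : Fin N) : cl l (rp l e) = cl l e := cl_eq (ker_rp l e)

theorem rp_eq {l : Fin N → E →ₗ[K] K} {e f : Fin N} (h : cl l e = cl l f) : rp l e = rp l f := by
  unfold rp
  congr 1

theorem card_BB (l : Fin N → E →ₗ[K] K) : (BB l).card ≤ (Cs l).card := by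
  refine Finset.card_le_card_of_injOn (cl l) (fun b _ => mem_Cs.2 ⟨b, rfl⟩) ?_
  intro b hb b' hb' h
  obtain ⟨e, rfl⟩ := mem_BB.1 (Finset.mem_coe.1 hb)
  obtain ⟨e', rfl⟩ := mem_BB.1 (Finset.mem_coe.1 hb')
  simp only [cl_rp] at h
  exact rp_eq h

theorem sol_rp {E' : Type} [AddCommGroup E'] [Module K E'] (l : Fin N → E →ₗ[K] K)
    (l' : Fin N → E' →ₗ[K] K)
    (hp : ∀ e f, LinearMap.ker (l e) = LinearMap.ker (l f) →
      LinearMap.ker (l' e) = LinearMap.ker (l' f)) (S : Finset (Fin N)) :
    sol l' (S.image (rp l)) = sol l' S := by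
  ext x
  rw [mem_sol, mem_sol]
  constructor
  · intro h e he
    have h1 := h (rp l e) (Finset.mem_image_of_mem _ he)
    have h2 := hp _ _ (ker_rp l e)
    have h3 : x ∈ LinearMap.ker (l' e) := by
      rw [← h2]
      exact h1
    exact h3
  · intro h f hf
    obtain ⟨e, he, rfl⟩ := Finset.mem_image.1 hf
    have h2 := hp _ _ (ker_rp l e)
    have h3 : x ∈ LinearMap.ker (l' (rp l e)) := by
      rw [h2]
      exact h e he
    exact h3

theorem BB_image (l : Fin N → E →ₗ[K] K) : BB l = (Finset.univ : Finset (Fin N)).image (rp l) := by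
  ext f
  rw [mem_BB]
  simp

theorem rk_univ {l : Fin N → E →ₗ[K] K} (h : sol l Finset.univ = ⊥) :
    rk l Finset.univ = finrank K E := by
  rw [rk, h]
  simp

theorem fin_le_Cs {l : Fin N → E →ₗ[K] K} (h : sol l Finset.univ = ⊥) :
    finrank K E ≤ (Cs l).card := by
  have h1 : rk l (BB l) = finrank K E := by
    rw [rk, BB_image, sol_rp l l (fun _ _ h => h), h]
    simp
  have h2 := rk_le_card l (BB l)
  have h3 := card_BB l
  omega

/-- if `BB` is a basis then the rank of `S` is the number of the classes which meet `S` -/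
theorem rk_image {E' : Type} [AddCommGroup E'] [Module K E'] [FiniteDimensional K E']
    (l : Fin N → E →ₗ[K] K) (l' : Fin N → E' →ₗ[K] K)
    (hp : ∀ e f, LinearMap.ker (l e) = LinearMap.ker (l f) →
      LinearMap.ker (l' e) = LinearMap.ker (l' f)) (h' : sol l' Finset.univ = ⊥)
    (hc : (BB l).card ≤ finrank K E') (S : Finset (Fin N)) :
    rk l' S = (S.image (rp l)).card := by
  have h1 : rk l' S = rk l' (S.image (rp l)) := by rw [rk, rk, sol_rp l l' hp]
  have hT : S.image (rp l) ⊆ BB l := by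
    rw [BB_image]
    exact Finset.image_subset_image (Finset.subset_univ _)
  have h2 : rk l' (BB l) = finrank K E' := by
    rw [rk, BB_image, sol_rp l l' hp, h']
    simp
  have h3 := rk_union_le l' (S.image (rp l)) (BB l \ S.image (rp l))
  rw [Finset.union_sdiff_of_subset hT, Finset.card_sdiff_of_subset hT, h2] at h3
  have h4 := rk_le_card l' (S.image (rp l))
  have h5 := Finset.card_le_card hT
  omega

/-- the second family has the same sets of rank one -/
theorem rk_one' {E' : Type} [AddCommGroup E'] [Module K E'] [FiniteDimensional K E']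
    {l : Fin N → E →ₗ[K] K} {l' : Fin N → E' →ₗ[K] K} (h : ∀ e, l e ≠ 0) (h' : ∀ e, l' e ≠ 0)
    (hp : ∀ e f, LinearMap.ker (l e) = LinearMap.ker (l f) →
      LinearMap.ker (l' e) = LinearMap.ker (l' f)) (S : Finset (Fin N)) (hS : rk l S = 1) :
    rk l' S = 1 := by
  obtain ⟨e, he, hs⟩ := (rk_one h S).1 hS
  exact (rk_one h' S).2 ⟨e, he, fun f hf => mem_cl.2 (hp _ _ (mem_cl.1 (hs hf)))⟩

/-- [MAT] the matroid inequality -/
theorem thm_MAT {l : Fin N → E →ₗ[K] K} (h : ∀ e, l e ≠ 0) (hb : sol l Finset.univ = ⊥) :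
    rk l ∅ = 0 ∧ (∀ S, rk l S = 0 ↔ S = ∅) ∧
    ∑ S ∈ Finset.univ.filter (fun S => rk l S = 1), (-1 : ℤ) ^ S.card ≤ -(finrank K E : ℤ) := by
  refine ⟨rk_empty l, rk_eq_zero h, ?_⟩
  rw [sum_one h]
  have := fin_le_Cs hb
  omega

/-- [MAT'] the strict matroid inequality -/
theorem thm_MAT' {E' : Type} [AddCommGroup E'] [Module K E'] [FiniteDimensional K E']
    {l : Fin N → E →ₗ[K] K} {l' : Fin N → E' →ₗ[K] K} (h : ∀ e, l e ≠ 0)
    (hb : sol l Finset.univ = ⊥) (hb' : sol l' Finset.univ = ⊥)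
    (hd : finrank K E' = finrank K E)
    (hp : ∀ e f, LinearMap.ker (l e) = LinearMap.ker (l f) →
      LinearMap.ker (l' e) = LinearMap.ker (l' f)) (hS : ∃ S, rk l' S < rk l S) :
    ∑ S ∈ Finset.univ.filter (fun S => rk l S = 1), (-1 : ℤ) ^ S.card ≤
      -(finrank K E : ℤ) - 1 := by
  rw [sum_one h]
  by_contra hcon
  have h1 := card_BB l
  have h2 : (BB l).card ≤ finrank K E := by omega
  obtain ⟨S, hS⟩ := hS
  rw [rk_image l l (fun _ _ h => h) hb h2, rk_image l l' hp hb' (by omega)] at hS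
  omega

end

end Pool.TWC
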