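import Pool.Agent.TWC.StL

set_option autoImplicit false

/-!
# TWC, [RKF]: the rank function of linear functionals on a subspace
-/

namespace Pool.TWC

section

variable {K V : Type} [Field K] [AddCommGroup V] [Module K V] [FiniteDimensional K V] {N : ℕ}

private def RKF_D (Base : Submodule K V) (L : Fin N → V →ₗ[K] K) (S : Finset (Fin N)) :
    Submodule K V :=
  (Base ⊓ ⨅ k, ⨅ _ : k ∈ S, LinearMap.ker (L k) : Submodule K V)

private theorem RKF_mem (Base : Submodule K V) (L : Fin N → V →ₗ[K] K) (S : Finset (Fin N))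
    (v : V) : v ∈ RKF_D Base L S ↔ v ∈ Base ∧ ∀ k ∈ S, L k v = 0 := by
  simp only [RKF_D, Submodule.mem_inf, Submodule.mem_iInf, LinearMap.mem_ker]

private theorem RKF_emp (Base : Submodule K V) (L : Fin N → V →ₗ[K] K) :
    RKF_D Base L ∅ = Base := by
  ext v
  rw [RKF_mem]
  simp

private theorem RKF_anti (Base : Submodule K V) (L : Fin N → V →ₗ[K] K) {S T : Finset (Fin N)}
    (h : S ⊆ T) : RKF_D Base L T ≤ RKF_D Base L S := by
  intro v hv
  rw [RKF_mem] at hv ⊢
  exact ⟨hv.1, fun k hk => hv.2 k (h hk)⟩

private theorem RKF_union (Base : Submodule K V) (L : Fin N → V →ₗ[K] K) (S T : Finset (Fin N)) :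
    RKF_D Base L (S ∪ T) = RKF_D Base L S ⊓ RKF_D Base L T := by
  ext v
  rw [Submodule.mem_inf, RKF_mem, RKF_mem, RKF_mem]
  constructor
  · rintro ⟨h1, h2⟩
    exact ⟨⟨h1, fun k hk => h2 k (Finset.mem_union_left _ hk)⟩,
      ⟨h1, fun k hk => h2 k (Finset.mem_union_right _ hk)⟩⟩
  · rintro ⟨⟨h1, h2⟩, ⟨_, h3⟩⟩
    refine ⟨h1, fun k hk => ?_⟩
    rcases Finset.mem_union.1 hk with h | h
    · exact h2 k h
    · exact h3 k h

private theorem RKF_insert (Base : Submodule K V) (L : Fin N → V →ₗ[K] K) (S : Finset (Fin N))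
    (e : Fin N) : RKF_D Base L (insert e S) = RKF_D Base L S ⊓ LinearMap.ker (L e) := by
  ext v
  rw [Submodule.mem_inf, RKF_mem, RKF_mem, LinearMap.mem_ker]
  constructor
  · rintro ⟨h1, h2⟩
    exact ⟨⟨h1, fun k hk => h2 k (Finset.mem_insert_of_mem hk)⟩,
      h2 e (Finset.mem_insert_self _ _)⟩
  · rintro ⟨⟨h1, h2⟩, h3⟩
    refine ⟨h1, fun k hk => ?_⟩
    rcases Finset.mem_insert.1 hk with h | h
    · rw [h]
      exact h3
    · exact h2 k h

private theorem RKF_ker (D : Submodule K V) (l : V →ₗ[K] K) :
    Module.finrank K D ≤ Module.finrank K (D ⊓ LinearMap.ker l : Submodule K V) + 1 := by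
  have h1 := Submodule.finrank_sup_add_finrank_inf_eq D (LinearMap.ker l)
  have h2 := LinearMap.finrank_range_add_finrank_ker l
  have h3 : Module.finrank K (LinearMap.range l) ≤ 1 := by
    have := Submodule.finrank_le (LinearMap.range l)
    rwa [Module.finrank_self] at this
  have h4 := Submodule.finrank_le (D ⊔ LinearMap.ker l)
  omega

private theorem RKF_one (Base : Submodule K V) (L : Fin N → V →ₗ[K] K) (S : Finset (Fin N))
    (e : Fin N) : Module.finrank K (RKF_D Base L S) ≤
      Module.finrank K (RKF_D Base L (insert e S)) + 1 := by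
  rw [RKF_insert]
  exact RKF_ker _ _

private theorem RKF_le (Base : Submodule K V) (L : Fin N → V →ₗ[K] K) (S : Finset (Fin N)) :
    Module.finrank K (RKF_D Base L S) ≤ Module.finrank K Base :=
  Submodule.finrank_mono inf_le_left

end

theorem thm_RKF : St_RKF := by
  intro K V _ _ _ _ N Base L
  have hle := RKF_le Base L
  refine ⟨⟨?_, ?_, ?_, ?_⟩, hle, ?_⟩
  · show Module.finrank K Base - Module.finrank K (RKF_D Base L ∅) = 0
    rw [RKF_emp, Nat.sub_self]
  · intro S T h
    show Module.finrank K Base - Module.finrank K (RKF_D Base L S) ≤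
      Module.finrank K Base - Module.finrank K (RKF_D Base L T)
    exact Nat.sub_le_sub_left (Submodule.finrank_mono (RKF_anti Base L h)) _
  · intro S e
    show Module.finrank K Base - Module.finrank K (RKF_D Base L (insert e S)) ≤
      Module.finrank K Base - Module.finrank K (RKF_D Base L S) + 1
    have := RKF_one Base L S e
    omega
  · intro S T
    show (Module.finrank K Base - Module.finrank K (RKF_D Base L (S ∪ T))) +
      (Module.finrank K Base - Module.finrank K (RKF_D Base L (S ∩ T))) ≤
      (Module.finrank K Base - Module.finrank K (RKF_D Base L S)) +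
      (Module.finrank K Base - Module.finrank K (RKF_D Base L T))
    have h1 := Submodule.finrank_sup_add_finrank_inf_eq (RKF_D Base L S) (RKF_D Base L T)
    rw [← RKF_union] at h1
    have h2 : Module.finrank K (RKF_D Base L S ⊔ RKF_D Base L T : Submodule K V) ≤
        Module.finrank K (RKF_D Base L (S ∩ T)) :=
      Submodule.finrank_mono (sup_le (RKF_anti Base L Finset.inter_subset_left)
        (RKF_anti Base L Finset.inter_subset_right))
    have h3 := hle S
    have h4 := hle T
    have h5 := hle (S ∪ T)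
    have h6 := hle (S ∩ T)
    omega
  · rintro k ⟨p, hp, hk⟩
    show Module.finrank K Base - Module.finrank K (RKF_D Base L {k}) = 1
    have h1 : RKF_D Base L {k} < Base := by
      refine lt_of_le_of_ne inf_le_left (fun h => hk ?_)
      have h2 : p ∈ RKF_D Base L {k} := by
        rw [h]
        exact hp
      exact ((RKF_mem Base L {k} p).1 h2).2 k (Finset.mem_singleton_self k)
    have h3 := Submodule.finrank_lt_finrank_of_lt h1
    have h4 := RKF_one Base L ∅ k
    rw [RKF_emp] at h4
    have h5 : (insert k ∅ : Finset (Fin N)) = {k} := rfl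
    rw [h5] at h4
    omega

end Pool.TWC
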