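import Pool.Agent.TWC.Loc
import Pool.Agent.ARB.TopSts2

/-!
# TWC: statements, part A (poles, expansion, Laurent polynomials, height functions)

Every statement has its complete proof in the docstring. `c = 1` for a crossing `pX i true`, `c = -1` for
`pX i false`; `X_i = crossOp M i p`; `cap_i = M.cap i`, `cup_i = M.cup i`. Everything quantified over models is
uniform: the natural numbers and words found do not depend on the model.
-/

set_option autoImplicit false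

namespace Pool.TWC

open LaurentPolynomial Pool.Agent.ARB Pool.Agent.Helper2 Pool.ALT

/-! ### pole reduction -/

/-- [P1] a word without crossings which goes down to `0` strands begins with a cap.
PROOF. Strong induction on the length of `v`, for all `n`. `v = []` is impossible. `v = pN i :: v₁`: `j = i`,
`e = 0`, `v' = v₁` (`i ≤ n` because `i + 2 ≤ n + 2`). `v = pU i :: v₁`, `i ≤ n + 2`, `Ok v₁ (n + 4) 0`: by
induction `runC v₁ z = δ^e • runC v₂ (cap_j z)`, `j ≤ n + 2`, `|v₂| < |v₁|`; put `z = cup_i y`.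
`j = i`: `rel1`, `δ^(e+1) • runC v₂ y` and the induction hypothesis for `v₂` (on `n + 2` strands). `j = i + 1`: `rel2`;
`i = j + 1`: `rel3`; again the induction hypothesis for `v₂`. `i = j + k + 2`: `rel5`: `cup_(j+k) (cap_j y)`, take
`v' = pU (j + k) :: v₂`, cap `j ≤ n`. `j = i + k + 2`: `rel4`: `cup_i (cap_(i+k) y)`, `v' = pU i :: v₂`, cap `i + k ≤ n`.
(`runC M v` is linear: induction on `v`.) -/
def St_P1 : Prop := ∀ (v : Word) (n : ℕ), NoX v → Ok v (n + 2) 0 →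
  ∃ (j e : ℕ) (v' : Word), j ≤ n ∧ NoX v' ∧ Ok v' n 0 ∧ v'.length < v.length ∧
    ∀ {R V : Type} [CommRing R] [AddCommGroup V] [Module R V] (M : Model R V) (y : V),
      M.Supp (n + 2) y → runC M v y = M.δ ^ e • runC M v' (M.cap j y)

/-- nested cups, topmost first -/
def rb : ℕ → List ℕ
  | 0 => []
  | w + 1 => w :: rb w

/-- [N1] a stack of cups which is not `rb w` has a topmost cup at a place `i` with `i + 1 ≠ w`.
PROOF. Induction on `C` for all `n`, `w`. `C = []`: `n = 0`, `w = 0`, `rb 0 = []`. `C = c :: C₁`, `n = n₁ + 2`, `c ≤ n₁`: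
if `c + 1 ≠ w` take `i = c`. Otherwise `w = c + 1`, apply the induction hypothesis to `C₁` and `c` (`c ≤ n₁`). Second
case: `n₁ = 2 c`, `C₁ = rb c`: `C = rb (c + 1)`. First case: `C₁ ~ i :: C₂`, `i ≤ n₂`, `n₁ = n₂ + 2`, `i + 1 ≠ c`. If
`i + 2 ≤ c`, `c = i + 2 + k`: `cupcup`: `cup_c cup_i = cup_i cup_(i+k)`: the cup `i`, `i + 1 ≠ c + 1`, and
`C' = (i + k) :: C₂` (`c ≤ n₂ + 2` gives `i + k ≤ n₂`). If `c ≤ i`, `i = c + k`: `cup_c cup_(c+k) = cup_(c+2+k) cup_c`: the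
cup `i + 2 ≠ c`, `C' = c :: C₂` (`c ≤ i ≤ n₂`). -/
def St_N1 : Prop := ∀ (C : List ℕ) (n w : ℕ), CupsOk C n → w ≤ n →
  (∃ (i : ℕ) (C' : List ℕ) (n' : ℕ), n = n' + 2 ∧ i ≤ n' ∧ i + 1 ≠ w ∧ CupsOk C' n' ∧
    ∀ {R V : Type} [CommRing R] [AddCommGroup V] [Module R V] (M : Model R V), Cc M →
      M.build C = M.cup i (M.build C')) ∨
  (n = 2 * w ∧ C = rb w)

/-- [N2] the same for caps.
PROOF (from P1). Strong induction on `n` for all `w`, `v`. `n = 0`: `w = 0`; second alternative: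
by strong induction on the length of `v`: `v = []`, or `v = pU 0 :: v₁`, `Ok v₁ 2 0`, P1: `v₁ ~ δ^e v₂ cap_0`, `rel1`, and
`v₂` is shorter. (`n = 1` is impossible, a word without crossings keeps the parity.) `n = n' + 2`: P1: `runC v y =
δ^e runC v₁ (cap_j y)`, `j ≤ n'`. If `j + 1 ≠ w` this is the first alternative. Otherwise `w = j + 1`; induction
hypothesis for `v₁`, `n'` and `j ≤ n'`. Second alternative: `n' = 2 j`, `runC v₁ z = δ^e' runC (caps j) z`: so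
`runC v y = δ^(e+e') runC (caps j) (cap_j y) = δ^(e+e') runC (caps (j + 1)) y`, because `caps (j + 1) = pN j :: caps j`
(induction on `j` from the definition `caps (n + 1) = sh 1 (caps n) ++ [pN 0]`). First alternative: `runC v₁ z =
δ^e' runC v₂ (cap_i z)`, `i + 1 ≠ j`, `n' = n'' + 2`, `i ≤ n''`: if `i + 2 ≤ j`, `j = i + 2 + k`: `cap_i cap_(i+2+k) =
cap_(i+k) cap_i` (`capcap`): first cap `i`, `i + 1 ≠ j + 1`, rest `pN (i + k) :: v₂`. If `j ≤ i`, `i = j + k`: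
`cap_(j+k) cap_j = cap_j cap_(j+2+k)`: first cap `i + 2`, rest `pN j :: v₂`. -/
def St_N2 : Prop := ∀ (v : Word) (n w : ℕ), NoX v → Ok v n 0 → w ≤ n →
  (∃ (j e : ℕ) (v' : Word) (n' : ℕ), n = n' + 2 ∧ j ≤ n' ∧ j + 1 ≠ w ∧ NoX v' ∧ Ok v' n' 0 ∧
    ∀ {R V : Type} [CommRing R] [AddCommGroup V] [Module R V] (M : Model R V), Cc M →
      ∀ y : V, M.Supp n y → runC M v y = M.δ ^ e • runC M v' (M.cap j y)) ∨
  (n = 2 * w ∧ ∃ e : ℕ,
    ∀ {R V : Type} [CommRing R] [AddCommGroup V] [Module R V] (M : Model R V), Cc M →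
      ∀ y : V, M.Supp n y → runC M v y = M.δ ^ e • runC M (caps w) y)

/-- [PR] pole reduction.
PROOF (from N1, N2). (1) For a word `u'` without crossings, `Ok u' n m`, `CupsOk C n` there are `C'`, `e` with `CupsOk C' m`,
`runC u' (build C) = δ^e • build C'` (induction on `u'`: `pU i`: `i :: C`; `pN i`: `Helper2.cap_build`). So
`runC (jo B u) init = δ^e • build C`, `CupsOk C n`. (2) CLAIM: for all `n`, `w ≤ n`, `v'` without crossings with `Ok v' n 0`,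
`CupsOk C n` there are `l`, `m` with `runC v' (P w (build C)) = δ^l • Psi m` for all models with `Cc` and all poles. Strong
induction on `n`. [N1] first alternative: `build C = cup_i (build C₁)`, `i + 1 ≠ w`, `n = n' + 2`: if `i + 2 ≤ w`, `w = w' + 2`,
`i ≤ w' ≤ n'`, `P w (cup_i z) = cup_i (P w' z)`; otherwise `w ≤ i ≤ n'`, `P w (cup_i z) = cup_i (P w z)`. So the value is
`runC (pU i :: v') (P _ (build C₁))`: induction hypothesis for `n'`. Second alternative: `n = 2 w`, `C = rb w`. Then [N2] for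
`v'`: first alternative: `δ^e runC v'' (cap_j (P w (build C)))`, `j + 1 ≠ w`: `j + 2 ≤ w`: `cap_j (P w z) = P (w - 2) (cap_j z)`,
otherwise `w ≤ j`: `cap_j (P w z) = P w (cap_j z)`; `cap_j (build C) = δ^e' • build C₂` (`cap_build`), `P.smul`, induction
hypothesis for `n'`. Second alternative: `δ^e runC (caps w) (P w (build (rb w)))`, `build (rb w) = runC (cups w) init`
(`cups (w + 1) = cups w ++ [pU w]` by induction from the definition; `runC` of an append): `δ^e • Psi w`. -/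
def St_PR : Prop := ∀ (B : ℕ → Bool) (u v : Word) (n w : ℕ), Ok u 0 n → Ok v n 0 → w ≤ n →
  ∃ l m : ℕ, Pr B u v w l m

/-! ### the pole of the full twist -/

/-- the normalized full twists of the first `w` strands -/
noncomputable def PF {V : Type} [AddCommGroup V] [Module LP V] (M : Model LP V) (k : ℤ) (w : ℕ)
    (x : V) : V := (T (3 * k * w) : LP) • runW M (FT w k) x

/-- [FTU] a cup slides through the full twist.
PROOF (compare `TWB.thm_Sw`, `TWB.thm_Ftc`; the relations for `X_i` in a good model are in `ARB/Inv.lean`: `inv_r2`, `inv_r3`,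
`cup_E`, `E_cup`, `cross_apply`, `supp_E`). `p = decide (0 < k)`, `a = T c`, `c = ± 1`. Write `D_w = runW M (sweep w p) = X_0 ∘ X_1 ∘ ⋯ ∘
X_(w-2)` (`X_(w-2)` acts first). `N` strands, `w ≤ N`, `x` with `Supp N x`.
(a) `X_i cup_i x = -a⁻³ x` [i.e. `-T (-3 c) • cup_i x`]; `X_i X_(i+1) cup_i x = cup_(i+1) x`, `X_(i+1) X_i cup_(i+1) x = cup_i x`
(`X_(i+1) cup_i = a cup_i + a⁻¹ cup_(i+1)`, ...); `X_(i+2+l) cup_i = cup_i X_(i+l)`, `X_i cup_(i+2+l) = cup_(i+2+l) X_i`,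
`X_i X_(i+2+l) = X_(i+2+l) X_i`.
(b) for `i + 1 ≤ w`: `D_(w+2) cup_i x = cup_(i+1) D_w x`: `X_(i+2), …, X_w` pass `cup_i` and become `X_i, …, X_(w-2)`; `X_i X_(i+1) cup_i =
cup_(i+1)`; `X_(i-1), …, X_0` pass `cup_(i+1)`.
(c) `D_(w+2) D_(w+2) cup_w x = T (-6 c) • cup_0 x`: claim `(X_j ⋯ X_w) (X_j ⋯ X_(w-1)) cup_w x = -a⁻³ cup_j x` by downward induction on
`j ≤ w` (`j = w`: `X_w cup_w`; step: `X_(j-1) [X_j X_(j+1) ⋯ X_w] X_(j-1) (X_j ⋯ X_(w-1)) cup_w`, `X_(j-1)` commutes with `X_(j+1), …`, braid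
relation, `X_j X_(j-1) (-a⁻³ cup_j) = -a⁻³ cup_(j-1)`), and `D_(w+2) cup_w = X_0 ⋯ X_(w-1) X_w cup_w = -a⁻³ X_0 ⋯ X_(w-1) cup_w`.
(d) `i ≤ w`: `D^(w+2) cup_i = D^i D² D^(w-i) cup_i = D^i D² cup_w D_w^(w-i) = T(-6c) D^i cup_0 D_w^(w-i) = T(-6c) cup_i D_w^w`; iterate `|k|`
times: `runW (FT (w+2) k) cup_i = T(-6k) cup_i runW (FT w k)` (`c |k| = k`), and `3 k (w + 2) - 6 k = 3 k w`.
(e) `w ≤ i`: all `X_j` with `j + 2 ≤ w` commute with `cup_i`. For `w ≤ 1` the word `FT w k` is empty. -/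
def St_FTU : Prop := ∀ (V : Type) [AddCommGroup V] [Module LP V] (M : Model LP V), Good M →
  ∀ (k : ℤ) (n w i : ℕ) (x : V), w ≤ n → M.Supp n x →
    (i ≤ w → PF M k (w + 2) (M.cup i x) = M.cup i (PF M k w x)) ∧
    (w ≤ i → i ≤ n → PF M k w (M.cup i x) = M.cup i (PF M k w x))

/-- [FTN] a cap slides through the full twist.
PROOF. As in [FTU]. (a) `cap_i X_i = -a⁻³ cap_i`; `cap_(i+1) X_i X_(i+1) = cap_i`; `cap_i X_(i+1) X_i = cap_(i+1)` (expand; `rel2`, `rel3`,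
`δ`); distant `X_j` commute with caps: `cap_i X_(i+2+l) = X_(i+l) cap_i`, `cap_(i+2+l) X_i = X_i cap_(i+2+l)`.
(b) `i + 1 ≤ w`: `cap_(i+1) D_(w+2) = D_w cap_i`: `cap_(i+1)` passes `X_0, …, X_(i-1)`, `cap_(i+1) X_i X_(i+1) = cap_i`, which passes
`X_(i+2), …, X_w` and makes them `X_i, …, X_(w-2)`. (c) `cap_0 D D = T(-6c) cap_w`, `D = D_(w+2)`: `cap_0 X_0 = -a⁻³ cap_0`; put
`G_j = cap_j (X_(j+1) ⋯ X_w) (X_j ⋯ X_w)`: `X_j` commutes with `X_(j+2), …`, so `G_j = cap_j X_(j+1) X_j (X_(j+2) ⋯ X_w) (X_(j+1) ⋯ X_w) =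
G_(j+1)` for `j < w`, and `G_w = cap_w X_w = -a⁻³ cap_w`. (d) `cap_i D^(w+2) = cap_i D^i D² D^(w-i) = D_w^i cap_0 D² D^(w-i) =
T(-6c) D_w^i cap_w D^(w-i) = T(-6c) D_w^i D_w^(w-i) cap_i`. (e) `w ≤ i`: commutes. -/
def St_FTN : Prop := ∀ (V : Type) [AddCommGroup V] [Module LP V] (M : Model LP V), Good M →
  ∀ (k : ℤ) (n w i : ℕ) (x : V), w ≤ n → M.Supp (n + 2) x →
    (i ≤ w → M.cap i (PF M k (w + 2) x) = PF M k w (M.cap i x)) ∧
    (w ≤ i → i ≤ n → M.cap i (PF M k w x) = PF M k w (M.cap i x))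

/-- [FTP] PROOF (from FTU, FTN). `Good M → Cc M` (fields `cupcup`, `capcap`); `supp`: `supp_run` of `ARB/Inv.lean` with
`Ok (FT w k) n n` for `w ≤ n` (each piece `pX j p` has `j + 2 ≤ w`), `Good.smul`; `smul`: linearity. -/
def St_FTP : Prop := ∀ (V : Type) [AddCommGroup V] [Module LP V] (M : Model LP V), Good M →
  Cc M ∧ ∀ k : ℤ, Pole M (PF M k)

/-! ### the tensor model and the values of the full twists -/

/-- the cap of the tensor model (`TWB.eL A i = cupL A i ∘ capL A i`) -/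
def capL {B : Type} [CommRing B] (A : Bˣ) : ℕ → Pool.Agent.TWB.Ten B → Pool.Agent.TWB.Ten B
  | 0, f, e => ∑ t : ℤˣ, Pool.Agent.TWB.cap1 A t * f (t :: -t :: e)
  | i + 1, f, x :: e => capL A i (fun e' => f (x :: e')) e
  | _ + 1, _, [] => 0

/-- the tensor model -/
structure TM (M : Model LP (Pool.Agent.TWB.Ten LP)) : Prop where
  good : Good M
  supp : ∀ (n : ℕ) (f : Pool.Agent.TWB.Ten LP), M.Supp n f ↔ Pool.Agent.TWB.Hom n f
  init : M.init = fun e => if e = [] then 1 else 0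
  cup : ∀ (i : ℕ) (f : Pool.Agent.TWB.Ten LP), M.cup i f = Pool.Agent.TWB.cupL Pool.Agent.TWB.AA i f
  cap : ∀ (i : ℕ) (f : Pool.Agent.TWB.Ten LP), M.cap i f = capL Pool.Agent.TWB.AA i f

/-- [TMD] PROOF. The relations by induction on `i` for all tensors (base case: computation, as in `TWB/Rel.lean`;
`cup2 A x y = 0` unless `y = -x`, `cup2 1 (-1) = -A²`, `cup2 (-1) 1 = 1`, `cap1 1 = 1`, `cap1 (-1) = -A⁻²`); or transport from
`ARB/VertA.lean` (`wU`, `cup0`, `cap0`, `lift`; there `false` is `+`) . `rel1`: `∑_t cap1 t cup2 t (-t) = -A² - A⁻² = loopVal`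
(`AA ^ 2 = T 2`); `rel2`: `cap_(i+1) cup_i`, base `∑_t cap1 t cup2 x t f (-t :: e)`, only `t = -x`: `cap1 (-x) cup2 x (-x) = 1`;
`rel3`: `∑_t cap1 t cup2 (-t) w f (t :: e)`, only `t = w`, `cap1 w cup2 (-w) w = 1` (short lists are excluded by `Hom`). -/
def St_TMD : Prop := ∃ M : Model LP (Pool.Agent.TWB.Ten LP), TM M

/-- the value of `k` full twists of `m` strands closed up, normalized -/
noncomputable def Ph (k : ℤ) (m : ℕ) : LP := ∑ ε : Fin m → ℤˣ,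
  C ((-1 : ℤ) ^ m) * T (2 * Pool.Agent.TWB.sm (List.ofFn ε) +
    k * ((Pool.Agent.TWB.mm (List.ofFn ε) : ℤ) ^ 2 + 2 * Pool.Agent.TWB.mm (List.ofFn ε)))

/-- [PHI] the trace formula.
PROOF. (1) `runW M (FT m k) f = (TWB.FT AA c m)^[|k|] f` (`c` the sign of `k`; `sweep m p` is `pX (m-2) p, …, pX 0 p`, `TWB.sw A c 0 (m-1)`
lets `X_(m-2)` act first; `crossOp M i p = XL AA c i`). (2) `rbT = runC M (cups m) init`: `rbT (x ++ y) = ∏ cup2 (x_j) (y_(m-1-j))` for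
`|x| = |y| = m` (induction on `m`, `cups (m + 1) = cups m ++ [pU m]`), `runC M (caps m) g [] = ∑_x (∏ cap1 x_j) g (x ++ reverse (-x))`
(`caps (m + 1) = pN m :: caps m`). (3) operators at places `< m - 1` act on the first `m` entries only: `(XL A c i f) (x ++ y) =
XL A c i (fun x' => f (x' ++ y)) x` for `i + 2 ≤ |x|`. So with `δ_x` (delta function at `x`), `F = (TWB.FT AA c m)^[|k|]`:
`(caps m) F rbT [] = ∑_x (∏ cap1 (x_j) cup2 x_j (-x_j)) (F δ_x) x`, and `cap1 x cup2 x (-x) = -T (2 x)`: the weight is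
`(-1)^m T (2 sm x)`. (4) So `Psi = T(3 k m) ∑_x (-1)^m T(2 sm x) (F δ_x)(x)`, a trace of `diag * F`. Change the basis to `vL s`, `|s| = m`
(`TWB.thm_Spn` for `m ≥ 1`, `m = 0` directly; `vL s` is supported on `e` with `sm e = sm s`, `TWB.thm_Val` (3), so the diagonal
matrix `T(2 sm)` is unchanged), compare `TWB/Mi.lean`. By `TWB.thm_Twa` `F (vL s) = T(k (mm² + 2 mm - 3 m)) vL s + low`, low = combination of
`vL t`, `mm t < mm s`: the diagonal entry is `T(k (mm s ² + 2 mm s - 3 m))`. -/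
def St_PHI : Prop := ∀ M : Model LP (Pool.Agent.TWB.Ten LP), TM M → ∀ (k : ℤ) (m : ℕ),
  Psi M (PF M k) m = Ph k m • M.init

/-- [PHT] the extreme coefficients of `Ph`. `τ` is the direction in which the terms with many unmatched signs are small.
PROOF. `κ = |k| ≥ 1`, `τ k = -κ`. The exponent in direction `τ` of the term of `ε` is `2 τ sm - κ (t² + 2 t)`, `t = mm ≡ m` mod 2,
`|sm| ≤ t` (`TWB.thm_Cmb` (4)), so `≤ 2 t - κ (t² + 2 t) ≤ -κ t²`. (1) `m` even: `≤ 0`; `m` odd: `t = 1`: `≤ 2 - 3 κ`;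
`t ≥ 3`: `≤ -9 κ < 2 - 3 κ`. (2) `m = 0`: one term `1`. (3) `m = 1`: `t = 1`, `sm = ± 1`: `-T(τ (2 - 3κ)) - T(τ (-2 - 3κ))`.
(4) `m = 2`: `+ -`: `t = 0`, `sm = 0`: `1`; the others `t = 2`, `sm = 2, 0, -2`: exponents `4 - 8κ`, `-8κ`, `-4 - 8κ`. (5) all terms are
`(-1)^m` at `A = 1`. -/
def St_PHT : Prop := ∀ (k τ : ℤ), (τ = 1 ∨ τ = -1) → τ * k < 0 →
  (∀ m : ℕ, m % 2 = 0 → Le τ 0 (Ph k m)) ∧
  (∀ m : ℕ, m % 2 = 1 → Le τ (2 + 3 * (τ * k)) (Ph k m)) ∧
  Tp τ 0 1 0 (Ph k 0) ∧ Tp τ (2 + 3 * (τ * k)) (-1) (-1) (Ph k 1) ∧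
  Tp τ 0 1 (if τ * k = -1 then 1 else 0) (Ph k 2) ∧
  ∀ m : ℕ, (LaurentPolynomial.eval₂ (RingHom.id ℤ) 1 (Ph k m)) = (-2) ^ m

/-! ### expansion -/

/-- [EXP] expansion of an alternating word with an operator in the middle in its states, seen from the regions of parity
`r`. `τ = 1` or `-1` is the exponent of the smoothing which joins the regions of the parity `!r`.
PROOF. As `ALT.thm_HE` (`ALT/Mo/HE.lean`): induction on `u` for all `x`, `n`. `u = []`: induction on `v` (or HE). A crossing `pX i p` on top of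
the list: `crossOp` is `T(± 1) + T(∓ 1) cup_i cap_i`; `jo` with the Boolean `b` is horizontal iff `b = decide (i % 2 = 0)`; if
`0 ∉ S` then `st r S 0 = !r`, horizontal iff `i % 2` is such that `!r = decide (i % 2 = 0)`; weight of that smoothing `T τ`:
`hτ`. The sets `S` for `pX i p :: u'` are `S' + 1` and `insert 0 (S' + 1)`; `st r S (k + 1) = st r S' k`. `P` is additive and
homogeneous. -/
def St_EXP : Prop := ∀ (V : Type) [AddCommGroup V] [Module LP V] (M : Model LP V), Good M →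
  ∀ (r e : Bool) (τ : ℤ) (u v : Word) (n₀ n m : ℕ) (P : V →ₗ[LP] V) (x : V),
  Ok u n₀ n → Ok v n m → (∀ y, M.Supp n y → M.Supp n (P y)) → M.Supp n₀ x →
  (∀ (p : Bool) (i : ℕ), pX i p ∈ u ++ v → (p = e ↔ i % 2 = 0)) →
  τ = (if r = e then 1 else -1) →
  runW M v (P (runW M u x)) = ∑ S : Finset (Fin (nX (u ++ v))),
    (T (τ * ((nX (u ++ v) : ℤ) - 2 * S.card)) : LP) •
      runC M (jo (fun k => st r S (k + nX u)) v) (P (runC M (jo (st r S) u) x))

/-- [FOR] the formula.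
PROOF (from PR, FTP, TMD, PHI, EXP). `M` from [TMD]; `Helper2.Ok`, `thm_BrRun` of ARB: `runW M (forget K) M.init = (loopVal *
bracket K) • M.init` (`K ≠ []` because `n ≥ w`, `w ≥ 1`... if `u ++ FT ++ v = []` then `u = v = []`, excluded by `D ≠ []`);
`runW M (u ++ FT w k ++ v) = runW v ∘ runW (FT w k) ∘ runW u`, multiply by `T(3 k w)`; [EXP] with `P = PF M k w`; each term is
`loopVal ^ l • Psi m` by `Pr` and [FTP], `= (loopVal ^ l * Ph k m) • init`; compare the values at `[]`. -/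
def St_FOR : Prop := ∀ (u v : Word) (n w : ℕ) (k : ℤ) (K : List Slice) (r e : Bool) (τ : ℤ),
  Ok u 0 n → Ok v n 0 → w ≤ n → IsDiagram K → K ≠ [] → forget K = u ++ FT w k ++ v →
  (∀ (p : Bool) (i : ℕ), pX i p ∈ u ++ v → (p = e ↔ i % 2 = 0)) →
  τ = (if r = e then 1 else -1) →
  ∀ l m : Finset (Fin (nX (u ++ v))) → ℕ, (∀ S, Pr (st r S) u v w (l S) (m S)) →
  T (3 * k * w) * (loopVal * bracket K) = ∑ S : Finset (Fin (nX (u ++ v))),
    T (τ * ((nX (u ++ v) : ℤ) - 2 * S.card)) * (loopVal ^ l S * Ph k (m S))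

/-! ### Laurent polynomials -/

/-- [COE] PROOF. Suppose `p` is a unit: `p = ± T j` (`TWB.thm_Uni`). Then the left side of `h` is `∓ (T a + T b)` with `{a, b} = {3 k w + j ± 2}`.
Let `d₀ = N + 2 l₀ + dφ`, `dφ = 0` for even `w`, `2 + 3 τ k` for odd `w` (`< 0`...). `loopVal ^ l` is `Tp τ (2 l) ((-1)^l) ((-1)^l l)`
(`Tp` is multiplicative: `Tp τ d a b p`, `Tp τ d' a' b' p'` give `Tp τ (d+d') (a a') (a b' + b a') (p p')`; `Le` too). The term of `S`
is `T(τ (N - 2|S|)) loopVal ^ (l S) Ph`; its degree in direction `τ` is at most `N - 2 |S| + 2 l S + dφ = d₀ - 4 rk S` by `hl`. So the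
sum is `Tp τ d₀ a b`, `a = (-1)^(n₀) α`, `b = (-1)^(n₀) (n₀ α + β) + ∑_{rk S = 1} (-1)^(l S) α`, where `Ph k (m ∅)` is `Tp τ dφ α β`: `m₀ = 0`:
`(1, 0)`, `m₀ = 1`: `(-1, -1)`, `m₀ = 2`: `(1, [τ k = -1])`, and for `rk S = 1` the top coefficient of `Ph k (m S)` is `α` too (`m S = m₀`, or
`m₀ = 2`, `m S = 0`). `l S = n₀ + |S| - 2` so `(-1)^(l S) = (-1)^(n₀) (-1)^|S|`. Hence `a b = α² n₀ + α β + ∑_{rk S = 1} (-1)^|S| ≤ 0`
(`α β = 0, 1, [τ k = -1]`), `a ≠ 0`. But the left side is `Tp τ d₁ s s` with `s = ∓ 1`, `s s = 1 > 0`, and `d₁ = d₀` as both `a`, `s` are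
nonzero. -/
def St_COE : Prop := ∀ (N w n₀ m₀ : ℕ) (k τ : ℤ) (p : LP) (l m rk : Finset (Fin N) → ℕ),
  (τ = 1 ∨ τ = -1) → τ * k < 0 → St_PHT →
  T (3 * k * w) * (loopVal * p) = ∑ S : Finset (Fin N),
    T (τ * ((N : ℤ) - 2 * S.card)) * (loopVal ^ l S * Ph k (m S)) →
  (∀ S, m S % 2 = w % 2) → m₀ ≤ 2 → m₀ % 2 = w % 2 → m ∅ = m₀ →
  (∀ S, l S + 2 * rk S = n₀ + S.card) → (∀ S, rk S = 0 ↔ S = ∅) →
  (∀ S, rk S = 1 → m S = m₀ ∨ (m₀ = 2 ∧ m S = 0)) →
  ∑ S ∈ Finset.univ.filter (fun S => rk S = 1), (-1 : ℤ) ^ S.card ≤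
    -(n₀ : ℤ) - (if m₀ = 0 then 0 else 1) →
  ¬ IsUnit p

/-- [CNN] a unit gives a state with one circle.
PROOF. Evaluate `h` at `A = 1` (`eval₂ (RingHom.id ℤ) 1`): `T j ↦ 1`, `loopVal ↦ -2`, `Ph k m ↦ (-2)^m`, `p ↦ ± 1`: `∓ 2 = ∑_S (-2)^(l S + m S)`. If all
`l S + m S ≥ 2` the right side is divisible by 4. `l S + m S = 0` is impossible for a closed word with a circle: `hpos`. -/
def St_CNN : Prop := ∀ (N w : ℕ) (k τ : ℤ) (p : LP) (l m : Finset (Fin N) → ℕ),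
  (∀ m : ℕ, (LaurentPolynomial.eval₂ (RingHom.id ℤ) 1 (Ph k m)) = (-2) ^ m) →
  T (3 * k * w) * (loopVal * p) = ∑ S : Finset (Fin N),
    T (τ * ((N : ℤ) - 2 * S.card)) * (loopVal ^ l S * Ph k (m S)) →
  (∀ S, 1 ≤ l S + m S) → IsUnit p → ∃ S, l S + m S = 1

/-- [CIR] every state has a circle.
PROOF (from P1). (1) For a word `v'` without crossings, `Ok v' 0 0`, `v' ≠ []`, there is `L ≥ 1` with `runC M v' y = M.δ ^ L • y` for all
models and `M.Supp 0 y`; (and `L = 0` for `v' = []`): strong induction on the length; `v' = pU 0 :: v₁`, `Ok v₁ 2 0`, P1: `δ^e •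
runC v₂ (cap_0 (cup_0 y)) = δ^(e + 1) • runC v₂ y`, `v₂` shorter. (2) The identity is a pole, `Psi M (fun _ x => x) m = M.δ ^ m • M.init` (`caps (m + 1) =
pN m :: caps m`, `cups (m + 1) = cups m ++ [pU m]`, `rel1`). In a model with `Cc` and `δ = 2` in which `2 ^ a • init = 2 ^ b • init` implies
`a = b` (the model `HM` of [HMD], `init = 1`): `runC (jo B' v) (runC (jo B u) init) = runC (jo B (u ++ v)) init = 2 ^ L • init`, and `jo B (u ++ v) ≠ []`
because the first piece is a cup; so `l + m = L`. -/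
def St_CIR : Prop := (∃ M : Model ℤ ((ℕ → ℤ) → ℤ), M.δ = 2 ∧ Cc M ∧ M.init = fun _ => 1) →
  ∀ (B : ℕ → Bool) (u v : Word) (n w l m : ℕ), Ok u 0 n → Ok v n 0 → w ≤ n → u ++ v ≠ [] →
    Pr B u v w l m → 1 ≤ l + m

/-! ### the height model -/

/-- delete the entries `i + 1`, `i + 2` -/
def dlZ (i : ℕ) (c : ℕ → ℤ) : ℕ → ℤ := fun j => if j ≤ i then c j else c (j + 2)

/-- split the entry `i` and insert `b` -/
def insZ (i : ℕ) (b : ℤ) (c : ℕ → ℤ) : ℕ → ℤ :=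
  fun j => if j ≤ i then c j else if j = i + 1 then b else c (j - 2)

/-- neighbouring heights -/
def NearZ (a b : ℤ) : Prop := a = b + 1 ∨ b = a + 1

instance (a b : ℤ) : Decidable (NearZ a b) := inferInstanceAs (Decidable (_ ∨ _))

/-- the model of height functions -/
structure HM (M : Model ℤ ((ℕ → ℤ) → ℤ)) : Prop where
  del : M.δ = 2
  supp : ∀ n ψ, M.Supp n ψ ↔ ∀ c, ψ c ≠ 0 → ∀ j < n, NearZ (c j) (c (j + 1))
  init : M.init = fun _ => 1
  cup : ∀ (i : ℕ) (ψ : (ℕ → ℤ) → ℤ) (c : ℕ → ℤ),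
    M.cup i ψ c = if c i = c (i + 2) ∧ NearZ (c i) (c (i + 1)) then ψ (dlZ i c) else 0
  cap : ∀ (i : ℕ) (ψ : (ℕ → ℤ) → ℤ) (c : ℕ → ℤ),
    M.cap i ψ c = ψ (insZ i (c i + 1) c) + ψ (insZ i (c i - 1) c)

/-- the pole of a function of the height difference -/
def PZ (θ : ℤ → ℤ) (w : ℕ) (ψ : (ℕ → ℤ) → ℤ) : (ℕ → ℤ) → ℤ := fun c => θ (c w - c 0) * ψ c

/-- [HMD] PROOF. `Supp` as in `supp`. `rel1`: `insZ i b c` has equal entries at `i`, `i + 2`, `dlZ i (insZ i b c) = c`: `2 ψ c`. `rel2`: `cap_(i+1)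
(cup_i ψ) c = ∑_{b = c (i+1) ± 1} (cup_i ψ)(insZ (i+1) b c)`; the condition is `c i = b` and `NearZ (c i) (c (i+1))`: if `c i`, `c (i+1)` are near
exactly one `b` fits and `dlZ i (insZ (i+1) b c) = c`; otherwise none and `ψ c = 0` by `Supp`. `rel3` the same with `b = c (i + 1)` for
`insZ i b c` and `cup_(i+1)`. `rel4`, `rel5`, `cupcup`, `capcap`: distant places commute (`funext`, `split_ifs`, `omega`; first show how `dlZ`, `insZ` commute).
Supports: `dlZ i c` near everywhere below `n` and `c i = c (i+2)`, near to `c (i+1)`, gives `c` near below `n + 2`; for the cap `insZ i b c` near below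
`n + 2` gives `c` near below `n`. Poles: `(dlZ i c) 0 = c 0`; for `i ≤ w` `(dlZ i c) w = c (w + 2)` if `c i = c (i + 2)` (for `w = i` this is `c i`);
for `w ≤ i` `(dlZ i c) w = c w`; `(insZ i b c) (w + 2) = c w` for `i ≤ w`, `(insZ i b c) w = c w` for `w ≤ i`. -/
def St_HMD : Prop := (∃ M : Model ℤ ((ℕ → ℤ) → ℤ), HM M) ∧
  ∀ M : Model ℤ ((ℕ → ℤ) → ℤ), HM M → Cc M ∧ ∀ θ : ℤ → ℤ, Pole M (PZ θ)

/-- [HPS] PROOF. `caps (m + 1) = pN m :: caps m`, `cups (m + 1) = cups m ++ [pU m]` (induction from the definitions). `cap_m (PZ θ (m+1) (cup_m ψ)) c =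
∑_{b = c m ± 1} θ (b - c 0) ψ c` (for `insZ m b c` the entries `m`, `m + 2` are `c m`, the entry `m + 1` is `b`, `dlZ m` gives back `c`) `= PZ θ' m ψ c`,
`θ' x = θ (x + 1) + θ (x - 1)`. So `Psi (m+1) θ = Psi m θ'`, `Psi 0 θ = θ 0`. With `θ = 1_r` by induction on `m`, for all nonnegative `θ`:
`Psi m θ c ≠ 0` iff `θ (r') ≠ 0` for some `r'` with `|r'| ≤ m`, `r' ≡ m` mod 2. -/
def St_HPS : Prop := ∀ M : Model ℤ ((ℕ → ℤ) → ℤ), HM M → ∀ (m : ℕ) (r : ℤ) (c : ℕ → ℤ),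
  Psi M (PZ fun x => if x = r then 1 else 0) m c ≠ 0 ↔ |r| ≤ m ∧ (r - m) % 2 = 0

/-- [HTR] height functions and the height model.
PROOF. For `ψ ≥ 0` (all values), `Supp n ψ`, `ψ` depending only on the entries `0..n`. One piece `s` in the state `b` (operator `pop`: cup, cap,
`cup_i cap_i` if `b = decide (i % 2 = 0)`, else the identity): `pop ψ ≥ 0`, `pop ψ c' ≠ 0` iff there is a row `c` with `ψ c ≠ 0` which
fits: `c j = c' j'` for `gl s j j'`, for a crossing `c i = c (i + 2)` resp. `c (i+1) = c' (i+1)` according to `b`, and `c'` near below `n'` (compare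
`ALT/Mo/TP.lean`, `TC.lean`, `TR.lean`, where colours are counted). Claim: for `u`, `v`, bottom `n₀`: `runC (jo B' v) (PZ θ w (runC (jo B u) ψ)) c' ≠ 0` iff there
is `f` with `Hv B n₀ (u ++ v) f`, top row `c'` (entries `≤ m`), `ψ (bottom row) ≠ 0`, `θ (f (md w) - f (md 0)) ≠ 0`. Induction on `u`, then on `v`.
`f = Sum.elim (row c) f'`; `near` for the new row because `ψ c ≠ 0` and `Supp`. For `n₀ = m = 0`, `ψ = 1`, `θ = 1_r`, any `c'` (shift `f` by a constant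
so that the top entry is `c' 0`) this is the statement. -/
def St_HTR : Prop := ∀ M : Model ℤ ((ℕ → ℤ) → ℤ), HM M →
  ∀ (B : ℕ → Bool) (u v : Word) (n w : ℕ) (r : ℤ) (c : ℕ → ℤ), Ok u 0 n → Ok v n 0 → w ≤ n →
  (runC M (jo (fun k => B (k + nX u)) v)
      (PZ (fun x => if x = r then 1 else 0) w (runC M (jo B u) M.init)) c ≠ 0 ↔
    ∃ f : Loc 0 (u ++ v) → ℤ, Hv B 0 (u ++ v) f ∧ f (md 0 u v w) - f (md 0 u v 0) = r)

/-- [MHT] `m` is the largest height difference.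
PROOF (from HMD, HPS, HTR). `Pr` for the height model and the pole `1_r`: the value is `2 ^ l • Psi m` (`M.δ = 2`), nonzero iff
`|r| ≤ m`, `r ≡ m` mod 2 (HPS), and iff there is a height function with difference `r` (HTR). First claim: `r =` the
difference of `f`. Second claim: `r = m`. -/
def St_MHT : Prop := ∀ (B : ℕ → Bool) (u v : Word) (n w l m : ℕ), Ok u 0 n → Ok v n 0 → w ≤ n →
  Pr B u v w l m →
  (∀ f : Loc 0 (u ++ v) → ℤ, Hv B 0 (u ++ v) f → |f (md 0 u v w) - f (md 0 u v 0)| ≤ m) ∧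
  ∃ f : Loc 0 (u ++ v) → ℤ, Hv B 0 (u ++ v) f ∧ f (md 0 u v w) - f (md 0 u v 0) = m

/-- [PAR] PROOF. The row at height `|u|` has the entries `md 0 u v j`, `j ≤ n`; `md j`, `md (j + 1)` are neighbours for `j < n` (induction on `u`); each step
changes `f` by `± 1`. -/
def St_PAR : Prop := ∀ (B : ℕ → Bool) (u v : Word) (n w : ℕ), Ok u 0 n → Ok v n 0 → w ≤ n →
  (∀ j : ℕ, j < n → Rt 0 (u ++ v) (md 0 u v j) (md 0 u v (j + 1))) ∧
  ∀ f : Loc 0 (u ++ v) → ℤ, Hv B 0 (u ++ v) f →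
    (f (md 0 u v w) - f (md 0 u v 0) - w) % 2 = 0

end Pool.TWC
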