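import Mathlib

/-!
# TWC: statements, part L (rank functions)

Pure combinatorics and linear algebra, independent of the diagrams. Every statement has its proof in
the docstring.
-/

set_option autoImplicit false

namespace Pool.TWC

/-- rank functions of matroids -/
structure RkF {N : ℕ} (r : Finset (Fin N) → ℕ) : Prop where
  emp : r ∅ = 0
  mono : ∀ S T, S ⊆ T → r S ≤ r T
  one : ∀ S e, r (insert e S) ≤ r S + 1
  sub : ∀ S T, r (S ∪ T) + r (S ∩ T) ≤ r S + r T

/-- [LIN] counting parallel classes.
PROOF. `e ~ e'` iff `r {e, e'} = 1`. By `hr` and `sub` this is an equivalence relation (`r {a, b, c} + r {b} ≤ r {a, b} + r {b, c} = 2`).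
For `T ≠ ∅`: `r T = 1` iff all elements of `T` are equivalent (`→` `mono`; `←` induction on `T`: `T = insert e' T'`, `e ∈ T'`, `r (T' ∪ {e, e'}) +
r (T' ∩ {e, e'}) ≤ r T' + r {e, e'} = 2` and `r (T' ∩ {e, e'}) ≥ r {e} = 1`). For a class `C` the sum of `(-1)^|T|` over the nonempty
`T ⊆ C` is `-1` (`Finset.sum_powerset_neg_one_pow_card`, `C ≠ ∅`), and the sets `T` with `r T = 1` are the disjoint union over the classes of these. So
the left sum is `-m`, `m` the number of classes.
CLAIM: `r S ≤ c` and `r' univ ≤ r' S + (m - c)`, `c` the number of the classes which meet `S`; the statement follows.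
(1) Let `T ⊆ S` contain exactly one element of every class which meets `S`; then `r S ≤ r T ≤ |T| = c`: adding to `T` an element `e' ~ e`, `e ∈ T`, does
not change `r`: `r (T ∪ {e, e'}) + r (T ∩ {e, e'}) ≤ r T + r {e, e'}` and `r {e, e'} = 1 ≤ r (T ∩ {e, e'})`; `r T ≤ |T|` by `one`. (Use induction over
the elements added: for all `U` such that each element of `U` is equivalent to one of `T`: `r (T ∪ U) = r T`.)
(2) Let `T'` contain one element of every class which does not meet `S`: every element is equivalent to one of `S ∪ T'`. By `hp` and `hr'` `e ~ e'`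
implies `r' {e, e'} ≤ 1`, so as in (1) `r' univ = r' (S ∪ T') ≤ r' S + |T'| = r' S + (m - c)` (`one`). -/
def St_LIN : Prop := ∀ (N : ℕ) (r r' : Finset (Fin N) → ℕ), RkF r → RkF r' →
  (∀ e, r {e} = 1) → (∀ e, r' {e} = 1) → (∀ e e', r' {e, e'} ≤ r {e, e'}) →
  ∀ S : Finset (Fin N),
    (∑ T ∈ Finset.univ.filter (fun T : Finset (Fin N) => r T = 1), (-1 : ℤ) ^ T.card) + r S +
      r' Finset.univ ≤ r' S

/-- [RKF] the rank function of linear functionals on a subspace.
PROOF. `D S = Base ⊓ ⨅ k ∈ S, ker (L k)`. `D ∅ = Base`; antitone; `D (S ∪ T) = D S ⊓ D T`, `D S ⊔ D T ≤ D (S ∩ T)`, so by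
`Submodule.finrank_sup_add_finrank_inf_eq` `finrank D S + finrank D T ≤ finrank D (S ∪ T) + finrank D (S ∩ T)`, which is `sub` (all
are `≤ finrank Base`). `D (insert e S) = D S ⊓ ker (L e)`: its codimension in `D S` is at most one (rank-nullity for `L e` restricted to
`D S`, values in the field). Last claim: `D {k} ≠ Base` if some `p ∈ Base` has `L k p ≠ 0`, so `finrank D {k} < finrank Base`
(`Submodule.finrank_lt_finrank_of_lt`). -/
def St_RKF : Prop := ∀ (K V : Type) [Field K] [AddCommGroup V] [Module K V] [FiniteDimensional K V]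
  (N : ℕ) (Base : Submodule K V) (L : Fin N → V →ₗ[K] K),
  RkF (fun S : Finset (Fin N) => Module.finrank K Base -
    Module.finrank K (Base ⊓ ⨅ k, ⨅ _ : k ∈ S, LinearMap.ker (L k) : Submodule K V)) ∧
  (∀ S : Finset (Fin N),
    Module.finrank K (Base ⊓ ⨅ k, ⨅ _ : k ∈ S, LinearMap.ker (L k) : Submodule K V) ≤
      Module.finrank K Base) ∧
  ∀ k : Fin N, (∃ p ∈ Base, L k p ≠ 0) →
    Module.finrank K Base -
      Module.finrank K (Base ⊓ ⨅ j, ⨅ _ : j ∈ ({k} : Finset (Fin N)),
        LinearMap.ker (L j) : Submodule K V) = 1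

end Pool.TWC
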