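import Pool.Agent.TWC.StC
import Pool.Agent.TWC.StL

/-!
# TWC: statements, part B (colour models over `ZMod 3`, periodic and antiperiodic solutions, matroids)

The number of circles of a state and the number of circles around the pole are computed from the dimensions of spaces of
colourings of the regions of one parity by `ZMod 3`, periodic (`s = 1`) or antiperiodic (`s = -1`) along the arc from the gap `0` to
the gap `w` above `u`, and zero at both ends of the arc. Every statement has its complete proof in the docstring. Notation: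
`√3 = Real.sqrt 3`; `par i = decide (i % 2 = 0)`; the regions of parity `ρ` are those with `pa = ρ`; in the state `B` the crossing `k`
joins the regions of parity `B k`.
-/

set_option autoImplicit false

namespace Pool.TWC

open LaurentPolynomial Pool.Agent.ARB Pool.Agent.Helper2 Pool.ALT

/-! ### the colour model -/

/-- rows of colours -/
abbrev Cg : Type := ℕ → ZMod 3

/-- delete the entries `i + 1`, `i + 2` -/
def dl3 (i : ℕ) (c : Cg) : Cg := fun j => if j ≤ i then c j else c (j + 2)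

/-- split the entry `i` and insert `b` -/
def ins3 (i : ℕ) (b : ZMod 3) (c : Cg) : Cg :=
  fun j => if j ≤ i then c j else if j = i + 1 then b else c (j - 2)

open Classical in
/-- the model of the colourings of the gaps of parity `ρ` (`true`: even); the functions do not depend on the entries of the
other parity -/
structure CM (ρ : Bool) (M : Model ℝ (Cg → ℝ)) : Prop where
  del : M.δ = Real.sqrt 3
  supp : ∀ (n : ℕ) (ψ : Cg → ℝ), M.Supp n ψ ↔
    ∀ c c' : Cg, (∀ j ≤ n, decide (j % 2 = 0) = ρ → c j = c' j) → ψ c = ψ c'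
  init : M.init = fun _ => 1
  cup : ∀ (i : ℕ) (ψ : Cg → ℝ) (c : Cg), M.cup i ψ c =
    if decide (i % 2 = 0) = ρ then (if c i = c (i + 2) then Real.sqrt 3 * ψ (dl3 i c) else 0)
    else ψ (dl3 i c)
  cap : ∀ (i : ℕ) (ψ : Cg → ℝ) (c : Cg), M.cap i ψ c =
    if decide (i % 2 = 0) = ρ then ψ (ins3 i 0 c)
    else (Real.sqrt 3)⁻¹ * ∑ b : ZMod 3, ψ (ins3 i b c)

/-- multiply the entries strictly between `0` and `w` by `s` -/
def tws (s : ZMod 3) (w : ℕ) (c : Cg) : Cg := fun j => if 0 < j ∧ j < w then s * c j else c j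

open Classical in
/-- the pole of the monodromy `s`, zero at the gaps `0` and `w` (if they have the parity `ρ`) -/
noncomputable def PG (ρ : Bool) (s : ZMod 3) (w : ℕ) (ψ : Cg → ℝ) : Cg → ℝ := fun c =>
  if (ρ = true → c 0 = 0) ∧ (decide (w % 2 = 0) = ρ → c w = 0) then ψ (tws s w c) else 0

/-- [CMD] the colour models exist, and `PG` is a pole.
PROOF. `dl3 i (ins3 i b c) = c`. `cup`, `cap` linear. Supports: `supp_cup` (`i ≤ n`): `c i`, `c (i + 2)` are entries `≤ n + 2` of parity `ρ`, `dl3 i c j`, `j ≤ n`, is `c j` or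
`c (j + 2)`; `supp_cap` similar (`ins3 i b c j`, `j ≤ n + 2`, is `c j`, `b` or `c (j - 2)`). `rel1`: `par i = ρ`: `√3 ψ (dl3 i (ins3 i 0 c)) = √3 ψ c`;
otherwise `√3⁻¹ ∑_b ψ c = √3 ψ c`. `rel2` (`cap_(i+1) cup_i`): `par i = ρ`: `√3⁻¹ ∑_b [c i = b] √3 ψ (dl3 i (ins3 (i+1) b c))`, only `b = c i`, and then
`dl3 i (ins3 (i+1) b c) = c`; `par i ≠ ρ`: `ψ (dl3 i (ins3 (i+1) 0 c))`, which agrees with `c` except at the entry `i` of the wrong parity... (for `j ≤ i` it is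
`c j`, for `j > i` `ins3 (i+1) 0 c (j+2) = c j`: it is `c`). `rel3` (`cap_i cup_(i+1)`): `par i = ρ`: `ψ (dl3 (i+1) (ins3 i 0 c))`: entries `j ≤ i` are `c j`, the entry `i + 1` (wrong
parity) is `0`, the others `c j`: use `Supp`. `par i ≠ ρ`: `√3⁻¹ ∑_b [b = c (i+1)] √3 ψ (dl3 (i+1) (ins3 i b c))`, only `b = c (i + 1)`. `rel4`, `rel5`, `cupcup`,
`capcap`: distant places commute. (`insZ`, `dlZ` of [HMD] satisfy the same rules, see `TWC/HMD.lean`.)
POLE (`s = ± 1`, so `s * s = 1` and `b ↦ s * b` is a bijection). `cupL` (`i ≤ w`), `par i = ρ`: both sides contain `[c 0 = 0 if ρ] [c (w+2) = 0 if par w = ρ] [c i = c (i+2)]`: `(dl3 i c) 0 =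
c 0`; `(dl3 i c) w = c (w + 2)` for `i < w`, for `i = w` it is `c w = c (w+2)` under the condition; the condition `c' i = c' (i + 2)` for `c' = tws s (w+2) c` is equivalent to
`c i = c (i + 2)`: both multiplied by `s` if `0 < i < w`; if `i = 0` then `ρ = true`, `c 0 = 0`; if `i = w` then `c (w + 2) = 0`. `dl3 i (tws s (w+2) c)` and
`tws s w (dl3 i c)` agree at the entries of parity `ρ` (they can only differ at `j = i = w`, where the value is `0`). `par i ≠ ρ`: no condition, they can differ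
only at `j = i = w` of the wrong parity. `cupR` (`w ≤ i`): `c' = tws s w c` has the same entries `≥ w`, `dl3 i (tws s w c) = tws s w (dl3 i c)`. `capL` (`i ≤ w`):
`(ins3 i b c) 0 = c 0`, `(ins3 i b c) (w + 2) = c w`; `tws s (w+2) (ins3 i b c)` and `ins3 i (s * b) (tws s w c)` agree at the entries of parity `ρ` if `c 0`, `c w` are zero
when they have this parity (they can differ only at `j = i = w`; at `j = i + 2` for `i = 0` or `i = w`; and at `i + 1`, if `w + 2 ≤ i + 1`: impossible), and at the others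
it does not matter; sum over `b`. `capR` (`w ≤ i`): `tws s w (ins3 i b c) = ins3 i b (tws s w c)`. `supp`: clear (`w ≤ n`), `smul`: clear. -/
def St_CMD : Prop := ∀ ρ : Bool, (∃ M : Model ℝ (Cg → ℝ), CM ρ M) ∧
  ∀ M : Model ℝ (Cg → ℝ), CM ρ M → Cc M ∧ Pole M (PG ρ 1) ∧ Pole M (PG ρ (-1))

/-- the exponent of `√3` of the state `B` -/
def gam (ρ : Bool) : (ℕ → Bool) → Word → ℤ
  | _, [] => 0
  | B, ⟨.X _, i⟩ :: w =>
      (if B 0 = decide (i % 2 = 0) then (if decide (i % 2 = 0) = ρ then 1 else -1) else 0) +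
        gam ρ (fun k => B (k + 1)) w
  | B, ⟨.U, i⟩ :: w => (if decide (i % 2 = 0) = ρ then 1 else 0) + gam ρ B w
  | B, ⟨.N, i⟩ :: w => (if decide (i % 2 = 0) = ρ then 0 else -1) + gam ρ B w

/-- `f` is a colouring of the regions of parity `ρ` of the state `B` -/
def Cz (ρ : Bool) (B : ℕ → Bool) (n : ℕ) (w : Word) (f : Loc n w → ZMod 3) : Prop :=
  (∀ x, pa n w x ≠ ρ → f x = 0) ∧ (∀ x y, R0 n w x y → f x = f y) ∧
    ∀ k : Fin (nX w), B k = ρ → f (ed ρ n w k).1 = f (ed ρ n w k).2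

open Classical in
/-- [TR3] the transfer formula.
PROOF (as `ALT.thm_TP`, `ALT.thm_TC`, `ALT.thm_TR`: read `ALT/Mo/TP.lean`, `TC.lean`, `TR.lean`, two colours, no weights). ONE PIECE: `s`, `n`, `s.i + s.k.inn ≤ n`, `M.Supp n ψ`; the rows
`c : Fin (n + 1) → ZMod 3` (zero at the entries of the wrong parity) which fit below `c'`: `U`: `c j = c' j` for `j ≤ i`, `c j = c' (j + 2)` for `i ≤ j ≤ n`; `N`: `c j = c' j` for
`j ≤ i`, `c (j + 2) = c' j` for `i ≤ j`, `j + 2 ≤ n`; `X`: `c j = c' j` for `j ≠ i + 1`, and if the crossing joins the parity `ρ` (`b = ρ`): `c i = c (i + 2)` if `par i = ρ`, else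
`c (i + 1) = c' (i + 1)` (all equations only for entries of parity `ρ`). Claim: operator of the piece at `c'` `= √3 ^ g ∑_c ψ c`, `g` as in `gam`.
`U`, `par i = ρ`: one row, if `c' i = c' (i + 2)`, else none; `g = 1`. `U`, `par i ≠ ρ`: one row, `g = 0`. `N`, `par i = ρ`: one row `ins3 i 0 c'`, `g = 0`. `N`, `par i ≠ ρ`: the
three rows `ins3 i b c'`, `g = -1`. `X`, `b = par i` (the operator is `cup_i cap_i`): `par i = ρ`: `[c' i = c' (i+2)] √3 ψ (ins3 i 0 (dl3 i c'))`, one row, `g = 1`; `par i ≠ ρ`: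
`√3⁻¹ ∑_b ψ (ins3 i b (dl3 i c'))`, three rows (entry `i + 1` free), `g = -1`. `X`, `b ≠ par i` (the identity): `par i = ρ`: one row (the entry `i + 1` has the wrong parity), `g = 0`;
`par i ≠ ρ`, so `b = ρ`: `c (i+1) = c' (i+1)`: one row, `g = 0`. Values of `ψ` at rows with the same entries `≤ n` of parity `ρ` agree (`supp`).
WORD: induction on `w` as in `ALT.thm_TR`: `f = Sum.elim c f'`, `Cz` for `s :: w` is `Cz` for `w` and the fitting of `c` to the row `fun j => f' (bo n' w j)`. `w = []`: the only `f`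
is `d` restricted to `0..n`, zero at the wrong parity. -/
def St_TR3 : Prop := ∀ (ρ : Bool) (M : Model ℝ (Cg → ℝ)), CM ρ M → ∀ (w : Word) (B : ℕ → Bool)
  (n m : ℕ) (ψ : Cg → ℝ) (d : Cg), Ok w n m → M.Supp n ψ →
  runC M (jo B w) ψ d = Real.sqrt 3 ^ gam ρ B w *
    ∑ f ∈ Finset.univ.filter (fun f : Loc n w → ZMod 3 =>
      Cz ρ B n w f ∧ ∀ j ≤ m, decide (j % 2 = 0) = ρ → f (tp n w j) = d j),
      ψ (fun j => f (bo n w j))

/-- the exponent of `√3` of `m` concentric circles -/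
def gm (ρ : Bool) (m : ℕ) : ℤ := if m % 2 = 0 then 0 else if ρ = true then 1 else -1

/-- the number of the gaps of parity `ρ` strictly between `0` and `m` -/
def fr (ρ : Bool) (m : ℕ) : ℕ :=
  ((Finset.range m).filter fun g => 0 < g ∧ decide (g % 2 = 0) = ρ).card

/-- [PS3] the value of the pole inside of `m` concentric circles.
PROOF. `caps (m + 1) = pN m :: caps m`, `cups (m + 1) = cups m ++ [pU m]` (compare `TWC/HPS.lean`). Let `Q m ψ c = [c 0 = 0 if ρ] ψ c` (no condition at `m`). For `M.Supp (2 m) ψ` or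
any support `≥ m`: `s = -1`: `cap_m (PG (m+1) (cup_m ψ)) = √3^(± 1) PG m ψ`, `+` iff `par m = ρ`: for `par m = ρ`: `[c 0] √3 [c' (m+2) = c' m] ψ (dl3 m c')`, `c' = tws (-1) (m+1) (ins3 m 0 c)`,
`c' m = - c m` (`m > 0`), `c' (m + 2) = c m`, so the condition is `c m = 0` (for `m = 0` it is contained in `[c 0]`); for `par m ≠ ρ`: the condition at `m + 1` picks `b = 0`:
`√3⁻¹ [c 0] ψ (dl3 m c')`, the entry `m` has the wrong parity. So `Psi (m + 1) = √3^(± 1) Psi m`, `Psi 0 = 1` at the row `0`, and the signs alternate: `gm`. `s = 1`: `par m ≠ ρ`: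
`cap_m (PG (m+1) (cup_m ψ)) = √3⁻¹ PG m ψ`; `par m = ρ`: `= √3 Q ψ`; and `cap_m (Q (cup_m ψ)) = √3 Q ψ` for all `m`, so `Psi (m+1) = √3 ^ (m + 1)` for `par m = ρ` (value at the row `0`)
and `Psi (m + 1) = √3⁻¹ Psi m` for `par m ≠ ρ`. Compare with `gm ρ m + 2 fr ρ m`: it is `m` if `m ≥ 1`, `par (m - 1) = ρ` (check both parities of `m`), and for
`par m ≠ ρ` `fr ρ (m + 1) = fr ρ m`, `gm ρ (m + 1) = gm ρ m - 1`. -/
def St_PS3 : Prop := ∀ (ρ : Bool) (M : Model ℝ (Cg → ℝ)), CM ρ M → ∀ m : ℕ,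
  Psi M (PG ρ (-1)) m (fun _ => 0) = Real.sqrt 3 ^ gm ρ m ∧
  Psi M (PG ρ 1) m (fun _ => 0) = Real.sqrt 3 ^ (gm ρ m + 2 * fr ρ m)

/-! ### solutions -/

/-- the number of strands above a word on `n` strands -/
def wd : ℕ → Word → ℕ
  | n, [] => n
  | n, s :: w => wd (n - s.k.inn + s.k.out) w

/-- pairs of colourings of the local regions below and above the arc -/
abbrev Lv (u v : Word) : Type := (Loc 0 u → ZMod 3) × (Loc (wd 0 u) v → ZMod 3)

/-- colourings of the regions of parity `ρ`, with the monodromy `s` along the arc, zero at both ends of the arc -/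
def Base (ρ : Bool) (s : ZMod 3) (u v : Word) (w : ℕ) : Submodule (ZMod 3) (Lv u v) where
  carrier := {p | ((∀ x, pa 0 u x ≠ ρ → p.1 x = 0) ∧ (∀ x, pa (wd 0 u) v x ≠ ρ → p.2 x = 0)) ∧
    ((∀ x y, R0 0 u x y → p.1 x = p.1 y) ∧ (∀ x y, R0 (wd 0 u) v x y → p.2 x = p.2 y)) ∧
    (∀ j ≤ wd 0 u, p.2 (bo (wd 0 u) v j) = (if 0 < j ∧ j < w then s else 1) * p.1 (tp 0 u j)) ∧
    p.1 (tp 0 u 0) = 0 ∧ p.1 (tp 0 u w) = 0}
  add_mem' := by
    rintro p q ⟨⟨a1, a2⟩, ⟨a3, a4⟩, a5, a6, a7⟩ ⟨⟨b1, b2⟩, ⟨b3, b4⟩, b5, b6, b7⟩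
    refine ⟨⟨fun x hx => ?_, fun x hx => ?_⟩, ⟨fun x y h => ?_, fun x y h => ?_⟩, fun j hj => ?_, ?_, ?_⟩
    · show p.1 x + q.1 x = 0
      rw [a1 x hx, b1 x hx, add_zero]
    · show p.2 x + q.2 x = 0
      rw [a2 x hx, b2 x hx, add_zero]
    · show p.1 x + q.1 x = p.1 y + q.1 y
      rw [a3 x y h, b3 x y h]
    · show p.2 x + q.2 x = p.2 y + q.2 y
      rw [a4 x y h, b4 x y h]
    · show p.2 _ + q.2 _ = _ * (p.1 _ + q.1 _)
      rw [a5 j hj, b5 j hj, mul_add]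
    · show p.1 _ + q.1 _ = 0
      rw [a6, b6, add_zero]
    · show p.1 _ + q.1 _ = 0
      rw [a7, b7, add_zero]
  zero_mem' := by
    refine ⟨⟨fun x _ => rfl, fun x _ => rfl⟩, ⟨fun x y _ => rfl, fun x y _ => rfl⟩, fun j _ => ?_, rfl,
      rfl⟩
    show (0 : ZMod 3) = _ * 0
    rw [mul_zero]
  smul_mem' := by
    rintro c p ⟨⟨a1, a2⟩, ⟨a3, a4⟩, a5, a6, a7⟩
    refine ⟨⟨fun x hx => ?_, fun x hx => ?_⟩, ⟨fun x y h => ?_, fun x y h => ?_⟩, fun j hj => ?_, ?_, ?_⟩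
    · show c * p.1 x = 0
      rw [a1 x hx, mul_zero]
    · show c * p.2 x = 0
      rw [a2 x hx, mul_zero]
    · show c * p.1 x = c * p.1 y
      rw [a3 x y h]
    · show c * p.2 x = c * p.2 y
      rw [a4 x y h]
    · show c * p.2 _ = _ * (c * p.1 _)
      rw [a5 j hj]
      ring
    · show c * p.1 _ = 0
      rw [a6, mul_zero]
    · show c * p.1 _ = 0
      rw [a7, mul_zero]

/-- the difference of the colours of the two regions of parity `ρ` at the crossing `k` -/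
def Lk (ρ : Bool) (u v : Word) (k : ℕ) : Lv u v →ₗ[ZMod 3] ZMod 3 where
  toFun p := if h : k < nX u then p.1 (ed ρ 0 u ⟨k, h⟩).1 - p.1 (ed ρ 0 u ⟨k, h⟩).2
    else if h : k - nX u < nX v then
      p.2 (ed ρ (wd 0 u) v ⟨k - nX u, h⟩).1 - p.2 (ed ρ (wd 0 u) v ⟨k - nX u, h⟩).2
    else 0
  map_add' p q := by
    split_ifs with h h
    · show p.1 _ + q.1 _ - (p.1 _ + q.1 _) = _
      ring
    · show p.2 _ + q.2 _ - (p.2 _ + q.2 _) = _
      ring
    · rw [add_zero]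
  map_smul' c p := by
    split_ifs with h h
    · show c * p.1 _ - c * p.1 _ = c * _
      ring
    · show c * p.2 _ - c * p.2 _ = c * _
      ring
    · rw [smul_zero]

/-- the solutions: the regions of parity `ρ` at the crossings in `S` are joined -/
noncomputable def Sol (ρ : Bool) (s : ZMod 3) (u v : Word) (w : ℕ)
    (S : Finset (Fin (nX (u ++ v)))) : Submodule (ZMod 3) (Lv u v) :=
  Base ρ s u v w ⊓ ⨅ k, ⨅ _ : k ∈ S, LinearMap.ker (Lk ρ u v (k : ℕ))

/-- [CNT] PROOF (from CMD, TR3). `n = wd 0 u`, `φ = runC M (jo B u) init` (`Supp n`), `PG ρ s w φ` (`Supp n` by the pole). [TR3] for `v` and the top row `d = 0` on `0` strands: the sum over `g`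
with `Cz`, `g (tp 0) = 0` if `ρ = true`, of `PG ρ s w φ (row g)`, row `g = fun j => g (bo n v j)`. This is zero unless `g (bo 0) = 0` and `g (bo w) = 0` (if of parity `ρ`; otherwise these values are
zero anyway), and then `g (tp 0) = 0` is automatic (the gap `0` touches the gap `0` above, induction on `v`); it is `φ (tws s w (row g))`. [TR3] for `u`, `ψ = 1`: `√3 ^ gam ρ B u` times the number of `f` with
`Cz` and top row `tws s w (row g)` at the entries of parity `ρ` (at the others all is zero), i.e. `f (tp j) = (s or 1) g (bo j)`, equivalently `g (bo j) = (s or 1) f (tp j)` (`s * s = 1`). So the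
pairs `(f, g)` counted are exactly the elements of `Sol ρ s u v w S`, `S` the set of the crossings `k` with `B k = ρ`: `nX (u ++ v) = nX u + nX v`, `Lk p = 0` iff the
two values are equal. `gam ρ B (u ++ v) = gam ρ B u + gam ρ (fun k => B (k + nX u)) v` (induction on `u`). The number of elements of the space is `3 ^ finrank`
(`Module.card_eq_pow_finrank`, `ZMod.card`), and `3 = √3 ^ 2`. -/
def St_CNT : Prop := ∀ (ρ : Bool) (M : Model ℝ (Cg → ℝ)), CM ρ M → ∀ (s : ZMod 3), (s = 1 ∨ s = -1) →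
  ∀ (B : ℕ → Bool) (u v : Word) (w : ℕ), Ok u 0 (wd 0 u) → Ok v (wd 0 u) 0 → w ≤ wd 0 u →
  runC M (jo (fun k => B (k + nX u)) v) (PG ρ s w (runC M (jo B u) M.init)) (fun _ => 0) =
    Real.sqrt 3 ^ (gam ρ B (u ++ v) + 2 * (Module.finrank (ZMod 3)
      (Sol ρ s u v w (Finset.univ.filter fun k => B (k : ℕ) = ρ)) : ℤ))

/-- [EQN] the equations.
PROOF (from CMD, PS3, CNT). `Pr` for a colour model `M` and the poles `PG ρ (± 1)`, evaluated at the row `0`: `√3 ^ l` times the value of [PS3] is the value of [CNT] (`M.δ = √3`); compare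
the exponents (`zpow_right_injective₀`, `1 < √3`). -/
def St_EQN : Prop := ∀ (ρ : Bool) (B : ℕ → Bool) (u v : Word) (w l m : ℕ), Ok u 0 (wd 0 u) →
  Ok v (wd 0 u) 0 → w ≤ wd 0 u → Pr B u v w l m →
  (l : ℤ) + gm ρ m = gam ρ B (u ++ v) + 2 * (Module.finrank (ZMod 3)
    (Sol ρ (-1) u v w (Finset.univ.filter fun k => B (k : ℕ) = ρ)) : ℤ) ∧
  (l : ℤ) + gm ρ m + 2 * fr ρ m = gam ρ B (u ++ v) + 2 * (Module.finrank (ZMod 3)
    (Sol ρ 1 u v w (Finset.univ.filter fun k => B (k : ℕ) = ρ)) : ℤ)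

/-- [GAM] PROOF. (1) Induction on `w`: a crossing with `B 0 = ρ` contributes one more than a crossing with `B 0 = !ρ` (`par i = ρ`: `1` and `0`; `par i ≠ ρ`: `0` and `-1`). So
`gam ρ B w = gam ρ (fun _ => !ρ) w + (number of k : Fin (nX w) with B k = ρ)` (`Fin.univ_succ`, or a recursion for the number). (2) Induction on `w`: `U` contributes `1` to the sum,
`N` contributes `-1`, a crossing `0`. -/
def St_GAM : Prop :=
  (∀ (ρ : Bool) (w : Word) (B : ℕ → Bool), gam ρ B w = gam ρ (fun _ => !ρ) w +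
    ((Finset.univ.filter fun k : Fin (nX w) => B (k : ℕ) = ρ).card : ℤ)) ∧
  ∀ (w : Word) (B : ℕ → Bool) (n m : ℕ), Ok w n m →
    2 * (gam true B w + gam false B w) = (m : ℤ) - n

/-! ### words `u ++ v` -/

/-- the local regions of `u` in `u ++ v` -/
def iu : (n : ℕ) → (u v : Word) → Loc n u → Loc n (u ++ v)
  | n, [], v, x => bo n v (show Fin (n + 1) from x).val
  | n, s :: u, v, x => Sum.elim
      (fun j : Fin (n + 1) => (Sum.inl j : Fin (n + 1) ⊕ Loc (n - s.k.inn + s.k.out) (u ++ v)))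
      (fun y => Sum.inr (iu (n - s.k.inn + s.k.out) u v y))
      (show Fin (n + 1) ⊕ Loc (n - s.k.inn + s.k.out) u from x)

/-- the local regions of `v` in `u ++ v` -/
def iv : (n : ℕ) → (u v : Word) → Loc (wd n u) v → Loc n (u ++ v)
  | _, [], _, y => y
  | n, s :: u, v, y =>
      (Sum.inr (iv (n - s.k.inn + s.k.out) u v y) : Fin (n + 1) ⊕ Loc (n - s.k.inn + s.k.out) (u ++ v))

/-- [EMB] PROOF. Each by induction on `u` for all `n`. (1) `iu n [] v (Fin.ofNat (n+1) j) = bo n v (j mod (n+1)) = bo n v j`. (2) also `iu (bo n u j) = bo n (u ++ v) j`. (4), (5) `R0 n (s :: u ++ v) x y`: first case: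
`x = inl j`, `y = inr (bo n' (u ++ v) j') = inr (iu (bo n' u j'))`: a pair of `u`; second case: induction. (6) `k = 0` at a crossing: `ed` consists of `inl` gaps and
`inr (bo _ (u ++ v) (i + 1)) = inr (iu (bo _ u (i + 1)))`. (7) `f`, `g` glue: induction: `u = []`: `F = g` (every `x : Loc n []` is `Fin.ofNat x` with `x ≤ n`, so `g (iu x) = g (bo n v x) = f x`); `s :: u`: `F (inl j) =
f (inl j)`, `F (inr y) = F' y`. -/
def St_EMB : Prop :=
  (∀ (u v : Word) (n j : ℕ), iu n u v (tp n u j) = md n u v j ∧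
    iv n u v (bo (wd n u) v j) = md n u v j) ∧
  (∀ (u v : Word) (n j : ℕ), iu n u v (bo n u j) = bo n (u ++ v) j) ∧
  (∀ (u v : Word) (n : ℕ), (∀ x, pa n (u ++ v) (iu n u v x) = pa n u x) ∧
    ∀ y, pa n (u ++ v) (iv n u v y) = pa (wd n u) v y) ∧
  (∀ (u v : Word) (n : ℕ) (x y : Loc n (u ++ v)), R0 n (u ++ v) x y →
    (∃ x' y', R0 n u x' y' ∧ x = iu n u v x' ∧ y = iu n u v y') ∨
    ∃ x' y', R0 (wd n u) v x' y' ∧ x = iv n u v x' ∧ y = iv n u v y') ∧
  (∀ (u v : Word) (n : ℕ), (∀ x y, R0 n u x y → R0 n (u ++ v) (iu n u v x) (iu n u v y)) ∧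
    ∀ x y, R0 (wd n u) v x y → R0 n (u ++ v) (iv n u v x) (iv n u v y)) ∧
  (∀ (ρ : Bool) (u v : Word) (n : ℕ) (k : Fin (nX (u ++ v))),
    (∀ h : (k : ℕ) < nX u, ed ρ n (u ++ v) k =
      (iu n u v (ed ρ n u ⟨k, h⟩).1, iu n u v (ed ρ n u ⟨k, h⟩).2)) ∧
    ∀ h : (k : ℕ) - nX u < nX v, nX u ≤ (k : ℕ) → ed ρ n (u ++ v) k =
      (iv n u v (ed ρ (wd n u) v ⟨(k : ℕ) - nX u, h⟩).1,
        iv n u v (ed ρ (wd n u) v ⟨(k : ℕ) - nX u, h⟩).2)) ∧
  (∀ (u v : Word) (n : ℕ) (α : Type) (f : Loc n u → α) (g : Loc (wd n u) v → α),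
    (∀ j ≤ wd n u, g (bo (wd n u) v j) = f (tp n u j)) →
    ∃ F : Loc n (u ++ v) → α, (∀ x, F (iu n u v x) = f x) ∧ ∀ y, F (iv n u v y) = g y) ∧
  ∀ u v : Word, nX (u ++ v) = nX u + nX v

/-- [VAN] joined everywhere and zero somewhere: zero.
PROOF (from EMB). `p ∈ Sol`, `f = p.1 ^ 2`, `g = p.2 ^ 2` (pointwise) satisfy `g (bo j) = f (tp j)` (`s ^ 2 = 1`); `F` from [EMB] (7) is equal on touching pairs ((4)) and at the ends of all crossings of parity `ρ` ((6),
`Lk p = 0`). `Con`: `F` is constant on the regions of parity `ρ`. If `ρ = true`: `F (md 0) = f (tp 0) = 0` and `pa (md 0) = true`; if `par w = ρ`: `F (md w) = 0`. So `F = 0` on parity `ρ`, `p.1 x ^ 2 = 0`, `p.1 x = 0`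
for `pa x = ρ`, and for the others by `Base`; the same for `p.2`. -/
def St_VAN : Prop := ∀ (ρ : Bool) (s : ZMod 3) (u v : Word) (w : ℕ), (s = 1 ∨ s = -1) →
  Ok u 0 (wd 0 u) → Ok v (wd 0 u) 0 → w ≤ wd 0 u → (ρ = true ∨ decide (w % 2 = 0) = ρ) →
  Con (u ++ v) → Module.finrank (ZMod 3) (Sol ρ s u v w Finset.univ) = 0

/-- [ONE] PROOF (from EMB). As [VAN] with `p.1`, `p.2` themselves (`s = 1`): `F` is constant on the regions of parity `ρ`. So `p ↦ F x₀` for a fixed `x₀` of parity `ρ` (if there is one; otherwise all is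
zero) is injective and linear: `finrank ≤ 1` (`LinearMap.finrank_le_finrank_of_injective`). (In terms of `p`: every `x₀ : Loc 0 (u ++ v)` is `iu x` or `iv y`.) -/
def St_ONE : Prop := ∀ (ρ : Bool) (u v : Word) (w : ℕ), Ok u 0 (wd 0 u) → Ok v (wd 0 u) 0 →
  w ≤ wd 0 u → Con (u ++ v) → Module.finrank (ZMod 3) (Sol ρ 1 u v w Finset.univ) ≤ 1

/-- [LOO] no crossing is a loop.
PROOF (from EMB). `x`, `y` the two ends of `ed ρ k`, both of parity `ρ` (`pa_ed`), `F = md 0`, `F' = md w`. By the hypotheses one of `x`, `y`, say `x`, is neither in the region of `F` nor in the region of `F'`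
(`x ~ F`, `y ~ F` gives `x ~ y`, ...). `G z = 1` if `gs x z`, else `0`; `p = (G ∘ iu, G ∘ iv)`: in `Base ρ 1`: parity by `pa_gs`; touching pairs by [EMB] (5); the row in the middle by (1); zero at `F`, `F'`.
`Lk p = G x - G y = 1` ([EMB] (6)), or `-1`. -/
def St_LOO : Prop := ∀ (ρ : Bool) (u v : Word) (w : ℕ), Ok u 0 (wd 0 u) → Ok v (wd 0 u) 0 →
  w ≤ wd 0 u → ∀ k : Fin (nX (u ++ v)),
  ¬ gs 0 (u ++ v) (ed ρ 0 (u ++ v) k).1 (ed ρ 0 (u ++ v) k).2 →
  ¬ (gs 0 (u ++ v) (md 0 u v 0) (ed ρ 0 (u ++ v) k).1 ∧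
    gs 0 (u ++ v) (md 0 u v w) (ed ρ 0 (u ++ v) k).2) →
  ¬ (gs 0 (u ++ v) (md 0 u v 0) (ed ρ 0 (u ++ v) k).2 ∧
    gs 0 (u ++ v) (md 0 u v w) (ed ρ 0 (u ++ v) k).1) →
  ∃ p ∈ Base ρ 1 u v w, Lk ρ u v (k : ℕ) p ≠ 0

/-- the properties of `l`, `m` used in [COE] -/
def Mtr (N w n₀ m₀ : ℕ) (l m rk : Finset (Fin N) → ℕ) : Prop :=
  (∀ S, m S % 2 = w % 2) ∧ m₀ ≤ 2 ∧ m₀ % 2 = w % 2 ∧ m ∅ = m₀ ∧
  (∀ S, l S + 2 * rk S = n₀ + S.card) ∧ (∀ S, rk S = 0 ↔ S = ∅) ∧
  (∀ S, rk S = 1 → m S = m₀ ∨ (m₀ = 2 ∧ m S = 0)) ∧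
  ∑ S ∈ Finset.univ.filter (fun S => rk S = 1), (-1 : ℤ) ^ S.card ≤
    -(n₀ : ℤ) - (if m₀ = 0 then 0 else 1)

/-- [MTR] the result of part B.
PROOF (from EQN, GAM, VAN, ONE, LOO, RKF, LIN, MNU, MHT, PAR, HGT, NFF). `n = wd 0 u` (`Ok.det`). `D = u ++ v`. Write `d S = finrank Sol r (-1) S`, `d⁺ S = finrank Sol r 1 S`, `B = st r S`: `{k | B k = r} = S`, `{k | B k = !r} = Sᶜ`.
(1) `m S ≡ w` mod 2 (PAR + MHT). So `gm ρ (m S) = gm ρ (m ∅)`.
(2) `rk S = d ∅ - d S`, `rk' S = d⁺ ∅ - d⁺ S` are rank functions (RKF with `L k = Lk r u v k`). EQN and GAM (1): `l S = l ∅ + |S| - 2 rk S`; `n₀ = l ∅`. EQN (second minus first): `fr r (m S) = d⁺ S - d S`.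
(3) EQN for `B = st r ∅` and `ρ = r`, `ρ = !r`, GAM (2): `2 l ∅ = 2 d ∅ + 2 d'`, `d' = finrank Sol (!r) (-1) univ`. CLAIM `d' = 0`: if `r = false` or `w` is odd: VAN for `!r` (`!r = true`, or `par w = false` and one of the two
parities is `true`: for `r = true`, `w` odd: `par w = false = !r`). If `r = true`, `w` even: `m ∅ = 2` (MNU), `fr false 2 = 1`, EQN for `!r`: `finrank Sol false 1 univ = d' + 1`, and `≤ 1` by ONE. So `n₀ = d ∅`.
(4) `d univ = 0`: VAN for `r` if `r = true` or `par w = r`; the remaining case is `r = false`, `w` even: the state `st r univ` is on all crossings equal to the state `st true ∅`, so `Pr (st true ∅) u v w (l univ) (m univ)`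
(`jo` depends only on the values at the crossings, `ALT.thm_JO` (2)), `m univ = m0 true w = 2` by MNU, `fr false 2 = 1`, so `d⁺ univ = d univ + 1 ≤ 1` by ONE. So `rk univ = n₀`.
(5) `m ∅ = m0 r w =: m₀` (MNU). `fr r m₀ = 0` in all cases (`m₀ = 2`: `r = true`, no even number strictly between 0 and 2). So `d⁺ ∅ = d ∅`, `rk S - rk' S = fr r (m S) ≥ 0`.
(6) `rk' {k} = 1` (LOO with NFF and the hypothesis `hR`, RKF), so `rk {k} = 1` (`one`, `emp`). So `rk S = 0` iff `S = ∅` (`mono`).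
(7) `rk S = 1`: `S ≠ ∅`, `rk' S ≥ 1`, `fr r (m S) = 0`: for `m S ≥ 3` both parities occur strictly between `0` and `m S`, so `m S ≤ 2`; `w` odd: `m S = 1 = m₀`; `w` even: `m S ∈ {0, 2}`, for `r = true`, `m₀ = 2`: fine; for `r = false`
`m S = 2` is excluded by `fr false 2 = 1`: `m S = 0 = m₀`.
(8) `m₀ = 0`: LIN with `r' = r = rk`, `S = ∅`: the sum is `≤ -rk univ = -n₀`. `m₀ ≠ 0`: `r = true` or `w` odd: VAN for `s = 1`: `d⁺ univ = 0` (`r = true`, or `r = false`, `w` odd: `par w = r`), so `rk' univ = d⁺ ∅ = n₀`. HGT for `r`: `S₀`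
and a height function with the difference `4` or `3`, MHT: `m S₀ ≥ 3`, and `≥ 4` if `w` is even; `fr r (m S₀) ≥ 1` (`2 < 4` for `r = true`, `w` even; for `w` odd both parities occur strictly between `0` and `3`). LIN for `rk`, `rk'`, `S₀`
(`rk' {e, e'} ≤ rk {e, e'}` by (5)): the sum is `≤ rk' S₀ - rk S₀ - n₀ ≤ -1 - n₀`. -/
def St_MTR : Prop := ∀ (r : Bool) (u v : Word) (n w : ℕ), Ok u 0 n → Ok v n 0 → w ≤ n →
  (∀ k : Fin (nX (u ++ v)), ¬ gs 0 (u ++ v) (ed r 0 (u ++ v) k).1 (ed r 0 (u ++ v) k).2) →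
  Far u v w → Con (u ++ v) → ∀ l m : Finset (Fin (nX (u ++ v))) → ℕ,
  (∀ S, Pr (st r S) u v w (l S) (m S)) →
  ∃ (n₀ : ℕ) (rk : Finset (Fin (nX (u ++ v))) → ℕ), Mtr (nX (u ++ v)) w n₀ (m0 r w) l m rk

end Pool.TWC
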