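import Pool.Agent.TWC.StA

/-!
# TWC: statements, part C (the geometric bridge)

`Same`, `Pass` are from `TWI/Defs.lean`, `Arc`, `Reduced`, `str` from `TWC/Defs.lean`; `F = md 0 u v 0` and `F' = md 0 u v w` are the
local regions of the two ends of the arc.
-/

set_option autoImplicit false

namespace Pool.TWC

open LaurentPolynomial Pool.Agent.ARB Pool.Agent.Helper2 Pool.ALT
open Pool.TWI (Same)

/-- height and number of a local region -/
def pos : (n : ℕ) → (w : Word) → Loc n w → ℕ × ℕ
  | _, [], x => (0, (show Fin _ from x).val)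
  | n, s :: w, x => Sum.elim (fun j : Fin (n + 1) => (0, j.val))
      (fun y : Loc (n - s.k.inn + s.k.out) w => ((pos (n - s.k.inn + s.k.out) w y).1 + 1,
        (pos (n - s.k.inn + s.k.out) w y).2)) (show Fin (n + 1) ⊕ Loc (n - s.k.inn + s.k.out) w from x)

/-- number of strands above the first `l` pieces of a word on `n` strands (`str D l = strn 0 D l` by `rfl`) -/
def strn (n : ℕ) (w : Word) (l : ℕ) : ℕ := (w.take l).foldl (fun n s => n - s.k.inn + s.k.out) n

/-- [POS] PROOF. Induction on `w` resp. `u`. `Same w (l, i) (l', i')` gives `Same (s :: w) (l + 1, i) (l' + 1, i')` (map of the generating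
relation, `List.getElem?_cons_succ`). `pos` of `bo n w j` is `(0, j)` for `j ≤ n` (`Fin.ofNat`). (1) first case of `R0`: `x = inl j`, `y = inr (bo n' w j')`,
`gl s j j'`: positions `(0, j)`, `(1, j')`, and `gl s j j'` implies `Pass s j j'` (`Pass.left` for `j = j' ≤ s.i`; `Pass.right` with `i = j - s.i - s.k.inn`
otherwise: for `U`: `j' = j + 2`, for `N`: `j = j' + 2`, for `X`: `j = j' ≥ s.i + 2`); `(s :: w)[0]? = some s`. (2) the crossing `0` of `pX i p :: w` is at
`l = 0`; (the entries are `≤ n` by `Ok`). (3), (4) clear. -/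
def St_POS : Prop :=
  (∀ (w : Word) (n m : ℕ) (x y : Loc n w), Ok w n m → R0 n w x y → Same w (pos n w x) (pos n w y)) ∧
  (∀ (w : Word) (n m : ℕ) (k : Fin (nX w)), Ok w n m → ∃ (l i : ℕ) (p : Bool),
    w[l]? = some (pX i p) ∧ i + 2 ≤ strn n w l ∧ ∀ r : Bool,
      if decide (i % 2 = 0) = r then
        pos n w (ed r n w k).1 = (l, i) ∧ pos n w (ed r n w k).2 = (l, i + 2)
      else pos n w (ed r n w k).1 = (l, i + 1) ∧ pos n w (ed r n w k).2 = (l + 1, i + 1)) ∧
  (∀ (u v : Word) (n m j : ℕ), Ok u n m → j ≤ m → pos n (u ++ v) (md n u v j) = (u.length, j)) ∧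
  ∀ (w : Word) (n m : ℕ) (x y : Loc n w), Ok w n m → Rt n w x y → ∃ l i : ℕ, l ≤ w.length ∧
    i < strn n w l ∧ pos n w x = (l, i) ∧ pos n w y = (l, i + 1)

/-- [NBR] at a crossing the two regions of one parity are neighbours of the two regions of the other parity: each end `x` of
`ed true k` and each end `y` of `ed false k` touch (are equal up to `gs`) local regions which are neighbours.
PROOF. Induction on `w`. `pX i p :: w`, `k = 0`: the ends are the gaps `i`, `i + 2` below (which touch the gaps `i`, `i + 2` above, `gl`), and the gap `i + 1`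
below, the gap `i + 1` above. Pairs below: `Rt` in the lowest row; with the upper gap `i + 1`: use the touching gaps `i`, `i + 2` above. For `i` odd
the same with `true`, `false` exchanged. For `k + 1` and the other pieces: `Sum.inr` of the statement for `w` (`gs` and `Ad` of `w` map to
those of `s :: w`). -/
def St_NBR : Prop := ∀ (w : Word) (n m : ℕ) (k : Fin (nX w)), Ok w n m →
  ∀ x y : Loc n w, (x = (ed true n w k).1 ∨ x = (ed true n w k).2) →
    (y = (ed false n w k).1 ∨ y = (ed false n w k).2) →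
    ∃ x' y' : Loc n w, gs n w x x' ∧ gs n w y y' ∧ Ad n w x' y'

/-- [RED] PROOF (from POS). `gs 0 D x y → Same D (pos x) (pos y)` (`Same` is an equivalence relation, `iSup_le`, `pr_le_iff`); then (2). -/
def St_RED : Prop := ∀ D : Word, Ok D 0 0 → Reduced D → ∀ (r : Bool) (k : Fin (nX D)),
  ¬ gs 0 D (ed r 0 D k).1 (ed r 0 D k).2

/-- the two ends of the arc are far apart -/
def Far (u v : Word) (w : ℕ) : Prop := ∀ j ≤ 2, ¬ Arc (u ++ v) j (u.length, 0) (u.length, w)

/-- [NFF] PROOF (from POS, NBR). `F`, `F'` have the positions `(|u|, 0)`, `(|u|, w)`. `gs x y` and `Arc D j F (pos x)` give `Arc D j F (pos y)` (`Same` composes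
with the last `Same` of the arc), `Ad x y` and `Arc D j F (pos x)` give `Arc D (j + 1) F (pos y)`. (1) `gs F F'` is `Arc 0`. (2) if `F`, `F'` are the two
ends of `ed r k` (up to `gs`) then by [NBR] both are neighbours of `(ed (!r) k).1`: `Arc 2`. (3) `Arc 1`. -/
def St_NFF : Prop := ∀ (u v : Word) (n w : ℕ), Ok u 0 n → Ok v n 0 → w ≤ n → Far u v w →
  ¬ gs 0 (u ++ v) (md 0 u v 0) (md 0 u v w) ∧
  (∀ (r : Bool) (k : Fin (nX (u ++ v))),
    ¬ (gs 0 (u ++ v) (md 0 u v 0) (ed r 0 (u ++ v) k).1 ∧
      gs 0 (u ++ v) (md 0 u v w) (ed r 0 (u ++ v) k).2) ∧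
    ¬ (gs 0 (u ++ v) (md 0 u v 0) (ed r 0 (u ++ v) k).2 ∧
      gs 0 (u ++ v) (md 0 u v w) (ed r 0 (u ++ v) k).1)) ∧
  ∀ x y, gs 0 (u ++ v) (md 0 u v 0) x → Ad 0 (u ++ v) x y → ¬ gs 0 (u ++ v) y (md 0 u v w)

/-- [HGT] a state with a height function which is far from constant.
PROOF (from POS, NBR). `A_j x :⟺ Arc D j (|u|, 0) (pos x)`. `f x = 0` if `pa x = true` and `A_0 x`; `2` if `pa x = true`, `¬ A_0 x`, `A_2 x`; `4` if
`pa x = true`, `¬ A_0 x`, `¬ A_2 x`; `1` if `pa x = false`, `A_1 x`; `3` if `pa x = false`, `¬ A_1 x`. `A_j` is invariant under `R0`, so `f` is constant on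
touching pairs (`pa_R0`). Neighbours `x`, `y` have different `pa`; `A_j x → A_(j+1) y`: for `pa x = true`: `f x = 0 → f y = 1`; `f x = 2`: `f y = 1` or `3`;
`f x = 4`: `A_1 y` would give `A_2 x`, so `f y = 3`. At a crossing `k` with `f` different at the ends of `ed r k`: by [NBR] both ends of `ed (!r) k` have
heights near to both, the ends of `ed r k` differ by 2 (they are near to a common value and different), so both ends of `ed (!r) k` have the middle
value. `S = {k | f equal at the ends of ed r k}`. `f F = 0` (`A_0`), `f F'`: `w` even: not `A_0`, not `A_2`: `4`; odd: not `A_1`: `3`. -/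
def St_HGT : Prop := ∀ (r : Bool) (u v : Word) (n w : ℕ), Ok u 0 n → Ok v n 0 → w ≤ n → Far u v w →
  ∃ (S : Finset (Fin (nX (u ++ v)))) (f : Loc 0 (u ++ v) → ℤ), Hv (st r S) 0 (u ++ v) f ∧
    f (md 0 u v w) - f (md 0 u v 0) = if w % 2 = 0 then 4 else 3

/-- connectedness: all regions of one parity are joined by the crossings -/
def Con (D : Word) : Prop := ∀ (r : Bool) (α : Type) (f : Loc 0 D → α),
  (∀ x y, R0 0 D x y → f x = f y) → (∀ k, f (ed r 0 D k).1 = f (ed r 0 D k).2) →
  ∀ x y, pa 0 D x = r → pa 0 D y = r → f x = f y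

/-- [CON] a state with one circle has two regions.
PROOF. `ALT.thm_RM` (`ALT/Mo/RM.lean`): a model `M₀` with `RMod`; let `M` be `M₀` with `init = fun _ => 1` (`supp` of `RMod`: everything is supported). `Cc M`
from the formulas. The identity is a pole with `Psi m = 2 ^ m • init` (`caps (m + 1) = pN m :: caps m`, `cups (m + 1) = cups m ++ [pU m]`, `rel1`). So `Pr` gives
`runC M (jo B (u ++ v)) init = 2 ^ (l + m) • init = 2 • 1` (`jo B (u ++ v) = jo B u ++ jo (fun k => B (k + nX u)) v`). By `ALT.thm_TR` (needs `thm_TP`, `thm_TC`)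
with `ψ = 1`: for each `d` there are exactly 2 `f` with `Cp B 0 D f` and top value `d 0`, so 4 in total. The four functions `true`, `false`, `pa`,
`!pa` satisfy `Cp` (`pa_R0`, `pa_ed`) and are different (`pa` takes both values: `bo 0 D 0` is even; `D ≠ []` begins with a cup, so there is a gap 1 above
it). So `f` is one of them. -/
def St_CON : Prop := ∀ (B : ℕ → Bool) (u v : Word) (n w l m : ℕ), Ok u 0 n → Ok v n 0 → w ≤ n →
  u ++ v ≠ [] → Pr B u v w l m → l + m = 1 →
  ∀ f : Loc 0 (u ++ v) → Bool, Cp B 0 (u ++ v) f → ∀ x y, pa 0 (u ++ v) x = pa 0 (u ++ v) y →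
    f x = f y

/-- [CN2] PROOF. Given `f` as in `Con` for `r` and `x`, `y` of parity `r`: `g z = decide (pa z = r → f z = f x)` (classical) is constant on touching pairs and equal
at the ends of all `ed r k` and (constant `true`) of all `ed (!r) k` (`pa_ed`), so `Cp B` for every `B`; so `g y = g x = true`. -/
def St_CN2 : Prop := ∀ (D : Word), Ok D 0 0 → (∃ B : ℕ → Bool,
  ∀ f : Loc 0 D → Bool, Cp B 0 D f → ∀ x y, pa 0 D x = pa 0 D y → f x = f y) → Con D

/-- the number of ends of the arc of parity `r` -/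
def m0 (r : Bool) (w : ℕ) : ℕ := (if r = true then 1 else 0) + (if r = decide (w % 2 = 0) then 1 else 0)

/-- [MNU] PROOF (from MHT, PAR, NFF). `D = u ++ v`; `pa F = true`, `pa F' = decide (w % 2 = 0)`; `w ≠ 0`, as `F ≠ F'`. In the state `st r ∅` all crossings join the
regions of parity `!r`. Upper bound: for a height function `f` of this state `f` is constant `= h` on the regions of parity `!r` (`Con`; extend by a constant to
parity `r` first, or apply `Con` directly, it only speaks about parity `!r`). `F` has the neighbour `md 1` (PAR) and `F'` the neighbour `md (w - 1)`, so `|f F - h| ≤ 1`, and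
`= 0` if `F` has parity `!r`; the same for `F'`: `|f F' - f F| ≤ m0`, and `m` is such a difference (MHT). Lower bound: `m0 = 0`: clear. `m0 = 1`: `w` is odd, `m` is
odd (PAR, MHT), so `≥ 1`. `m0 = 2`: `r = true`, `w` even: `f = 0` on parity `!r`, `f x = -1` if `pa x = r` and `gs F x`, `f x = 1` if `pa x = r` and not: a height
function of the state; `f F' - f F = 2` because not `gs F F'` (NFF); so `2 ≤ m`. -/
def St_MNU : Prop := ∀ (r : Bool) (u v : Word) (n w l m : ℕ), Ok u 0 n → Ok v n 0 → w ≤ n →
  Far u v w → Con (u ++ v) → Pr (st r (∅ : Finset (Fin (nX (u ++ v))))) u v w l m → m = m0 r w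

end Pool.TWC
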